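import Pool.Agent.Work.MP_db4788_co.T1

-- merged part: Pool.Agent.Work.MP_db4788_co.Hyp
section
/-
Section 6 of the write-up: HYP.
-/

set_option autoImplicit false
set_option linter.unusedSectionVars false
open Finset

namespace Pool.Agent.PL5

variable {V : Type} [DecidableEq V] {G : SimpleGraph V} [DecidableRel G.Adj]

/-- deficiency of `W` inside `V0` -/
def odef (G : SimpleGraph V) [DecidableRel G.Adj] (V0 W : Finset V) : ℤ :=
  dfc G (fun v => deg G (V0 \ W) v) W

theorem hyp_contra {V0 W' : Finset V} {L : V → Finset ℕ} {m N M : ℕ} (h : MinCex G V0 L m)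
    (hR : Robust G N (N + 1) M) (hm : M + 1 ≤ m) (hW : W' ⊆ V0) (hc : Conn G (V0 \ W'))
    (hN : W'.card ≤ N) (hne : W'.Nonempty)
    (hlt : ∀ T ⊆ W', T.Nonempty →
      100000000 * dfc G (fun v => deg G (V0 \ W') v) T < ((T \ Qset G V0).card : ℤ)) :
    False := by
  classical
  set r : V → ℕ := fun v => deg G (V0 \ W') v with hr
  have hm2 := h.two
  have hA : Apex G W' r (V0 \ W') := ⟨hc, sdiff_disjoint, fun v _ hv => deg_pos.1 hv⟩
  have hC : InClass G W' r := fun T hT => by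
    rcases T.eq_empty_or_nonempty with rfl | hT'
    · simp [dfc_empty]
    · have h1 := hlt T hT hT'
      have h2 : (T \ Qset G V0).card ≤ T.card := card_le_card sdiff_subset
      omega
  by_cases hall : ∀ v ∈ W', InTV G W' r v
  · obtain ⟨v, hv⟩ := hne
    obtain ⟨_, a, ha, b, hb, hva, hvb, hab, rv, ra, rb⟩ := hall v hv
    have d4 : ∀ {v a b : V}, v ∈ W' → a ∈ W' → b ∈ W' → G.Adj v a → G.Adj v b → G.Adj a b →
        r v = 2 → r a = 2 → r b = 2 → deg G V0 v = 4 := by
      intro v a b hv ha hb hva hvb hab rv ra rb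
      have h1 := deg_sdiff_add (G := G) hW v
      have h2 : deg G W' v ≤ ({a, b} : Finset V).card := deg_le (fun u hu hvu => by
        rcases tt hC hv ha hb hva hvb hab rv ra rb (hall u hu) hvu.symm with rfl | rfl <;> simp)
      have h3 : ({a, b} : Finset V).card ≤ deg G W' v := le_deg (fun u hu => by
        simp only [mem_insert, mem_singleton] at hu
        rcases hu with rfl | rfl
        · exact ⟨ha, hva⟩
        · exact ⟨hb, hvb⟩)
      rw [card_pair hab.ne] at h2 h3
      have h4 : deg G (V0 \ W') v = 2 := rv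
      omega
    have mem : ∀ x ∈ W', x ∈ V0 \ (V0 \ W') := fun x hx =>
      mem_sdiff.2 ⟨hW hx, fun hh => (mem_sdiff.1 hh).2 hx⟩
    have hq := qt_of_tri h sdiff_subset hc (mem v hv) (mem a ha) (mem b hb) hva hvb hab rv ra rb
      (d4 hv ha hb hva hvb hab rv ra rb) (d4 ha hv hb hva.symm hab hvb ra rv rb)
      (d4 hb hv ha hvb.symm hab.symm hva rb rv ra)
    have hsub : ({v, a, b} : Finset V) ⊆ W' := by
      intro x hx
      simp only [mem_insert, mem_singleton] at hx
      rcases hx with rfl | rfl | rfl <;> assumption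
    have h1 := hlt {v, a, b} hsub ⟨v, by simp⟩
    have h2 : ({v, a, b} : Finset V) \ Qset G V0 = ∅ :=
      sdiff_eq_empty_iff_subset.2 (fun x hx => mem_Qset.2 ⟨hW (hsub hx), _, hq, hx⟩)
    rw [h2, dfc_tri r hva hab hvb, rv, ra, rb] at h1
    simp at h1
  · push Not at hall
    obtain ⟨u, hu, hun⟩ := hall
    set TV : Finset V := W'.filter (fun v => InTV G W' r v) with hTV
    have mTV : ∀ v, v ∈ TV ↔ InTV G W' r v := fun v => by
      rw [hTV, mem_filter]; exact ⟨fun hh => hh.2, fun hh => ⟨hh.1, hh⟩⟩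
    have hTVW : TV ⊆ W' := filter_subset _ _
    obtain ⟨φ, hφ, hφm⟩ := (h.min ((V0 \ W') ∪ TV)
      (union_subset sdiff_subset (hTVW.trans hW)) (fun e => by
        have : u ∈ (V0 \ W') ∪ TV := by rw [e]; exact hW hu
        rcases mem_union.1 this with h1 | h1
        · exact (mem_sdiff.1 h1).2 hu
        · exact hun ((mTV u).1 h1))).exact
    set L' := rem G (V0 \ W') L φ with hL'
    have key : ∀ v ∈ W', 5 * m ≤ (L' v).card + r v * m + 1 := fun v hv => by
      have h1 := rem_card (G := G) (S := V0 \ W') L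
        (fun w hw => (hφm w (mem_union_left _ hw)).le) v
      have h2 := h.size v (hW hv)
      rw [← hL'] at h1
      have h3 : r v = deg G (V0 \ W') v := rfl
      rw [h3]
      omega
    have hL : Lists W' r (m - 1) L' := fun v hv => by
      have h1 := key v hv
      have h2 := hC.r_le hv
      obtain ⟨k, rfl⟩ : ∃ k, m = k + 1 := ⟨m - 1, by omega⟩
      rw [Nat.add_sub_cancel]
      rw [mul_add, mul_add] at h1
      omega
    obtain ⟨ψ, v1, v2, v3⟩ := hR W' r _ hA hC hN (m - 1) (by omega) L' hL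
    have hφL : ∀ v ∈ TV, φ v ⊆ L' v := fun v hv c hc' =>
      mem_rem.2 ⟨hφ.1 v (mem_union_right _ hv) hc', fun w hw hvw hcw =>
        disjoint_left.1 (hφ.2 v (mem_union_right _ hv) w (mem_union_left _ hw) hvw) hc' hcw⟩
    have hT : TriSys G TV L' (3 * m - 1) (3 * m) := fun v hv => by
      obtain ⟨hvW, a, ha, b, hb, hva, hvb, hab, rv, ra, rb⟩ := (mTV v).1 hv
      have haT : a ∈ TV := (mTV a).2 ⟨ha, v, hvW, b, hb, hva.symm, hab, hvb, ra, rv, rb⟩
      have hbT : b ∈ TV := (mTV b).2 ⟨hb, v, hvW, a, ha, hvb.symm, hab.symm, hva, rb, rv, ra⟩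
      refine ⟨a, haT, b, hbT, hva, hvb, hab, fun w hw hwv =>
        tt hC hvW ha hb hva hvb hab rv ra rb ((mTV w).1 hw) hwv, ?_, ?_⟩
      · have h1 := key v hvW
        rw [rv] at h1
        omega
      · have d1 := hφ.2 v (mem_union_right _ hv) a (mem_union_right _ haT) hva
        have d2 := hφ.2 v (mem_union_right _ hv) b (mem_union_right _ hbT) hvb
        have d3 := hφ.2 a (mem_union_right _ haT) b (mem_union_right _ hbT) hab
        have c1 : (φ v ∪ φ a ∪ φ b).card = 3 * m := by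
          rw [card_union_of_disjoint (disjoint_union_left.2 ⟨d2, d3⟩), card_union_of_disjoint d1,
            hφm v (mem_union_right _ hv), hφm a (mem_union_right _ haT),
            hφm b (mem_union_right _ hbT)]
          ring
        rw [← c1]
        exact card_le_card (union_subset_union (union_subset_union (hφL v hv) (hφL a haT))
          (hφL b hbT))
    obtain ⟨ψ', w1, w2, w3⟩ := fix_tri (E := 1) (m := m) (fun _ => m) hTVW (by omega) hT v1
      (fun v hv => v2 v (hTVW hv)) (fun v hv => by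
        have h1 := v3 v (mem_sdiff.1 hv).1 (fun hh => (mem_sdiff.1 hv).2 ((mTV v).2 hh))
        have h2 : TV.card ≤ W'.card := card_le_card hTVW
        omega)
    obtain ⟨χ, x1, x2, x3⟩ := glue_rem (S := V0 \ W') (U := W') sdiff_disjoint
      (hφ.mono_set subset_union_left) w1
    rw [sdiff_union_of_subset hW] at x1
    refine h.ncol ⟨χ, x1, fun v hv => ?_⟩
    by_cases hvW : v ∈ W'
    · rw [x3 v hvW]
      by_cases hvT : v ∈ TV
      · exact w2 v hvT
      · exact w3 v (mem_sdiff.2 ⟨hvW, hvT⟩)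
    · rw [x2 v (mem_sdiff.2 ⟨hv, hvW⟩), hφm v (mem_union_left _ (mem_sdiff.2 ⟨hv, hvW⟩))]

theorem hyp {V0 W : Finset V} {L : V → Finset ℕ} {m N M : ℕ} (h : MinCex G V0 L m)
    (hR : Robust G N (N + 1) M) (hm : M + 1 ≤ m) (hW : W ⊆ V0) (hc : Conn G (V0 \ W))
    (hN : W.card ≤ N) : ((W \ Qset G V0).card : ℤ) ≤ 100000000 * odef G V0 W := by
  classical
  set r : V → ℕ := fun v => deg G (V0 \ W) v with hr
  set g : Finset V → ℤ := fun T => 100000000 * dfc G r T - ((T \ Qset G V0).card : ℤ) with hg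
  obtain ⟨S0, hS0, hmax0⟩ := exists_max_image W.powerset g ⟨∅, empty_mem_powerset _⟩
  obtain ⟨S, hS, hmax⟩ := exists_max_image (W.powerset.filter (fun T => g T = g S0))
    Finset.card ⟨S0, mem_filter.2 ⟨hS0, rfl⟩⟩
  obtain ⟨hSW, hSg⟩ := mem_filter.1 hS
  rw [mem_powerset] at hSW
  have hle : ∀ T ⊆ W, g T ≤ g S := fun T hT => by
    rw [hSg]; exact hmax0 T (mem_powerset.2 hT)
  have hA : Apex G W r (V0 \ W) := ⟨hc, sdiff_disjoint, fun v _ hv => deg_pos.1 hv⟩
  have hatt : att G r S = S := by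
    by_contra hne
    have h1 := dfc_att h.mf r hne
    have h2 := hle (att G r S) ((att_subset (G := G) r S).trans hSW)
    have h3 : (att G r S \ Qset G V0).card ≤ (S \ Qset G V0).card :=
      card_le_card (sdiff_subset_sdiff (att_subset (G := G) r S) subset_rfl)
    simp only [hg] at h2
    omega
  have hAt : Attached G r S := by rw [← hatt]; exact attached_att r S
  by_cases hSe : S = W
  · have h1 := hle ∅ (empty_subset _)
    simp only [hg, dfc_empty, empty_sdiff, card_empty, hSe] at h1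
    unfold odef
    rw [← hr]
    omega
  · exfalso
    have e : V0 \ (W \ S) = (V0 \ W) ∪ S := by
      ext x
      simp only [mem_sdiff, mem_union]
      constructor
      · rintro ⟨h1, h2⟩
        by_cases hx : x ∈ S
        · exact Or.inr hx
        · exact Or.inl ⟨h1, fun hh => h2 ⟨hh, hx⟩⟩
      · rintro (⟨h1, h2⟩ | h1)
        · exact ⟨h1, fun hh => h2 hh.1⟩
        · exact ⟨hW (hSW h1), fun hh => hh.2 h1⟩
    refine hyp_contra h hR hm (W' := W \ S) (sdiff_subset.trans hW)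
      (by rw [e]; exact hA.conn_union hSW hAt)
      ((card_le_card sdiff_subset).trans hN)
      (sdiff_nonempty.2 (fun hh => hSe (Subset.antisymm hSW hh))) (fun T hT hTn => ?_)
    have hd : Disjoint S T := disjoint_sdiff.mono_right hT
    have hsub : S ∪ T ⊆ W := union_subset hSW (hT.trans sdiff_subset)
    have h1 := hle _ hsub
    have h2 : g (S ∪ T) ≠ g S := fun hh => by
      have := hmax (S ∪ T) (mem_filter.2 ⟨mem_powerset.2 hsub, hh.trans hSg⟩)
      rw [card_union_of_disjoint hd] at this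
      have := card_pos.2 hTn
      omega
    have h3 : dfc G (fun v => deg G (V0 \ (W \ S)) v) T = dfc G (addDeg G r S) T :=
      dfc_congr (fun v _ => by
        rw [e, deg_union (sdiff_disjoint.mono_right hSW)]; rfl)
    have h4 : ((S ∪ T) \ Qset G V0).card = (S \ Qset G V0).card + (T \ Qset G V0).card := by
      rw [union_sdiff_distrib, card_union_of_disjoint
        (disjoint_of_subset_left sdiff_subset (disjoint_of_subset_right sdiff_subset hd))]
    have h5 := dfc_union (G := G) r hd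
    simp only [hg] at h1 h2
    rw [h3]
    rw [h4, h5] at h1 h2
    push_cast at h1 h2
    omega

end Pool.Agent.PL5
end

-- merged part: Pool.Agent.Work.MP_db4788_co.Iso
section
/-
Section 5 of the write-up: ISO.
-/

set_option autoImplicit false
set_option linter.unusedSectionVars false
open Finset

namespace Pool.Agent.PL5

variable {V : Type} [DecidableEq V] {G : SimpleGraph V} [DecidableRel G.Adj]

namespace IsoAux

lemma add_set {V0 : Finset V} {D : Finset V → ℤ} {a : ℕ}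
    (h : ∀ T ⊆ V0, ∀ v ∈ V0, v ∉ T → D T - a ≤ D (insert v T)) {T : Finset V} (hT : T ⊆ V0)
    (Z : Finset V) (hZ : Z ⊆ V0) (hd : Disjoint Z T) : D T - a * Z.card ≤ D (Z ∪ T) := by
  induction Z using Finset.induction_on with
  | empty => simp
  | insert v Z hv ih =>
    rw [disjoint_insert_left] at hd
    have h1 := ih ((subset_insert _ _).trans hZ) hd.2
    have h2 := h (Z ∪ T) (union_subset ((subset_insert _ _).trans hZ) hT) v
      (hZ (mem_insert_self _ _)) (by simp [hv, hd.1])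
    rw [insert_union, card_insert_of_notMem hv]
    push_cast
    linarith only [h1, h2]

private lemma fill_p1 {a o k : Prop} (a1 : o → a) (a2 : k → a) :
    a ∧ ¬((a ∧ ¬o) ∧ ¬k) ↔ o ∨ k := by tauto

private lemma fill_p2 {a w o : Prop} : a ∧ ¬(w ∧ ¬(a ∧ ¬o)) ↔ a ∧ ¬w ∨ a ∧ ¬o := by tauto

lemma fill {V0 X : Finset V} (hV : Conn G V0) {D : Finset V → ℤ} {A b s t : ℕ} (ht : 0 < t)
    (h0 : D ∅ = 0)
    (hadd : ∀ S ⊆ V0, ∀ T ⊆ V0, Disjoint S T → (∀ u ∈ S, ∀ w ∈ T, ¬ G.Adj u w) →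
      D (S ∪ T) = D S + D T)
    (hup : ∀ T ⊆ V0, ∀ Y ⊆ V0, Disjoint T Y → (∀ u ∈ T, ∀ w ∈ V0, G.Adj u w → w ∈ T ∨ w ∈ Y) →
      D T ≤ b * (Y.card : ℤ) - T.card)
    (hlow : ∀ W ⊆ V0, Conn G (V0 \ W) → W.card ≤ s + (b + 1) * X.card →
      (A : ℤ) * W.card ≤ t * D W) :
    ∀ (n : ℕ) (W : Finset V), W.card = n → W ⊆ V0 → Conn G (V0 \ W) →
      (∀ K ⊆ W \ X, Conn G K → K.card ≤ s) →
      ∃ F ⊆ W, W \ X ⊆ F ∧ (A : ℤ) * F.card ≤ t * D F ∧
        ∀ u ∈ F, ∀ w ∈ V0, w ∉ F → G.Adj u w → u ∉ X := by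
  intro n
  induction n using Nat.strong_induction_on with
  | _ n ih =>
  intro W hn hW hO hs
  rcases W.eq_empty_or_nonempty with rfl | ⟨w₀, hw₀⟩
  · exact ⟨∅, subset_rfl, by simp, by simp [h0], by simp⟩
  obtain ⟨o₀, ho₀⟩ := hO.1
  obtain ⟨o, ho, u, hu, -, hou⟩ := reach_exit ho₀ hw₀
    (hV.2 o₀ (mem_sdiff.1 ho₀).1 w₀ (hW hw₀))
  replace ho := comp_subset _ _ ho
  by_cases huX : u ∈ X
  · have e : V0 \ W.erase u = insert u (V0 \ W) := by
      ext x
      simp only [mem_sdiff, mem_erase, mem_insert]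
      have := @hW u hu
      by_cases h : x = u
      · subst h; simp [this]
      · simp [h]
    obtain ⟨F, h1, h2, h3, h4⟩ := ih _ (by rw [← hn]; exact card_erase_lt_of_mem hu) (W.erase u)
      rfl ((erase_subset _ _).trans hW) (by rw [e]; exact hO.insert ho hou.symm)
      fun K hK => hs K (hK.trans (sdiff_subset_sdiff (erase_subset _ _) subset_rfl))
    refine ⟨F, h1.trans (erase_subset _ _), fun x hx => h2 ?_, h3, h4⟩
    obtain ⟨a1, a2⟩ := mem_sdiff.1 hx
    exact mem_sdiff.2 ⟨mem_erase.2 ⟨fun e => a2 (e ▸ huX), a1⟩, a2⟩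
  have huW : u ∈ W \ X := mem_sdiff.2 ⟨hu, huX⟩
  set K := comp G (W \ X) u with hK
  have hKs : K ⊆ W \ X := comp_subset _ _
  have hKW : K ⊆ W := hKs.trans sdiff_subset
  have huK : u ∈ K := self_mem_comp huW
  have hKc : Conn G K := conn_comp huW
  have hOK : V0 \ W ⊆ V0 \ K := sdiff_subset_sdiff subset_rfl hKW
  set Out := comp G (V0 \ K) o with hOut
  have hOs : Out ⊆ V0 \ K := comp_subset _ _
  have hoO : o ∈ Out := self_mem_comp (hOK ho)
  have hOc : Conn G Out := conn_comp (hOK ho)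
  have hOO : V0 \ W ⊆ Out := hO.subset_comp hOK ho hoO
  have hOcl : ∀ x ∈ Out, ∀ y ∈ V0, G.Adj x y → y ∉ Out → y ∈ K := fun x hx y hy hxy hyO => by
    by_contra hc
    exact hyO (comp_closed hx (mem_sdiff.2 ⟨hy, hc⟩) hxy)
  have hKcl : ∀ x ∈ K, ∀ y ∈ W, G.Adj x y → y ∉ X → y ∈ K := fun x hx y hy hxy hyX =>
    comp_closed hx (mem_sdiff.2 ⟨hy, hyX⟩) hxy
  set Kh := V0 \ Out with hKh
  have hKhW : Kh ⊆ W := fun x hx => by
    by_contra hc
    exact (mem_sdiff.1 hx).2 (hOO (mem_sdiff.2 ⟨(mem_sdiff.1 hx).1, hc⟩))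
  have hKKh : K ⊆ Kh := fun x hx => mem_sdiff.2 ⟨hW (hKW hx), fun hc => (mem_sdiff.1 (hOs hc)).2 hx⟩
  have hOV : Out ⊆ V0 := hOs.trans sdiff_subset
  -- the inside
  have e1 : V0 \ (Kh \ K) = Out ∪ K := by
    ext x
    simp only [hKh, mem_sdiff, mem_union]
    have a1 := @hOV x
    have a2 : x ∈ K → x ∈ V0 := fun h => hW (hKW h)
    exact fill_p1 a1 a2
  obtain ⟨F1, f1, f2, f3, f4⟩ := ih _ (by
      rw [← hn]
      exact card_lt_card ⟨sdiff_subset.trans hKhW, fun hc => (mem_sdiff.1 (hc hu)).2 huK⟩)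
    (Kh \ K) rfl (sdiff_subset.trans sdiff_subset)
    (by rw [e1]; exact hOc.union hKc ⟨o, hoO, u, huK, hou⟩)
    fun K' hK' => hs K' (hK'.trans (sdiff_subset_sdiff (sdiff_subset.trans hKhW) subset_rfl))
  have hF1V : F1 ⊆ V0 := f1.trans (sdiff_subset.trans sdiff_subset)
  have g1 := hup F1 hF1V ((V0 ∩ X) \ F1) (sdiff_subset.trans inter_subset_left) disjoint_sdiff
    fun x hx y hy hxy => by
      by_cases hyF : y ∈ F1
      · exact Or.inl hyF
      refine Or.inr (mem_sdiff.2 ⟨mem_inter.2 ⟨hy, ?_⟩, hyF⟩)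
      obtain ⟨a1, a2⟩ := mem_sdiff.1 (f1 hx)
      have a3 := f4 x hx y hy hyF hxy
      by_contra hyX
      have hyO : y ∉ Out := fun hc =>
        a2 (hOcl y hc x (mem_sdiff.1 a1).1 hxy.symm (mem_sdiff.1 a1).2)
      have hyK : y ∉ K := fun hc => a2 (hKcl y hc x (hKhW a1) hxy.symm a3)
      exact hyF (f2 (mem_sdiff.2 ⟨mem_sdiff.2 ⟨mem_sdiff.2 ⟨hy, hyO⟩, hyK⟩, hyX⟩))
  have g2 : F1.card ≤ b * X.card := by
    have a1 : ((V0 ∩ X) \ F1).card ≤ X.card :=
      card_le_card (sdiff_subset.trans inter_subset_right)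
    have a2 : 0 ≤ D F1 := by
      by_contra hc
      have : (t : ℤ) * D F1 < 0 := mul_neg_of_pos_of_neg (by exact_mod_cast ht) (by omega)
      have : (0 : ℤ) ≤ (A : ℤ) * F1.card := by positivity
      omega
    have a3 : (b : ℤ) * (((V0 ∩ X) \ F1).card : ℤ) ≤ b * X.card := by gcongr
    have a4 : (F1.card : ℤ) ≤ b * X.card := by omega
    exact_mod_cast a4
  have g3 : Kh.card ≤ s + (b + 1) * X.card := by
    have a1 : Kh ⊆ K ∪ F1 ∪ X := fun x hx => by
      by_cases a : x ∈ K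
      · simp [a]
      by_cases a' : x ∈ X
      · simp [a']
      · simp [f2 (mem_sdiff.2 ⟨mem_sdiff.2 ⟨hx, a⟩, a'⟩)]
    have a2 := card_le_card a1
    have a3 := card_union_le (K ∪ F1) X
    have a4 := card_union_le K F1
    have a5 := hs K hKs hKc
    rw [add_mul, one_mul]
    omega
  have g4 := hlow Kh sdiff_subset (by rwa [hKh, Finset.sdiff_sdiff_eq_self hOV]) g3
  -- the outside
  have e2 : V0 \ (W \ Kh) = (V0 \ W) ∪ Kh := by
    ext x
    simp only [hKh, mem_sdiff, mem_union]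
    exact fill_p2
  have g5 : Conn G ((V0 \ W) ∪ Kh) := by
    refine conn_attach hO fun v hv => ⟨u, hKKh huK, ?_, o, ho, hou.symm⟩
    by_cases hvK : v ∈ K
    · exact (hKc.2 v hvK u huK).mono hKKh
    have hv' : v ∈ V0 \ K := mem_sdiff.2 ⟨(mem_sdiff.1 hv).1, hvK⟩
    obtain ⟨w, hw, z, hz, -, hwz⟩ := reach_exit hv' huK
      (hV.2 v (mem_sdiff.1 hv).1 u (hW hu))
    have a1 : comp G (V0 \ K) v ⊆ Kh := fun x hx => by
      obtain ⟨b1, b2⟩ := mem_comp.1 hx
      refine mem_sdiff.2 ⟨(mem_sdiff.1 b1).1, fun hc => (mem_sdiff.1 hv).2 ?_⟩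
      exact mem_comp.2 ⟨hv', (mem_comp.1 hc).2.trans b2.symm⟩
    exact (((reach_comp hv' (mem_comp.1 hw).2).mono a1).tail (a1 hw) (hKKh hz) hwz).trans
      ((hKc.2 z hz u huK).mono hKKh)
  obtain ⟨F2, k1, k2, k3, k4⟩ := ih _ (by
      rw [← hn]
      exact card_lt_card ⟨sdiff_subset, fun hc => (mem_sdiff.1 (hc hu)).2 (hKKh huK)⟩)
    (W \ Kh) rfl (sdiff_subset.trans hW) (by rwa [e2])
    fun K' hK' => hs K' (hK'.trans (sdiff_subset_sdiff sdiff_subset subset_rfl))
  have hd : Disjoint Kh F2 := disjoint_sdiff.mono_right k1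
  have hF2V : F2 ⊆ V0 := k1.trans (sdiff_subset.trans hW)
  have g6 := hadd Kh sdiff_subset F2 hF2V hd fun x hx y hy hxy => by
    obtain ⟨a1, a2⟩ := mem_sdiff.1 (k1 hy)
    have a3 := k4 y hy x (mem_sdiff.1 hx).1 (disjoint_left.1 hd hx) hxy.symm
    have a4 : y ∈ Out := by
      by_contra hc
      exact a2 (mem_sdiff.2 ⟨hW a1, hc⟩)
    have a5 := hOcl y a4 x (mem_sdiff.1 hx).1 hxy.symm (mem_sdiff.1 hx).2
    exact a2 (hKKh (hKcl x a5 y a1 hxy a3))
  refine ⟨Kh ∪ F2, union_subset hKhW (k1.trans sdiff_subset), fun x hx => ?_, ?_, ?_⟩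
  · by_cases a : x ∈ Kh
    · exact mem_union_left _ a
    · exact mem_union_right _ (k2 (mem_sdiff.2 ⟨mem_sdiff.2 ⟨(mem_sdiff.1 hx).1, a⟩,
        (mem_sdiff.1 hx).2⟩))
  · rw [g6, card_union_of_disjoint hd]
    push_cast
    linarith only [g4, k3]
  · intro x hx y hy hyF hxy
    rw [mem_union, not_or] at hyF
    rcases mem_union.1 hx with hx | hx
    · have a4 : y ∈ Out := by
        by_contra hc
        exact hyF.1 (mem_sdiff.2 ⟨hy, hc⟩)
      exact (mem_sdiff.1 (hKs (hOcl y a4 x (mem_sdiff.1 hx).1 hxy.symm (mem_sdiff.1 hx).2))).2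
    · exact k4 x hx y hy hyF.2 hxy

lemma arith1 {t q n b x : ℕ} (h1 : 10 * q ≤ t) (hb : 4000 * (b + 1) ≤ t) (hn : n ≤ t ^ 2)
    (hx : x ≤ 40 * t) : 2 * n / 3 + (b + 1) * x ≤ (t - q) ^ 2 := by
  obtain ⟨p, rfl⟩ : ∃ p, t = p + q := ⟨t - q, by omega⟩
  rw [Nat.add_sub_cancel]
  have a1 : 3 * (2 * n / 3) ≤ 2 * n := Nat.mul_div_le _ _
  have a2 : (b + 1) * x ≤ (b + 1) * (40 * (p + q)) := Nat.mul_le_mul_left _ hx
  have a3 : 4000 * (b + 1) * (p + q) ≤ (p + q) * (p + q) := Nat.mul_le_mul_right _ hb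
  have a4 : 9 * (p + q) ≤ 10 * p := by omega
  have a5 : 9 * (p + q) * (9 * (p + q)) ≤ 10 * p * (10 * p) := Nat.mul_le_mul a4 a4
  linarith only [hn, a1, a2, a3, a5, sq_nonneg ↑p]

lemma arith2 {t q p n a A x f z y : ℤ} (hp : t = p + q) (h1 : 10 * q ≤ t) (h2 : t < 10 * q + 10)
    (ht : 4000 ≤ t) (ha : 0 ≤ a) (hA : A = 2000 * (a + 1)) (hn : p ^ 2 < n) (hz : z ≤ 40 * t)
    (hf : n ≤ f + z) (hx : A * f ≤ p * x) (hy : x - a * z ≤ y) : A * n ≤ t * y := by
  have a4 : 9 * t ≤ 10 * p := by omega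
  have a5 : 9 * t * (9 * t) ≤ 10 * p * (10 * p) :=
    mul_le_mul a4 a4 (by omega) (by omega)
  have a6 : 4 * t ^ 2 ≤ 5 * f := by
    linarith only [a5, hn, hz, hf, mul_le_mul_of_nonneg_right ht (by omega : 0 ≤ t)]
  have hA0 : 0 < A := by omega
  have hp0 : 0 < p := by omega
  have a7 : 0 ≤ x := by
    by_contra hc
    have : p * x < 0 := mul_neg_of_pos_of_neg hp0 (by omega)
    have : 0 ≤ A * f := mul_nonneg hA0.le (by linarith only [a6, sq_nonneg t])
    omega
  have a8 : 4 * A * t ≤ 5 * x := by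
    have b1 : p * x ≤ t * x := mul_le_mul_of_nonneg_right (by omega) a7
    have b2 : A * (4 * t ^ 2) ≤ A * (5 * f) := mul_le_mul_of_nonneg_left a6 hA0.le
    have b3 : t * (4 * A * t) ≤ t * (5 * x) := by linarith only [hx, b1, b2]
    exact le_of_mul_le_mul_left b3 (by omega)
  have a9 : t * (4 * A * t) ≤ 11 * q * (5 * x) :=
    mul_le_mul (by omega) a8 (by positivity) (by omega)
  have b1 : t * (x - a * z) ≤ t * y := mul_le_mul_of_nonneg_left hy (by omega)
  have b2 : A * n ≤ A * (f + 40 * t) := mul_le_mul_of_nonneg_left (by omega) hA0.le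
  have b3 : t * a * z ≤ t * a * (40 * t) := mul_le_mul_of_nonneg_left hz (by positivity)
  have b4 : A * t * 4000 ≤ A * t * t := mul_le_mul_of_nonneg_left ht (by positivity)
  have b5 : 2000 * a * (t * t) ≤ A * (t * t) :=
    mul_le_mul_of_nonneg_right (by omega) (by positivity)
  have b6 : t * x = p * x + q * x := by rw [hp]; ring
  have b7 : 0 ≤ A * t := by positivity
  have b8 : 0 ≤ a * (t * t) := by positivity
  linarith only [hx, a9, b1, b2, b3, b4, b5, b6, b7]

end IsoAux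

open IsoAux in
theorem iso (a b : ℕ) : ∃ N : ℕ, b ≤ N ∧ ∀ (V : Type) [DecidableEq V] (G : SimpleGraph V)
    [DecidableRel G.Adj], MinorFree G → ∀ (V0 : Finset V) (D : Finset V → ℤ), Conn G V0 →
    D ∅ = 0 →
    (∀ S ⊆ V0, ∀ T ⊆ V0, Disjoint S T → (∀ u ∈ S, ∀ w ∈ T, ¬ G.Adj u w) →
      D (S ∪ T) = D S + D T) →
    (∀ T ⊆ V0, ∀ v ∈ V0, v ∉ T → D T - a ≤ D (insert v T)) →
    (∀ T ⊆ V0, ∀ Y ⊆ V0, Disjoint T Y → (∀ u ∈ T, ∀ w ∈ V0, G.Adj u w → w ∈ T ∨ w ∈ Y) →
      D T ≤ b * (Y.card : ℤ) - T.card) →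
    (∀ W ⊆ V0, Conn G (V0 \ W) → W.card ≤ N → (W.card : ℤ) ≤ D W) →
    ∀ W ⊆ V0, Conn G (V0 \ W) → 0 ≤ D W := by
  obtain ⟨A, hA⟩ : ∃ A, A = 2000 * (a + 1) := ⟨_, rfl⟩
  obtain ⟨T, hT⟩ : ∃ T, T = 2 * A + 4000 * (b + 1) := ⟨_, rfl⟩
  refine ⟨T ^ 2, by nlinarith only [hA, hT], ?_⟩
  intro V _ G _ hG V0 D hV h0 hadd hins hup hbase
  have key : ∀ t : ℕ, A ≤ t → ∀ W ⊆ V0, Conn G (V0 \ W) → W.card ≤ t ^ 2 →
      (A : ℤ) * W.card ≤ t * D W := by
    intro t
    induction t using Nat.strong_induction_on with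
    | _ t ih =>
    intro hAt W hW hc hn
    by_cases h1 : t ≤ T
    · have := hbase W hW hc (hn.trans (Nat.pow_le_pow_left h1 2))
      exact mul_le_mul (by exact_mod_cast hAt) this (by positivity) (by positivity)
    have hq1 : 10 * (t / 10) ≤ t := Nat.mul_div_le _ _
    have hq2 : t < 10 * (t / 10) + 10 := by omega
    have hlt : t - t / 10 < t := by omega
    have hA' : A ≤ t - t / 10 := by omega
    have ih' := ih _ hlt hA'
    by_cases h2 : W.card ≤ (t - t / 10) ^ 2
    · have a1 := ih' W hW hc h2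
      have a2 : 0 ≤ D W := by
        by_contra hc
        have : ((t - t / 10 : ℕ) : ℤ) * D W < 0 :=
          mul_neg_of_pos_of_neg (by exact_mod_cast (by omega : 0 < t - t / 10)) (by omega)
        have : (0 : ℤ) ≤ (A : ℤ) * W.card := by positivity
        omega
      exact a1.trans (mul_le_mul_of_nonneg_right (by exact_mod_cast hlt.le) a2)
    obtain ⟨X, hXW, hX, hsep⟩ := sep hG W t (by omega) hn
    obtain ⟨F, f1, f2, f3, -⟩ := fill (X := X) (s := 2 * W.card / 3) hV
      (by omega : 0 < t - t / 10) h0 hadd hup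
      (fun W' hW' hc' hn' => ih' W' hW' hc' (hn'.trans (arith1 hq1 (by omega) hn hX)))
      _ W rfl hW hc fun K hK hKc => by
        have := hsep K hK hKc
        omega
    have a1 := add_set hins (f1.trans hW) (W \ F) (sdiff_subset.trans hW) sdiff_disjoint
    rw [sdiff_union_of_subset f1] at a1
    have a2 : (W \ F).card ≤ X.card := card_le_card fun x hx => by
      by_contra hc
      exact (mem_sdiff.1 hx).2 (f2 (mem_sdiff.2 ⟨(mem_sdiff.1 hx).1, hc⟩))
    have a3 := card_sdiff_add_card_eq_card f1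
    exact arith2 (q := (t / 10 : ℕ)) (p := (t - t / 10 : ℕ)) (a := a) (z := (W \ F).card)
      (by omega) (by omega) (by omega) (by omega) (by omega) (by omega)
      (by exact_mod_cast not_le.1 h2) (by omega) (by omega) f3 a1
  intro W hW hc
  have a1 := key (A + W.card) (by omega) W hW hc (by nlinarith only [hA])
  by_contra hneg
  have : ((A + W.card : ℕ) : ℤ) * D W < 0 :=
    mul_neg_of_pos_of_neg (by exact_mod_cast (by omega : 0 < A + W.card)) (by omega)
  have : (0 : ℤ) ≤ (A : ℤ) * W.card := by positivity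
  omega

end Pool.Agent.PL5
end

-- merged part: Pool.Agent.Work.MP_db4788_co.ThmE
section
/-
Section 3 of the write-up: theorem E.
-/

set_option autoImplicit false
set_option linter.unusedSectionVars false
open Finset

namespace Pool.Agent.PL5

variable {V : Type} [DecidableEq V] {G : SimpleGraph V} [DecidableRel G.Adj]

theorem thmE_aux (hG : MinorFree G) (m n : ℕ) : ∀ (H : Finset V) (r : V → ℕ) (O : Finset V),
    H.card < n → Apex G H r O → (∀ v ∈ H, r v ≤ 4) → (∀ T ⊆ H, -250 < pot G r T) →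
    Choosable G H r m := by
  induction n with
  | zero => intro H r O hn; omega
  | succ n ih =>
    intro H r O hn hA hr hp L hL
    obtain ⟨L', hL'⟩ := hL.exact (fun v hv => (hr v hv).trans (by omega))
    by_contra hc
    exact Crit.false (G := G) (H := H) (r := r) (O := O) (m := m) (L := L')
      ⟨hG, hA, hr, hp, fun v hv => (hL' v hv).2,
        fun hh => hc (hh.mono_list (fun v hv => (hL' v hv).1)),
        fun H' r' O' hlt => ih H' r' O' (by omega)⟩

theorem thmE (hG : MinorFree G) {H O : Finset V} {r : V → ℕ} (hA : Apex G H r O)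
    (hr : ∀ v ∈ H, r v ≤ 4) (hp : ∀ T ⊆ H, -250 < pot G r T) (m : ℕ) : Choosable G H r m :=
  thmE_aux hG m (H.card + 1) H r O (Nat.lt_succ_self _) hA hr hp

theorem class_choosable (hG : MinorFree G) {H O : Finset V} {r : V → ℕ} (hA : Apex G H r O)
    (hC : InClass G H r) (m : ℕ) : Choosable G H r m :=
  thmE hG hA (fun v hv => (hC.r_le hv).trans (by omega)) (fun T hT => by
    have h1 := hC T hT
    have h2 := le_pot (G := G) r T
    omega) m

end Pool.Agent.PL5
end

-- merged part: Pool.Agent.Work.MP_db4788_co.Avg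
section
/-
Section 4 of the write-up: the averaging step.
-/

set_option autoImplicit false
set_option linter.unusedSectionVars false
open Finset

namespace Pool.Agent.PL5

variable {V : Type} [DecidableEq V] {G : SimpleGraph V} [DecidableRel G.Adj]

def WinAll (G : SimpleGraph V) [DecidableRel G.Adj] (n K M : ℕ) : Prop :=
  ∀ (H : Finset V) (r : V → ℕ) (O : Finset V), Apex G H r O → InClass G H r → H.card = n →
    (∃ v ∈ H, ¬ InTV G H r v) → ∀ m, M ≤ m → ∀ L, Lists H r m L → Win G H L m K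

theorem robust_zero (k M : ℕ) : Robust G 0 k M := by
  intro H r O _ _ hn m _ L _
  have : H = ∅ := card_eq_zero.1 (by omega)
  subst this
  exact ⟨fun _ => ∅, valid_empty _ _, by simp, by simp⟩

theorem RobCol.mono_k {H : Finset V} {r : V → ℕ} {L : V → Finset ℕ} {m k k' : ℕ}
    (h : RobCol G H r L m k') (hk : k ≤ k') : RobCol G H r L m k := by
  obtain ⟨φ, h1, h2, h3⟩ := h
  exact ⟨φ, h1, h2, fun v hv hn => le_trans (by omega) (h3 v hv hn)⟩

theorem Robust.mono_k {n k k' M : ℕ} (h : Robust G n k' M) (hk : k ≤ k') : Robust G n k M :=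
  fun H r O a b c m d L e => (h H r O a b c m d L e).mono_k hk

theorem InTV.second {H : Finset V} {r : V → ℕ} {v a b : V} (hv : v ∈ H) (ha : a ∈ H) (hb : b ∈ H)
    (hva : G.Adj v a) (hvb : G.Adj v b) (hab : G.Adj a b) (rv : r v = 2) (ra : r a = 2)
    (rb : r b = 2) : InTV G H r a ∧ InTV G H r b :=
  ⟨⟨ha, v, hv, b, hb, hva.symm, hab, hvb, ra, rv, rb⟩,
    ⟨hb, v, hv, a, ha, hvb.symm, hab.symm, hva, rb, rv, ra⟩⟩

open Classical in
theorem triSys_tv {H : Finset V} {r : V → ℕ} (hC : InClass G H r) {L : V → Finset ℕ} {m E : ℕ}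
    (hL : ∀ v ∈ H, (L v).card + r v * m = 5 * m) :
    TriSys G (H.filter (InTV G H r)) L (3 * m - E) (3 * m) := by
  intro u hu
  obtain ⟨hu1, a, ha, b, hb, h1, h2, h3, ru, ra, rb⟩ := (mem_filter.1 hu).2
  obtain ⟨ta, tb⟩ := InTV.second hu1 ha hb h1 h2 h3 ru ra rb
  have hc := hL u hu1
  rw [ru] at hc
  refine ⟨a, mem_filter.2 ⟨ha, ta⟩, b, mem_filter.2 ⟨hb, tb⟩, h1, h2, h3, fun x hx hxu =>
    tt hC hu1 ha hb h1 h2 h3 ru ra rb (mem_filter.1 hx).2 hxu, by omega, ?_⟩
  have : (L u).card ≤ (L u ∪ L a ∪ L b).card :=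
    card_le_card (subset_union_left.trans subset_union_left)
  omega

theorem avg (hG : MinorFree G) (n k M1 M2 : ℕ)
    (hR : Robust G n (k + (n + 2) * 2 ^ (n + 1)) M2)
    (hW : WinAll G (n + 1) (M2 + k + (n + 2) * 2 ^ (n + 1)) M1) :
    Robust G (n + 1) k (M1 + M2 + 2 ^ (n + 1)) := by
  classical
  intro H r O hA hC hn m hm L hL
  have hM2 : M2 ≤ m := le_trans ((Nat.le_add_left _ _).trans (Nat.le_add_right _ _)) hm
  by_cases hc : H.card ≤ n
  · exact (hR H r O hA hC hc m hM2 L hL).mono_k (Nat.le_add_right _ _)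
  have hcard : H.card = n + 1 := by omega
  by_cases hT : ∀ v ∈ H, InTV G H r v
  · obtain ⟨φ, h1, h2⟩ := class_choosable hG hA hC m L hL
    exact ⟨φ, h1, h2, fun v hv hn => absurd (hT v hv) hn⟩
  push Not at hT
  obtain ⟨L', hL'⟩ := hL.exact (fun v hv => by have := hC.r_le hv; omega)
  have ha : ∀ v ∈ H, (L' v).card = (5 - r v) * m := fun v hv => by
    have h1 := (hL' v hv).2
    have h2 := hC.r_le hv
    rw [Nat.sub_mul]; omega
  obtain ⟨P, hP⟩ := split_lists H L' (fun v => 5 - r v) m M2 hM2 ha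
  rw [hcard] at hP
  generalize 2 ^ (n + 1) = E at *
  obtain ⟨m1, hm1⟩ : ∃ m1, m = m1 + M2 + E := ⟨m - M2 - E, by omega⟩
  have hL1 : Lists H r m1 (fun v => L' v \ P) := fun v hv => by
    have h1 := (hP v hv).2
    have h2 := hC.r_le hv
    have h3 := ha v hv
    have h4 := card_sdiff_add_card_inter (L' v) P
    obtain ⟨a, ha'⟩ : ∃ a, 5 = r v + 1 + a := ⟨4 - r v, by omega⟩
    have e : 5 - r v = a + 1 := by omega
    simp only [e] at h1 h3
    have e5 : 5 * m1 = r v * m1 + (a + 1) * m1 := by rw [ha']; ring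
    rw [hm1] at h3
    have e6 : (a + 1) * (m1 + M2 + E) = (a + 1) * m1 + (a + 1) * M2 + E + a * E := by ring
    show 5 * m1 ≤ (L' v \ P).card + r v * m1
    omega
  obtain ⟨φ1, a1, a2, v, hv, a3⟩ := hW H r O hA hC hcard hT m1 (by omega) _ hL1
  have hsub : H.erase v ⊆ H := erase_subset _ _
  have hL2 : Lists (H.erase v) r M2 (fun v => L' v ∩ P) := fun u hu => by
    have h1 := (hP u (hsub hu)).1
    have h2 := hC.r_le (hsub hu)
    simp only [Nat.sub_mul] at h1
    have h3 : r u * M2 ≤ 5 * M2 := Nat.mul_le_mul_right _ (by omega)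
    show 5 * M2 ≤ (L' u ∩ P).card + r u * M2
    omega
  have hce : (H.erase v).card = n := by rw [card_erase_of_mem hv, hcard]; rfl
  obtain ⟨φ2, b1, b2, b3⟩ := hR (H.erase v) r O (hA.mono hsub) (hC.mono hsub) hce.le M2 le_rfl _ hL2
  have d1 : ∀ u ∈ H, ∀ w ∈ H.erase v, Disjoint (φ1 u) (φ2 w) := fun u hu w hw =>
    (sdiff_disjoint (s := P) (t := L' u)).mono (a1.1 u hu)
      ((b1.1 w hw).trans inter_subset_right)
  set φ : V → Finset ℕ := fun u => if u = v then φ1 v else φ1 u ∪ φ2 u with hφ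
  have ev : φ v = φ1 v := by simp [hφ]
  have eu : ∀ u, u ≠ v → φ u = φ1 u ∪ φ2 u := fun u hu => by simp [hφ, hu]
  have hval : Valid G H L' φ := by
    refine ⟨fun u hu => ?_, fun u hu w hw huw => ?_⟩
    · by_cases h : u = v
      · subst h; rw [ev]; exact (a1.1 u hu).trans sdiff_subset
      · rw [eu u h]
        exact union_subset ((a1.1 u hu).trans sdiff_subset)
          ((b1.1 u (mem_erase.2 ⟨h, hu⟩)).trans inter_subset_left)
    · by_cases h : u = v
      · subst h
        have hw' : w ≠ u := huw.ne.symm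
        rw [ev, eu w hw', disjoint_union_right]
        exact ⟨a1.2 u hu w hw huw, d1 u hu w (mem_erase.2 ⟨hw', hw⟩)⟩
      · by_cases h' : w = v
        · subst h'
          rw [ev, eu u h, disjoint_union_left]
          exact ⟨a1.2 u hu w hw huw, (d1 w hw u (mem_erase.2 ⟨h, hu⟩)).symm⟩
        · rw [eu u h, eu w h', disjoint_union_left, disjoint_union_right, disjoint_union_right]
          exact ⟨⟨a1.2 u hu w hw huw, d1 u hu w (mem_erase.2 ⟨h', hw⟩)⟩,
            (d1 w hw u (mem_erase.2 ⟨h, hu⟩)).symm,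
            b1.2 u (mem_erase.2 ⟨h, hu⟩) w (mem_erase.2 ⟨h', hw⟩) huw⟩
  have hcu : ∀ u ∈ H.erase v, (φ u).card = (φ1 u).card + (φ2 u).card := fun u hu => by
    rw [eu u (mem_erase.1 hu).1, card_union_of_disjoint (d1 u (hsub hu) u hu)]
  have hQ : (H.erase v).filter (InTV G (H.erase v) r) ⊆ H.erase v := filter_subset _ _
  have hQc : ((H.erase v).filter (InTV G (H.erase v) r)).card * E ≤ n * E :=
    Nat.mul_le_mul_right _ ((card_le_card hQ).trans hce.le)
  have e7 : (n + 2) * E = n * E + 2 * E := by ring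
  obtain ⟨φ', c1, c2, c3⟩ := fix_tri (H := H) (m := m) (E := E) (fun _ => m + k) (hQ.trans hsub)
    (by omega) (triSys_tv (hC.mono hsub) (fun u hu => (hL' u (hsub hu)).2)) hval
    (fun u hu => by
      have h1 := hcu u (hQ hu)
      have h2 := a2 u (hsub (hQ hu))
      have h3 := b2 u (hQ hu)
      omega)
    (fun u hu => by
      obtain ⟨h1, h2⟩ := mem_sdiff.1 hu
      by_cases h : u = v
      · subst h; rw [ev]; omega
      · have hu' : u ∈ H.erase v := mem_erase.2 ⟨h, h1⟩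
        have h3 := hcu u hu'
        have h4 := a2 u h1
        have h5 := b3 u hu' (fun h6 => h2 (mem_filter.2 ⟨hu', h6⟩))
        omega)
  refine ⟨φ', c1.mono_list (fun u hu => (hL' u hu).1), fun u hu => ?_, fun u hu hn => ?_⟩
  · by_cases h : u ∈ (H.erase v).filter (InTV G (H.erase v) r)
    · exact c2 u h
    · exact le_trans (by omega) (c3 u (mem_sdiff.2 ⟨hu, h⟩))
  · exact c3 u (mem_sdiff.2 ⟨hu, fun h => hn ((mem_filter.1 h).2.mono hsub)⟩)

end Pool.Agent.PL5
end

-- merged part: Pool.Agent.Work.MP_db4788_co.MT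
section
/-
Section 4 of the write-up: case MT.
-/

set_option autoImplicit false
set_option linter.unusedSectionVars false
open Finset

namespace Pool.Agent.PL5

variable {V : Type} [DecidableEq V] {G : SimpleGraph V} [DecidableRel G.Adj]

/-- a triangle joined to a vertex of a connected set and to a component of the rest -/
theorem MT.k5 (hG : MinorFree G) {X : Finset V} (hX : Conn G X) {a b c s x : V}
    (ha : a ∉ X) (hb : b ∉ X) (hc : c ∉ X) (hab : G.Adj a b) (hac : G.Adj a c) (hbc : G.Adj b c)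
    (hs : s ∈ X) (hx : x ∈ X) (hxs : x ≠ s) (sa : G.Adj a s) (sb : G.Adj b s) (sc : G.Adj c s)
    (ta : ∃ y ∈ comp G (X.erase s) x, G.Adj a y) (tb : ∃ y ∈ comp G (X.erase s) x, G.Adj b y)
    (tc : ∃ y ∈ comp G (X.erase s) x, G.Adj c y) : False := by
  have hsub : comp G (X.erase s) x ⊆ X.erase s := comp_subset _ _
  have hd : ∀ v, v ∉ X.erase s → Disjoint {v} (comp G (X.erase s) x) := fun v hv =>
    disjoint_singleton_left.2 fun h => hv (hsub h)
  have ne : ∀ v, v ∉ X → v ≠ s := fun v hv e => hv (e ▸ hs)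
  exact hG.no_k5 (conn_singleton a) (conn_singleton b) (conn_singleton c) (conn_singleton s)
    (conn_comp (mem_erase.2 ⟨hxs, hx⟩))
    (disjoint_singleton.2 hab.ne) (disjoint_singleton.2 hac.ne) (disjoint_singleton.2 (ne a ha))
    (hd a fun h => ha (mem_of_mem_erase h))
    (disjoint_singleton.2 hbc.ne) (disjoint_singleton.2 (ne b hb))
    (hd b fun h => hb (mem_of_mem_erase h))
    (disjoint_singleton.2 (ne c hc)) (hd c fun h => hc (mem_of_mem_erase h))
    (hd s (notMem_erase s X))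
    (touch_singleton.2 hab) (touch_singleton.2 hac) (touch_singleton.2 sa) (touch_left.2 ta)
    (touch_singleton.2 hbc) (touch_singleton.2 sb) (touch_left.2 tb)
    (touch_singleton.2 sc) (touch_left.2 tc) (touch_left.2 (twopart hX hs hx hxs))

/-- some vertex of `S` sees one but not all vertices of the triangle -/
theorem MT.find (hG : MinorFree G) {H O S : Finset V} {r : V → ℕ} (hA : Apex G H r O)
    (hS : S ⊆ H) (hat : Attached G r S) {a b c s : V} (ha : a ∈ H \ S) (hb : b ∈ H \ S)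
    (hc : c ∈ H \ S) (hab : G.Adj a b) (hac : G.Adj a c) (hbc : G.Adj b c)
    (ra : addDeg G r S a = 2) (rb : addDeg G r S b = 2) (rc : addDeg G r S c = 2)
    (hs : s ∈ S) (hsa : G.Adj a s)
    (h1 : ∀ t ∈ S, G.Adj a t ↔ G.Adj b t) (h2 : ∀ t ∈ S, G.Adj a t ↔ G.Adj c t) : False := by
  have hX := hA.conn_union hS hat
  have out : ∀ v ∈ H \ S, v ∉ O ∪ S := fun v hv h => by
    rcases mem_union.1 h with h | h
    · exact disjoint_left.1 hA.2.1 h (mem_sdiff.1 hv).1
    · exact (mem_sdiff.1 hv).2 h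
  have hsX : s ∈ O ∪ S := mem_union_right _ hs
  by_cases h : ∃ t ∈ S, t ≠ s ∧ G.Adj a t
  · obtain ⟨t, ht, hts, hat'⟩ := h
    have hm : t ∈ comp G ((O ∪ S).erase s) t :=
      self_mem_comp (mem_erase.2 ⟨hts, mem_union_right _ ht⟩)
    exact MT.k5 hG hX (out a ha) (out b hb) (out c hc) hab hac hbc hsX (mem_union_right _ ht) hts
      hsa ((h1 s hs).1 hsa) ((h2 s hs).1 hsa) ⟨t, hm, hat'⟩ ⟨t, hm, (h1 t ht).1 hat'⟩
      ⟨t, hm, (h2 t ht).1 hat'⟩
  · obtain ⟨o, ho⟩ := hA.1.1
    have hOs : O ⊆ (O ∪ S).erase s := fun y hy =>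
      mem_erase.2 ⟨fun e => disjoint_left.1 hA.2.1 hy (e ▸ hS hs), mem_union_left _ hy⟩
    have hOc : O ⊆ comp G ((O ∪ S).erase s) o :=
      hA.1.subset_comp hOs ho (self_mem_comp (hOs ho))
    have key : ∀ v ∈ H \ S, addDeg G r S v = 2 → (∀ t ∈ S, G.Adj a t ↔ G.Adj v t) →
        ∃ y ∈ comp G ((O ∪ S).erase s) o, G.Adj v y := by
      intro v hv rv hv'
      have hd : deg G S v ≤ ({s} : Finset V).card := deg_le fun u hu huv => by
        by_contra hne
        exact h ⟨u, hu, by simpa using hne, (hv' u hu).2 huv⟩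
      rw [card_singleton] at hd
      unfold addDeg at rv
      obtain ⟨y, hy, hvy⟩ := hA.2.2 v (mem_sdiff.1 hv).1 (by omega)
      exact ⟨y, hOc hy, hvy⟩
    exact MT.k5 hG hX (out a ha) (out b hb) (out c hc) hab hac hbc hsX (mem_union_left _ ho)
      (mem_erase.1 (hOs ho)).1 hsa ((h1 s hs).1 hsa) ((h2 s hs).1 hsa)
      (key a ha ra fun _ _ => Iff.rfl) (key b hb rb h1) (key c hc rc h2)

/-- the colour sets of a triangle with a large union of two lists -/
theorem MT.tri_sets (A B C : Finset ℕ) {m K : ℕ} (hK : K ≤ m) (hA : 3 * m ≤ A.card)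
    (hB : 3 * m ≤ B.card) (hC : 3 * m ≤ C.card) (h : 3 * m + K ≤ (A ∪ B).card) :
    ∃ α ⊆ A, ∃ β ⊆ B, ∃ γ ⊆ C, α.card = m ∧ m + K ≤ β.card ∧ γ.card = m ∧
      Disjoint α β ∧ Disjoint α γ ∧ Disjoint β γ := by
  obtain ⟨α, hα, hc, hi⟩ := pref A B m (by omega)
  obtain ⟨γ, hγ, hcγ, hd⟩ := avoid C α m (by omega)
  refine ⟨α, hα, (B \ α) \ γ, sdiff_subset.trans sdiff_subset, γ, hγ, hc, ?_, hcγ,
    (disjoint_of_subset_left sdiff_subset sdiff_disjoint).symm, hd.symm, sdiff_disjoint⟩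
  have e1 := card_sdiff_add_card_inter B α
  have e2 := card_sdiff_add_card A B
  have e3 := le_card_sdiff γ (B \ α)
  rw [inter_comm] at e1
  omega

/-- TRIWIN -/
theorem MT.triwin (hG : MinorFree G) {K m : ℕ} {H O S : Finset V} {r : V → ℕ}
    {L ψ : V → Finset ℕ} (hA : Apex G H r O) (hK : K ≤ m) (hL : Lists H r m L) (hS : S ⊆ H)
    (hat : Attached G r S) (hC' : InClass G (H \ S) (addDeg G r S))
    (hall : ∀ u ∈ H \ S, InTV G (H \ S) (addDeg G r S) u) {a b c : V} (ha : a ∈ H \ S)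
    (hb : b ∈ H \ S) (hc : c ∈ H \ S) (hab : G.Adj a b) (hac : G.Adj a c) (hbc : G.Adj b c)
    (ra : addDeg G r S a = 2) (rb : addDeg G r S b = 2) (rc : addDeg G r S c = 2)
    (hψ : Valid G S L ψ) (hcard : ∀ v ∈ S, (ψ v).card = m)
    (hbig : 3 * m + K ≤ (rem G S L ψ a ∪ rem G S L ψ b).card) : Win G H L m K := by
  have hL' : Lists (H \ S) (addDeg G r S) m (rem G S L ψ) :=
    rem_lists (hL.mono sdiff_subset) (fun w hw => (hcard w hw).le) (fun _ _ => le_rfl)
  have la := hL' a ha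
  have lb := hL' b hb
  have lc := hL' c hc
  rw [ra] at la
  rw [rb] at lb
  rw [rc] at lc
  obtain ⟨α, hα, β, hβ, γ, hγ, c1, c2, c3, d1, d2, d3⟩ :=
    MT.tri_sets (rem G S L ψ a) (rem G S L ψ b) (rem G S L ψ c) hK (by omega) (by omega)
      (by omega) hbig
  set R := (H \ S) \ {a, b, c} with hR
  have hRU : R ⊆ H \ S := sdiff_subset
  have hRn : ∀ u ∈ R, u ≠ a ∧ u ≠ b ∧ u ≠ c := fun u hu => by
    have := (mem_sdiff.1 hu).2
    simpa [not_or] using this
  obtain ⟨χ, v1, v2⟩ := class_choosable hG ((hA.absorb_addDeg hS hat).mono hRU) (hC'.mono hRU) m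
    _ (hL'.mono hRU)
  have na : ∀ u ∈ R, ¬ G.Adj a u := fun u hu h => by
    exact (tt hC' ha hb hc hab hac hbc ra rb rc (hall u (hRU hu)) h.symm).elim
      (hRn u hu).2.1 (hRn u hu).2.2
  have nb : ∀ u ∈ R, ¬ G.Adj b u := fun u hu h => by
    exact (tt hC' hb ha hc hab.symm hbc hac rb ra rc (hall u (hRU hu)) h.symm).elim
      (hRn u hu).1 (hRn u hu).2.2
  have nc : ∀ u ∈ R, ¬ G.Adj c u := fun u hu h => by
    exact (tt hC' hc ha hb hac.symm hbc.symm hab rc ra rb (hall u (hRU hu)) h.symm).elim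
      (hRn u hu).1 (hRn u hu).2.1
  have hcR : c ∉ R := fun h => (hRn c h).2.2 rfl
  have hbR : b ∉ insert c R := by
    rw [mem_insert, not_or]
    exact ⟨hbc.ne, fun h => (hRn b h).2.1 rfl⟩
  have haR : a ∉ insert b (insert c R) := by
    rw [mem_insert, mem_insert, not_or, not_or]
    exact ⟨hab.ne, hac.ne, fun h => (hRn a h).1 rfl⟩
  obtain ⟨χ1, w1, w2, w3⟩ := valid_insert hcR v1 hγ fun w hw h => absurd h (nc w hw)
  obtain ⟨χ2, x1, x2, x3⟩ := valid_insert hbR w1 hβ fun w hw h => by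
    rcases mem_insert.1 hw with rfl | hw
    · rw [w3]; exact d3
    · exact absurd h (nb w hw)
  obtain ⟨χ3, y1, y2, y3⟩ := valid_insert haR x1 hα fun w hw h => by
    rcases mem_insert.1 hw with rfl | hw
    · rw [x3]; exact d1
    rcases mem_insert.1 hw with rfl | hw'
    · rw [x2 _ hw, w3]; exact d2
    · exact absurd h (na w hw')
  have eU : insert a (insert b (insert c R)) = H \ S := by
    ext u
    simp only [mem_insert, hR, mem_sdiff (t := ({a, b, c} : Finset V)), mem_singleton]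
    constructor
    · rintro (rfl | rfl | rfl | h)
      exacts [ha, hb, hc, h.1]
    · intro h
      by_contra hn
      exact hn (.inr (.inr (.inr ⟨h, fun e => hn (e.imp_right (Or.imp_right .inl))⟩)))
  have eb : χ3 b = β := by rw [y2 b (mem_insert_self _ _), x3]
  have hm : ∀ u ∈ insert a (insert b (insert c R)), m ≤ (χ3 u).card := by
    intro u hu
    rcases mem_insert.1 hu with rfl | hu
    · rw [y3, c1]
    rw [y2 u hu]
    rcases mem_insert.1 hu with rfl | hu
    · rw [x3]; omega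
    rw [x2 u hu]
    rcases mem_insert.1 hu with rfl | hu
    · rw [w3, c3]
    · rw [w2 u hu]; exact v2 u hu
  rw [eU] at y1 hm
  obtain ⟨ω, z1, z2, z3⟩ := glue_rem disjoint_sdiff hψ y1
  rw [union_sdiff_of_subset hS] at z1
  refine ⟨ω, z1, fun v hv => ?_, b, (mem_sdiff.1 hb).1, by rw [z3 b hb, eb]; exact c2⟩
  by_cases hvS : v ∈ S
  · rw [z2 v hvS, hcard v hvS]
  · rw [z3 v (mem_sdiff.2 ⟨hv, hvS⟩)]
    exact hm v (mem_sdiff.2 ⟨hv, hvS⟩)

/-- trimming with a prescribed value at one vertex, avoiding a small set where there is room -/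
theorem MT.trim {S : Finset V} {φ : V → Finset ℕ} {m k : ℕ} (T : V → Prop)
    (h1 : ∀ v ∈ S, m ≤ (φ v).card) (h2 : ∀ v ∈ S, ¬ T v → m + k ≤ (φ v).card) {s : V}
    {α : Finset ℕ} (hα : α ⊆ φ s) (cα : α.card = m) (N : Finset ℕ) (hN : N.card ≤ k) :
    ∃ ψ : V → Finset ℕ, ψ s = α ∧ ∀ v ∈ S, ψ v ⊆ φ v ∧ (ψ v).card = m ∧
      (¬ T v → v ≠ s → Disjoint (ψ v) N) := by
  have : ∀ v, ∃ β : Finset ℕ, (v = s → β = α) ∧ (v ∈ S → β ⊆ φ v ∧ β.card = m ∧
      (¬ T v → v ≠ s → Disjoint β N)) := fun v => by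
    by_cases hs : v = s
    · exact ⟨α, fun _ => rfl, fun _ => ⟨hs ▸ hα, cα, fun _ h => absurd hs h⟩⟩
    by_cases hv : v ∈ S
    · by_cases hT : T v
      · obtain ⟨β, b1, b2⟩ := exists_subset_card_eq (h1 v hv)
        exact ⟨β, fun h => absurd h hs, fun _ => ⟨b1, b2, fun h => absurd hT h⟩⟩
      · have := h2 v hv hT
        obtain ⟨β, b1, b2, b3⟩ := avoid (φ v) N m (by omega)
        exact ⟨β, fun h => absurd h hs, fun _ => ⟨b1, b2, fun _ _ => b3⟩⟩
    · exact ⟨∅, fun h => absurd h hs, fun h => absurd h hv⟩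
  choose ψ hψ using this
  exact ⟨ψ, (hψ s).1 rfl, fun v hv => (hψ v).2 hv⟩

/-- change the colour sets of two vertices -/
theorem MT.valid_two {S : Finset V} {L ψ : V → Finset ℕ} {x y : V} {σ τ : Finset ℕ}
    (h : Valid G S L ψ) (hσ : σ ⊆ L x) (hτ : τ ⊆ L y) (hd : Disjoint σ τ)
    (hx : ∀ w ∈ S, w ≠ y → G.Adj x w → Disjoint σ (ψ w))
    (hy : ∀ w ∈ S, w ≠ x → G.Adj y w → Disjoint τ (ψ w)) :
    Valid G S L fun u => if u = x then σ else if u = y then τ else ψ u := by
  refine ⟨fun v hv => ?_, fun u hu v hv huv => ?_⟩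
  · dsimp only
    split_ifs with h1 h2
    · rw [h1]; exact hσ
    · rw [h2]; exact hτ
    · exact h.1 v hv
  · dsimp only
    have hne := huv.ne
    by_cases u1 : u = x
    · rw [if_pos u1, if_neg (fun e => hne (u1.trans e.symm))]
      by_cases v2 : v = y
      · rw [if_pos v2]; exact hd
      · rw [if_neg v2]; exact hx v hv v2 (u1 ▸ huv)
    rw [if_neg u1]
    by_cases u2 : u = y
    · rw [if_pos u2]
      by_cases v1 : v = x
      · rw [if_pos v1]; exact hd.symm
      · rw [if_neg v1, if_neg (fun e => hne (u2.trans e.symm))]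
        exact hy v hv v1 (u2 ▸ huv)
    rw [if_neg u2]
    by_cases v1 : v = x
    · rw [if_pos v1]; exact (hx u hu u2 (v1 ▸ huv.symm)).symm
    rw [if_neg v1]
    by_cases v2 : v = y
    · rw [if_pos v2]; exact (hy u hu u1 (v2 ▸ huv.symm)).symm
    · rw [if_neg v2]; exact h.2 u hu v hv huv

/-- the set part of SWAP -/
theorem MT.swap_sets {A1 A3 α β W : Finset ℕ} {m K : ℕ} (hK : 20 * K ≤ m) (c1 : 2 * m ≤ A1.card)
    (c3 : 2 * m ≤ A3.card) (cα : α.card = m) (cβ : β.card = m) (hd : Disjoint α β)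
    (hW : W ⊆ α) (cW : m ≤ W.card + 5 * K) :
    ∃ F ⊆ W, ∃ F' ⊆ A1, ∃ Rf ⊆ A3, F.card = 2 * K ∧ F'.card = 2 * K ∧ Rf.card = 2 * K ∧
      Disjoint F' α ∧ Disjoint Rf β ∧ Disjoint Rf F' ∧ Disjoint Rf (α \ F) := by
  obtain ⟨F', f1, f2, f3⟩ := avoid A1 α (2 * K) (by omega)
  by_cases h : 4 * K ≤ (A3 \ (α ∪ β)).card
  · obtain ⟨F, g1, g2⟩ := exists_subset_card_eq (show 2 * K ≤ W.card by omega)
    obtain ⟨Rf, r1, r2, r3⟩ := avoid (A3 \ (α ∪ β)) F' (2 * K) (by omega)
    have r4 : Disjoint Rf (α ∪ β) := disjoint_of_subset_left r1 sdiff_disjoint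
    exact ⟨F, g1, F', f1, Rf, r1.trans sdiff_subset, g2, f2, r2, f3,
      r4.mono_right subset_union_right, r3,
      r4.mono_right (sdiff_subset.trans subset_union_left)⟩
  · have e1 : A3 ⊆ (A3 \ (α ∪ β)) ∪ β ∪ (W ∩ A3) ∪ (α \ W) := by
      intro x hx
      simp only [mem_union, mem_sdiff, mem_inter]
      tauto
    have e2 := card_le_card e1
    have e3 := card_union_le ((A3 \ (α ∪ β)) ∪ β ∪ (W ∩ A3)) (α \ W)
    have e4 := card_union_le ((A3 \ (α ∪ β)) ∪ β) (W ∩ A3)
    have e5 := card_union_le (A3 \ (α ∪ β)) β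
    have e6 := card_sdiff_add_card_eq_card hW
    obtain ⟨F, g1, g2⟩ := exists_subset_card_eq (show 2 * K ≤ (W ∩ A3).card by omega)
    have g3 : F ⊆ α := g1.trans (inter_subset_left.trans hW)
    exact ⟨F, g1.trans inter_subset_left, F', f1, F, g1.trans inter_subset_right, g2, f2, g2, f3,
      hd.mono_left g3, (f3.mono_right g3).symm, disjoint_sdiff⟩

/-- two colourings of `S` that differ on a set of `2K` colours at `s` -/
def MT.Two (G : SimpleGraph V) (S : Finset V) (L φ : V → Finset ℕ) (m K : ℕ) (a s : V)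
    (α W : Finset ℕ) : Prop :=
  ∃ F ⊆ W, ∃ φ1 φ2 : V → Finset ℕ, F.card = 2 * K ∧ Valid G S L φ1 ∧ Valid G S L φ2 ∧
    (∀ v ∈ S, (φ1 v).card = m) ∧ (∀ v ∈ S, (φ2 v).card = m) ∧ φ1 s = α ∧ Disjoint F (φ2 s) ∧
    (∀ u ∈ S, G.Adj a u → u ≠ s → φ2 u ⊆ φ u) ∧ ∀ u ∈ S, u ≠ s → F ∩ φ1 u ⊆ φ2 u

theorem MT.swap {S : Finset V} {r : V → ℕ} {L φ : V → Finset ℕ} {m K : ℕ} (hK : 20 * K ≤ m)
    (hC : InClass G S r) (hL : Lists S r m L) (hφ : Valid G S L φ)
    (h1 : ∀ v ∈ S, m ≤ (φ v).card) (h2 : ∀ v ∈ S, ¬ InTV G S r v → m + 4 * K ≤ (φ v).card)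
    (h3 : ∀ v ∈ S, InTV G S r v → (φ v).card ≤ m) {a s s2 s3 : V} (hs : s ∈ S) (hs2 : s2 ∈ S)
    (hs3 : s3 ∈ S) (a12 : G.Adj s s2) (a13 : G.Adj s s3) (a23 : G.Adj s2 s3) (r1 : r s = 2)
    (r2 : r s2 = 2) (r3 : r s3 = 2) (hna : ¬ G.Adj a s3) {α W : Finset ℕ} (hα : α ⊆ φ s)
    (cα : α.card = m) (hW : W ⊆ α) (cW : m ≤ W.card + 5 * K) : MT.Two G S L φ m K a s α W := by
  have t2 : InTV G S r s2 := ⟨hs2, s, hs, s3, hs3, a12.symm, a23, a13, r2, r1, r3⟩
  have t3 : InTV G S r s3 := ⟨hs3, s, hs, s2, hs2, a13.symm, a23.symm, a12, r3, r1, r2⟩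
  have l1 := hL s hs
  have l3 := hL s3 hs3
  rw [r1] at l1
  rw [r3] at l3
  have k2 := h3 s2 hs2 t2
  have e1 := le_card_sdiff (φ s2) (L s)
  have e3 := le_card_sdiff (φ s2) (L s3)
  have cβ : (φ s3).card = m := le_antisymm (h3 s3 hs3 t3) (h1 s3 hs3)
  have dαβ : Disjoint α (φ s3) := (hφ.2 s hs s3 hs3 a13).mono_left hα
  obtain ⟨F, hF, F', hF', Rf, hRf, cF, cF', cRf, d1, d2, d3, d4⟩ :=
    MT.swap_sets (A1 := L s \ φ s2) (A3 := L s3 \ φ s2) hK (by omega) (by omega) cα cβ dαβ hW cW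
  have hFα : F ⊆ α := hF.trans hW
  have cN := card_union_le F' Rf
  obtain ⟨ψ, p0, p1⟩ := MT.trim (k := 4 * K) (InTV G S r) h1 h2 hα cα (F' ∪ Rf) (by omega)
  have hψ : Valid G S L ψ := hφ.shrink fun v hv => (p1 v hv).1
  have cτ : m ≤ ((φ s3 \ F') ∪ Rf).card := by
    rw [card_union_of_disjoint (d2.symm.mono_left sdiff_subset)]
    have := le_card_sdiff F' (φ s3)
    omega
  obtain ⟨τ, hτ, cτ'⟩ := exists_subset_card_eq cτ
  have cσ : ((α \ F) ∪ F').card = m := by
    rw [card_union_of_disjoint (d1.symm.mono_left sdiff_subset)]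
    have := card_sdiff_add_card_eq_card hFα
    omega
  have hσA : (α \ F) ∪ F' ⊆ L s \ φ s2 := union_subset (fun x hx =>
    mem_sdiff.2 ⟨hφ.1 s hs (hα (mem_sdiff.1 hx).1),
      disjoint_left.1 (hφ.2 s hs s2 hs2 a12) (hα (mem_sdiff.1 hx).1)⟩) hF'
  have hτA : τ ⊆ L s3 \ φ s2 := hτ.trans (union_subset (fun x hx =>
    mem_sdiff.2 ⟨hφ.1 s3 hs3 (mem_sdiff.1 hx).1,
      disjoint_left.1 (hφ.2 s3 hs3 s2 hs2 a23.symm) (mem_sdiff.1 hx).1⟩) hRf)
  have hv2 := MT.valid_two (x := s) (y := s3) (σ := (α \ F) ∪ F') (τ := τ) hψ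
    (hσA.trans sdiff_subset) (hτA.trans sdiff_subset) ?_ ?_ ?_
  · refine ⟨F, hF, ψ, _, cF, hψ, hv2, fun v hv => (p1 v hv).2.1, fun v hv => ?_, p0, ?_,
      fun u hu hau hus => ?_, fun u hu hus => ?_⟩
    · split_ifs
      · exact cσ
      · exact cτ'
      · exact (p1 v hv).2.1
    · rw [if_pos rfl, disjoint_union_right]
      exact ⟨disjoint_sdiff, (d1.mono_right hFα).symm⟩
    · rw [if_neg hus, if_neg (fun e : u = s3 => hna (e ▸ hau))]
      exact (p1 u hu).1
    · rw [if_neg hus]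
      split_ifs with e
      · intro x hx
        rw [e] at hx
        exact absurd ((p1 s3 hs3).1 (mem_inter.1 hx).2)
          (disjoint_left.1 dαβ (hFα (mem_inter.1 hx).1))
      · exact inter_subset_right
  · refine Disjoint.mono_right hτ ?_
    rw [disjoint_union_left, disjoint_union_right, disjoint_union_right]
    exact ⟨⟨dαβ.mono sdiff_subset sdiff_subset, d4.symm⟩, disjoint_sdiff, d3.symm⟩
  · intro w hw hw3 hsw
    by_cases hT : InTV G S r w
    · rcases tt hC hs hs2 hs3 a12 a13 a23 r1 r2 r3 hT hsw.symm with e | e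
      · rw [e]
        exact (disjoint_of_subset_left hσA sdiff_disjoint).mono_right (p1 s2 hs2).1
      · exact absurd e hw3
    · rw [disjoint_union_left]
      exact ⟨(hφ.2 s hs w hw hsw).mono (sdiff_subset.trans hα) (p1 w hw).1,
        (((p1 w hw).2.2 hT hsw.ne.symm).mono_right subset_union_left).symm⟩
  · intro w hw hws hsw
    by_cases hT : InTV G S r w
    · rcases tt hC hs3 hs hs2 a13.symm a23.symm a12 r3 r1 r2 hT hsw.symm with e | e
      · exact absurd e hws
      · rw [e]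
        exact (disjoint_of_subset_left hτA sdiff_disjoint).mono_right (p1 s2 hs2).1
    · refine Disjoint.mono_left hτ ?_
      rw [disjoint_union_left]
      exact ⟨(hφ.2 s3 hs3 w hw hsw).mono sdiff_subset (p1 w hw).1,
        (((p1 w hw).2.2 hT hws).mono_right subset_union_right).symm⟩

theorem MT.two {S : Finset V} {r : V → ℕ} {L φ : V → Finset ℕ} {m K : ℕ} (hK : 20 * K ≤ m)
    (hC : InClass G S r) (hL : Lists S r m L) (hφ : Valid G S L φ)
    (h1 : ∀ v ∈ S, m ≤ (φ v).card) (h2 : ∀ v ∈ S, ¬ InTV G S r v → m + 4 * K ≤ (φ v).card)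
    (h3 : ∀ v ∈ S, InTV G S r v → (φ v).card ≤ m) {a s : V} (hs : s ∈ S) (has : G.Adj a s)
    (hdeg : deg G S a ≤ 2) {α W : Finset ℕ} (hα : α ⊆ φ s)
    (cα : α.card = m) (hW : W ⊆ α) (cW : m ≤ W.card + 5 * K) : MT.Two G S L φ m K a s α W := by
  by_cases hT : InTV G S r s
  · obtain ⟨-, s2, hs2, s3, hs3, a12, a13, a23, r1, r2, r3⟩ := hT
    by_cases n3 : G.Adj a s3
    · by_cases n2 : G.Adj a s2
      · have : ({s, s2, s3} : Finset V).card ≤ deg G S a := le_deg fun u hu => by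
          simp only [mem_insert, mem_singleton] at hu
          rcases hu with rfl | rfl | rfl
          exacts [⟨hs, has⟩, ⟨hs2, n2⟩, ⟨hs3, n3⟩]
        rw [card_eq_three.2 ⟨s, s2, s3, a12.ne, a13.ne, a23.ne, rfl⟩] at this
        omega
      · exact MT.swap hK hC hL hφ h1 h2 h3 hs hs3 hs2 a13 a12 a23.symm r1 r3 r2 n2 hα cα hW cW
    · exact MT.swap hK hC hL hφ h1 h2 h3 hs hs2 hs3 a12 a13 a23 r1 r2 r3 n3 hα cα hW cW
  · obtain ⟨F, hF, cF⟩ := exists_subset_card_eq (show 2 * K ≤ W.card by omega)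
    have := h2 s hs hT
    obtain ⟨σ, s1, s2, s3⟩ := avoid (φ s) F m (by omega)
    obtain ⟨ψ, p0, p1⟩ := MT.trim (k := 4 * K) (InTV G S r) h1 h2 hα cα ∅ (by simp)
    refine ⟨F, hF, ψ, fun u => if u = s then σ else ψ u, cF, hφ.shrink fun v hv => (p1 v hv).1,
      hφ.shrink fun v hv => ?_, fun v hv => (p1 v hv).2.1, fun v hv => ?_, p0, ?_,
      fun u hu _ hus => ?_, fun u hu hus => ?_⟩
    · split_ifs with e
      · rw [e]; exact s1
      · exact (p1 v hv).1
    · dsimp only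
      split_ifs
      · exact s2
      · exact (p1 v hv).2.1
    · dsimp only
      rw [if_pos rfl]; exact s3.symm
    · dsimp only
      rw [if_neg hus]; exact (p1 u hu).1
    · dsimp only
      rw [if_neg hus]; exact inter_subset_right

theorem MT.core (hG : MinorFree G) {n K M m : ℕ} (hR : Robust G n (4 * K) M) {H O S : Finset V}
    {r : V → ℕ} {L : V → Finset ℕ} (hA : Apex G H r O) (hC : InClass G H r)
    (hn : H.card ≤ n + 1) (hm : M ≤ m) (hK : 20 * K ≤ m) (hL : Lists H r m L) (hS : S ⊆ H)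
    (hat : Attached G r S) (hC' : InClass G (H \ S) (addDeg G r S))
    (hall : ∀ u ∈ H \ S, InTV G (H \ S) (addDeg G r S) u) {a b c s : V} (ha : a ∈ H \ S)
    (hb : b ∈ H \ S) (hc : c ∈ H \ S) (hab : G.Adj a b) (hac : G.Adj a c) (hbc : G.Adj b c)
    (ra : addDeg G r S a = 2) (rb : addDeg G r S b = 2) (rc : addDeg G r S c = 2)
    (hs : s ∈ S) (has : G.Adj a s) (hbs : ¬ G.Adj b s) : Win G H L m K := by
  classical
  have hSn : S.card ≤ n := by
    have : S.card < H.card := card_lt_card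
      ⟨hS, fun h => (mem_sdiff.1 ha).2 (h (mem_sdiff.1 ha).1)⟩
    omega
  obtain ⟨φ0, q1, q2, q3⟩ := hR S r O (hA.mono hS) (hC.mono hS) hSn m hm L (hL.mono hS)
  obtain ⟨φ, hφ0⟩ := exists_trim S φ0 (fun v => if InTV G S r v then m else m + 4 * K)
    fun v hv => by
      split_ifs with e
      · exact q2 v hv
      · exact q3 v hv e
  have hφ : Valid G S L φ := q1.shrink fun v hv => (hφ0 v hv).1
  have h1 : ∀ v ∈ S, m ≤ (φ v).card := fun v hv => by
    rw [(hφ0 v hv).2]; split_ifs <;> omega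
  have h2 : ∀ v ∈ S, ¬ InTV G S r v → m + 4 * K ≤ (φ v).card := fun v hv e => by
    rw [(hφ0 v hv).2, if_neg e]
  have h3 : ∀ v ∈ S, InTV G S r v → (φ v).card ≤ m := fun v hv e => by
    rw [(hφ0 v hv).2, if_pos e]
  have h4 : ∀ v ∈ S, (φ v).card ≤ m + 4 * K := fun v hv => by
    rw [(hφ0 v hv).2]; split_ifs <;> omega
  have win := fun (ψ : V → Finset ℕ) => MT.triwin (ψ := ψ) hG hA (show K ≤ m by omega) hL hS hat
    hC' hall ha hb hc hab hac hbc ra rb rc
  set P := rem G (S.erase s) L φ a with hP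
  have hdeg : deg G S a = deg G (S.erase s) a + 1 := by
    conv_lhs => rw [← insert_erase hs]
    rw [deg_insert (notMem_erase s S), if_pos has]
  have ra' := ra
  unfold addDeg at ra'
  have cP : 4 * m ≤ P.card + 4 * K := by
    have e1 := rem_card (G := G) (S := S.erase s) L (fun w hw => h4 w (mem_of_mem_erase hw)) a
    have e2 := hL a (mem_sdiff.1 ha).1
    rw [← hP] at e1
    rcases (by omega : (r a = 1 ∧ deg G (S.erase s) a = 0) ∨
      (r a = 0 ∧ deg G (S.erase s) a = 1)) with ⟨e3, e4⟩ | ⟨e3, e4⟩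
    · rw [e4] at e1; rw [e3] at e2; omega
    · rw [e4] at e1; rw [e3] at e2; omega
  obtain ⟨α, hα, cα⟩ := exists_subset_card_eq (h1 s hs)
  have inrem : ∀ ψ : V → Finset ℕ, (∀ u ∈ S, G.Adj a u → u ≠ s → ψ u ⊆ φ u) →
      ∀ x ∈ P, x ∉ ψ s → x ∈ rem G S L ψ a := by
    intro ψ hψ x hx hxs
    obtain ⟨x1, x2⟩ := mem_rem.1 hx
    refine mem_rem.2 ⟨x1, fun w hw haw h => ?_⟩
    by_cases e : w = s
    · exact hxs (e ▸ h)
    · exact x2 w (mem_erase.2 ⟨e, hw⟩) haw (hψ w hw haw e h)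
  by_cases hW : m ≤ (α ∩ P).card + 5 * K
  · obtain ⟨F, hF, φ1, φ2, cF, v1, v2, c1, c2, e1, dF, f1, f2⟩ :=
      MT.two hK (hC.mono hS) (hL.mono hS) hφ h1 h2 h3 hs has (by omega) hα cα
        (inter_subset_left : α ∩ P ⊆ α) hW
    have lists : ∀ ψ : V → Finset ℕ, (∀ v ∈ S, (ψ v).card = m) → ∀ v ∈ H \ S,
        addDeg G r S v = 2 → 3 * m ≤ (rem G S L ψ v).card := by
      intro ψ hψ v hv rv
      have := rem_lists (G := G) (r' := addDeg G r S) (hL.mono (sdiff_subset : H \ S ⊆ H))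
        (fun w hw => (hψ w hw).le) (fun _ _ => le_rfl) v hv
      rw [rv] at this
      omega
    have sp := card_sdiff_add_card_inter F (rem G S L φ2 b)
    by_cases hcase : K ≤ (F \ rem G S L φ2 b).card
    · refine win φ2 v2 c2 ?_
      have g1 : (F \ rem G S L φ2 b) ∪ rem G S L φ2 b ⊆ rem G S L φ2 a ∪ rem G S L φ2 b :=
        union_subset_union (fun x hx => inrem φ2 f1 x (mem_inter.1 (hF (mem_sdiff.1 hx).1)).2
          (disjoint_left.1 dF (mem_sdiff.1 hx).1)) subset_rfl
      have g2 := card_le_card g1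
      rw [card_union_of_disjoint sdiff_disjoint] at g2
      have := lists φ2 c2 b hb rb
      omega
    · refine win φ1 v1 c1 ?_
      have g0 : Disjoint (rem G S L φ1 a) (F ∩ rem G S L φ2 b) :=
        (rem_disjoint L φ1 hs has).mono_right
          (e1 ▸ inter_subset_left.trans (hF.trans inter_subset_left))
      have g1 : rem G S L φ1 a ∪ (F ∩ rem G S L φ2 b) ⊆ rem G S L φ1 a ∪ rem G S L φ1 b := by
        refine union_subset_union subset_rfl fun x hx => ?_
        obtain ⟨x0, hx'⟩ := mem_inter.1 hx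
        obtain ⟨x1, x2⟩ := mem_rem.1 hx'
        exact mem_rem.2 ⟨x1, fun w hw hbw h => x2 w hw hbw
          (f2 w hw (fun e => hbs (e ▸ hbw)) (mem_inter.2 ⟨x0, h⟩))⟩
      have g2 := card_le_card g1
      rw [card_union_of_disjoint g0] at g2
      have := lists φ1 c1 a ha ra
      omega
  · obtain ⟨ψ, p0, p1⟩ := MT.trim (k := 4 * K) (InTV G S r) h1 h2 hα cα ∅ (by simp)
    refine win ψ (hφ.shrink fun v hv => (p1 v hv).1) (fun v hv => (p1 v hv).2.1) ?_
    have g1 : P \ α ⊆ rem G S L ψ a ∪ rem G S L ψ b := fun x hx =>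
      mem_union_left _ (inrem ψ (fun u hu _ _ => (p1 u hu).1) x (mem_sdiff.1 hx).1
        (p0 ▸ (mem_sdiff.1 hx).2))
    have g2 := card_le_card g1
    have g3 := card_sdiff_add_card_inter P α
    rw [inter_comm] at g3
    omega

theorem mt (hG : MinorFree G) {n K M m : ℕ} (hR : Robust G n (4 * K) M) {H O S : Finset V}
    {r : V → ℕ} {L : V → Finset ℕ} (hA : Apex G H r O) (hC : InClass G H r)
    (hn : H.card ≤ n + 1) (hm : M ≤ m) (hK : 20 * K ≤ m) (hL : Lists H r m L) (hS : S ⊆ H)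
    (hat : Attached G r S) (hC' : InClass G (H \ S) (addDeg G r S))
    (hall : ∀ u ∈ H \ S, InTV G (H \ S) (addDeg G r S) u)
    (hedge : ∃ s ∈ S, ∃ u ∈ H \ S, G.Adj s u) : Win G H L m K := by
  obtain ⟨s, hs, a, ha, hsa⟩ := hedge
  obtain ⟨-, b, hb, c, hc, hab, hac, hbc, ra, rb, rc⟩ := hall a ha
  have core := fun {a b c s : V} =>
    MT.core (a := a) (b := b) (c := c) (s := s) hG hR hA hC hn hm hK hL hS hat hC' hall
  by_contra hw
  refine MT.find hG hA hS hat ha hb hc hab hac hbc ra rb rc hs hsa.symm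
    (fun t ht => ⟨fun h => ?_, fun h => ?_⟩) (fun t ht => ⟨fun h => ?_, fun h => ?_⟩)
  · by_contra h'
    exact hw (core ha hb hc hab hac hbc ra rb rc ht h h')
  · by_contra h'
    exact hw (core hb ha hc hab.symm hbc hac rb ra rc ht h h')
  · by_contra h'
    exact hw (core ha hc hb hac hab hbc.symm ra rc rb ht h h')
  · by_contra h'
    exact hw (core hc ha hb hac.symm hbc.symm hab rc ra rb ht h h')

end Pool.Agent.PL5
end

-- merged part: Pool.Agent.Work.MP_db4788_co.Large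
section
/-
Section 4 of the write-up: case LARGE.
-/

set_option autoImplicit false
set_option linter.unusedSectionVars false
open Finset

namespace Pool.Agent.PL5

variable {V : Type} [DecidableEq V] {G : SimpleGraph V} [DecidableRel G.Adj]

namespace LargeAux

lemma attached_union {r : V → ℕ} {Z N : Finset V} (hZ : Attached G r Z)
    (hN : ∀ y ∈ N, ∃ x ∈ Z, G.Adj y x) : Attached G r (Z ∪ N) := by
  intro v hv
  rcases mem_union.1 hv with h | h
  · obtain ⟨b, hb, hr, hvb⟩ := hZ v h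
    exact ⟨b, mem_union_left _ hb, hr, hvb.mono subset_union_left⟩
  · obtain ⟨x, hx, hvx⟩ := hN v h
    obtain ⟨b, hb, hr, hxb⟩ := hZ x hx
    exact ⟨b, mem_union_left _ hb, hr,
      Reach.head hv (mem_union_left _ hx) hvx (hxb.mono subset_union_left)⟩

lemma heavy_le (hG : MinorFree G) {H : Finset V} (hH : H.Nonempty) :
    (H.filter fun v => H.card ≤ 1300 * deg G H v).card ≤ 7800 := by
  have h1 := two_eg (G := G) H
  have h2 := eg_le1 hG hH
  have h3 := card_nsmul_le_sum (H.filter fun v => H.card ≤ 1300 * deg G H v)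
    (fun v => 1300 * deg G H v) H.card fun v hv => (mem_filter.1 hv).2
  have h4 := sum_le_sum_of_subset (f := fun v => 1300 * deg G H v)
    (filter_subset (fun v => H.card ≤ 1300 * deg G H v) H)
  rw [← mul_sum H] at h4
  rw [smul_eq_mul] at h3
  exact Nat.le_of_mul_le_mul_right (c := H.card) (by omega) (card_pos.2 hH)

lemma walk {H Y : Finset V} {r : V → ℕ} (hat : Attached G r H) {s₀ : V} (h1 : s₀ ∈ H)
    (h2 : s₀ ∉ Y) (h3 : ¬ InTV G H r s₀) :
    ∃ s, ∃ Z ⊆ H, s ∈ Z ∧ s ∉ Y ∧ ¬ InTV G H r s ∧ Attached G r Z ∧ (Z \ Y).card ≤ 2 := by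
  by_contra hc
  obtain ⟨b, hb, hr, hsb⟩ := hat s₀ h1
  have hone : ∀ y ∈ H, 0 < r y →
      ∃ Z ⊆ H, y ∈ Z ∧ Attached G r Z ∧ (Z \ Y).card ≤ 1 := fun y hy hry =>
    ⟨{y}, by simpa using hy, by simp, attached_of_pos (by simpa using hry),
      (card_le_card sdiff_subset).trans (by simp)⟩
  obtain ⟨Z, z1, z2, z3, z4⟩ := hsb.symm.closed
    (fun x => ∃ Z ⊆ H, x ∈ Z ∧ Attached G r Z ∧ (Z \ Y).card ≤ 1)
    (fun x y _ hy hxy ⟨Z, z1, z2, z3, z4⟩ => by
      have a1 : Z ∪ {y} ⊆ H := union_subset z1 (by simpa using hy)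
      have a2 : Attached G r (Z ∪ {y}) := attached_union z3 fun y' hy' =>
        ⟨x, z2, by rw [mem_singleton.1 hy']; exact hxy.symm⟩
      by_cases hY : y ∈ Y
      · refine ⟨Z ∪ {y}, a1, by simp, a2, le_trans (card_le_card fun u hu => ?_) z4⟩
        simp only [mem_sdiff, mem_union, mem_singleton] at hu ⊢
        exact ⟨hu.1.resolve_right fun e => hu.2 (e ▸ hY), hu.2⟩
      by_cases hT : InTV G H r y
      · obtain ⟨-, _, -, _, -, -, -, -, h, -⟩ := hT
        exact hone y hy (by omega)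
      refine absurd ⟨y, Z ∪ {y}, a1, by simp, hY, hT, a2, ?_⟩ hc
      rw [union_sdiff_distrib]
      have b1 := card_union_le (Z \ Y) ({y} \ Y)
      have b2 := card_le_card (sdiff_subset (s := {y}) (t := Y))
      rw [card_singleton] at b2
      omega) (hone b hb hr)
  exact hc ⟨s₀, Z, z1, z2, h2, h3, z3, by omega⟩

end LargeAux

open LargeAux in
theorem win_large (hG : MinorFree G) {n K M m : ℕ} (hR : Robust G n K M) {H O : Finset V}
    {r : V → ℕ} {L : V → Finset ℕ} (hA : Apex G H r O) (hC : InClass G H r)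
    (hn : H.card ≤ n + 1) (hm : M ≤ m) (hL : Lists H r m L) (hbig : 100000000 ≤ H.card)
    (hat : Attached G r H) (hT : ∃ v ∈ H, ¬ InTV G H r v) : Win G H L m K := by
  classical
  have hY := heavy_le hG (H := H) (card_pos.1 (by omega))
  set Y := H.filter fun v => H.card ≤ 1300 * deg G H v with hYd
  obtain ⟨s₀, s1, s2, s3⟩ : ∃ s₀ ∈ H, s₀ ∉ Y ∧ ¬ InTV G H r s₀ := by
    obtain ⟨v, hv, hvT⟩ := hT
    by_contra hc
    push Not at hc
    have hvY : v ∈ Y := by
      by_contra h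
      exact hvT (hc v hv h)
    have a1 := tv_nbr_le (N := nbr G H v \ Y) hC hv hvT fun u hu => by
      obtain ⟨b1, b2⟩ := mem_sdiff.1 hu
      exact ⟨hc u (mem_nbr.1 b1).1 b2, (mem_nbr.1 b1).2⟩
    have a2 := le_card_sdiff Y (nbr G H v)
    have a3 := (mem_filter.1 hvY).2
    unfold deg at a3
    omega
  obtain ⟨s, Z₀, z1, z2, z3, z4, z5, z6⟩ := walk hat s1 s2 s3
  have hsd : 1300 * deg G H s < H.card := by
    by_contra h
    exact z3 (mem_filter.2 ⟨z1 z2, not_lt.1 h⟩)
  set Z := Z₀ ∪ nbr G H s with hZ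
  have hZH : Z ⊆ H := union_subset z1 (nbr_subset _ _)
  have hZa : Attached G r Z := attached_union z5 fun y hy => ⟨s, z2, (mem_nbr.1 hy).2.symm⟩
  have hZc : Z.card ≤ 7802 + deg G H s := by
    have a1 := card_union_le Z₀ (nbr G H s)
    have a2 := le_card_sdiff Y Z₀
    rw [← hZ] at a1
    unfold deg
    omega
  obtain ⟨S, hS, hmin⟩ := exists_min_image (H.powerset.filter fun T => Z ⊆ T)
    (fun T => (T.card : ℤ) - 100 * dfc G r T) ⟨H, by simpa using hZH⟩
  simp only [mem_filter, mem_powerset, and_imp] at hS hmin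
  have hSa : Attached G r S := by
    by_cases h : att G r S = S
    · rw [← h]; exact attached_att r S
    · have a1 := dfc_att hG r h
      have a2 := hmin _ ((att_subset r S).trans hS.1) (hZa.subset_att hS.2)
      have a3 := card_le_card (att_subset (G := G) r S)
      omega
  have hne : (H \ S).Nonempty := by
    rw [sdiff_nonempty]
    intro h
    have a1 := hmin Z hZH subset_rfl
    rw [subset_antisymm hS.1 h] at a1
    have a2 := hC H subset_rfl
    have a3 := dfc_ge (G := G) r Z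
    omega
  have hq : ∀ T ⊆ H \ S, 100 * dfc G (addDeg G r S) T ≤ T.card := fun T hT => by
    have hd : Disjoint S T := disjoint_sdiff.mono_right hT
    have a1 := hmin (S ∪ T) (union_subset hS.1 (hT.trans sdiff_subset))
      (hS.2.trans subset_union_left)
    rw [dfc_union r hd, card_union_of_disjoint hd] at a1
    omega
  have hch := thmE hG (hA.absorb_addDeg hS.1 hSa) (fun v hv => by
      have := hq {v} (by simpa using hv)
      rw [dfc_singleton, card_singleton] at this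
      omega) (fun T hT => by
      have a1 := hq T hT
      have a2 : (T.card : ℤ) ≤ ∑ v ∈ T, (1 + phi (addDeg G r S v)) := by
        have := card_nsmul_le_sum T (fun v => 1 + phi (addDeg G r S v)) 1
          fun v _ => by have := phi_nonneg (addDeg G r S v); omega
        simpa using this
      unfold pot
      omega) m
  have e : H \ (H \ S) = S := Finset.sdiff_sdiff_eq_self hS.1
  refine t1 (s := s) hR hA hC hn hm hL sdiff_subset hne ?_ (fun u hu hsu => ?_) z4
    (extends_of_choosable (hL.mono sdiff_subset) hch fun u _ => by rw [e]; rfl)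
  · rw [e]; exact hS.2 (mem_union_left _ z2)
  · obtain ⟨a1, a2⟩ := mem_sdiff.1 hu
    exact a2 (hS.2 (mem_union_right _ (mem_nbr.2 ⟨a1, hsu⟩)))

end Pool.Agent.PL5
end

-- merged part: Pool.Agent.Work.MP_db4788_co.D0
section
/-
Section 4 of the write-up: case D0.
-/

set_option autoImplicit false
set_option linter.unusedSectionVars false
open Finset

namespace Pool.Agent.PL5

variable {V : Type} [DecidableEq V] {G : SimpleGraph V} [DecidableRel G.Adj]

structure DZ (G : SimpleGraph V) [DecidableRel G.Adj] (H : Finset V) (r : V → ℕ)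
    (O : Finset V) (L : V → Finset ℕ) (m K : ℕ) : Prop where
  mf : MinorFree G
  apex : Apex G H r O
  r2 : ∀ v ∈ H, r v ≤ 2
  zero : dfc G r H = 0
  neg : ∀ S ⊆ H, S.Nonempty → S ≠ H → dfc G r S ≤ -1
  three : 3 ≤ (H.filter (fun v => r v = 2)).card
  notri : ∀ v, ¬ InTV G H r v
  lists : Lists H r m L
  km : K ≤ m
  t1 : ∀ (U : Finset V) (s : V), U ⊆ H → U.Nonempty → s ∈ H \ U → (∀ u ∈ U, ¬ G.Adj s u) →
    Extends G H U L m → Win G H L m K

section Cases

variable {H O : Finset V} {r : V → ℕ} {L : V → Finset ℕ} {m K : ℕ}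

theorem DZ.le_zero (h : DZ G H r O L m K) {S : Finset V} (hS : S ⊆ H) : dfc G r S ≤ 0 := by
  by_cases h1 : S = H
  · rw [h1, h.zero]
  · rcases S.eq_empty_or_nonempty with h2 | h2
    · rw [h2, dfc_empty]
    · have := h.neg S hS h2 h1
      omega

/-- NS -/
theorem DZ.ns (h : DZ G H r O L m K) (hn : ¬ Win G H L m K) {a b x y : V} (ha : a ∈ H)
    (hb : b ∈ H) (hab : G.Adj a b) (ra : 0 < r a) (rb : 0 < r b) (hx : x ∈ H \ {a, b})
    (hy : y ∈ H \ {a, b}) : Reach G (H \ {a, b}) x y := by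
  by_contra hxy
  apply hn
  have hyU : y ∉ comp G (H \ {a, b}) x := fun hh => hxy (mem_comp.1 hh).2
  refine h.t1 (comp G (H \ {a, b}) x) y ((comp_subset _ _).trans sdiff_subset)
    ⟨x, self_mem_comp hx⟩ (mem_sdiff.2 ⟨(mem_sdiff.1 hy).1, hyU⟩)
    (fun u hu hyu => hyU (comp_closed hu hy hyu.symm)) ?_
  refine chord_extends h.mf h.apex h.r2 ha hb hab ra rb (comp_subset _ _) ?_ h.lists
  intro u hu w hw huw
  by_cases h1 : w = a
  · exact Or.inr (Or.inl h1)
  by_cases h2 : w = b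
  · exact Or.inr (Or.inr h2)
  exact Or.inl (comp_closed hu (mem_sdiff.2 ⟨hw, by simp [h1, h2]⟩) huw)

theorem DZ.not_three (h : DZ G H r O L m K) (hn : ¬ Win G H L m K) {v b1 b2 b3 : V}
    (hv : v ∈ H) (h1 : b1 ∈ H) (h2 : b2 ∈ H) (h3 : b3 ∈ H)
    (rv : 0 < r v) (r1 : 0 < r b1) (r2 : 0 < r b2) (r3 : 0 < r b3)
    (a1 : G.Adj v b1) (a2 : G.Adj v b2) (a3 : G.Adj v b3)
    (n12 : b1 ≠ b2) (n13 : b1 ≠ b3) (n23 : b2 ≠ b3) : False := by
  have e1 := a1.ne.symm
  have e2 := a2.ne.symm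
  have e3 := a3.ne.symm
  rcases m1_single h.mf h.apex hv h1 h2 h3 rv r1 r2 r3 a1 a2 a3 n12 n13 n23 with hh | hh | hh
  · exact hh (h.ns hn hv h1 a1 rv r1 (by simp [h2, e2, n12.symm]) (by simp [h3, e3, n13.symm]))
  · exact hh (h.ns hn hv h2 a2 rv r2 (by simp [h1, e1, n12]) (by simp [h3, e3, n23.symm]))
  · exact hh (h.ns hn hv h3 a3 rv r3 (by simp [h1, e1, n13]) (by simp [h2, e2, n23]))

/-- every vertex of `B` has exactly two neighbours in `B` -/
theorem DZ.two (h : DZ G H r O L m K) (hn : ¬ Win G H L m K) {v : V} (hv : v ∈ H)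
    (rv : 0 < r v) : ∃ a ∈ H, ∃ b ∈ H, a ≠ b ∧ 0 < r a ∧ 0 < r b ∧ G.Adj v a ∧ G.Adj v b ∧
      ∀ u ∈ H, 0 < r u → G.Adj v u → u = a ∨ u = b := by
  have key : ∀ w, ∃ u ∈ H, G.Adj v u ∧ 0 < r u ∧ u ≠ w := fun w => by
    by_contra hc
    push Not at hc
    exact hn (w2 h.mf h.apex h.r2 hv (Or.inl rv) w hc h.km h.lists)
  obtain ⟨a, ha, va, ra, _⟩ := key v
  obtain ⟨b, hb, vb, rb, hba⟩ := key a
  refine ⟨a, ha, b, hb, hba.symm, ra, rb, va, vb, fun u hu ru vu => ?_⟩
  by_contra hc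
  push Not at hc
  exact h.not_three hn hv ha hb hu rv ra rb ru va vb vu hba.symm hc.1.symm hc.2.symm

/-- the other neighbour in `B` -/
theorem DZ.other (h : DZ G H r O L m K) (hn : ¬ Win G H L m K) {v a : V} (hv : v ∈ H)
    (rv : 0 < r v) (ha : a ∈ H) (ra : 0 < r a) (va : G.Adj v a) :
    ∃ b ∈ H, a ≠ b ∧ 0 < r b ∧ G.Adj v b ∧ ∀ u ∈ H, 0 < r u → G.Adj v u → u = a ∨ u = b := by
  obtain ⟨x, hx, y, hy, hxy, rx, ry, vx, vy, hall⟩ := h.two hn hv rv
  rcases hall a ha ra va with e | e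
  · subst e
    exact ⟨y, hy, hxy, ry, vy, hall⟩
  · subst e
    exact ⟨x, hx, hxy.symm, rx, vx, fun u hu ru vu => (hall u hu ru vu).symm⟩

/-- `B` has at least four vertices -/
theorem DZ.four (h : DZ G H r O L m K) (hn : ¬ Win G H L m K) (a b c : V) :
    ∃ s ∈ H, 0 < r s ∧ s ≠ a ∧ s ≠ b ∧ s ≠ c := by
  by_contra hc
  push Not at hc
  have hB : ∀ s ∈ H, 0 < r s → s ∈ ({a, b, c} : Finset V) := fun s hs rs => by
    by_cases h1 : s = a
    · simp [h1]
    by_cases h2 : s = b
    · simp [h2]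
    simp [hc s hs rs h1 h2]
  have hsub : H.filter (fun v => r v = 2) ⊆ {a, b, c} := fun s hs =>
    hB s (mem_filter.1 hs).1 (by have := (mem_filter.1 hs).2; omega)
  have heq : H.filter (fun v => r v = 2) = {a, b, c} :=
    eq_of_subset_of_card_le hsub (card_le_three.trans h.three)
  have hr : ∀ s ∈ ({a, b, c} : Finset V), s ∈ H ∧ r s = 2 := fun s hs => by
    rw [← heq] at hs; exact mem_filter.1 hs
  have ha := hr a (by simp)
  obtain ⟨x, hx, y, hy, hxy, rx, ry, ax, ay, _⟩ := h.two hn ha.1 (by omega)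
  obtain ⟨z, hz, az, rz, xz, _⟩ := h.other hn hx rx ha.1 (by omega) ax.symm
  have hzy : z = y := by
    have h1 := hB x hx rx
    have h2 := hB y hy ry
    have h3 := hB z hz rz
    have n1 := ax.ne
    have n2 := ay.ne
    have n3 := xz.ne
    simp only [mem_insert, mem_singleton] at h1 h2 h3
    rcases h1 with h1 | h1 | h1 <;> rcases h2 with h2 | h2 | h2 <;>
      rcases h3 with h3 | h3 | h3 <;>
      first
        | exact absurd h1.symm n1
        | exact absurd h2.symm n2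
        | exact absurd h3.symm az
        | exact h3.trans h2.symm
        | exact absurd (h1.trans h2.symm) hxy
        | exact absurd (h1.trans h3.symm) n3
  subst hzy
  exact h.notri a ⟨ha.1, x, hx, z, hz, ax, ay, xz, ha.2, (hr x (hB x hx rx)).2,
    (hr z (hB z hz rz)).2⟩

/-- (b') -/
theorem DZ.bp (h : DZ G H r O L m K) {U : Finset V} {s : V} (hU : U ⊆ H) (hne : U.Nonempty)
    (hs : s ∈ H \ U) (hsU : ∀ u ∈ U, ¬ G.Adj s u) (hd : -2 ≤ dfc G r (H \ U))
    (hc : 2 ≤ U.card ∨ -1 ≤ dfc G r (H \ U)) : Win G H L m K := by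
  have e : H \ (H \ U) = U := Finset.sdiff_sdiff_eq_self hU
  have hat : Attached G r (H \ U) := by
    by_cases h1 : att G r (H \ U) = H \ U
    · rw [← h1]; exact attached_att r _
    · have h2 := dfc_att h.mf r h1
      have h3 := h.le_zero ((att_subset (G := G) r (H \ U)).trans sdiff_subset)
      omega
  have hA := h.apex.absorb_addDeg sdiff_subset hat
  rw [e] at hA
  have hT : ∀ T ⊆ U, dfc G (addDeg G r (H \ U)) T = dfc G r (H \ U ∪ T) - dfc G r (H \ U) :=
    fun T hT => by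
      rw [dfc_union r (sdiff_disjoint.mono_right hT)]; ring
  refine h.t1 U s hU hne hs hsU ?_
  refine extends_of_choosable (h.lists.mono hU) (e0 h.mf hA ?_ ?_ m) (fun u _ => le_rfl)
  · intro v hv
    have h1 := hT {v} (singleton_subset_iff.2 hv)
    rw [dfc_singleton] at h1
    have h2 : H \ U ∪ {v} ⊆ H := union_subset sdiff_subset (singleton_subset_iff.2 (hU hv))
    have h3 := h.le_zero h2
    rcases hc with hc | hc
    · obtain ⟨w, hw, hwv⟩ := exists_mem_ne hc v
      have h4 := h.neg _ h2 ⟨v, by simp⟩ (fun hh => by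
        have : w ∈ H \ U ∪ {v} := by rw [hh]; exact hU hw
        simp [hw, hwv] at this)
      omega
    · omega
  · intro T hT'
    have h1 := hT T hT'
    have h2 := h.le_zero (union_subset sdiff_subset (hT'.trans hU) : H \ U ∪ T ⊆ H)
    omega

/-- a vertex with small total degree and a non-neighbour -/
theorem DZ.small (h : DZ G H r O L m K) {v s : V} (hv : v ∈ H) (hs : s ∈ H) (hsv : s ≠ v)
    (hn : ¬ G.Adj s v) (hd : r v + deg G H v ≤ 4) : Win G H L m K := by
  have h1 : dfc G r (insert v (H \ {v})) = dfc G r (H \ {v}) + r v + deg G (H \ {v}) v - 3 :=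
    dfc_insert r (by simp)
  have h2 : insert v (H \ {v}) = H := by
    rw [sdiff_singleton_eq_erase, insert_erase hv]
  have h3 : deg G (H \ {v}) v ≤ deg G H v := deg_mono sdiff_subset v
  rw [h2, h.zero] at h1
  refine h.bp (U := {v}) (s := s) (singleton_subset_iff.2 hv) (singleton_nonempty v)
    (by simp [hs, hsv]) (by simpa using hn) (by omega) (Or.inr (by omega))

/-- IN', once the vertex `z2` is known to miss the attached part -/
theorem DZ.inp_aux (h : DZ G H r O L m K) (hn : ¬ Win G H L m K) {s y z1 z2 z3 : V}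
    {X : Finset V} (h2 : z2 ∈ H)
    (ry : r y = 0) (hsy : s ≠ y) (n12 : z1 ≠ z2) (n13 : z1 ≠ z3) (n23 : z2 ≠ z3)
    (s1 : G.Adj s z1) (s2 : G.Adj s z2) (s3 : G.Adj s z3)
    (y1 : G.Adj y z1) (y2 : G.Adj y z2) (y3 : G.Adj y z3)
    (hX : ∀ x, x ∈ X ↔ x ∈ H ∧ x ≠ s ∧ x ≠ y ∧ x ≠ z1 ∧ x ≠ z2 ∧ x ≠ z3)
    (ht : ¬ Touch G (O ∪ att G r X) {z2}) : False := by
  have r2 : r z2 = 0 := by
    by_contra hc
    obtain ⟨o, ho, hzo⟩ := h.apex.2.2 z2 h2 (by omega)
    exact ht ⟨o, mem_union_left _ ho, z2, mem_singleton_self _, hzo.symm⟩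
  have hzX : z2 ∉ X := fun hh => ((hX z2).1 hh).2.2.2.2.1 rfl
  set U : Finset V := insert z2 (X \ att G r X) with hUdef
  set C : Finset V := {s, z1, y, z3} with hCdef
  have hUH : U ⊆ H := insert_subset h2 (fun x hx => ((hX x).1 (mem_sdiff.1 hx).1).1)
  have hr0 : ∀ u ∈ U, r u = 0 := fun u hu => by
    rcases mem_insert.1 hu with e | e
    · rw [e]; exact r2
    · by_contra hc
      exact (mem_sdiff.1 e).2 (mem_att_of_pos (mem_sdiff.1 e).1 (by omega))
  have hnb : ∀ u ∈ U, ∀ w ∈ H \ U, G.Adj u w → w ∈ C := fun u hu w hw huw => by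
    by_contra hwC
    have hwU := (mem_sdiff.1 hw).2
    simp only [hCdef, mem_insert, mem_singleton, not_or] at hwC
    have hw2 : w ≠ z2 := fun e => hwU (by rw [e]; exact mem_insert_self _ _)
    have hwX : w ∈ X := (hX w).2 ⟨(mem_sdiff.1 hw).1, hwC.1, hwC.2.2.1, hwC.2.1, hw2, hwC.2.2.2⟩
    have hwR : w ∈ att G r X := by
      by_contra hc
      exact hwU (mem_insert_of_mem (mem_sdiff.2 ⟨hwX, hc⟩))
    rcases mem_insert.1 hu with e | e
    · exact ht ⟨w, mem_union_right _ hwR, z2, mem_singleton_self _, by rw [← e]; exact huw.symm⟩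
    · exact (mem_sdiff.1 e).2 (att_closed (mem_sdiff.1 e).1 hwR huw)
  have hCU : Disjoint C U := by
    rw [disjoint_right]
    intro u hu huC
    simp only [hCdef, mem_insert, mem_singleton] at huC
    rcases mem_insert.1 hu with e | e
    · rcases huC with f | f | f | f
      · exact s2.ne (f.symm.trans e)
      · exact n12 (f.symm.trans e)
      · exact y2.ne (f.symm.trans e)
      · exact n23 (e.symm.trans f)
    · have := (hX u).1 (mem_sdiff.1 e).1
      tauto
  have a1 : s ∉ ({z1, y, z3} : Finset V) := by simp [s1.ne, hsy, s3.ne]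
  have a2 : z1 ∉ ({y, z3} : Finset V) := by simp [y1.ne.symm, n13]
  have a3 : y ∉ ({z3} : Finset V) := by simp [y3.ne]
  have hCc : C.card = 4 := by
    rw [hCdef, card_insert_of_notMem a1, card_insert_of_notMem a2, card_insert_of_notMem a3,
      card_singleton]
  have hCe : 4 ≤ eg G C := by
    rw [hCdef, eg_insert a1, eg_insert a2, eg_insert a3]
    have d1 : 2 ≤ deg G {z1, y, z3} s := by
      have := le_deg (G := G) (S := {z1, y, z3}) (N := {z1, z3}) (v := s) (by simp [s1, s3])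
      rwa [card_pair n13] at this
    have d2 : 0 < deg G {y, z3} z1 := deg_pos.2 ⟨y, by simp, y1.symm⟩
    have d3 : 0 < deg G {z3} y := deg_pos.2 ⟨z3, by simp, y3⟩
    omega
  have hCconn : Conn G C :=
    (((conn_pair y3).insert (a := y) (by simp) y1.symm).insert (a := z1) (by simp) s1)
  have hch := in_choosable h.mf hCconn (by omega) (by omega) (by omega) hCU m
  obtain ⟨s0, hs0, r0, e1, e2, e3⟩ := h.four hn s z1 z3
  have hs0U : s0 ∉ U := fun hh => by have := hr0 s0 hh; omega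
  have hs0C : s0 ∉ C := by
    have : s0 ≠ y := fun e => by rw [e] at r0; omega
    simp [hCdef, e1, e2, e3, this]
  refine hn (h.t1 U s0 hUH ⟨z2, mem_insert_self _ _⟩ (mem_sdiff.2 ⟨hs0, hs0U⟩)
    (fun u hu hh => hs0C (hnb u hu s0 (mem_sdiff.2 ⟨hs0, hs0U⟩) hh.symm)) ?_)
  refine extends_of_choosable (h.lists.mono hUH) hch (fun u hu => ?_)
  rw [hr0 u hu, zero_add]
  exact card_le_card (fun w hw => mem_nbr.2
    ⟨hnb u hu w (mem_nbr.1 hw).1 (mem_nbr.1 hw).2, (mem_nbr.1 hw).2⟩)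

/-- IN' -/
theorem DZ.inp (h : DZ G H r O L m K) (hn : ¬ Win G H L m K) {s y z1 z2 z3 : V}
    (hs : s ∈ H) (hy : y ∈ H) (h1 : z1 ∈ H) (h2 : z2 ∈ H) (h3 : z3 ∈ H)
    (ry : r y = 0) (hsy : s ≠ y) (n12 : z1 ≠ z2) (n13 : z1 ≠ z3) (n23 : z2 ≠ z3)
    (s1 : G.Adj s z1) (s2 : G.Adj s z2) (s3 : G.Adj s z3)
    (y1 : G.Adj y z1) (y2 : G.Adj y z2) (y3 : G.Adj y z3) : False := by
  set X : Finset V := H \ {s, y, z1, z2, z3} with hXdef
  have hX : ∀ x, x ∈ X ↔ x ∈ H ∧ x ≠ s ∧ x ≠ y ∧ x ≠ z1 ∧ x ≠ z2 ∧ x ≠ z3 := fun x => by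
    simp [hXdef]
  have t2 : Touch G (O ∪ att G r X) {z2} := by
    by_contra ht
    exact h.inp_aux hn h2 ry hsy n12 n13 n23 s1 s2 s3 y1 y2 y3 hX ht
  have t1 : Touch G (O ∪ att G r X) {z1} := by
    by_contra ht
    exact h.inp_aux hn h1 ry hsy n12.symm n23 n13 s2 s1 s3 y2 y1 y3
      (fun x => by rw [hX x]; tauto) ht
  have t3 : Touch G (O ∪ att G r X) {z3} := by
    by_contra ht
    exact h.inp_aux hn h3 ry hsy n13 n12 n23.symm s1 s3 s2 y1 y3 y2
      (fun x => by rw [hX x]; tauto) ht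
  have hconn : Conn G (O ∪ att G r X) :=
    h.apex.conn_union ((att_subset r X).trans sdiff_subset) (attached_att r X)
  have hd : ∀ x ∈ H, x ∉ X → Disjoint (O ∪ att G r X) {x} := fun x hx hxX => by
    rw [disjoint_singleton_right]
    intro hh
    rcases mem_union.1 hh with e | e
    · exact disjoint_left.1 h.apex.2.1 e hx
    · exact hxX (att_subset r X e)
  have ds : ∀ {a b : V}, a ≠ b → Disjoint ({a} : Finset V) {b} := fun hab =>
    disjoint_singleton.2 hab
  exact h.mf.no_k33 (conn_singleton s) (conn_singleton y) hconn (conn_singleton z1)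
    (conn_singleton z2) (conn_singleton z3) (ds hsy) (hd s hs (by simp [hX])).symm
    (ds s1.ne) (ds s2.ne) (ds s3.ne) (hd y hy (by simp [hX])).symm (ds y1.ne) (ds y2.ne)
    (ds y3.ne) (hd z1 h1 (by simp [hX])) (hd z2 h2 (by simp [hX])) (hd z3 h3 (by simp [hX]))
    (ds n12) (ds n13) (ds n23) (touch_singleton.2 s1) (touch_singleton.2 s2)
    (touch_singleton.2 s3) (touch_singleton.2 y1) (touch_singleton.2 y2)
    (touch_singleton.2 y3) t1 t2 t3

/-- one side of a separation by the set `A` -/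
theorem DZ.side (h : DZ G H r O L m K) (hn : ¬ Win G H L m K) {A U : Finset V} {x s0 : V}
    (hA : A ⊆ H) (hA3 : A.card ≤ 3) (hU : U ⊆ H \ A) (hx : x ∈ U)
    (hnb : ∀ u ∈ U, ∀ w ∈ H, G.Adj u w → w ∈ U ∨ w ∈ A) (hs : s0 ∈ H) (hsU : s0 ∉ U)
    (hsA : s0 ∉ A) :
    3 ≤ dfc G (addDeg G r A) U ∨ (dfc G (addDeg G r A) U = 2 ∧ U = {x} ∧ r x = 2 ∧
      ∀ a ∈ A, G.Adj x a) := by
  have hUH : U ⊆ H := hU.trans sdiff_subset
  have e1 : dfc G r H = dfc G r (H \ U) + dfc G (addDeg G r (H \ U)) U := by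
    rw [← dfc_union r sdiff_disjoint, sdiff_union_of_subset hUH]
  have e2 : dfc G (addDeg G r (H \ U)) U = dfc G (addDeg G r A) U :=
    dfc_congr (fun v hv => by
      unfold addDeg
      rw [deg_congr (S := H \ U) (T := A) (fun w hvw => ⟨fun hw =>
        (hnb v hv w (mem_sdiff.1 hw).1 hvw).resolve_left (mem_sdiff.1 hw).2,
        fun hw => mem_sdiff.2 ⟨hA hw, fun hwU => (mem_sdiff.1 (hU hwU)).2 hw⟩⟩)])
  rw [h.zero, e2] at e1
  have hsn : ∀ u ∈ U, ¬ G.Adj s0 u := fun u hu hh => by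
    rcases hnb u hu s0 hs hh.symm with e | e
    · exact hsU e
    · exact hsA e
  have hb := fun a b => hn (h.bp hUH ⟨x, hx⟩ (mem_sdiff.2 ⟨hs, hsU⟩) hsn a b)
  by_cases h3 : 3 ≤ dfc G (addDeg G r A) U
  · exact Or.inl h3
  right
  have h2 : dfc G (addDeg G r A) U = 2 := by
    by_contra hc
    exact hb (by omega) (Or.inr (by omega))
  have hc1 : U.card ≤ 1 := by
    by_contra hc
    exact hb (by omega) (Or.inl (by omega))
  have hUx : U = {x} := eq_singleton_iff_unique_mem.2 ⟨hx, fun w hw => card_le_one.1 hc1 w hw x hx⟩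
  have h4 := h2
  rw [hUx, dfc_singleton] at h4
  unfold addDeg at h4
  have h5 := h.r2 x (hUH hx)
  have h6 := deg_le_card (G := G) A x
  refine ⟨h2, hUx, by omega, fun a ha => ?_⟩
  have h7 : nbr G A x = A := eq_of_subset_of_card_le (nbr_subset A x) (by
    have : deg G A x = (nbr G A x).card := rfl
    omega)
  rw [← h7] at ha
  exact (mem_nbr.1 ha).2

/-- NECK -/
theorem DZ.neck (h : DZ G H r O L m K) (hn : ¬ Win G H L m K) {s u y : V}
    (hs : s ∈ H) (hu : u ∈ H) (hy : y ∈ H) (rs : 0 < r s) (ru : 0 < r u) (ry : r y = 0)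
    (hsu : s ≠ u) (nsu : ¬ G.Adj s u) (sy : G.Adj s y) (uy : G.Adj u y) :
    r s = 1 ∧ r u = 1 ∧ ∃ x ∈ H, r x = 2 ∧ G.Adj x s ∧ G.Adj x y ∧ G.Adj x u ∧
      ∀ w ∈ H, G.Adj x w → w = s ∨ w = y ∨ w = u := by
  obtain ⟨v, hv, w, hw, hvw, rv, rw', sv, sw, hall⟩ := h.two hn hs rs
  have vu : v ≠ u := fun e => nsu (e ▸ sv)
  have wu : w ≠ u := fun e => nsu (e ▸ sw)
  have vy : v ≠ y := fun e => by rw [e] at rv; omega
  have wy : w ≠ y := fun e => by rw [e] at rw'; omega
  have vs := sv.ne.symm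
  have ws := sw.ne.symm
  have ys := sy.ne.symm
  have tO : ∀ b ∈ H, 0 < r b → ∀ W : Finset V, b ∈ W → Touch G W O := fun b hb rb W hW => by
    obtain ⟨o, ho, hbo⟩ := h.apex.2.2 b hb rb
    exact ⟨b, hW, o, ho, hbo⟩
  have hm := m1 h.mf (H := H) (W1 := {v}) (W2 := {w}) (W3 := {y, u}) (v := s) (a1 := v)
    (a2 := w) (a3 := y) h.apex.1 h.apex.2.1 hs (h.apex.2.2 s hs rs)
    (by simp [hv, vs]) (by simp [hw, ws])
    (by intro x hx; simp only [mem_insert, mem_singleton] at hx
        rcases hx with e | e <;> rw [e] <;> simp [hy, hu, ys, hsu.symm])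
    (conn_singleton v) (conn_singleton w) (conn_pair uy.symm) (disjoint_singleton.2 hvw)
    (by simp [vy, vu]) (by simp [wy, wu]) ⟨v, by simp, sv⟩ ⟨w, by simp, sw⟩ ⟨y, by simp, sy⟩
    (tO v hv rv _ (by simp)) (tO w hw rw' _ (by simp)) (tO u hu ru _ (by simp))
    (by simp) (by simp) (by simp)
  have hun : ¬ Reach G (H \ {s, y, u}) v w := by
    rcases hm with hh | hh | hh
    · exact absurd (h.ns hn hs hv sv rs rv (by simp [hw, ws, hvw.symm])
        (by simp [hy, ys, vy.symm])) hh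
    · exact absurd (h.ns hn hs hw sw rs rw' (by simp [hv, vs, hvw])
        (by simp [hy, ys, wy.symm])) hh
    · exact hh
  set A : Finset V := {s, y, u} with hAdef
  have hAH : A ⊆ H := by
    intro x hx; simp only [hAdef, mem_insert, mem_singleton] at hx
    rcases hx with e | e | e <;> rw [e] <;> assumption
  have hvA : v ∉ A := by simp [hAdef, vs, vy, vu]
  have hwA : w ∉ A := by simp [hAdef, ws, wy, wu]
  have hvX : v ∈ H \ A := mem_sdiff.2 ⟨hv, hvA⟩
  have hwX : w ∈ H \ A := mem_sdiff.2 ⟨hw, hwA⟩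
  set U1 := comp G (H \ A) v with hU1
  set U2 := (H \ A) \ U1 with hU2
  have hw1 : w ∉ U1 := fun hh => hun (mem_comp.1 hh).2
  have hv1 : v ∈ U1 := self_mem_comp hvX
  have hw2 : w ∈ U2 := mem_sdiff.2 ⟨hwX, hw1⟩
  have hv2 : v ∉ U2 := fun hh => (mem_sdiff.1 hh).2 hv1
  have nb1 : ∀ a ∈ U1, ∀ b ∈ H, G.Adj a b → b ∈ U1 ∨ b ∈ A := fun a ha b hb hab => by
    by_cases e : b ∈ A
    · exact Or.inr e
    · exact Or.inl (comp_closed ha (mem_sdiff.2 ⟨hb, e⟩) hab)
  have nb2 : ∀ a ∈ U2, ∀ b ∈ H, G.Adj a b → b ∈ U2 ∨ b ∈ A := fun a ha b hb hab => by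
    by_cases e : b ∈ A
    · exact Or.inr e
    · exact Or.inl (mem_sdiff.2 ⟨mem_sdiff.2 ⟨hb, e⟩, fun hb1 =>
        (mem_sdiff.1 ha).2 (comp_closed hb1 (mem_sdiff.1 ha).1 hab.symm)⟩)
  have S1 := h.side (U := U1) hn hAH card_le_three (comp_subset _ _) hv1 nb1 hw hw1 hwA
  have S2 := h.side (U := U2) hn hAH card_le_three sdiff_subset hw2 nb2 hv hv2 hvA
  have hsum : dfc G r A + (dfc G (addDeg G r A) U1 + dfc G (addDeg G r A) U2) = 0 := by
    rw [← dfc_union_nonadj _ disjoint_sdiff (fun a ha b hb hab =>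
      (mem_sdiff.1 ha).2 (comp_closed hb (mem_sdiff.1 ha).1 hab.symm)),
      union_sdiff_of_subset (comp_subset _ _), ← dfc_union r disjoint_sdiff,
      union_sdiff_of_subset hAH, h.zero]
  have hAd := dfc_path (G := G) r sy uy.symm hsu
  rw [← hAdef] at hAd
  have r2s := h.r2 s hs
  have r2u := h.r2 u hu
  have hboth : r s = 1 ∧ r u = 1 := by
    by_contra hc
    have hge : 3 ≤ r s + r u := by omega
    rcases S1 with S1 | ⟨d1, e1, -, -⟩
    · rcases S2 with S2 | ⟨d2, -⟩ <;> omega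
    rcases S2 with S2 | ⟨d2, e2, -, -⟩
    · omega
    have hHm : ∀ x ∈ H, x = s ∨ x = u ∨ x ∈ ({y, v, w} : Finset V) := fun x hx => by
      by_cases f1 : x ∈ A
      · simp only [hAdef, mem_insert, mem_singleton] at f1 ⊢
        rcases f1 with f | f | f
        exacts [.inl f, .inr (.inr (.inl f)), .inr (.inl f)]
      by_cases f2 : x ∈ U1
      · rw [e1] at f2; simp [mem_singleton.1 f2]
      · have f3 : x ∈ U2 := mem_sdiff.2 ⟨mem_sdiff.2 ⟨hx, f1⟩, f2⟩
        rw [e2] at f3; simp [mem_singleton.1 f3]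
    have g1 : deg G H s ≤ 3 := (deg_le (N := {y, v, w}) (fun x hx hsx => by
      rcases hHm x hx with e | e | e
      · exact absurd e hsx.ne.symm
      · exact absurd (e ▸ hsx) nsu
      · exact e)).trans card_le_three
    have g2 : deg G H u ≤ 3 := (deg_le (N := {y, v, w}) (fun x hx hux => by
      rcases hHm x hx with e | e | e
      · exact absurd (e ▸ hux).symm nsu
      · exact absurd e hux.ne.symm
      · exact e)).trans card_le_three
    by_cases hs1 : r s = 1
    · exact hn (h.small hs hu hsu.symm (fun hh => nsu hh.symm) (by omega))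
    · exact hn (h.small hu hs hsu nsu (by omega))
  refine ⟨hboth.1, hboth.2, ?_⟩
  have fin : ∀ (x : V) (U : Finset V), x ∈ H → U = {x} → r x = 2 → (∀ a ∈ A, G.Adj x a) →
      (∀ a ∈ U, ∀ b ∈ H, G.Adj a b → b ∈ U ∨ b ∈ A) →
      ∃ x ∈ H, r x = 2 ∧ G.Adj x s ∧ G.Adj x y ∧ G.Adj x u ∧
        ∀ w ∈ H, G.Adj x w → w = s ∨ w = y ∨ w = u := fun x U hx e rx ha nb => by
    refine ⟨x, hx, rx, ha s (by simp [hAdef]), ha y (by simp [hAdef]), ha u (by simp [hAdef]),
      fun b hb hxb => ?_⟩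
    rcases nb x (by simp [e]) b hb hxb with f | f
    · rw [e] at f; exact absurd (mem_singleton.1 f) hxb.ne.symm
    · simpa [hAdef] using f
  rcases S1 with S1 | ⟨-, e1, f1, g1⟩
  · rcases S2 with S2 | ⟨-, e2, f2, g2⟩
    · omega
    · exact fin w U2 hw e2 f2 g2 nb2
  · exact fin v U1 hv e1 f1 g1 nb1

/-- T3 -/
theorem DZ.t3 (h : DZ G H r O L m K) (hn : ¬ Win G H L m K) {s : V} (u0 : V) (hs : s ∈ H)
    (rs : 0 < r s) (hb : ∀ u ∈ H, u ≠ s → ¬ G.Adj s u → 0 < r u →
      3 ≤ r u + deg G (nbr G H s) u → u = u0 ∧ r u + deg G (nbr G H s) u ≤ 4) : False := by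
  set S : Finset V := insert s (nbr G H s) with hSdef
  have hSH : S ⊆ H := insert_subset hs (nbr_subset H s)
  have hsS : s ∈ S := mem_insert_self _ _
  have hmem : ∀ u, u ∈ H \ S ↔ u ∈ H ∧ u ≠ s ∧ ¬ G.Adj s u := fun u => by
    simp only [hSdef, mem_sdiff, mem_insert, mem_nbr]; tauto
  have hat : Attached G r S := attached_of_adj (fun v hv => by
    rcases mem_insert.1 hv with e | e
    · rw [e]; exact Or.inl rs
    · exact Or.inr ⟨s, hsS, rs, (mem_nbr.1 e).2.symm⟩)
  have hA := h.apex.absorb_addDeg hSH hat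
  have hdeg : ∀ u ∈ H \ S, deg G S u = deg G (nbr G H s) u := fun u hu =>
    deg_congr (fun w huw => by
      have : w ≠ s := fun e => ((hmem u).1 hu).2.2 (e ▸ huw.symm)
      simp [hSdef, this])
  have hch := th1 h.mf hA u0 (fun u hu => by
    obtain ⟨uH, us, nsu⟩ := (hmem u).1 hu
    unfold addDeg
    rw [hdeg u hu]
    by_cases h3 : 3 ≤ r u + deg G (nbr G H s) u
    · right
      by_cases ru : 0 < r u
      · exact hb u uH us nsu ru h3
      · exfalso
        have h4 : 2 < (nbr G (nbr G H s) u).card := by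
          have : deg G (nbr G H s) u = (nbr G (nbr G H s) u).card := rfl
          omega
        obtain ⟨z1, z2, z3, m1, m2, m3, n12, n13, n23⟩ := two_lt_card_iff.1 h4
        simp only [mem_nbr] at m1 m2 m3
        exact h.inp hn hs uH m1.1.1 m2.1.1 m3.1.1 (by omega) us.symm n12 n13 n23
          m1.1.2 m2.1.2 m3.1.2 m1.2 m2.2 m3.2
    · left; omega) m
  obtain ⟨a, -, b, -, -, -, -, -, -, hall⟩ := h.two hn hs rs
  obtain ⟨x, hx, rx, e1, e2, e3⟩ := h.four hn s a b
  have e : H \ (H \ S) = S := Finset.sdiff_sdiff_eq_self hSH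
  refine hn (h.t1 (H \ S) s sdiff_subset ⟨x, (hmem x).2 ⟨hx, e1, fun hh => ?_⟩⟩ (by rw [e]; exact hsS)
    (fun u hu => ((hmem u).1 hu).2.2) ?_)
  · rcases hall x hx rx hh with f | f
    · exact e2 f
    · exact e3 f
  · exact extends_of_choosable (h.lists.mono sdiff_subset) hch (fun u _ => by rw [e]; exact le_rfl)

/-- without a neck the common neighbours lie in the two neighbours from `B` -/
theorem deg_two_le {s u a b : V} (hall : ∀ w ∈ H, 0 < r w → G.Adj s w → w = a ∨ w = b)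
    (hno : ∀ y ∈ H, r y = 0 → G.Adj s y → ¬ G.Adj u y) :
    deg G (nbr G H s) u ≤ 2 ∧ (1 ≤ deg G (nbr G H s) u → G.Adj u a ∨ G.Adj u b) ∧
      (2 ≤ deg G (nbr G H s) u → G.Adj u a ∧ G.Adj u b) := by
  have key : ∀ w ∈ nbr G H s, G.Adj u w → w = a ∨ w = b := fun w hw huw => by
    obtain ⟨w1, w2⟩ := mem_nbr.1 hw
    refine hall w w1 ?_ w2
    by_contra hc
    exact hno w w1 (by omega) w2 huw
  refine ⟨(deg_le (N := {a, b}) (fun w hw huw => by simpa using key w hw huw)).trans card_le_two,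
    fun h1 => ?_, fun h2 => ⟨?_, ?_⟩⟩
  · obtain ⟨w, hw, huw⟩ := deg_pos.1 h1
    rcases key w hw huw with e | e
    · exact Or.inl (e ▸ huw)
    · exact Or.inr (e ▸ huw)
  · by_contra hc
    have := deg_le (G := G) (S := nbr G H s) (v := u) (N := {b}) (fun w hw huw => by
      rcases key w hw huw with e | e
      · exact absurd (e ▸ huw) hc
      · simp [e])
    simp at this; omega
  · by_contra hc
    have := deg_le (G := G) (S := nbr G H s) (v := u) (N := {a}) (fun w hw huw => by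
      rcases key w hw huw with e | e
      · simp [e]
      · exact absurd (e ▸ huw) hc)
    simp at this; omega

/-- P -/
theorem DZ.pp (h : DZ G H r O L m K) (hn : ¬ Win G H L m K) {s v : V} (hs : s ∈ H) (hv : v ∈ H)
    (rs : r s = 2) (rv : 0 < r v) (sv : G.Adj s v) :
    ∃ v' ∈ H, r v' = 2 ∧ G.Adj v v' ∧ v' ≠ s ∧ ¬ G.Adj s v' := by
  by_contra hc
  push Not at hc
  obtain ⟨w, hw, -, rw', sw, hall⟩ := h.other hn hs (by omega) hv rv sv
  obtain ⟨w', -, -, -, -, hall'⟩ := h.other hn hw rw' hs (by omega) sw.symm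
  refine h.t3 hn w' hs (by omega) (fun u hu us nsu ru h3 => ?_)
  obtain ⟨d1, d2, d3⟩ := deg_two_le (u := u) hall (fun y hy ry sy uy => by
    have := (h.neck hn hs hu hy (by omega) ru ry us.symm nsu sy uy).1
    omega)
  have r2u := h.r2 u hu
  refine ⟨?_, by omega⟩
  have huw : G.Adj u w := by
    by_cases e : r u = 2
    · rcases d2 (by omega) with f | f
      · exact absurd (hc u hu e f.symm us) nsu
      · exact f
    · exact (d3 (by omega)).2
  exact (hall' u hu ru huw.symm).resolve_left us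

/-- T4 -/
theorem DZ.t4 (h : DZ G H r O L m K) {o1 o2 y s1 s0 : V} (h1 : o1 ∈ H) (h2 : o2 ∈ H)
    (hy : y ∈ H) (hs1 : s1 ∈ H) (hs0 : s0 ∈ H) (r1 : r o1 = 1) (r2 : r o2 = 1) (ry : r y = 0)
    (rs1 : r s1 = 2) (rs0 : r s0 = 2) (n12 : o1 ≠ o2) (na : ¬ G.Adj o1 o2)
    (a1 : G.Adj o1 y) (a2 : G.Adj o2 y) (b1 : G.Adj s1 o1) (b2 : G.Adj s1 y) (b3 : G.Adj s1 o2)
    (hN : ∀ w ∈ H, G.Adj s1 w → w = o1 ∨ w = y ∨ w = o2) (c0 : G.Adj o1 s0) (n01 : s0 ≠ s1)
    (hB : ∀ u ∈ H, 0 < r u → G.Adj o1 u → u = s1 ∨ u = s0) : Win G H L m K := by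
  obtain ⟨L', hL'⟩ := h.lists.exact (fun v hv => by have := h.r2 v hv; omega)
  have l1 := (hL' o1 h1).2
  have l2 := (hL' o2 h2).2
  have ly := (hL' y hy).2
  have ls1 := (hL' s1 hs1).2
  have ls0 := (hL' s0 hs0).2
  rw [r1] at l1; rw [r2] at l2; rw [ry] at ly; rw [rs1] at ls1; rw [rs0] at ls0
  obtain ⟨α1, p1, p2, p3⟩ := avoid (L' o1) (L' s0) m (by omega)
  obtain ⟨α2, q1, q2, q3⟩ := avoid (L' o2) (L' s1) m (by omega)
  obtain ⟨β, t1, t2, t3⟩ := avoid (L' s1) α1 (2 * m) (by omega)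
  have hu3 : (α1 ∪ α2 ∪ β).card ≤ 4 * m := by
    have e1 := card_union_le (α1 ∪ α2) β
    have e2 := card_union_le α1 α2
    omega
  obtain ⟨γ, g1, g2, g3⟩ := avoid (L' y) (α1 ∪ α2 ∪ β) m (by omega)
  have n1 : o2 ∉ ({o1} : Finset V) := by simp [n12.symm]
  have n2 : y ∉ ({o2, o1} : Finset V) := by simp [a1.ne.symm, a2.ne.symm]
  have n3 : s1 ∉ ({y, o2, o1} : Finset V) := by simp [b1.ne, b2.ne, b3.ne]
  obtain ⟨φ2, v2, e21, e22⟩ := valid_insert (G := G) (L := L') (φ := fun _ => α1) n1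
    (valid_singleton p1) q1 (fun w hw hh => by
      rw [mem_singleton.1 hw] at hh; exact absurd hh.symm na)
  have f21 : φ2 o1 = α1 := e21 o1 (by simp)
  obtain ⟨φ3, v3, e31, e32⟩ := valid_insert n2 v2 g1 (fun w hw _ => by
    simp only [mem_insert, mem_singleton] at hw
    rcases hw with e | e <;> rw [e]
    · rw [e22]; exact g3.mono_right (subset_union_right.trans subset_union_left)
    · rw [f21]; exact g3.mono_right (subset_union_left.trans subset_union_left))
  have f31 : φ3 o1 = α1 := (e31 o1 (by simp)).trans f21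
  have f32 : φ3 o2 = α2 := (e31 o2 (by simp)).trans e22
  set S0 : Finset V := {y, o2, o1} with hS0
  have hS0m : ∀ w ∈ S0, (φ3 w).card = m := fun w hw => by
    simp only [hS0, mem_insert, mem_singleton] at hw
    rcases hw with e | e | e <;> rw [e]
    · rw [e32, g2]
    · rw [f32, q2]
    · rw [f31, p2]
  set S : Finset V := insert s1 S0 with hS
  have hSH : S ⊆ H := by
    intro x hx; simp only [hS, hS0, mem_insert, mem_singleton] at hx
    rcases hx with e | e | e | e <;> rw [e] <;> assumption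
  have hs0S : s0 ∉ S := by
    have e1 : s0 ≠ y := fun e => by rw [e] at rs0; omega
    have e2 : s0 ≠ o2 := fun e => by rw [e] at rs0; omega
    simp [hS, hS0, n01, e1, e2, c0.ne.symm]
  have hmem : ∀ u ∈ H \ S, u ∈ H ∧ u ≠ s1 ∧ u ≠ y ∧ u ≠ o2 ∧ u ≠ o1 := fun u hu => by
    simpa [hS, hS0] using hu
  have hns : ∀ u ∈ H \ S, ¬ G.Adj u s1 := fun u hu hh => by
    have := hmem u hu
    have := hN u this.1 hh.symm
    tauto
  have hdeg : ∀ u ∈ H \ S, deg G S u = deg G S0 u := fun u hu => by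
    rw [hS, deg_insert n3, if_neg (hns u hu), add_zero]
  have hdS : -3 ≤ dfc G r S := by
    rw [hS, dfc_insert r n3, hS0, dfc_insert r n2, dfc_insert r n1, dfc_singleton]
    have d1 : 2 ≤ deg G {o2, o1} y := by
      have := le_deg (G := G) (S := {o2, o1}) (N := {o2, o1}) (v := y)
        (by simp [a1.symm, a2.symm])
      rwa [card_pair n12.symm] at this
    have d2 : 3 ≤ deg G {y, o2, o1} s1 := by
      have := le_deg (G := G) (S := {y, o2, o1}) (N := {y, o2, o1}) (v := s1)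
        (by simp [b1, b2, b3])
      rwa [card_insert_of_notMem n2, card_pair n12.symm] at this
    omega
  have hat : Attached G r S := attached_of_adj (fun v hv => by
    simp only [hS, hS0, mem_insert, mem_singleton] at hv
    rcases hv with e | e | e | e <;> rw [e]
    · left; omega
    · exact Or.inr ⟨o1, by simp [hS, hS0], by omega, a1.symm⟩
    · left; omega
    · left; omega)
  set r' : V → ℕ := fun u => r u + deg G S0 u - if u = s0 then 1 else 0 with hr'
  have hle : ∀ u ∈ H \ S, r' u ≤ addDeg G r S u := fun u hu => by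
    simp only [hr', addDeg, hdeg u hu]; omega
  have hA : Apex G (H \ S) r' (O ∪ S) := h.apex.absorb hSH hat subset_rfl (fun u hu hru => by
    have := hle u hu
    unfold addDeg at this
    by_cases h0 : 0 < r u
    · exact Or.inl h0
    · exact Or.inr (deg_pos.1 (by omega)))
  have hd3 : ∀ u, deg G S0 u ≤ 3 := fun u => (deg_le_card S0 u).trans card_le_three
  have hch : Choosable G (H \ S) r' m := by
    refine e0 h.mf hA (fun u hu => ?_) (fun T hT => ?_) m
    · have hu' := hmem u hu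
      have r2u := h.r2 u hu'.1
      have := hd3 u
      simp only [hr']
      split_ifs with e
      · omega
      · by_cases h0 : 0 < r u
        · have : deg G S0 u ≤ 2 := (deg_le (N := {y, o2}) (fun w hw huw => by
            simp only [hS0, mem_insert, mem_singleton] at hw ⊢
            rcases hw with f | f | f
            · exact Or.inl f
            · exact Or.inr f
            · rcases hB u hu'.1 h0 (f ▸ huw.symm) with g | g
              · exact absurd g hu'.2.1
              · exact absurd g e)).trans card_le_two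
          omega
        · omega
    · have hd : Disjoint S T := disjoint_sdiff.mono_right hT
      have e1 := dfc_union (G := G) r hd
      have hsub : S ∪ T ⊆ H := union_subset hSH (hT.trans sdiff_subset)
      by_cases hsT : s0 ∈ T
      · have e2 := h.le_zero hsub
        have e3 : dfc G r' T + 1 ≤ dfc G (addDeg G r S) T := by
          rw [← insert_erase hsT, dfc_insert _ (notMem_erase s0 T),
            dfc_insert _ (notMem_erase s0 T)]
          have e4 : dfc G r' (T.erase s0) ≤ dfc G (addDeg G r S) (T.erase s0) :=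
            dfc_mono_r (fun v hv => hle v (hT (mem_of_mem_erase hv)))
          have e5 : r' s0 + 1 = addDeg G r S s0 := by
            simp only [hr', addDeg, hdeg s0 (hT hsT), if_true]; omega
          omega
        omega
      · have e2 := h.neg _ hsub ⟨s1, by simp [hS]⟩ (fun hh => by
          have : s0 ∈ S ∪ T := by rw [hh]; exact hs0
          rcases mem_union.1 this with f | f
          · exact hs0S f
          · exact hsT f)
        have e3 : dfc G r' T ≤ dfc G (addDeg G r S) T := dfc_mono_r (fun v hv => hle v (hT hv))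
        omega
  have hLs : Lists (H \ S) r' m (rem G S0 L' φ3) := fun u hu => by
    have k0 := (hL' u (mem_sdiff.1 hu).1).2
    by_cases e : u = s0
    · have k1 := rem_card (G := G) (S := S0.erase o1) L' (φ := φ3) (m := m)
        (fun w hw => (hS0m w (mem_of_mem_erase hw)).le) u
      have k2 : rem G (S0.erase o1) L' φ3 u ⊆ rem G S0 L' φ3 u := fun c hc => by
        obtain ⟨c1, c2⟩ := mem_rem.1 hc
        refine mem_rem.2 ⟨c1, fun w hw huw => ?_⟩
        by_cases f : w = o1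
        · rw [f, f31]
          exact fun hh => disjoint_left.1 p3 hh (e ▸ c1)
        · exact c2 w (mem_erase.2 ⟨f, hw⟩) huw
      have k3 := card_le_card k2
      have k4 : deg G S0 u = deg G (S0.erase o1) u + 1 := by
        conv_lhs => rw [← insert_erase (show o1 ∈ S0 by simp [hS0])]
        rw [deg_insert (notMem_erase o1 S0), if_pos (e ▸ c0.symm)]
      have k5 : r' u = r u + deg G (S0.erase o1) u := by
        simp only [hr', if_pos e, k4]; omega
      rw [k5, add_mul]; omega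
    · have k1 := rem_card (G := G) (S := S0) L' (φ := φ3) (m := m)
        (fun w hw => (hS0m w hw).le) u
      have k5 : r' u = r u + deg G S0 u := by simp only [hr', if_neg e]; omega
      rw [k5, add_mul]; omega
  obtain ⟨ψ, w1, w2⟩ := hch _ hLs
  have hdj : Disjoint S0 (H \ S) := disjoint_sdiff.mono_left (subset_insert s1 S0)
  obtain ⟨χ, x1, x2, x3⟩ := glue_rem hdj v3 w1
  have hs1n : s1 ∉ S0 ∪ (H \ S) := by
    rw [mem_union, not_or]
    exact ⟨n3, fun hh => (mem_sdiff.1 hh).2 (mem_insert_self _ _)⟩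
  obtain ⟨χ', y1, y2, y3⟩ := valid_insert hs1n x1 t1 (fun w hw hsw => by
    rcases mem_union.1 hw with f | f
    · rw [x2 w f]
      simp only [hS0, mem_insert, mem_singleton] at f
      rcases f with f | f | f <;> rw [f]
      · rw [e32]; exact (g3.mono_right subset_union_right).symm
      · rw [f32]; exact (q3.mono_right t1).symm
      · rw [f31]; exact t3
    · exact absurd hsw.symm (hns w f))
  have hH : insert s1 (S0 ∪ (H \ S)) = H := by
    rw [← insert_union, ← hS, union_sdiff_of_subset hSH]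
  rw [hH] at y1
  have hkm := h.km
  refine ⟨χ', y1.mono_list (fun v hv => (hL' v hv).1), fun v hv => ?_, s1, hs1, by rw [y3]; omega⟩
  rw [← hH] at hv
  rcases mem_insert.1 hv with f | f
  · rw [f, y3]; omega
  · rw [y2 v f]
    rcases mem_union.1 f with g | g
    · rw [x2 v g, hS0m v g]
    · rw [x3 v g]; exact w2 v g

end Cases

theorem win_d0 {H O : Finset V} {r : V → ℕ} {L : V → Finset ℕ} {m K : ℕ}
    (h : DZ G H r O L m K) : Win G H L m K := by
  by_contra hn
  by_cases hex : ∃ e ∈ H, ∃ o ∈ H, r e = 2 ∧ r o = 1 ∧ G.Adj e o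
  · obtain ⟨e, he, o, ho, re, ro, eo⟩ := hex
    obtain ⟨e', he', re', oe', n1, n2⟩ := h.pp hn he ho re (by omega) eo
    have hall : ∀ u ∈ H, 0 < r u → G.Adj o u → u = e ∨ u = e' := fun u hu ru ou => by
      by_contra hc
      push Not at hc
      exact h.not_three hn ho he he' hu (by omega) (by omega) (by omega) ru eo.symm oe' ou
        n1.symm hc.1.symm hc.2.symm
    by_cases hneck : ∃ u ∈ H, ∃ y ∈ H, 0 < r u ∧ r y = 0 ∧ u ≠ o ∧ ¬ G.Adj o u ∧
        G.Adj o y ∧ G.Adj u y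
    · obtain ⟨u, hu, y, hy, ru, ry, uo, nou, oy, uy⟩ := hneck
      obtain ⟨-, ru1, x, hx, rx, xo, xy, xu, hN⟩ :=
        h.neck hn ho hu hy (by omega) ru ry uo.symm nou oy uy
      rcases hall x hx (by omega) xo.symm with f | f
      · subst f
        exact hn (h.t4 ho hu hy hx he' ro ru1 ry rx re' uo.symm nou oy uy xo xy xu hN oe' n1 hall)
      · subst f
        exact hn (h.t4 ho hu hy hx he ro ru1 ry rx re uo.symm nou oy uy xo xy xu hN eo.symm
          n1.symm (fun u hu ru ou => (hall u hu ru ou).symm))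
    · have key : ∀ a ∈ H, r a = 2 → G.Adj o a → ∀ u ∈ H, r u = 2 → u ≠ o → ¬ G.Adj u a :=
        fun a ha ra oa u hu ru uo ua => by
          obtain ⟨v', hv', rv', av', f1, -⟩ := h.pp hn hu ha ru (by omega) ua
          have f2 : v' ≠ o := fun f => by rw [f] at rv'; omega
          exact h.not_three hn ha ho hu hv' (by omega) (by omega) (by omega) (by omega)
            oa.symm ua.symm av' uo.symm f2.symm f1.symm
      obtain ⟨u0, -, -, -, -, hall'⟩ := h.other hn he (by omega) ho (by omega) eo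
      refine h.t3 hn u0 ho (by omega) (fun u hu uo nou ru h3 => ?_)
      obtain ⟨d1, d2, d3⟩ := deg_two_le (u := u) hall (fun y hy ry oy uy =>
        hneck ⟨u, hu, y, hy, ru, ry, uo, nou, oy, uy⟩)
      have r2u := h.r2 u hu
      refine ⟨?_, by omega⟩
      by_cases f : r u = 2
      · rcases d2 (by omega) with g | g
        · exact absurd g (key e he re eo.symm u hu f uo)
        · exact absurd g (key e' he' re' oe' u hu f uo)
      · exact (hall' u hu ru (d3 (by omega)).1.symm).resolve_left uo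
  · push Not at hex
    have hne : (H.filter (fun v => r v = 2)).Nonempty := card_pos.1 (by have := h.three; omega)
    have hge : 0 ≤ 2 * dfc G r (H.filter (fun v => r v = 2)) := by
      rw [two_dfc]
      refine sum_nonneg (fun v hv => ?_)
      obtain ⟨vH, rv⟩ := mem_filter.1 hv
      obtain ⟨a, ha, b, hb, hab, ra, rb, va, vb, -⟩ := h.two hn vH (by omega)
      have k : ∀ c ∈ H, 0 < r c → G.Adj v c → c ∈ H.filter (fun v => r v = 2) :=
        fun c hc rc vc => mem_filter.2 ⟨hc, by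
          have := h.r2 c hc
          by_contra hh
          exact hex v vH c hc rv (by omega) vc⟩
      have := le_deg (G := G) (S := H.filter (fun v => r v = 2)) (N := {a, b}) (v := v)
        (fun u hu => by
          simp only [mem_insert, mem_singleton] at hu
          rcases hu with e | e <;> rw [e]
          · exact ⟨k a ha ra va, va⟩
          · exact ⟨k b hb rb vb, vb⟩)
      rw [card_pair hab] at this
      omega
    have heq : H.filter (fun v => r v = 2) = H := by
      by_contra hc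
      have := h.neg _ (filter_subset _ _) hne hc
      omega
    have hall2 : ∀ v ∈ H, r v = 2 := fun v hv => by
      rw [← heq] at hv; exact (mem_filter.1 hv).2
    obtain ⟨v, hv⟩ := hne
    have vH := (mem_filter.1 hv).1
    have rv := hall2 v vH
    obtain ⟨a, -, b, -, -, -, -, -, -, hall⟩ := h.two hn vH (by omega)
    obtain ⟨x, hx, rx, e1, e2, e3⟩ := h.four hn v a b
    have hd : deg G H v ≤ 2 := (deg_le (N := {a, b}) (fun u hu vu => by
      simpa using hall u hu (by rw [hall2 u hu]; omega) vu)).trans card_le_two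
    refine hn (h.small vH hx e1 (fun hh => ?_) (by omega))
    rcases hall x hx rx hh.symm with f | f
    · exact e2 f
    · exact e3 f

end Pool.Agent.PL5
end

-- merged part: Pool.Agent.Work.MP_db4788_co.ThmA
section
/-
Section 4 of the write-up: the case split for WIN and theorem A.
-/

set_option autoImplicit false
set_option linter.unusedSectionVars false
open Finset

namespace Pool.Agent.PL5

variable {V : Type} [DecidableEq V] {G : SimpleGraph V} [DecidableRel G.Adj]

theorem win_all (hG : MinorFree G) {n K M : ℕ} (hR : Robust G n (4 * K) M) :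
    WinAll G (n + 1) K (M + 20 * K) := by
  classical
  intro H r O hA hC hn hT m hm L hL
  have hR' : Robust G n K M := hR.mono_k (by omega)
  have hMm : M ≤ m := by omega
  have hKm : K ≤ m := by omega
  obtain ⟨v, hv, hvT⟩ := hT
  by_cases h1 : H.card = 1
  · obtain ⟨a, rfl⟩ := card_eq_one.1 h1
    have h2 := hL a (mem_singleton_self a)
    have h3 : r a * m ≤ 3 * m := Nat.mul_le_mul_right _ (hC.r_le (mem_singleton_self a))
    refine ⟨L, valid_singleton subset_rfl, fun u hu => ?_, a, mem_singleton_self a, by omega⟩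
    rw [mem_singleton.1 hu]; omega
  have h2 : 2 ≤ H.card := by omega
  by_cases hB : ∀ u ∈ H, r u = 0
  · exact w2 hG hA (fun u hu => by rw [hB u hu]; omega) hv (Or.inr hB) v
      (fun u hu _ h => by rw [hB u hu] at h; omega) hKm hL
  push Not at hB
  obtain ⟨b, hb, hb0⟩ := hB
  have hsing : ∀ x : V, ({x} : Finset V) ≠ H := fun x h => by rw [← h] at h2; simp at h2
  set f : Finset V → ℤ := fun T => 100000000 * dfc G r T - T.card with hf
  obtain ⟨S, hS, hmax⟩ := exists_max_image (H.powerset.filter fun T => T.Nonempty ∧ T ≠ H) f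
    ⟨{b}, mem_filter.2 ⟨mem_powerset.2 (singleton_subset_iff.2 hb), singleton_nonempty b, hsing b⟩⟩
  have hmax' : ∀ T ⊆ H, T.Nonempty → T ≠ H → f T ≤ f S := fun T a1 a2 a3 =>
    hmax T (mem_filter.2 ⟨mem_powerset.2 a1, a2, a3⟩)
  obtain ⟨hS1, hS2, hS3⟩ := mem_filter.1 hS
  have hSH : S ⊆ H := mem_powerset.1 hS1
  have hatt : ∀ T, att G r T ≠ T → f T + 300000000 ≤ f (att G r T) := fun T hT => by
    have a1 := dfc_att hG r hT
    have a2 := card_le_card (att_subset (G := G) r T)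
    simp only [hf]; omega
  have hat : Attached G r S := by
    by_contra hna
    have hne : att G r S ≠ S := fun h => hna (h ▸ attached_att r S)
    have a1 := hatt S hne
    rcases (att G r S).eq_empty_or_nonempty with h | h
    · have a2 := hmax' {b} (singleton_subset_iff.2 hb) (singleton_nonempty b) (hsing b)
      rw [h] at a1
      simp only [hf, dfc_empty, dfc_singleton, card_empty, card_singleton] at a1 a2
      omega
    · have a2 := hmax' _ ((att_subset r S).trans hSH) h (fun h' => hS3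
        (Subset.antisymm hSH (h' ▸ att_subset r S)))
      omega
  have hcs := card_sdiff_add_card_eq_card hSH
  have hSpos := hS2.card_pos
  have hSlt : S.card < H.card := card_lt_card (ssubset_of_ne_of_subset hS3 hSH)
  by_cases hcase : f H ≤ f S
  · have hC' : InClass G (H \ S) (addDeg G r S) := fun T hT => by
      have hd : Disjoint S T := disjoint_sdiff.mono_right hT
      have a1 : f (S ∪ T) ≤ f S := by
        by_cases h : S ∪ T = H
        · rw [h]; exact hcase
        · exact hmax' _ (union_subset hSH (hT.trans sdiff_subset))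
            (hS2.mono subset_union_left) h
      simp only [hf, dfc_union r hd, card_union_of_disjoint hd] at a1
      push_cast at a1
      omega
    have hA' := hA.absorb_addDeg hSH hat
    have hUn : (H \ S).Nonempty := card_pos.1 (by omega)
    by_cases hall : ∀ u ∈ H \ S, InTV G (H \ S) (addDeg G r S) u
    · by_cases hedge : ∃ s ∈ S, ∃ u ∈ H \ S, G.Adj s u
      · exact mt hG hR hA hC hn.le hMm (by omega) hL hSH hat hC' hall hedge
      · push Not at hedge
        have e : H \ (H \ S) = S := Finset.sdiff_sdiff_eq_self hSH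
        have hr : ∀ x ∈ H \ S, addDeg G r S x = r x := fun x hx => by
          simp [addDeg, deg_eq_zero.2 (fun u hu h => hedge u hu x hx h.symm)]
        have hvS : v ∈ S := by
          by_contra h
          obtain ⟨a0, a, ha, c, hc, a1, a2, a3, a4, a5, a6⟩ := hall v (mem_sdiff.2 ⟨hv, h⟩)
          rw [hr v a0] at a4
          rw [hr a ha] at a5
          rw [hr c hc] at a6
          exact hvT ⟨hv, a, sdiff_subset ha, c, sdiff_subset hc, a1, a2, a3, a4, a5, a6⟩
        refine t1 hR' hA hC hn.le hMm hL sdiff_subset hUn (s := v) (by rwa [e])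
          (fun u hu => hedge v hvS u hu) hvT ?_
        exact extends_of_choosable (hL.mono sdiff_subset) (class_choosable hG hA' hC' m)
          (fun u _ => by rw [e]; exact le_rfl)
    · push Not at hall
      obtain ⟨u, hu, huT⟩ := hall
      obtain ⟨φ, a1, a2⟩ := (hR' S r O (hA.mono hSH) (hC.mono hSH) (by omega) m hMm L
        (hL.mono hSH)).col.exact
      obtain ⟨ψ, b1, b2, b3⟩ := hR' (H \ S) _ _ hA' hC' (by omega) m hMm _
        (rem_lists (G := G) (φ := φ) (hL.mono sdiff_subset) (fun w hw => (a2 w hw).le)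
          (fun u _ => le_rfl))
      obtain ⟨χ, c1, c2, c3⟩ := glue_rem disjoint_sdiff a1 b1
      rw [union_sdiff_of_subset hSH] at c1
      refine ⟨χ, c1, fun w hw => ?_, u, sdiff_subset hu, ?_⟩
      · by_cases h : w ∈ S
        · rw [c2 w h, a2 w h]
        · rw [c3 w (mem_sdiff.2 ⟨hw, h⟩)]; exact b2 w (mem_sdiff.2 ⟨hw, h⟩)
      · rw [c3 u hu]; exact b3 u hu huT
  have hlt : ∀ T ⊆ H, T.Nonempty → T ≠ H → f T < f H := fun T a1 a2 a3 =>
    lt_of_le_of_lt (hmax' T a1 a2 a3) (not_le.1 hcase)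
  by_cases hbig : 100000000 ≤ H.card
  · refine win_large hG hR' hA hC hn.le hMm hL hbig ?_ ⟨v, hv, hvT⟩
    by_contra hna
    have hne : att G r H ≠ H := fun h => hna (h ▸ attached_att r H)
    have a1 := hatt H hne
    have a2 := hlt _ (att_subset r H) ⟨b, mem_att_of_pos hb (Nat.pos_of_ne_zero hb0)⟩ hne
    omega
  have hd0 : dfc G r H ≤ 0 := hC.small subset_rfl (by omega)
  have hx : ∀ x ∈ H, (r x : ℤ) - 2 ≤ dfc G r H := fun x hx => by
    have a1 := hlt {x} (singleton_subset_iff.2 hx) (singleton_nonempty x) (hsing x)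
    simp only [hf, dfc_singleton, card_singleton] at a1
    omega
  have hr2 : ∀ x ∈ H, r x ≤ 2 := fun x hx' => by have := hx x hx'; omega
  have hsum : ∑ x ∈ H, (r x : ℤ) = ((H.filter fun x => 0 < r x).card : ℤ) +
      ((H.filter fun x => r x = 2).card : ℤ) := by
    rw [card_filter, card_filter]
    push_cast
    rw [← sum_add_distrib]
    refine sum_congr rfl fun x hx' => ?_
    have := hr2 x hx'
    split_ifs <;> omega
  have he := apex_euler hG hA h2
  have hd1 : dfc G r H + 3 ≤ ((H.filter fun x => r x = 2).card : ℤ) := by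
    unfold dfc; omega
  have hz : dfc G r H = 0 := by
    have a1 := hx b hb
    obtain ⟨x, hx'⟩ : (H.filter fun x => r x = 2).Nonempty := card_pos.1 (by omega)
    have a2 := hx x (mem_filter.1 hx').1
    rw [(mem_filter.1 hx').2] at a2
    omega
  have hneg : ∀ T ⊆ H, T.Nonempty → T ≠ H → dfc G r T ≤ -1 := fun T a1 a2 a3 => by
    have a4 := hlt T a1 a2 a3
    have a5 := card_le_card a1
    simp only [hf, hz] at a4
    omega
  have hno : ∀ x, ¬ InTV G H r x := by
    rintro x ⟨a0, a, ha, c, hc, a1, a2, a3, a4, a5, a6⟩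
    have hsub : ({x, a, c} : Finset V) ⊆ H := by
      simp only [insert_subset_iff, singleton_subset_iff]; exact ⟨a0, ha, hc⟩
    have e : ({x, a, c} : Finset V) = H := by
      by_contra h
      have a7 := hneg _ hsub (insert_nonempty _ _) h
      rw [dfc_tri r a1 a3 a2, a4, a5, a6] at a7
      omega
    obtain ⟨ta, tc⟩ := InTV.second a0 ha hc a1 a2 a3 a4 a5 a6
    rw [← e] at hv
    simp only [mem_insert, mem_singleton] at hv
    rcases hv with rfl | rfl | rfl
    · exact hvT ⟨a0, a, ha, c, hc, a1, a2, a3, a4, a5, a6⟩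
    · exact hvT ta
    · exact hvT tc
  exact win_d0 (O := O) (r := r) ⟨hG, hA, hr2, hz, hneg, by omega, hno, hL, hKm,
    fun U s a1 a2 a3 a4 a5 => t1 hR' hA hC hn.le hMm hL a1 a2 a3 a4 (hno s) a5⟩

theorem thmA (n k : ℕ) : ∃ M : ℕ, ∀ (V : Type) [DecidableEq V] (G : SimpleGraph V)
    [DecidableRel G.Adj], MinorFree G → Robust G n k M := by
  induction n generalizing k with
  | zero => exact ⟨0, fun V _ G _ _ => robust_zero k 0⟩
  | succ n ih =>
    obtain ⟨M2, h2⟩ := ih (k + (n + 2) * 2 ^ (n + 1))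
    obtain ⟨M, h1⟩ := ih (4 * (M2 + k + (n + 2) * 2 ^ (n + 1)))
    exact ⟨_, fun V _ G _ hG => avg hG n k _ M2 (h2 V G hG) (win_all hG (h1 V G hG))⟩

end Pool.Agent.PL5
end

-- merged part: Pool.Agent.Work.MP_db4788_co.Main
section
/-
Section 6 of the write-up: the theorem.
-/

set_option autoImplicit false
set_option linter.unusedSectionVars false
open Finset

namespace Pool.Agent.PL5

variable {V : Type} [DecidableEq V] {G : SimpleGraph V} [DecidableRel G.Adj]

theorem odef_eq {V0 W : Finset V} (hW : W ⊆ V0) :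
    odef G V0 W = ∑ v ∈ W, (deg G V0 v : ℤ) - eg G W - 3 * (W.card : ℤ) := by
  unfold odef dfc
  have h1 : ∑ v ∈ W, (deg G (V0 \ W) v : ℤ) + ∑ v ∈ W, (deg G W v : ℤ)
      = ∑ v ∈ W, (deg G V0 v : ℤ) := by
    rw [← sum_add_distrib]
    exact sum_congr rfl (fun v _ => by exact_mod_cast deg_sdiff_add (G := G) hW v)
  have h2 : (2 : ℤ) * eg G W = ∑ v ∈ W, (deg G W v : ℤ) := by exact_mod_cast two_eg (G := G) W
  beta_reduce
  omega

theorem odef_empty (V0 : Finset V) : odef G V0 ∅ = 0 := dfc_empty _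

theorem odef_union {V0 S T : Finset V} (hS : S ⊆ V0) (hT : T ⊆ V0) (hd : Disjoint S T)
    (hn : ∀ u ∈ S, ∀ w ∈ T, ¬ G.Adj u w) :
    odef G V0 (S ∪ T) = odef G V0 S + odef G V0 T := by
  rw [odef_eq (union_subset hS hT), odef_eq hS, odef_eq hT, sum_union hd,
    card_union_of_disjoint hd, eg_union hd]
  have : ∑ v ∈ T, deg G S v = 0 :=
    sum_eq_zero (fun v hv => deg_eq_zero.2 (fun u hu h => hn u hu v hv h.symm))
  rw [this]; push_cast; ring

theorem odef_insert {V0 T : Finset V} {v : V} (hT : T ⊆ V0) (hv : v ∈ V0) (hvT : v ∉ T) :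
    odef G V0 T - 3 ≤ odef G V0 (insert v T) := by
  rw [odef_eq (insert_subset hv hT), odef_eq hT, sum_insert hvT, card_insert_of_notMem hvT,
    eg_insert hvT]
  have := deg_mono (G := G) hT v
  push_cast
  omega

theorem odef_bound (hG : MinorFree G) {V0 T Y : Finset V} (hd : Disjoint T Y)
    (hn : ∀ u ∈ T, ∀ w ∈ V0, G.Adj u w → w ∈ T ∨ w ∈ Y) :
    odef G V0 T ≤ 3 * (Y.card : ℤ) := by
  rcases T.eq_empty_or_nonempty with rfl | hT
  · rw [odef_empty]; positivity
  have h1 := eg_le1 hG (T := Y ∪ T) (hT.mono subset_union_right)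
  rw [eg_union hd.symm, card_union_of_disjoint hd.symm] at h1
  have h2 : ∑ v ∈ T, deg G (V0 \ T) v ≤ ∑ v ∈ T, deg G Y v :=
    sum_le_sum (fun v hv => card_le_card (fun u hu => by
      obtain ⟨h3, h4⟩ := mem_nbr.1 hu
      rcases hn v hv u (mem_sdiff.1 h3).1 h4 with h5 | h5
      · exact absurd h5 (mem_sdiff.1 h3).2
      · exact mem_nbr.2 ⟨h5, h4⟩))
  unfold odef dfc
  have h3 : ∑ v ∈ T, ((deg G (V0 \ T) v : ℕ) : ℤ) = ((∑ v ∈ T, deg G (V0 \ T) v : ℕ) : ℤ) := by
    push_cast; rfl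
  rw [h3]
  omega

theorem odef_erase (hG : MinorFree G) {V0 : Finset V} {v : V} (hv : v ∈ V0) (h2 : 2 ≤ V0.card) :
    odef G V0 (V0.erase v) ≤ -2 := by
  have h1 := eg_le2 hG h2
  have e : V0 \ V0.erase v = {v} := by
    ext x; simp only [mem_sdiff, mem_erase, mem_singleton]
    constructor
    · rintro ⟨a, b⟩
      by_contra hne
      exact b ⟨hne, a⟩
    · rintro rfl
      exact ⟨hv, fun hh => hh.1 rfl⟩
  have h3 := eg_insert (G := G) (notMem_erase v V0)
  rw [insert_erase hv] at h3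
  have h4 : ∑ u ∈ V0.erase v, deg G {v} u = deg G (V0.erase v) v := by
    rw [sum_deg_comm, sum_singleton]
  have h5 := card_erase_of_mem hv
  unfold odef dfc
  rw [e]
  have h6 : ∑ u ∈ V0.erase v, ((deg G {v} u : ℕ) : ℤ)
      = ((∑ u ∈ V0.erase v, deg G {v} u : ℕ) : ℤ) := by push_cast; rfl
  rw [h6, h4]
  omega

theorem MinCex.conn {V0 : Finset V} {L : V → Finset ℕ} {m : ℕ} (h : MinCex G V0 L m) :
    Conn G V0 := by
  have hne : V0.Nonempty := by
    rcases V0.eq_empty_or_nonempty with rfl | h1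
    · exact absurd (col_empty L m) h.ncol
    · exact h1
  obtain ⟨a, ha⟩ := hne
  by_cases he : comp G V0 a = V0
  · rw [← he]; exact conn_comp ha
  · exfalso
    have h1 := h.min _ (comp_subset V0 a) he
    have h2 := h.min (V0 \ comp G V0 a) sdiff_subset (fun e => by
      have : a ∈ V0 \ comp G V0 a := by rw [e]; exact ha
      exact (mem_sdiff.1 this).2 (self_mem_comp ha))
    have h3 := col_union_nonadj disjoint_sdiff (fun u hu w hw huw =>
      (mem_sdiff.1 hu).2 (comp_closed hw (mem_sdiff.1 hu).1 huw.symm)) h1 h2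
    rw [union_sdiff_of_subset (comp_subset V0 a)] at h3
    exact h.ncol h3

theorem MinCex.two_le {V0 : Finset V} {L : V → Finset ℕ} {m : ℕ} (h : MinCex G V0 L m) :
    2 ≤ V0.card := by
  by_contra hlt
  obtain ⟨a, ha⟩ := h.conn.1
  have e : V0 = {a} := eq_singleton_iff_unique_mem.2
    ⟨ha, fun x hx => card_le_one.1 (by omega) x hx a ha⟩
  have h1 := h.size a ha
  have h2 := h.two
  refine h.ncol ⟨L, ?_, fun v hv => ?_⟩
  · rw [e]; exact valid_singleton subset_rfl
  · have := h.size v hv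
    omega

theorem main : ∃ m : ℕ, 0 < m ∧ ∀ (V : Type) [DecidableEq V] (G : SimpleGraph V)
    [DecidableRel G.Adj], MinorFree G → ∀ (H : Finset V) (L : V → Finset ℕ),
    (∀ v, (L v).card = 5 * m - 1) → Col G H L m := by
  obtain ⟨N, hbN, hiso⟩ := iso (3 * 607844 * 100000000 + 607844)
    (3 * 607844 * 100000000 + 2 * 303921)
  obtain ⟨M, hM⟩ := thmA N (N + 1)
  refine ⟨M + 2, by omega, fun V _ G _ hG H L hL => ?_⟩
  classical
  by_contra hcol
  obtain ⟨V0, hV0, hmin⟩ := exists_min_image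
    (H.powerset.filter (fun S => ¬ Col G S L (M + 2))) Finset.card
    ⟨H, mem_filter.2 ⟨mem_powerset_self H, hcol⟩⟩
  obtain ⟨hV0H, hnc⟩ := mem_filter.1 hV0
  rw [mem_powerset] at hV0H
  have h : MinCex G V0 L (M + 2) :=
    { mf := hG
      size := fun v _ => by rw [hL v]; omega
      two := by omega
      ncol := hnc
      min := fun S hS hne => by
        by_contra hh
        have h1 := hmin S (mem_filter.2 ⟨mem_powerset.2 (hS.trans hV0H), hh⟩)
        exact hne (eq_of_subset_of_card_le hS h1) }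
  have hR := hM V G hG
  have split : ∀ T : Finset V, (T \ Qset G V0).card + (T ∩ Qset G V0).card = T.card :=
    fun T => card_sdiff_add_card_inter T _
  set D : Finset V → ℤ := fun T => 607844 * (100000000 * odef G V0 T +
    ((T ∩ Qset G V0).card : ℤ)) - 607843 * (T.card : ℤ) with hD
  have hbd : ∀ T ⊆ V0, ∀ Y ⊆ V0, Disjoint T Y →
      (∀ u ∈ T, ∀ w ∈ V0, G.Adj u w → w ∈ T ∨ w ∈ Y) →
      D T ≤ ((3 * 607844 * 100000000 + 2 * 303921 : ℕ) : ℤ) * (Y.card : ℤ) - T.card := by
    intro T hT Y hY hd hn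
    have h1 := odef_bound hG hd hn
    have h2 := qbound hG hT hY hd hn
    have h3 := split T
    simp only [hD]
    push_cast
    omega
  have key := hiso V G hG V0 D h.conn (by simp [hD, odef_empty])
    (fun S hS T hT hd hn => by
      simp only [hD]
      rw [odef_union hS hT hd hn, union_inter_distrib_right, card_union_of_disjoint hd,
        card_union_of_disjoint
          (disjoint_of_subset_left inter_subset_left (disjoint_of_subset_right inter_subset_left hd))]
      push_cast; ring)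
    (fun T hT v hv hvT => by
      have h1 := odef_insert (G := G) hT hv hvT
      have h2 : (T ∩ Qset G V0).card ≤ (insert v T ∩ Qset G V0).card :=
        card_le_card (inter_subset_inter (subset_insert v T) subset_rfl)
      simp only [hD]
      rw [card_insert_of_notMem hvT]
      push_cast
      omega)
    hbd
    (fun W hW hc hN => by
      have h1 := hyp h hR (by omega) hW hc hN
      have h3 := split W
      simp only [hD]
      omega)
  obtain ⟨v, hv⟩ := h.conn.1
  have e : V0 \ V0.erase v = {v} := by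
    ext x; simp only [mem_sdiff, mem_erase, mem_singleton]
    constructor
    · rintro ⟨a, b⟩
      by_contra hne
      exact b ⟨hne, a⟩
    · rintro rfl
      exact ⟨hv, fun hh => hh.1 rfl⟩
  have hc : Conn G (V0 \ V0.erase v) := by rw [e]; exact conn_singleton v
  have h1 := key _ (erase_subset v V0) hc
  have h2 := hbd _ (erase_subset v V0) {v} (singleton_subset_iff.2 hv)
    (disjoint_singleton_right.2 (notMem_erase v V0)) (fun u _ w hw _ => by
      by_cases hwv : w = v
      · exact Or.inr (mem_singleton.2 hwv)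
      · exact Or.inl (mem_erase.2 ⟨hwv, hw⟩))
  rw [card_singleton] at h2
  have h3 : (V0.erase v).card ≤ N := by
    push_cast at h2
    omega
  have h4 := hyp h hR (by omega) (erase_subset v V0) hc h3
  have h5 := odef_erase hG hv h.two_le
  omega

end Pool.Agent.PL5
end
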