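import Mathlib
import Pool.Agent.Lib.TwoPage.MinorFree

/-! A planar graph that is not `(4m+k, m)`-choosable when `5k < 2m`.
Two poles `u`, `v`; for every pair of `m`-sets `(A, B)` that the poles may receive, one copy of a
14-vertex gadget `w Z w Z w w Z w Z w` (`w` adjacent to both poles, `Z` an edge `ab` with `a ~ u`,
`b ~ v`, both ends adjacent to the two neighbouring `w`).  Gadget vertices are numbered along a
Hamiltonian path, which is the spine of a two-page book embedding. -/

set_option autoImplicit false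

namespace Pool.Agent.Work.MP_db4788_co

open Pool.Agent.Lib.TwoPage

/-- position of a gadget vertex on the path `w Z w Z w w Z w Z w` -/
def blk : Fin 14 → ℕ := ![0, 1, 1, 2, 3, 3, 4, 5, 6, 6, 7, 8, 8, 9]

/-- adjacency inside the gadget -/
def gadj (i j : Fin 14) : Bool := decide (i ≠ j ∧ blk i ≤ blk j + 1 ∧ blk j ≤ blk i + 1)

/-- adjacency to the poles: `false` is `u`, `true` is `v` -/
def padj : Bool → Fin 14 → Bool
  | false => ![true, true, false, true, true, false, true, true, true, false, true, true, false, true]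
  | true => ![true, false, true, true, false, true, true, true, false, true, true, false, true, true]

/-- page of an edge inside the gadget -/
def gpage (i j : Fin 14) : Bool := padj true i && padj true j

/-- vertices: two poles and `N` gadgets -/
abbrev Vx (N : ℕ) := Bool ⊕ (Fin N × Fin 14)

/-- adjacency -/
def adj {N : ℕ} : Vx N → Vx N → Prop
  | .inl _, .inl _ => False
  | .inl b, .inr x => padj b x.2 = true
  | .inr x, .inl b => padj b x.2 = true
  | .inr x, .inr y => x.1 = y.1 ∧ gadj x.2 y.2 = true

theorem gadj_symm : ∀ i j, gadj i j = true → gadj j i = true := by decide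
theorem gadj_irrefl : ∀ i, gadj i i = false := by decide

/-- the graph -/
def graph (N : ℕ) : SimpleGraph (Vx N) where
  Adj := adj
  symm := ⟨by
    rintro (a | a) (b | b) h
    · exact h
    · exact h
    · exact h
    · exact ⟨h.1.symm, gadj_symm _ _ h.2⟩⟩
  loopless := ⟨by
    rintro (a | a) h
    · exact h
    · have := h.2
      rw [gadj_irrefl] at this
      exact absurd this (by decide)⟩

/-- position on the spine -/
def pos {N : ℕ} : Vx N → ℕ
  | .inl false => 0
  | .inl true => 14 * N + 1
  | .inr x => 14 * x.1.1 + x.2.1 + 1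

theorem pos_inj {N : ℕ} : Function.Injective (pos (N := N)) := by
  rintro ((_ | _) | ⟨a, i⟩) ((_ | _) | ⟨b, j⟩) h <;> simp only [pos] at h
  · rfl
  · omega
  · omega
  · omega
  · rfl
  · have := b.2; have := j.2; omega
  · omega
  · have := a.2; have := i.2; omega
  · have := i.2; have := j.2
    have h1 : a = b := Fin.ext (by omega)
    have h2 : i = j := Fin.ext (by omega)
    rw [h1, h2]

/-- comparison of naturals as a parity -/
def ltn (a b : ℕ) : ZMod 2 := if a < b then 1 else 0

/-- the spine order as a tournament -/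
def lt {N : ℕ} (x y : Vx N) : ZMod 2 := ltn (pos x) (pos y)

theorem lt_anti {N : ℕ} (a b : Vx N) (h : a ≠ b) : lt a b + lt b a = 1 := by
  have : pos a ≠ pos b := fun e => h (pos_inj e)
  unfold lt ltn
  split_ifs <;> first | omega | simp

/-- pages -/
def page {N : ℕ} : Vx N → Vx N → Bool
  | .inl b, _ => b
  | .inr _, .inl b => b
  | .inr x, .inr y => gpage x.2 y.2

theorem in_in : ∀ i j s t : Fin 14, gadj i j = true → gadj s t = true → i ≠ s → i ≠ t → j ≠ s →
    j ≠ t → gpage i j = gpage s t →
      ltn i s + ltn j s + ltn i t + ltn j t = 0 := by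
  have h : ∀ i j : Fin 14, gadj i j = true → ∀ s t : Fin 14, gadj s t = true → i ≠ s → i ≠ t →
      j ≠ s → j ≠ t → gpage i j = gpage s t → ltn i s + ltn j s + ltn i t + ltn j t = 0 := by
    decide +kernel
  exact fun i j s t h1 => h i j h1 s t

theorem pole_in : ∀ (b : Bool) (j s t : Fin 14), padj b j = true → gadj s t = true → j ≠ s →
    j ≠ t → b = gpage s t → ltn j s = ltn j t := by decide +kernel

theorem ltn_shift (c a b : ℕ) : ltn (c + a + 1) (c + b + 1) = ltn a b := by
  unfold ltn
  split_ifs <;> first | rfl | omega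

theorem ltn_far {N : ℕ} (p q : Fin N) (h : p ≠ q) (i s t : Fin 14) :
    ltn (14 * p.1 + i.1 + 1) (14 * q.1 + s.1 + 1) = ltn (14 * p.1 + i.1 + 1) (14 * q.1 + t.1 + 1) := by
  have : p.1 ≠ q.1 := fun e => h (Fin.ext e)
  have := i.2; have := s.2; have := t.2
  unfold ltn
  split_ifs <;> first | rfl | omega

theorem pole_gadget {N : ℕ} (b : Bool) (y z w : Fin N × Fin 14) (h1 : padj b y.2 = true)
    (h2 : z.1 = w.1 ∧ gadj z.2 w.2 = true) (n1 : y ≠ z) (n2 : y ≠ w) (hp : b = gpage z.2 w.2) :
    lt (.inl b : Vx N) (.inr z) + lt (.inr y : Vx N) (.inr z) + lt (.inl b : Vx N) (.inr w) +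
      lt (.inr y : Vx N) (.inr w) = 0 := by
  obtain ⟨p, j⟩ := y
  obtain ⟨q, s⟩ := z
  obtain ⟨q', t⟩ := w
  obtain ⟨rfl, h2⟩ := h2
  have h2' : (2 : ZMod 2) = 0 := by decide
  have e1 : lt (.inl b : Vx N) (.inr (q, s)) = lt (.inl b : Vx N) (.inr (q, t)) := by
    have := q.2; have := s.2; have := t.2
    cases b <;> simp only [lt, pos, ltn] <;> split_ifs <;> first | rfl | omega
  have e2 : lt (.inr (p, j) : Vx N) (.inr (q, s)) = lt (.inr (p, j) : Vx N) (.inr (q, t)) := by
    simp only [lt, pos]
    by_cases hpq : p = q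
    · subst hpq
      rw [ltn_shift, ltn_shift]
      exact pole_in b j s t h1 h2 (fun e => n1 (by rw [e])) (fun e => n2 (by rw [e])) hp
    · exact ltn_far p q hpq _ _ _
  rw [e1, e2]
  linear_combination (lt (.inl b : Vx N) (.inr (q, t)) + lt (.inr (p, j) : Vx N) (.inr (q, t))) * h2'

theorem noCross (N : ℕ) : NoCross (graph N) page lt := by
  have h2' : (2 : ZMod 2) = 0 := by decide
  rintro (x | x) (y | y) (z | z) (w | w) h1 h2 n1 n2 n3 n4 hp <;>
    simp only [graph, adj, page] at h1 h2 hp
  · exact absurd (by rw [hp]) n1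
  · exact absurd (by rw [hp]) n2
  · exact pole_gadget x y z w h1 h2 (fun e => n3 (by rw [e])) (fun e => n4 (by rw [e])) hp
  · exact absurd (by rw [hp]) n3
  · exact absurd (by rw [hp]) n4
  · have := pole_gadget y x z w h1 h2 (fun e => n1 (by rw [e])) (fun e => n2 (by rw [e])) hp
    linear_combination this
  · have := pole_gadget z w x y h2 h1 (fun e => n2 (by rw [e])) (fun e => n4 (by rw [e])) hp.symm
    linear_combination lt_anti _ _ n1 + lt_anti _ _ n2 + lt_anti _ _ n3 + lt_anti _ _ n4 - this +
      2 * h2'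
  · have := pole_gadget w z x y h2 h1 (fun e => n1 (by rw [e])) (fun e => n3 (by rw [e])) hp.symm
    linear_combination lt_anti _ _ n1 + lt_anti _ _ n2 + lt_anti _ _ n3 + lt_anti _ _ n4 - this +
      2 * h2'
  · obtain ⟨p, i⟩ := x
    obtain ⟨p', j⟩ := y
    obtain ⟨q, s⟩ := z
    obtain ⟨q', t⟩ := w
    obtain ⟨rfl, h1⟩ := h1
    obtain ⟨rfl, h2⟩ := h2
    simp only [lt, pos]
    by_cases hpq : p = q
    · subst hpq
      simp only [ltn_shift]
      exact in_in i j s t h1 h2 (fun e => n1 (by rw [e])) (fun e => n2 (by rw [e]))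
        (fun e => n3 (by rw [e])) (fun e => n4 (by rw [e])) hp
    · rw [ltn_far p q hpq i s t, ltn_far p q hpq j s t]
      linear_combination (ltn (14 * p.1 + i.1 + 1) (14 * q.1 + t.1 + 1) +
        ltn (14 * p.1 + j.1 + 1) (14 * q.1 + t.1 + 1)) * h2'

/-- end points of the ten private colour intervals -/
def cut (m k : ℕ) : ℕ → ℕ
  | 0 => 0
  | 1 => 0
  | 2 => 2 * m + k
  | 3 => 3 * m + k
  | 4 => 4 * m + 2 * k
  | 5 => 6 * m + 2 * k
  | 6 => 6 * m + 3 * k
  | 7 => 8 * m + 3 * k
  | 8 => 9 * m + 4 * k
  | 9 => 10 * m + 4 * k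
  | _ => 12 * m + 5 * k

/-- private colours of a gadget vertex -/
def priv (m k c : ℕ) (i : Fin 14) : Finset ℕ :=
  Finset.Ico (c + cut m k (blk i)) (c + cut m k (blk i + 2))

theorem priv_card (m k c : ℕ) (i : Fin 14) :
    (priv m k c i).card + (if padj false i then m else 0) + (if padj true i then m else 0) =
      4 * m + k := by
  have key : ∀ a b : ℕ, ∀ p q : Bool, b + (cond p m 0) + (cond q m 0) = a + (4 * m + k) →
      a ≤ b → c + b - (c + a) + (if p then m else 0) + (if q then m else 0) = 4 * m + k := by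
    intro a b p q h h'
    cases p <;> cases q <;> simp only [cond, if_true, Bool.false_eq_true, if_false] at h ⊢ <;> omega
  rw [priv, Nat.card_Ico]
  refine key _ _ _ _ ?_ ?_ <;> fin_cases i
  exacts [(by omega : 2 * m + k + m + m = 0 + (4 * m + k)),
    (by omega : 3 * m + k + m + 0 = 0 + (4 * m + k)),
    (by omega : 3 * m + k + 0 + m = 0 + (4 * m + k)),
    (by omega : 4 * m + 2 * k + m + m = 2 * m + k + (4 * m + k)),
    (by omega : 6 * m + 2 * k + m + 0 = 3 * m + k + (4 * m + k)),
    (by omega : 6 * m + 2 * k + 0 + m = 3 * m + k + (4 * m + k)),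
    (by omega : 6 * m + 3 * k + m + m = 4 * m + 2 * k + (4 * m + k)),
    (by omega : 8 * m + 3 * k + m + m = 6 * m + 2 * k + (4 * m + k)),
    (by omega : 9 * m + 4 * k + m + 0 = 6 * m + 3 * k + (4 * m + k)),
    (by omega : 9 * m + 4 * k + 0 + m = 6 * m + 3 * k + (4 * m + k)),
    (by omega : 10 * m + 4 * k + m + m = 8 * m + 3 * k + (4 * m + k)),
    (by omega : 12 * m + 5 * k + m + 0 = 9 * m + 4 * k + (4 * m + k)),
    (by omega : 12 * m + 5 * k + 0 + m = 9 * m + 4 * k + (4 * m + k)),
    (by omega : 12 * m + 5 * k + m + m = 10 * m + 4 * k + (4 * m + k)),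
    (by omega : 0 ≤ 2 * m + k), (by omega : 0 ≤ 3 * m + k), (by omega : 0 ≤ 3 * m + k),
    (by omega : 2 * m + k ≤ 4 * m + 2 * k), (by omega : 3 * m + k ≤ 6 * m + 2 * k),
    (by omega : 3 * m + k ≤ 6 * m + 2 * k), (by omega : 4 * m + 2 * k ≤ 6 * m + 3 * k),
    (by omega : 6 * m + 2 * k ≤ 8 * m + 3 * k), (by omega : 6 * m + 3 * k ≤ 9 * m + 4 * k),
    (by omega : 6 * m + 3 * k ≤ 9 * m + 4 * k), (by omega : 8 * m + 3 * k ≤ 10 * m + 4 * k),
    (by omega : 9 * m + 4 * k ≤ 12 * m + 5 * k), (by omega : 9 * m + 4 * k ≤ 12 * m + 5 * k),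
    (by omega : 10 * m + 4 * k ≤ 12 * m + 5 * k)]

theorem priv_sub (m k c : ℕ) (i : Fin 14) :
    priv m k c i ⊆ Finset.Ico c (c + (12 * m + 5 * k)) := by
  refine Finset.Ico_subset_Ico (Nat.le_add_right _ _) (Nat.add_le_add_left ?_ _)
  generalize blk i + 2 = n
  unfold cut
  split <;> omega

theorem cut_mono (m k : ℕ) : Monotone (cut m k) := by
  refine monotone_nat_of_le_succ fun n => ?_
  rcases n with _ | _ | _ | _ | _ | _ | _ | _ | _ | _ | n <;> simp [cut] <;> omega

theorem priv_disj (m k c : ℕ) (i j : Fin 14) (hij : i ≠ j) (h : gadj i j = false) :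
    Disjoint (priv m k c i) (priv m k c j) := by
  have h' : blk j + 2 ≤ blk i ∨ blk i + 2 ≤ blk j := by
    simp only [gadj, decide_eq_false_iff_not] at h
    by_contra hc
    exact h ⟨hij, by omega, by omega⟩
  rw [Finset.disjoint_left]
  intro x h1 h2
  simp only [priv, Finset.mem_Ico] at h1 h2
  rcases h' with h' | h'
  · have := cut_mono m k h'; omega
  · have := cut_mono m k h'; omega

theorem exists_not_choosable (m k : ℕ) (h : 5 * k < 2 * m) :
    ∃ (N : ℕ) (L : Vx N → Finset ℕ), (∀ v, (L v).card = 4 * m + k) ∧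
      ¬ ∃ C : Vx N → Finset ℕ, (∀ v, C v ⊆ L v ∧ (C v).card = m) ∧
        ∀ u v, (graph N).Adj u v → Disjoint (C u) (C v) := by
  set a := 4 * m + k with ha
  let S : Finset (Finset ℕ × Finset ℕ) :=
    (Finset.powersetCard m (Finset.range a)) ×ˢ (Finset.powersetCard m (Finset.Ico a (2 * a)))
  let e : Fin S.card → Finset ℕ × Finset ℕ := fun p => (S.equivFin.symm p).1
  have he : ∀ p, ((e p).1 ⊆ Finset.range a ∧ (e p).1.card = m) ∧
      ((e p).2 ⊆ Finset.Ico a (2 * a) ∧ (e p).2.card = m) := by
    intro p
    have := (S.equivFin.symm p).2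
    simpa only [S, Finset.mem_product, Finset.mem_powersetCard] using this
  let L : Vx S.card → Finset ℕ := fun x => match x with
    | .inl false => Finset.range a
    | .inl true => Finset.Ico a (2 * a)
    | .inr x => priv m k (2 * a) x.2 ∪ (if padj false x.2 then (e x.1).1 else ∅) ∪
        (if padj true x.2 then (e x.1).2 else ∅)
  refine ⟨S.card, L, ?_, ?_⟩
  · rintro ((_ | _) | ⟨p, i⟩)
    · simp [L]
    · simp [L]; omega
    · obtain ⟨⟨h1, h2⟩, h3, h4⟩ := he p
      have hp := priv_sub m k (2 * a) i
      have hc := priv_card m k (2 * a) i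
      have c1 : (if padj false i then (e p).1 else ∅).card = if padj false i then m else 0 := by
        split_ifs <;> simp [h2]
      have c2 : (if padj true i then (e p).2 else ∅).card = if padj true i then m else 0 := by
        split_ifs <;> simp [h4]
      have s1 : (if padj false i then (e p).1 else ∅) ⊆ Finset.range a := by
        split_ifs <;> simp [h1]
      have s2 : (if padj true i then (e p).2 else ∅) ⊆ Finset.Ico a (2 * a) := by
        split_ifs <;> simp [h3]
      simp only [L]
      rw [Finset.card_union_of_disjoint, Finset.card_union_of_disjoint, c1, c2]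
      · omega
      · rw [Finset.disjoint_left]
        intro x h5 h6
        have := hp h5; have := s1 h6
        simp only [Finset.mem_Ico, Finset.mem_range] at *
        omega
      · rw [Finset.disjoint_left]
        intro x h5 h6
        have := s2 h6
        rcases Finset.mem_union.1 h5 with h5 | h5
        · have := hp h5
          simp only [Finset.mem_Ico] at *
          omega
        · have := s1 h5
          simp only [Finset.mem_Ico, Finset.mem_range] at *
          omega
  · rintro ⟨C, hC, hadj⟩
    have hmem : (C (.inl false), C (.inl true)) ∈ S := by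
      simp only [S, Finset.mem_product, Finset.mem_powersetCard]
      exact ⟨hC (.inl false), hC (.inl true)⟩
    let p := S.equivFin ⟨_, hmem⟩
    have hp : e p = (C (.inl false), C (.inl true)) := by simp [e, p]
    have hsub : ∀ i, C (.inr (p, i)) ⊆ priv m k (2 * a) i := by
      intro i x hx
      have h1 := (hC (.inr (p, i))).1 hx
      simp only [L, hp, Finset.mem_union] at h1
      rcases h1 with (h1 | h1) | h1
      · exact h1
      · split_ifs at h1 with hb
        · exact absurd hx (Finset.disjoint_left.1 (hadj (.inl false) (.inr (p, i)) hb) h1)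
        · simp at h1
      · split_ifs at h1 with hb
        · exact absurd hx (Finset.disjoint_left.1 (hadj (.inl true) (.inr (p, i)) hb) h1)
        · simp at h1
    have hdisj : ∀ i j : Fin 14, i ≠ j → Disjoint (C (.inr (p, i))) (C (.inr (p, j))) := by
      intro i j hij
      cases hg : gadj i j
      · exact (priv_disj m k _ i j hij hg).mono (hsub i) (hsub j)
      · exact hadj _ _ ⟨rfl, hg⟩
    have hcard : (Finset.univ.biUnion fun i : Fin 14 => C (.inr (p, i))).card = 14 * m := by
      rw [Finset.card_biUnion (fun i _ j _ hij => hdisj i j hij)]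
      simp [(hC _).2]
    have hle := Finset.card_le_card (s := Finset.univ.biUnion fun i : Fin 14 => C (.inr (p, i)))
      (t := Finset.Ico (2 * a) (2 * a + (12 * m + 5 * k)))
      (Finset.biUnion_subset.2 fun i _ => (hsub i).trans (priv_sub m k _ i))
    rw [hcard, Nat.card_Ico] at hle
    omega

end Pool.Agent.Work.MP_db4788_co
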