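import Mathlib

-- merged part: Pool.Agent.Work.MP_db4788_co.Defs
section
/-
Basic objects for the multiple list colouring of graphs with no K5 and no K33 minor.
-/

set_option autoImplicit false
open Finset

namespace Pool.Agent.PL5

section Defs

variable {V : Type} [DecidableEq V] (G : SimpleGraph V) [DecidableRel G.Adj]

/-- `b` is reached from `a` by a walk all of whose steps stay inside `S`. -/
def Reach (S : Finset V) : V → V → Prop :=
  Relation.ReflTransGen (fun x y => x ∈ S ∧ y ∈ S ∧ G.Adj x y)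

def Conn (S : Finset V) : Prop := S.Nonempty ∧ ∀ a ∈ S, ∀ b ∈ S, Reach G S a b

def Touch (A B : Finset V) : Prop := ∃ a ∈ A, ∃ b ∈ B, G.Adj a b

structure MinorFree : Prop where
  k5 : ∀ f : Fin 5 → Finset V, (∀ i j, i ≠ j → Disjoint (f i) (f j)) → (∀ i, Conn G (f i)) →
    (∀ i j, i ≠ j → Touch G (f i) (f j)) → False
  k33 : ∀ f : Bool × Fin 3 → Finset V, (∀ i j, i ≠ j → Disjoint (f i) (f j)) →
    (∀ i, Conn G (f i)) → (∀ a b : Fin 3, Touch G (f (false, a)) (f (true, b))) → False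

open Classical in
/-- the vertices of `S` reached from `a` inside `S` -/
noncomputable def comp (S : Finset V) (a : V) : Finset V := S.filter (fun x => Reach G S a x)

def nbr (S : Finset V) (v : V) : Finset V := S.filter (G.Adj v)

def deg (S : Finset V) (v : V) : ℕ := (nbr G S v).card

/-- number of edges inside `T` -/
def eg (T : Finset V) : ℕ := (∑ v ∈ T, deg G T v) / 2

/-- deficiency -/
def dfc (r : V → ℕ) (T : Finset V) : ℤ :=
  (eg G T : ℤ) + ∑ v ∈ T, (r v : ℤ) - 3 * (T.card : ℤ)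

def addDeg (r : V → ℕ) (S : Finset V) : V → ℕ := fun v => r v + deg G S v

def Valid (S : Finset V) (L φ : V → Finset ℕ) : Prop :=
  (∀ v ∈ S, φ v ⊆ L v) ∧ ∀ u ∈ S, ∀ v ∈ S, G.Adj u v → Disjoint (φ u) (φ v)

def Col (S : Finset V) (L : V → Finset ℕ) (m : ℕ) : Prop :=
  ∃ φ, Valid G S L φ ∧ ∀ v ∈ S, m ≤ (φ v).card

def Lists (H : Finset V) (r : V → ℕ) (m : ℕ) (L : V → Finset ℕ) : Prop :=
  ∀ v ∈ H, 5 * m ≤ (L v).card + r v * m

def Choosable (H : Finset V) (r : V → ℕ) (m : ℕ) : Prop :=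
  ∀ L, Lists H r m L → Col G H L m

def Apex (H : Finset V) (r : V → ℕ) (O : Finset V) : Prop :=
  Conn G O ∧ Disjoint O H ∧ ∀ v ∈ H, 0 < r v → ∃ o ∈ O, G.Adj v o

def Attached (r : V → ℕ) (S : Finset V) : Prop :=
  ∀ v ∈ S, ∃ b ∈ S, 0 < r b ∧ Reach G S v b

open Classical in
/-- the attached part of `S` -/
noncomputable def att (r : V → ℕ) (S : Finset V) : Finset V :=
  S.filter (fun v => ∃ b ∈ S, 0 < r b ∧ Reach G S v b)

/-- every exact colouring of `H \ U` extends to `U` -/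
def Extends (H U : Finset V) (L : V → Finset ℕ) (m : ℕ) : Prop :=
  ∀ φ, Valid G (H \ U) L φ → (∀ v ∈ H \ U, (φ v).card = m) →
    ∃ ψ, Valid G U L ψ ∧ (∀ v ∈ U, m ≤ (ψ v).card) ∧
      ∀ u ∈ U, ∀ w ∈ H \ U, G.Adj u w → Disjoint (ψ u) (φ w)

def phi (k : ℕ) : ℤ := if k = 0 then 0 else if k = 1 then 7 else 9

def pot (r : V → ℕ) (T : Finset V) : ℤ := ∑ v ∈ T, (1 + phi (r v)) - 100 * dfc G r T

def InClass (H : Finset V) (r : V → ℕ) : Prop :=
  ∀ T ⊆ H, 100000000 * dfc G r T ≤ (T.card : ℤ)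

/-- `v` lies in a tight triangle of `(H, r)` -/
def InTV (H : Finset V) (r : V → ℕ) (v : V) : Prop :=
  v ∈ H ∧ ∃ a ∈ H, ∃ b ∈ H, G.Adj v a ∧ G.Adj v b ∧ G.Adj a b ∧ r v = 2 ∧ r a = 2 ∧ r b = 2

/-- conclusion of the robust colouring theorem for one instance -/
def RobCol (H : Finset V) (r : V → ℕ) (L : V → Finset ℕ) (m k : ℕ) : Prop :=
  ∃ φ, Valid G H L φ ∧ (∀ v ∈ H, m ≤ (φ v).card) ∧
    ∀ v ∈ H, ¬ InTV G H r v → m + k ≤ (φ v).card

def Robust (n k M : ℕ) : Prop :=
  ∀ (H : Finset V) (r : V → ℕ) (O : Finset V), Apex G H r O → InClass G H r → H.card ≤ n →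
    ∀ m, M ≤ m → ∀ L, Lists H r m L → RobCol G H r L m k

def Win (H : Finset V) (L : V → Finset ℕ) (m K : ℕ) : Prop :=
  ∃ φ, Valid G H L φ ∧ (∀ v ∈ H, m ≤ (φ v).card) ∧ ∃ v ∈ H, m + K ≤ (φ v).card

end Defs

section ReachLemmas

variable {V : Type} [DecidableEq V] {G : SimpleGraph V}

omit [DecidableEq V] in
theorem Reach.refl (S : Finset V) (a : V) : Reach G S a a := Relation.ReflTransGen.refl

omit [DecidableEq V] in
theorem Reach.trans {S : Finset V} {a b c : V} (h1 : Reach G S a b) (h2 : Reach G S b c) :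
    Reach G S a c := Relation.ReflTransGen.trans h1 h2

omit [DecidableEq V] in
theorem Reach.single {S : Finset V} {a b : V} (ha : a ∈ S) (hb : b ∈ S) (h : G.Adj a b) :
    Reach G S a b := Relation.ReflTransGen.single ⟨ha, hb, h⟩

omit [DecidableEq V] in
theorem Reach.tail {S : Finset V} {a b c : V} (h1 : Reach G S a b) (hb : b ∈ S) (hc : c ∈ S)
    (h : G.Adj b c) : Reach G S a c := h1.trans (Reach.single hb hc h)

omit [DecidableEq V] in
theorem Reach.head {S : Finset V} {a b c : V} (ha : a ∈ S) (hb : b ∈ S) (h : G.Adj a b)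
    (h1 : Reach G S b c) : Reach G S a c := (Reach.single ha hb h).trans h1

omit [DecidableEq V] in
/-- a property preserved along edges inside `S` is preserved along `Reach` -/
theorem Reach.closed {S : Finset V} {a b : V} (P : V → Prop)
    (hP : ∀ x y, x ∈ S → y ∈ S → G.Adj x y → P x → P y) (h : Reach G S a b) (ha : P a) : P b := by
  unfold Reach at h
  induction h with
  | refl => exact ha
  | tail _ hbc ih => exact hP _ _ hbc.1 hbc.2.1 hbc.2.2 ih

omit [DecidableEq V] in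
theorem Reach.symm {S : Finset V} {a b : V} (h : Reach G S a b) : Reach G S b a :=
  Reach.closed (fun x => Reach G S x a) (fun _ _ hx hy hxy hxa => Reach.head hy hx hxy.symm hxa)
    h (Reach.refl S a)

omit [DecidableEq V] in
theorem Reach.mono {S T : Finset V} {a b : V} (hST : S ⊆ T) (h : Reach G S a b) :
    Reach G T a b :=
  Reach.closed (fun x => Reach G T a x) (fun _ _ hx hy hxy hax => hax.tail (hST hx) (hST hy) hxy)
    h (Reach.refl T a)

omit [DecidableEq V] in
theorem Reach.mem {S : Finset V} {a b : V} (h : Reach G S a b) (ha : a ∈ S) : b ∈ S :=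
  Reach.closed (fun x => x ∈ S) (fun _ _ _ hy _ _ => hy) h ha

omit [DecidableEq V] in
theorem mem_comp {S : Finset V} {a x : V} : x ∈ comp G S a ↔ x ∈ S ∧ Reach G S a x := by
  unfold comp; simp

omit [DecidableEq V] in
theorem comp_subset (S : Finset V) (a : V) : comp G S a ⊆ S := fun _ hx => (mem_comp.1 hx).1

omit [DecidableEq V] in
theorem self_mem_comp {S : Finset V} {a : V} (ha : a ∈ S) : a ∈ comp G S a :=
  mem_comp.2 ⟨ha, Reach.refl S a⟩

omit [DecidableEq V] in
theorem comp_closed {S : Finset V} {a x y : V} (hx : x ∈ comp G S a) (hy : y ∈ S)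
    (h : G.Adj x y) : y ∈ comp G S a :=
  mem_comp.2 ⟨hy, (mem_comp.1 hx).2.tail (mem_comp.1 hx).1 hy h⟩

omit [DecidableEq V] in
theorem reach_comp {S : Finset V} {a x : V} (ha : a ∈ S) (hx : Reach G S a x) :
    Reach G (comp G S a) a x := by
  have := Reach.closed (fun y => y ∈ comp G S a ∧ Reach G (comp G S a) a y)
    (fun x y _ hy hxy hh => ⟨comp_closed hh.1 hy hxy, hh.2.tail hh.1 (comp_closed hh.1 hy hxy) hxy⟩)
    hx ⟨self_mem_comp ha, Reach.refl _ a⟩
  exact this.2

omit [DecidableEq V] in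
theorem conn_of_root {S : Finset V} {a : V} (ha : a ∈ S) (h : ∀ x ∈ S, Reach G S a x) :
    Conn G S :=
  ⟨⟨a, ha⟩, fun x hx y hy => (h x hx).symm.trans (h y hy)⟩

omit [DecidableEq V] in
theorem conn_comp {S : Finset V} {a : V} (ha : a ∈ S) : Conn G (comp G S a) :=
  conn_of_root (self_mem_comp ha) (fun _ hx => reach_comp ha (mem_comp.1 hx).2)

omit [DecidableEq V] in
theorem conn_singleton (a : V) : Conn G {a} :=
  conn_of_root (mem_singleton_self a) (fun x hx => by
    rw [mem_singleton.1 hx]; exact Reach.refl _ a)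

omit [DecidableEq V] in
/-- a connected subset of `S` meeting the component of `a` lies in it -/
theorem Conn.subset_comp {S K : Finset V} {a x : V} (hK : Conn G K) (hKS : K ⊆ S) (hx : x ∈ K)
    (hxa : x ∈ comp G S a) : K ⊆ comp G S a := fun y hy =>
  mem_comp.2 ⟨hKS hy, (mem_comp.1 hxa).2.trans ((hK.2 x hx y hy).mono hKS)⟩

/-- a connected set together with vertices that reach it -/
theorem conn_union_of_reach {O S : Finset V} (hO : Conn G O)
    (hS : ∀ v ∈ S, ∃ o ∈ O, Reach G (O ∪ S) v o) : Conn G (O ∪ S) := by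
  obtain ⟨o, ho⟩ := hO.1
  refine conn_of_root (mem_union_left _ ho) (fun x hx => ?_)
  rcases mem_union.1 hx with hx | hx
  · exact (hO.2 o ho x hx).mono subset_union_left
  · obtain ⟨o', ho', h⟩ := hS x hx
    exact ((hO.2 o ho o' ho').mono subset_union_left).trans h.symm

theorem conn_attach {O S : Finset V} (hO : Conn G O)
    (hS : ∀ v ∈ S, ∃ w ∈ S, Reach G S v w ∧ ∃ o ∈ O, G.Adj w o) : Conn G (O ∪ S) :=
  conn_union_of_reach hO (fun v hv => by
    obtain ⟨w, hw, hr, o, ho, ha⟩ := hS v hv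
    exact ⟨o, ho, (hr.mono subset_union_right).tail (mem_union_right _ hw)
      (mem_union_left _ ho) ha⟩)

theorem Conn.union {A B : Finset V} (hA : Conn G A) (hB : Conn G B) (h : Touch G A B) :
    Conn G (A ∪ B) := by
  obtain ⟨a, ha, b, hb, hab⟩ := h
  exact conn_attach hA (fun v hv => ⟨b, hb, hB.2 v hv b hb, a, ha, hab.symm⟩)

theorem Conn.union_of_mem {A B : Finset V} (hA : Conn G A) (hB : Conn G B) {x : V} (hxA : x ∈ A)
    (hxB : x ∈ B) : Conn G (A ∪ B) :=
  conn_union_of_reach hA (fun v hv => ⟨x, hxA, (hB.2 v hv x hxB).mono subset_union_right⟩)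

theorem Conn.insert {A : Finset V} (hA : Conn G A) {v a : V} (ha : a ∈ A) (h : G.Adj v a) :
    Conn G (insert v A) := by
  have := (conn_singleton (G := G) v).union hA ⟨v, mem_singleton_self v, a, ha, h⟩
  simpa using this

theorem conn_pair {a b : V} (h : G.Adj a b) : Conn G {a, b} :=
  (conn_singleton b).insert (mem_singleton_self b) h

omit [DecidableEq V] in
theorem Touch.symm {A B : Finset V} (h : Touch G A B) : Touch G B A := by
  obtain ⟨a, ha, b, hb, hab⟩ := h
  exact ⟨b, hb, a, ha, hab.symm⟩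

omit [DecidableEq V] in
theorem Touch.mono {A B A' B' : Finset V} (h : Touch G A B) (hA : A ⊆ A') (hB : B ⊆ B') :
    Touch G A' B' := by
  obtain ⟨a, ha, b, hb, hab⟩ := h
  exact ⟨a, hA ha, b, hB hb, hab⟩

omit [DecidableEq V] in
theorem touch_singleton {a b : V} : Touch G {a} {b} ↔ G.Adj a b := by
  unfold Touch; simp

omit [DecidableEq V] in
theorem touch_left {a : V} {B : Finset V} : Touch G {a} B ↔ ∃ b ∈ B, G.Adj a b := by
  unfold Touch; simp

/-- a walk inside `X` from a vertex outside `Y` to a vertex of `Y` leaves the component -/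
theorem reach_exit {X Y : Finset V} {x y : V} (hx : x ∈ X \ Y) (hy : y ∈ Y)
    (h : Reach G X x y) : ∃ w ∈ comp G (X \ Y) x, ∃ z ∈ Y, z ∈ X ∧ G.Adj w z := by
  by_contra hne
  push Not at hne
  have := Reach.closed (fun u => u ∈ comp G (X \ Y) x) (fun u w _ hw huw hu => by
    by_cases hwY : w ∈ Y
    · exact absurd huw (hne u hu w hwY hw)
    · exact comp_closed hu (mem_sdiff.2 ⟨hw, hwY⟩) huw) h (self_mem_comp hx)
  exact (mem_sdiff.1 (comp_subset _ _ this)).2 hy

/-- TWOPART -/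
theorem twopart {X : Finset V} (hX : Conn G X) {s x : V} (hs : s ∈ X) (hx : x ∈ X) (hxs : x ≠ s) :
    ∃ w ∈ comp G (X.erase s) x, G.Adj s w := by
  have h := reach_exit (Y := {s}) (mem_sdiff.2 ⟨hx, by simpa using hxs⟩) (mem_singleton_self s)
    (hX.2 x hx s hs)
  obtain ⟨w, hw, z, hz, _, hwz⟩ := h
  rw [mem_singleton.1 hz] at hwz
  rw [sdiff_singleton_eq_erase] at hw
  exact ⟨w, hw, hwz.symm⟩

omit [DecidableEq V] in
theorem MinorFree.no_k5 (hG : MinorFree G) {A B C D E : Finset V}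
    (cA : Conn G A) (cB : Conn G B) (cC : Conn G C) (cD : Conn G D) (cE : Conn G E)
    (dAB : Disjoint A B) (dAC : Disjoint A C) (dAD : Disjoint A D) (dAE : Disjoint A E)
    (dBC : Disjoint B C) (dBD : Disjoint B D) (dBE : Disjoint B E)
    (dCD : Disjoint C D) (dCE : Disjoint C E) (dDE : Disjoint D E)
    (tAB : Touch G A B) (tAC : Touch G A C) (tAD : Touch G A D) (tAE : Touch G A E)
    (tBC : Touch G B C) (tBD : Touch G B D) (tBE : Touch G B E)
    (tCD : Touch G C D) (tCE : Touch G C E) (tDE : Touch G D E) : False := by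
  refine hG.k5 ![A, B, C, D, E] ?_ ?_ ?_
  · intro i j hij
    fin_cases i <;> fin_cases j <;> first | exact absurd rfl hij | assumption | (apply Disjoint.symm; assumption)
  · intro i
    fin_cases i <;> assumption
  · intro i j hij
    fin_cases i <;> fin_cases j <;> first | exact absurd rfl hij | assumption | (apply Touch.symm; assumption)

omit [DecidableEq V] in
theorem MinorFree.no_k33 (hG : MinorFree G) {A B C D E F : Finset V}
    (cA : Conn G A) (cB : Conn G B) (cC : Conn G C) (cD : Conn G D) (cE : Conn G E)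
    (cF : Conn G F)
    (dAB : Disjoint A B) (dAC : Disjoint A C) (dAD : Disjoint A D) (dAE : Disjoint A E)
    (dAF : Disjoint A F)
    (dBC : Disjoint B C) (dBD : Disjoint B D) (dBE : Disjoint B E) (dBF : Disjoint B F)
    (dCD : Disjoint C D) (dCE : Disjoint C E) (dCF : Disjoint C F)
    (dDE : Disjoint D E) (dDF : Disjoint D F) (dEF : Disjoint E F)
    (tAD : Touch G A D) (tAE : Touch G A E) (tAF : Touch G A F)
    (tBD : Touch G B D) (tBE : Touch G B E) (tBF : Touch G B F)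
    (tCD : Touch G C D) (tCE : Touch G C E) (tCF : Touch G C F) : False := by
  refine hG.k33 (fun p => if p.1 then ![D, E, F] p.2 else ![A, B, C] p.2) ?_ ?_ ?_
  · rintro ⟨a, i⟩ ⟨b, j⟩ hij
    cases a <;> cases b <;> fin_cases i <;> fin_cases j <;>
      first | exact absurd rfl hij | assumption | (apply Disjoint.symm; assumption)
  · rintro ⟨a, i⟩
    cases a <;> fin_cases i <;> assumption
  · intro i j
    fin_cases i <;> fin_cases j <;> assumption

end ReachLemmas

section Count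

variable {V : Type} [DecidableEq V] {G : SimpleGraph V} [DecidableRel G.Adj]

omit [DecidableEq V] in
theorem mem_nbr {S : Finset V} {v u : V} : u ∈ nbr G S v ↔ u ∈ S ∧ G.Adj v u := by
  unfold nbr; simp

omit [DecidableEq V] in
theorem nbr_subset (S : Finset V) (v : V) : nbr G S v ⊆ S := fun _ h => (mem_nbr.1 h).1

omit [DecidableEq V] in
theorem deg_empty (v : V) : deg G ∅ v = 0 := by simp [deg, nbr]

omit [DecidableEq V] in
theorem deg_mono {S T : Finset V} (h : S ⊆ T) (v : V) : deg G S v ≤ deg G T v :=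
  card_le_card (fun _ hu => mem_nbr.2 ⟨h (mem_nbr.1 hu).1, (mem_nbr.1 hu).2⟩)

omit [DecidableEq V] in
theorem deg_le_card (S : Finset V) (v : V) : deg G S v ≤ S.card := card_le_card (nbr_subset S v)

omit [DecidableEq V] in
theorem le_deg {S N : Finset V} {v : V} (h : ∀ u ∈ N, u ∈ S ∧ G.Adj v u) : N.card ≤ deg G S v :=
  card_le_card (fun u hu => mem_nbr.2 (h u hu))

omit [DecidableEq V] in
theorem deg_le {S N : Finset V} {v : V} (h : ∀ u ∈ S, G.Adj v u → u ∈ N) : deg G S v ≤ N.card :=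
  card_le_card (fun u hu => h u (mem_nbr.1 hu).1 (mem_nbr.1 hu).2)

omit [DecidableEq V] in
theorem deg_eq_zero {S : Finset V} {v : V} : deg G S v = 0 ↔ ∀ u ∈ S, ¬ G.Adj v u := by
  simp [deg, nbr, filter_eq_empty_iff]

omit [DecidableEq V] in
theorem deg_pos {S : Finset V} {v : V} : 0 < deg G S v ↔ ∃ u ∈ S, G.Adj v u := by
  rw [Nat.pos_iff_ne_zero, Ne, deg_eq_zero]; push Not; rfl

omit [DecidableEq V] in
theorem deg_congr {S T : Finset V} {v : V} (h : ∀ u, G.Adj v u → (u ∈ S ↔ u ∈ T)) :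
    deg G S v = deg G T v := by
  unfold deg; congr 1; ext u; simp only [mem_nbr]
  exact ⟨fun hh => ⟨(h u hh.2).1 hh.1, hh.2⟩, fun hh => ⟨(h u hh.2).2 hh.1, hh.2⟩⟩

theorem deg_union {S T : Finset V} (h : Disjoint S T) (v : V) :
    deg G (S ∪ T) v = deg G S v + deg G T v := by
  unfold deg nbr
  rw [filter_union, card_union_of_disjoint (disjoint_filter_filter h)]

theorem deg_union_le (S T : Finset V) (v : V) : deg G (S ∪ T) v ≤ deg G S v + deg G T v := by
  unfold deg nbr
  rw [filter_union]; exact card_union_le _ _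

omit [DecidableEq V] in
theorem deg_singleton (a v : V) : deg G {a} v = if G.Adj v a then 1 else 0 := by
  unfold deg nbr
  rw [filter_singleton]; split_ifs <;> simp

theorem deg_insert {S : Finset V} {a : V} (ha : a ∉ S) (v : V) :
    deg G (insert a S) v = deg G S v + if G.Adj v a then 1 else 0 := by
  rw [insert_eq, deg_union (disjoint_singleton_left.2 ha), deg_singleton, add_comm]

theorem deg_sdiff_add {H S : Finset V} (h : S ⊆ H) (v : V) :
    deg G (H \ S) v + deg G S v = deg G H v := by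
  rw [← deg_union sdiff_disjoint, sdiff_union_of_subset h]

theorem deg_erase_self (S : Finset V) (v : V) : deg G (S.erase v) v = deg G S v :=
  deg_congr (fun u hu => by
    have : u ≠ v := fun h => G.loopless.irrefl v (h ▸ hu)
    simp [this])

omit [DecidableEq V] in
theorem sum_deg_comm (S T : Finset V) : ∑ v ∈ S, deg G T v = ∑ v ∈ T, deg G S v := by
  unfold deg nbr
  simp only [card_filter]
  rw [sum_comm]
  refine sum_congr rfl (fun u _ => sum_congr rfl (fun v _ => ?_))
  simp only [G.adj_comm]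

theorem sum_deg_insert {S : Finset V} {a : V} (ha : a ∉ S) :
    ∑ v ∈ insert a S, deg G (insert a S) v = ∑ v ∈ S, deg G S v + 2 * deg G S a := by
  rw [sum_insert ha, deg_insert ha, if_neg (G.loopless.irrefl a)]
  have h1 : ∑ v ∈ S, deg G (insert a S) v = ∑ v ∈ S, deg G S v + ∑ v ∈ S, deg G {a} v := by
    rw [← sum_add_distrib]
    exact sum_congr rfl (fun v _ => by rw [deg_insert ha, deg_singleton])
  rw [h1, sum_deg_comm S {a}, sum_singleton]; ring

theorem two_eg (T : Finset V) : 2 * eg G T = ∑ v ∈ T, deg G T v := by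
  have : 2 ∣ ∑ v ∈ T, deg G T v := by
    induction T using Finset.induction_on with
    | empty => simp
    | insert a S ha ih => rw [sum_deg_insert ha]; omega
  unfold eg; omega

theorem eg_insert {S : Finset V} {a : V} (ha : a ∉ S) :
    eg G (insert a S) = eg G S + deg G S a := by
  have h1 := two_eg (G := G) (insert a S)
  have h2 := two_eg (G := G) S
  rw [sum_deg_insert ha] at h1; omega

omit [DecidableEq V] in
theorem eg_empty : eg G (∅ : Finset V) = 0 := by simp [eg]

theorem eg_singleton (a : V) : eg G {a} = 0 := by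
  have := eg_insert (G := G) (notMem_empty a)
  simpa [eg_empty, deg_empty] using this

theorem eg_union {S T : Finset V} (h : Disjoint S T) :
    eg G (S ∪ T) = eg G S + eg G T + ∑ v ∈ T, deg G S v := by
  have h1 := two_eg (G := G) (S ∪ T)
  have h2 := two_eg (G := G) S
  have h3 := two_eg (G := G) T
  rw [sum_union h] at h1
  simp only [deg_union h, sum_add_distrib] at h1
  rw [sum_deg_comm S T] at h1
  omega

theorem eg_mono {S T : Finset V} (h : S ⊆ T) : eg G S ≤ eg G T := by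
  have := eg_union (G := G) (disjoint_sdiff : Disjoint S (T \ S))
  rw [union_sdiff_of_subset h] at this; omega

omit [DecidableEq V] in
theorem dfc_empty (r : V → ℕ) : dfc G r ∅ = 0 := by simp [dfc, eg_empty]

theorem dfc_singleton (r : V → ℕ) (a : V) : dfc G r {a} = (r a : ℤ) - 3 := by
  simp [dfc, eg_singleton]

theorem dfc_insert (r : V → ℕ) {S : Finset V} {a : V} (ha : a ∉ S) :
    dfc G r (insert a S) = dfc G r S + r a + deg G S a - 3 := by
  unfold dfc
  rw [eg_insert ha, sum_insert ha, card_insert_of_notMem ha]; push_cast; ring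

/-- the key identity -/
theorem dfc_union (r : V → ℕ) {S T : Finset V} (h : Disjoint S T) :
    dfc G r (S ∪ T) = dfc G r S + dfc G (addDeg G r S) T := by
  unfold dfc addDeg
  rw [eg_union h, sum_union h, card_union_of_disjoint h]; push_cast
  rw [sum_add_distrib]; ring

omit [DecidableEq V] in
theorem dfc_mono_r {r r' : V → ℕ} {T : Finset V} (h : ∀ v ∈ T, r v ≤ r' v) :
    dfc G r T ≤ dfc G r' T := by
  unfold dfc
  have : ∑ v ∈ T, (r v : ℤ) ≤ ∑ v ∈ T, (r' v : ℤ) := sum_le_sum (fun v hv => by exact_mod_cast h v hv)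
  omega

omit [DecidableEq V] in
theorem dfc_congr {r r' : V → ℕ} {T : Finset V} (h : ∀ v ∈ T, r v = r' v) :
    dfc G r T = dfc G r' T :=
  le_antisymm (dfc_mono_r (fun v hv => (h v hv).le)) (dfc_mono_r (fun v hv => (h v hv).ge))

theorem dfc_union_nonadj (r : V → ℕ) {S T : Finset V} (h : Disjoint S T)
    (hn : ∀ u ∈ T, ∀ w ∈ S, ¬ G.Adj u w) : dfc G r (S ∪ T) = dfc G r S + dfc G r T := by
  rw [dfc_union r h]; congr 1
  exact dfc_congr (fun v hv => by simp [addDeg, deg_eq_zero.2 (hn v hv)])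

theorem two_dfc (r : V → ℕ) (T : Finset V) :
    2 * dfc G r T = ∑ v ∈ T, ((deg G T v : ℤ) + 2 * r v - 6) := by
  have h := two_eg (G := G) T
  have h' : (2 : ℤ) * eg G T = ∑ v ∈ T, (deg G T v : ℤ) := by exact_mod_cast h
  unfold dfc
  rw [sum_sub_distrib, sum_add_distrib, ← mul_sum, sum_const, ← h']; simp; ring

omit [DecidableEq V] in
theorem dfc_ge (r : V → ℕ) (T : Finset V) : -3 * (T.card : ℤ) ≤ dfc G r T := by
  unfold dfc
  have : (0 : ℤ) ≤ ∑ v ∈ T, (r v : ℤ) := sum_nonneg (fun v _ => by positivity)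
  omega

theorem dfc_pair (r : V → ℕ) {a b : V} (h : G.Adj a b) :
    dfc G r {a, b} = (r a : ℤ) + r b - 5 := by
  rw [dfc_insert r (by simpa using h.ne), dfc_singleton, deg_singleton, if_pos h]; push_cast; ring

theorem dfc_pair_ge (r : V → ℕ) {a b : V} (h : a ≠ b) :
    (r a : ℤ) + r b - 6 ≤ dfc G r {a, b} := by
  rw [dfc_insert r (by simpa using h), dfc_singleton]; omega

/-- path `a - b - c` -/
theorem dfc_path (r : V → ℕ) {a b c : V} (hab : G.Adj a b) (hbc : G.Adj b c) (hac : a ≠ c) :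
    (r a : ℤ) + r b + r c - 7 ≤ dfc G r {a, b, c} := by
  rw [dfc_insert r (by simp [hab.ne, hac]), dfc_pair r hbc]
  have : 0 < deg G {b, c} a := deg_pos.2 ⟨b, by simp, hab⟩
  omega

theorem dfc_tri (r : V → ℕ) {a b c : V} (hab : G.Adj a b) (hbc : G.Adj b c) (hac : G.Adj a c) :
    dfc G r {a, b, c} = (r a : ℤ) + r b + r c - 6 := by
  rw [dfc_insert r (by simp [hab.ne, hac.ne]), dfc_pair r hbc,
    deg_insert (by simpa using hbc.ne), deg_singleton, if_pos hab, if_pos hac]; push_cast; ring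

/-- one edge `a - b` and a third vertex -/
theorem dfc_edge3 (r : V → ℕ) {a b c : V} (hab : G.Adj a b) (hac : a ≠ c) (hbc : b ≠ c) :
    (r a : ℤ) + r b + r c - 8 ≤ dfc G r {a, b, c} := by
  have e : ({a, b, c} : Finset V) = insert c {a, b} := by ext x; simp; tauto
  rw [e, dfc_insert r (by simp [hac.symm, hbc.symm]), dfc_pair r hab]; omega

theorem phi_nonneg (k : ℕ) : 0 ≤ phi k := by unfold phi; split_ifs <;> omega

theorem phi_le (k : ℕ) : phi k ≤ 9 := by unfold phi; split_ifs <;> omega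

theorem phi_mono {a b : ℕ} (h : a ≤ b) : phi a ≤ phi b := by unfold phi; split_ifs <;> omega

omit [DecidableEq V] [DecidableRel G.Adj] in
theorem Apex.mono {H H' O : Finset V} {r : V → ℕ} (h : Apex G H r O) (hH : H' ⊆ H) :
    Apex G H' r O :=
  ⟨h.1, h.2.1.mono_right hH, fun v hv => h.2.2 v (hH hv)⟩

omit [DecidableRel G.Adj] in
theorem Apex.conn_union {H O S : Finset V} {r : V → ℕ} (h : Apex G H r O) (hS : S ⊆ H)
    (hA : Attached G r S) : Conn G (O ∪ S) :=
  conn_attach h.1 (fun v hv => by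
    obtain ⟨b, hb, hr, hvb⟩ := hA v hv
    exact ⟨b, hb, hvb, h.2.2 b (hS hb) hr⟩)

omit [DecidableRel G.Adj] in
/-- an attached set can be moved into the apex -/
theorem Apex.absorb {H O S U : Finset V} {r r' : V → ℕ} (h : Apex G H r O) (hS : S ⊆ H)
    (hA : Attached G r S) (hU : U ⊆ H \ S)
    (hr : ∀ u ∈ U, 0 < r' u → 0 < r u ∨ ∃ a ∈ S, G.Adj u a) : Apex G U r' (O ∪ S) := by
  refine ⟨h.conn_union hS hA, ?_, fun u hu hru => ?_⟩
  · rw [disjoint_union_left]
    exact ⟨h.2.1.mono_right (hU.trans sdiff_subset), (disjoint_sdiff).mono_right hU⟩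
  · rcases hr u hu hru with h1 | ⟨a, ha, h1⟩
    · obtain ⟨o, ho, h2⟩ := h.2.2 u (mem_sdiff.1 (hU hu)).1 h1
      exact ⟨o, mem_union_left _ ho, h2⟩
    · exact ⟨a, mem_union_right _ ha, h1⟩

theorem Apex.absorb_addDeg {H O S : Finset V} {r : V → ℕ} (h : Apex G H r O) (hS : S ⊆ H)
    (hA : Attached G r S) : Apex G (H \ S) (addDeg G r S) (O ∪ S) :=
  h.absorb hS hA subset_rfl (fun u _ hu => by
    unfold addDeg at hu
    by_cases h0 : 0 < r u
    · exact Or.inl h0
    · exact Or.inr (deg_pos.1 (by omega)))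

omit [DecidableEq V] [DecidableRel G.Adj] in
theorem attached_of_pos {r : V → ℕ} {S : Finset V} (h : ∀ v ∈ S, 0 < r v) : Attached G r S :=
  fun v hv => ⟨v, hv, h v hv, Reach.refl _ _⟩

omit [DecidableEq V] [DecidableRel G.Adj] in
theorem attached_of_adj {r : V → ℕ} {S : Finset V}
    (h : ∀ v ∈ S, 0 < r v ∨ ∃ b ∈ S, 0 < r b ∧ G.Adj v b) : Attached G r S := fun v hv => by
  rcases h v hv with h1 | ⟨b, hb, h1, h2⟩
  · exact ⟨v, hv, h1, Reach.refl _ _⟩
  · exact ⟨b, hb, h1, Reach.single hv hb h2⟩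

omit [DecidableEq V] [DecidableRel G.Adj] in
theorem mem_att {r : V → ℕ} {S : Finset V} {v : V} :
    v ∈ att G r S ↔ v ∈ S ∧ ∃ b ∈ S, 0 < r b ∧ Reach G S v b := by
  unfold att; simp

omit [DecidableEq V] [DecidableRel G.Adj] in
theorem att_subset (r : V → ℕ) (S : Finset V) : att G r S ⊆ S := fun _ h => (mem_att.1 h).1

omit [DecidableEq V] [DecidableRel G.Adj] in
theorem att_closed {r : V → ℕ} {S : Finset V} {u w : V} (hu : u ∈ S) (hw : w ∈ att G r S)
    (h : G.Adj u w) : u ∈ att G r S := by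
  obtain ⟨hwS, b, hb, hr, hwb⟩ := mem_att.1 hw
  exact mem_att.2 ⟨hu, b, hb, hr, Reach.head hu hwS h hwb⟩

omit [DecidableEq V] [DecidableRel G.Adj] in
theorem mem_att_of_pos {r : V → ℕ} {S : Finset V} {u : V} (hu : u ∈ S) (h : 0 < r u) :
    u ∈ att G r S := mem_att.2 ⟨hu, u, hu, h, Reach.refl _ _⟩

omit [DecidableEq V] [DecidableRel G.Adj] in
theorem attached_att (r : V → ℕ) (S : Finset V) : Attached G r (att G r S) := by
  intro v hv
  obtain ⟨hvS, b, hb, hr, hvb⟩ := mem_att.1 hv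
  refine ⟨b, mem_att_of_pos hb hr, hr, ?_⟩
  have := Reach.closed (fun x => x ∈ att G r S ∧ Reach G (att G r S) x b)
    (fun x y _ hy hxy hh => ⟨att_closed hy hh.1 hxy.symm,
      Reach.head (att_closed hy hh.1 hxy.symm) hh.1 hxy.symm hh.2⟩)
    hvb.symm ⟨mem_att_of_pos hb hr, Reach.refl _ _⟩
  exact this.2

omit [DecidableEq V] [DecidableRel G.Adj] in
theorem Attached.subset_att {r : V → ℕ} {Z S : Finset V} (hZ : Attached G r Z) (h : Z ⊆ S) :
    Z ⊆ att G r S := fun v hv => by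
  obtain ⟨b, hb, hr, hvb⟩ := hZ v hv
  exact mem_att.2 ⟨h hv, b, h hb, hr, hvb.mono h⟩

omit [DecidableEq V] in
theorem InClass.mono {H H' : Finset V} {r : V → ℕ} (h : InClass G H r) (hH : H' ⊆ H) :
    InClass G H' r := fun T hT => h T (hT.trans hH)

omit [DecidableEq V] in
theorem InClass.small {H T : Finset V} {r : V → ℕ} (h : InClass G H r) (hT : T ⊆ H)
    (hc : T.card < 100000000) : dfc G r T ≤ 0 := by
  have := h T hT
  omega

theorem InClass.r_le {H : Finset V} {r : V → ℕ} (h : InClass G H r) {v : V} (hv : v ∈ H) :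
    r v ≤ 3 := by
  have := h.small (singleton_subset_iff.2 hv) (by simp)
  rw [dfc_singleton] at this; omega

omit [DecidableEq V] [DecidableRel G.Adj] in
theorem InTV.mono {H H' : Finset V} {r : V → ℕ} {v : V} (h : InTV G H' r v) (hH : H' ⊆ H) :
    InTV G H r v := by
  obtain ⟨hv, a, ha, b, hb, hh⟩ := h
  exact ⟨hH hv, a, hH ha, b, hH hb, hh⟩

omit [DecidableEq V] in
theorem Lists.mono {H H' : Finset V} {r : V → ℕ} {m : ℕ} {L : V → Finset ℕ} (h : Lists H r m L)
    (hH : H' ⊆ H) : Lists H' r m L := fun v hv => h v (hH hv)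

end Count

end Pool.Agent.PL5
end

-- merged part: Pool.Agent.Work.MP_db4788_co.Colour
section
/-
Elementary lemmas on multiple list colourings.
-/

set_option autoImplicit false
set_option linter.unusedSectionVars false
open Finset

namespace Pool.Agent.PL5

section Sets

/-- PREF: an `m`-subset of `A` that avoids `Z` as much as possible -/
theorem pref (A Z : Finset ℕ) (m : ℕ) (h : m ≤ A.card) :
    ∃ α ⊆ A, α.card = m ∧ (α ∩ Z).card ≤ m - (A \ Z).card := by
  by_cases h1 : m ≤ (A \ Z).card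
  · obtain ⟨α, hα, hc⟩ := exists_subset_card_eq h1
    refine ⟨α, hα.trans sdiff_subset, hc, ?_⟩
    have : α ∩ Z = ∅ := by
      ext x; simp only [mem_inter, notMem_empty, iff_false, not_and]
      exact fun hx => (mem_sdiff.1 (hα hx)).2
    simp [this]
  · obtain ⟨α, h2, h3, hc⟩ := exists_subsuperset_card_eq (sdiff_subset : A \ Z ⊆ A)
      (by omega : (A \ Z).card ≤ m) h
    refine ⟨α, h3, hc, ?_⟩
    have e1 := card_sdiff_add_card_inter α Z
    have : (A \ Z).card ≤ (α \ Z).card := card_le_card (fun x hx =>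
      mem_sdiff.2 ⟨h2 hx, (mem_sdiff.1 hx).2⟩)
    omega

/-- an `m`-subset of `A` avoiding `Z` -/
theorem avoid (A Z : Finset ℕ) (m : ℕ) (h : m + Z.card ≤ A.card) :
    ∃ α ⊆ A, α.card = m ∧ Disjoint α Z := by
  have : m ≤ (A \ Z).card := by have := le_card_sdiff Z A; omega
  obtain ⟨α, hα, hc⟩ := exists_subset_card_eq this
  exact ⟨α, hα.trans sdiff_subset, hc, disjoint_of_subset_left hα sdiff_disjoint⟩

theorem pair_hall (A B : Finset ℕ) (E : ℕ) (hA : E ≤ A.card) (hB : E ≤ B.card)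
    (hAB : 2 * E ≤ (A ∪ B).card) :
    ∃ α ⊆ A, ∃ β ⊆ B, α.card = E ∧ β.card = E ∧ Disjoint α β := by
  obtain ⟨α, hα, hc, hi⟩ := pref A B E hA
  have e1 := card_sdiff_add_card_inter B α
  have e2 := card_sdiff_add_card A B
  rw [inter_comm] at e1
  have : E ≤ (B \ α).card := by omega
  obtain ⟨β, hβ, hcβ⟩ := exists_subset_card_eq this
  exact ⟨α, hα, β, hβ.trans sdiff_subset, hc, hcβ,
    (disjoint_of_subset_left hβ sdiff_disjoint).symm⟩

theorem tri_hall (A B C : Finset ℕ) (E : ℕ) (hA : 2 * E ≤ A.card) (hB : 2 * E ≤ B.card)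
    (hC : 2 * E ≤ C.card) (h : 3 * E ≤ (A ∪ B ∪ C).card) :
    ∃ α ⊆ A, ∃ β ⊆ B, ∃ γ ⊆ C, α.card = E ∧ β.card = E ∧ γ.card = E ∧
      Disjoint α β ∧ Disjoint α γ ∧ Disjoint β γ := by
  obtain ⟨γ, hγ, hc, hi⟩ := pref C (A ∪ B) E (by omega)
  have e1 := card_sdiff_add_card_inter (A ∪ B) γ
  have e2 := card_sdiff_add_card C (A ∪ B)
  rw [inter_comm] at e1
  rw [union_comm C] at e2
  have e3 : A.card ≤ (A ∪ B).card := card_le_card subset_union_left
  have e4 := le_card_sdiff γ A
  have e5 := le_card_sdiff γ B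
  obtain ⟨α, hα, β, hβ, h1, h2, h3⟩ := pair_hall (A \ γ) (B \ γ) E (by omega) (by omega)
    (by rw [← union_sdiff_distrib]; omega)
  exact ⟨α, hα.trans sdiff_subset, β, hβ.trans sdiff_subset, γ, hγ, h1, h2, hc, h3,
    disjoint_of_subset_left hα sdiff_disjoint, disjoint_of_subset_left hβ sdiff_disjoint⟩

theorem card_biUnion_le_mul {ι : Type} [DecidableEq ι] (N : Finset ι) (φ : ι → Finset ℕ) (m : ℕ)
    (h : ∀ u ∈ N, (φ u).card ≤ m) : (N.biUnion φ).card ≤ N.card * m :=
  card_biUnion_le.trans (by simpa using sum_le_card_nsmul N _ m h)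

end Sets

variable {V : Type} [DecidableEq V] {G : SimpleGraph V} [DecidableRel G.Adj]

theorem Valid.mono_set {S T : Finset V} {L φ : V → Finset ℕ} (h : Valid G T L φ) (hS : S ⊆ T) :
    Valid G S L φ :=
  ⟨fun v hv => h.1 v (hS hv), fun u hu v hv => h.2 u (hS hu) v (hS hv)⟩

theorem Valid.mono_list {S : Finset V} {L L' φ : V → Finset ℕ} (h : Valid G S L φ)
    (hL : ∀ v ∈ S, L v ⊆ L' v) : Valid G S L' φ :=
  ⟨fun v hv => (h.1 v hv).trans (hL v hv), h.2⟩

theorem Valid.shrink {S : Finset V} {L φ ψ : V → Finset ℕ} (h : Valid G S L φ)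
    (hψ : ∀ v ∈ S, ψ v ⊆ φ v) : Valid G S L ψ :=
  ⟨fun v hv => (hψ v hv).trans (h.1 v hv), fun u hu v hv huv =>
    (h.2 u hu v hv huv).mono (hψ u hu) (hψ v hv)⟩

theorem valid_empty (L φ : V → Finset ℕ) : Valid G ∅ L φ := ⟨by simp, by simp⟩

theorem valid_singleton {L φ : V → Finset ℕ} {a : V} (h : φ a ⊆ L a) : Valid G {a} L φ :=
  ⟨by simpa using h, by simp⟩

/-- choose subsets of prescribed sizes -/
theorem exists_trim (S : Finset V) (φ : V → Finset ℕ) (t : V → ℕ)
    (h : ∀ v ∈ S, t v ≤ (φ v).card) :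
    ∃ ψ : V → Finset ℕ, ∀ v ∈ S, ψ v ⊆ φ v ∧ (ψ v).card = t v := by
  have : ∀ v, ∃ α : Finset ℕ, v ∈ S → α ⊆ φ v ∧ α.card = t v := fun v => by
    by_cases hv : v ∈ S
    · obtain ⟨α, h1, h2⟩ := exists_subset_card_eq (h v hv)
      exact ⟨α, fun _ => ⟨h1, h2⟩⟩
    · exact ⟨∅, fun h => absurd h hv⟩
  choose ψ hψ using this
  exact ⟨ψ, hψ⟩

theorem Col.exact {S : Finset V} {L : V → Finset ℕ} {m : ℕ} (h : Col G S L m) :
    ∃ φ, Valid G S L φ ∧ ∀ v ∈ S, (φ v).card = m := by
  obtain ⟨φ, h1, h2⟩ := h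
  obtain ⟨ψ, hψ⟩ := exists_trim S φ (fun _ => m) h2
  exact ⟨ψ, h1.shrink (fun v hv => (hψ v hv).1), fun v hv => (hψ v hv).2⟩

theorem Col.mono_list {S : Finset V} {L L' : V → Finset ℕ} {m : ℕ} (h : Col G S L m)
    (hL : ∀ v ∈ S, L v ⊆ L' v) : Col G S L' m := by
  obtain ⟨φ, h1, h2⟩ := h
  exact ⟨φ, h1.mono_list hL, h2⟩

theorem Col.mono_set {S T : Finset V} {L : V → Finset ℕ} {m : ℕ} (h : Col G T L m)
    (hS : S ⊆ T) : Col G S L m := by
  obtain ⟨φ, h1, h2⟩ := h
  exact ⟨φ, h1.mono_set hS, fun v hv => h2 v (hS hv)⟩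

theorem col_empty (L : V → Finset ℕ) (m : ℕ) : Col G ∅ L m :=
  ⟨fun _ => ∅, valid_empty _ _, by simp⟩

/-- glue two colourings -/
theorem glue {S U : Finset V} {L φ ψ : V → Finset ℕ} (hd : Disjoint S U) (h1 : Valid G S L φ)
    (h2 : Valid G U L ψ) (hc : ∀ u ∈ U, ∀ w ∈ S, G.Adj u w → Disjoint (ψ u) (φ w)) :
    ∃ χ, Valid G (S ∪ U) L χ ∧ (∀ v ∈ S, χ v = φ v) ∧ ∀ v ∈ U, χ v = ψ v := by
  have e1 : ∀ v ∈ S, (if v ∈ S then φ v else ψ v) = φ v := fun v hv => if_pos hv
  have e2 : ∀ v ∈ U, (if v ∈ S then φ v else ψ v) = ψ v := fun v hv =>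
    if_neg (fun h => disjoint_left.1 hd h hv)
  refine ⟨fun v => if v ∈ S then φ v else ψ v, ⟨fun v hv => ?_, fun u hu v hv huv => ?_⟩, e1, e2⟩
  · rcases mem_union.1 hv with h | h
    · simp only [e1 v h]; exact h1.1 v h
    · simp only [e2 v h]; exact h2.1 v h
  · rcases mem_union.1 hu with h | h <;> rcases mem_union.1 hv with h' | h'
    · simp only [e1 u h, e1 v h']; exact h1.2 u h v h' huv
    · simp only [e1 u h, e2 v h']; exact (hc v h' u h huv.symm).symm
    · simp only [e2 u h, e1 v h']; exact hc u h v h' huv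
    · simp only [e2 u h, e2 v h']; exact h2.2 u h v h' huv

/-- add one vertex with a prescribed colour set -/
theorem valid_insert {S : Finset V} {L φ : V → Finset ℕ} {x : V} {α : Finset ℕ} (hx : x ∉ S)
    (h1 : Valid G S L φ) (hα : α ⊆ L x) (hc : ∀ w ∈ S, G.Adj x w → Disjoint α (φ w)) :
    ∃ χ, Valid G (insert x S) L χ ∧ (∀ v ∈ S, χ v = φ v) ∧ χ x = α := by
  obtain ⟨χ, h2, h3, h4⟩ := glue (ψ := fun _ => α) (disjoint_singleton_right.2 hx) h1
    (valid_singleton hα) (fun u hu w hw huw => by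
      rw [mem_singleton.1 hu] at huw; exact hc w hw huw)
  refine ⟨χ, ?_, h3, h4 x (mem_singleton_self x)⟩
  rwa [union_comm, ← insert_eq] at h2

/-- GREEDY: colour `x` last; only the neighbours in `N` are dangerous -/
theorem greedy {S N : Finset V} {L φ : V → Finset ℕ} {x : V} {m t : ℕ} (hx : x ∉ S)
    (h1 : Valid G S L φ) (hN : ∀ u ∈ N, (φ u).card ≤ m)
    (hsafe : ∀ w ∈ S, G.Adj x w → w ∉ N → Disjoint (L x) (φ w))
    (hL : t + N.card * m ≤ (L x).card) :
    ∃ χ, Valid G (insert x S) L χ ∧ (∀ v ∈ S, χ v = φ v) ∧ (χ x).card = t := by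
  have := card_biUnion_le_mul N φ m hN
  obtain ⟨α, ha1, ha2, ha3⟩ := avoid (L x) (N.biUnion φ) t (by omega)
  obtain ⟨χ, h2, h3, h4⟩ := valid_insert hx h1 ha1 (fun w hw hxw => by
    by_cases hwN : w ∈ N
    · exact ha3.mono_right (subset_biUnion_of_mem φ hwN)
    · exact (hsafe w hw hxw hwN).mono_left ha1)
  exact ⟨χ, h2, h3, by rw [h4, ha2]⟩

/-- the list left after removing the colours of the neighbours in `S` -/
def rem (G : SimpleGraph V) [DecidableRel G.Adj] (S : Finset V) (L φ : V → Finset ℕ) :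
    V → Finset ℕ := fun u => L u \ (nbr G S u).biUnion φ

theorem rem_subset (S : Finset V) (L φ : V → Finset ℕ) (u : V) : rem G S L φ u ⊆ L u :=
  sdiff_subset

theorem rem_disjoint {S : Finset V} (L φ : V → Finset ℕ) {u w : V} (hw : w ∈ S)
    (h : G.Adj u w) : Disjoint (rem G S L φ u) (φ w) :=
  sdiff_disjoint.mono_right (subset_biUnion_of_mem φ (mem_nbr.2 ⟨hw, h⟩))

theorem mem_rem {S : Finset V} {L φ : V → Finset ℕ} {u : V} {c : ℕ} :
    c ∈ rem G S L φ u ↔ c ∈ L u ∧ ∀ w ∈ S, G.Adj u w → c ∉ φ w := by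
  unfold rem
  simp only [mem_sdiff, mem_biUnion, mem_nbr, not_exists, not_and, and_imp]

theorem rem_card {S : Finset V} (L : V → Finset ℕ) {φ : V → Finset ℕ} {m : ℕ}
    (h : ∀ w ∈ S, (φ w).card ≤ m) (u : V) :
    (L u).card ≤ (rem G S L φ u).card + deg G S u * m := by
  have h1 := card_biUnion_le_mul (nbr G S u) φ m (fun w hw => h w (nbr_subset _ _ hw))
  have h2 := le_card_sdiff ((nbr G S u).biUnion φ) (L u)
  unfold rem deg; omega

theorem rem_lists {S U : Finset V} {r r' : V → ℕ} {m : ℕ} {L φ : V → Finset ℕ}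
    (hL : Lists U r m L) (h : ∀ w ∈ S, (φ w).card ≤ m)
    (hr : ∀ u ∈ U, r u + deg G S u ≤ r' u) : Lists U r' m (rem G S L φ) := fun u hu => by
  have h1 := rem_card (G := G) L h u
  have h2 := hL u hu
  have h3 : (r u + deg G S u) * m ≤ r' u * m := Nat.mul_le_mul_right m (hr u hu)
  rw [add_mul] at h3; omega

/-- a colouring of `U` from the remaining lists is glued to the colouring of `S` -/
theorem glue_rem {S U : Finset V} {L φ ψ : V → Finset ℕ} (hd : Disjoint S U)
    (h1 : Valid G S L φ) (h2 : Valid G U (rem G S L φ) ψ) :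
    ∃ χ, Valid G (S ∪ U) L χ ∧ (∀ v ∈ S, χ v = φ v) ∧ ∀ v ∈ U, χ v = ψ v :=
  glue hd h1 (h2.mono_list (fun v _ => rem_subset S L φ v))
    (fun u hu _ hw huw => (rem_disjoint L φ hw huw).mono_left (h2.1 u hu))

theorem extends_of_choosable {H U : Finset V} {r r' : V → ℕ} {m : ℕ} {L : V → Finset ℕ}
    (hL : Lists U r m L) (hc : Choosable G U r' m)
    (hr : ∀ u ∈ U, r u + deg G (H \ U) u ≤ r' u) : Extends G H U L m := by
  intro φ _ hφ
  obtain ⟨ψ, h1, h2⟩ := hc _ (rem_lists hL (fun w hw => (hφ w hw).le) hr)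
  exact ⟨ψ, h1.mono_list (fun v _ => rem_subset _ L φ v), h2,
    fun u hu w hw huw => (rem_disjoint L φ hw huw).mono_left (h1.1 u hu)⟩

theorem col_of_extends {H U : Finset V} {m : ℕ} {L : V → Finset ℕ} (hU : U ⊆ H)
    (h1 : Col G (H \ U) L m) (h2 : Extends G H U L m) : Col G H L m := by
  obtain ⟨φ, a1, a2⟩ := h1.exact
  obtain ⟨ψ, b1, b2, b3⟩ := h2 φ a1 a2
  obtain ⟨χ, c1, c2, c3⟩ := glue sdiff_disjoint a1 b1 b3
  rw [sdiff_union_of_subset hU] at c1
  refine ⟨χ, c1, fun v hv => ?_⟩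
  by_cases hvU : v ∈ U
  · rw [c3 v hvU]; exact b2 v hvU
  · rw [c2 v (mem_sdiff.2 ⟨hv, hvU⟩), a2 v (mem_sdiff.2 ⟨hv, hvU⟩)]

/-- EXTEND -/
theorem col_extend {H S : Finset V} {r r' : V → ℕ} {m : ℕ} {L : V → Finset ℕ} (hS : S ⊆ H)
    (hL : Lists H r m L) (h1 : Col G S L m) (hc : Choosable G (H \ S) r' m)
    (hr : ∀ u ∈ H \ S, r u + deg G S u ≤ r' u) : Col G H L m := by
  have e : H \ (H \ S) = S := Finset.sdiff_sdiff_eq_self hS
  refine col_of_extends (U := H \ S) sdiff_subset (by rwa [e]) ?_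
  exact extends_of_choosable (hL.mono sdiff_subset) hc (by rwa [e])

theorem col_union_nonadj {S U : Finset V} {L : V → Finset ℕ} {m : ℕ} (hd : Disjoint S U)
    (hn : ∀ u ∈ U, ∀ w ∈ S, ¬ G.Adj u w) (h1 : Col G S L m) (h2 : Col G U L m) :
    Col G (S ∪ U) L m := by
  obtain ⟨φ, a1, a2⟩ := h1
  obtain ⟨ψ, b1, b2⟩ := h2
  obtain ⟨χ, c1, c2, c3⟩ := glue hd a1 b1 (fun u hu w hw h => absurd h (hn u hu w hw))
  refine ⟨χ, c1, fun v hv => ?_⟩
  rcases mem_union.1 hv with h | h
  · rw [c2 v h]; exact a2 v h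
  · rw [c3 v h]; exact b2 v h

/-- lists of exact size -/
theorem Lists.exact {H : Finset V} {r : V → ℕ} {m : ℕ} {L : V → Finset ℕ} (h : Lists H r m L)
    (hr : ∀ v ∈ H, r v ≤ 5) :
    ∃ L' : V → Finset ℕ, ∀ v ∈ H, L' v ⊆ L v ∧ (L' v).card + r v * m = 5 * m := by
  obtain ⟨L', hL'⟩ := exists_trim H L (fun v => 5 * m - r v * m)
    (fun v hv => by have := h v hv; omega)
  refine ⟨L', fun v hv => ⟨(hL' v hv).1, ?_⟩⟩
  have h1 := (hL' v hv).2
  have h2 : r v * m ≤ 5 * m := Nat.mul_le_mul_right m (hr v hv)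
  omega

theorem Choosable.mono_r {H : Finset V} {r r' : V → ℕ} {m : ℕ} (h : Choosable G H r' m)
    (hr : ∀ v ∈ H, r v ≤ r' v) : Choosable G H r m := fun L hL =>
  h L (fun v hv => by
    have h1 := hL v hv
    have h2 : r v * m ≤ r' v * m := Nat.mul_le_mul_right m (hr v hv)
    omega)

theorem Win.col {H : Finset V} {L : V → Finset ℕ} {m K : ℕ} (h : Win G H L m K) :
    Col G H L m := by
  obtain ⟨φ, h1, h2, _⟩ := h
  exact ⟨φ, h1, h2⟩

theorem RobCol.col {H : Finset V} {r : V → ℕ} {L : V → Finset ℕ} {m k : ℕ}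
    (h : RobCol G H r L m k) : Col G H L m := by
  obtain ⟨φ, h1, h2, _⟩ := h
  exact ⟨φ, h1, h2⟩

end Pool.Agent.PL5
end

-- merged part: Pool.Agent.Work.MP_db4788_co.Euler
section
/-
Section 1 of the write-up: the Euler bound for minor models.
-/

set_option autoImplicit false
set_option linter.unusedSectionVars false
open Finset

namespace Pool.Agent.PL5

variable {V : Type} [DecidableEq V] {G : SimpleGraph V} [DecidableRel G.Adj]

open Classical in
/-- number of branch sets of the model touching the branch set `i` -/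
noncomputable def tdeg (G : SimpleGraph V) {ι : Type} [DecidableEq ι] (S : Finset ι)
    (f : ι → Finset V) (i : ι) : ℕ :=
  (S.filter (fun j => j ≠ i ∧ Touch G (f i) (f j))).card

/-- the touching graph of a model -/
def touchGraph (G : SimpleGraph V) {ι : Type} (f : ι → Finset V) : SimpleGraph ι where
  Adj i j := i ≠ j ∧ Touch G (f i) (f j)
  symm := ⟨fun _ _ h => ⟨h.1.symm, h.2.symm⟩⟩
  loopless := ⟨fun _ h => h.1 rfl⟩

noncomputable instance touchGraphDec (G : SimpleGraph V) {ι : Type} (f : ι → Finset V) :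
    DecidableRel (touchGraph G f).Adj := Classical.decRel _

theorem touchGraph_adj {ι : Type} {f : ι → Finset V} {i j : ι} :
    (touchGraph G f).Adj i j ↔ i ≠ j ∧ Touch G (f i) (f j) := Iff.rfl

theorem tdeg_eq {ι : Type} [DecidableEq ι] (S : Finset ι) (f : ι → Finset V) (i : ι) :
    tdeg G S f i = deg (touchGraph G f) S i := by
  unfold tdeg deg nbr
  congr 1
  ext j
  simp only [mem_filter, touchGraph_adj]
  exact ⟨fun h => ⟨h.1, h.2.1.symm, h.2.2⟩, fun h => ⟨h.1, h.2.1.symm, h.2.2⟩⟩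

theorem clique_le_aux (hG : MinorFree G) {ι : Type} [DecidableEq ι] (S : Finset ι)
    (f : ι → Finset V) (hc : ∀ i ∈ S, Conn G (f i))
    (hd : ∀ i ∈ S, ∀ j ∈ S, i ≠ j → Disjoint (f i) (f j))
    (ht : ∀ i ∈ S, ∀ j ∈ S, i ≠ j → Touch G (f i) (f j)) : S.card ≤ 4 := by
  by_contra hlt
  obtain ⟨T, hTS, hT⟩ := exists_subset_card_eq (s := S) (n := 5) (by omega)
  let e : Fin 5 → ι := fun k => (T.equivFinOfCardEq hT).symm k
  have he : ∀ k, e k ∈ S := fun k => hTS ((T.equivFinOfCardEq hT).symm k).2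
  have hinj : ∀ k l, k ≠ l → e k ≠ e l := fun k l hkl h =>
    hkl ((T.equivFinOfCardEq hT).symm.injective (Subtype.ext h))
  exact hG.k5 (fun k => f (e k)) (fun k l hkl => hd _ (he k) _ (he l) (hinj k l hkl))
    (fun k => hc _ (he k)) (fun k l hkl => ht _ (he k) _ (he l) (hinj k l hkl))

theorem deg_le_pred {W : Type} [DecidableEq W] (H : SimpleGraph W) [DecidableRel H.Adj]
    {S : Finset W} {v : W} (hv : v ∈ S) : deg H S v + 1 ≤ S.card := by
  have h1 : deg H S v ≤ (S.erase v).card :=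
    deg_le (fun u hu h => mem_erase.2 ⟨h.ne.symm, hu⟩)
  have h2 := card_erase_add_one hv
  omega

theorem two_eg_le {W : Type} [DecidableEq W] (H : SimpleGraph W) [DecidableRel H.Adj]
    (S : Finset W) : 2 * eg H S + S.card ≤ S.card * S.card := by
  rw [two_eg]
  have : ∑ v ∈ S, (deg H S v + 1) ≤ ∑ _v ∈ S, S.card := sum_le_sum (fun v hv => deg_le_pred H hv)
  rw [sum_add_distrib] at this
  simpa using this

theorem eg_congr_graph {W : Type} [DecidableEq W] (H K : SimpleGraph W) [DecidableRel H.Adj]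
    [DecidableRel K.Adj] {S : Finset W} (h : ∀ u ∈ S, ∀ v ∈ S, H.Adj u v ↔ K.Adj u v) :
    eg H S = eg K S := by
  unfold eg
  congr 1
  refine sum_congr rfl (fun v hv => ?_)
  unfold deg
  congr 1
  ext u
  simp only [mem_nbr]
  exact ⟨fun hh => ⟨hh.1, (h v hv u hh.1).1 hh.2⟩, fun hh => ⟨hh.1, (h v hv u hh.1).2 hh.2⟩⟩

theorem eg_erase {W : Type} [DecidableEq W] (H : SimpleGraph W) [DecidableRel H.Adj]
    {S : Finset W} {v : W} (hv : v ∈ S) : eg H S = eg H (S.erase v) + deg H S v := by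
  have h1 := eg_insert (G := H) (notMem_erase v S)
  rw [insert_erase hv] at h1
  have h2 : deg H (S.erase v) v = deg H S v :=
    deg_congr (fun u hu => by simp [hu.ne.symm])
  omega

/-- merging two touching branch sets -/
theorem merge_count {ι : Type} [DecidableEq ι] {S : Finset ι} (f : ι → Finset V) {a b : ι}
    (ha : a ∈ S) (hb : b ∈ S) (hab : a ≠ b) :
    eg (touchGraph G f) S ≤
      eg (touchGraph G (Function.update f a (f a ∪ f b))) (S.erase b) + 1 +
        (nbr (touchGraph G f) S a ∩ nbr (touchGraph G f) S b).card := by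
  have ha' : a ∈ S.erase b := mem_erase.2 ⟨hab, ha⟩
  set T := (S.erase b).erase a with hT
  have haT : a ∉ T := notMem_erase a _
  have hTS : T ⊆ S := (erase_subset _ _).trans (erase_subset _ _)
  have e1 := eg_erase (touchGraph G f) hb
  have e2 := eg_erase (touchGraph G f) ha'
  have e3 := eg_erase (touchGraph G (Function.update f a (f a ∪ f b))) ha'
  rw [← hT] at e2 e3
  have e4 : eg (touchGraph G (Function.update f a (f a ∪ f b))) T = eg (touchGraph G f) T := by
    refine eg_congr_graph _ _ (fun u hu v hv => ?_)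
    have hua : u ≠ a := fun h => haT (h ▸ hu)
    have hva : v ≠ a := fun h => haT (h ▸ hv)
    simp only [touchGraph_adj, Function.update_of_ne hua, Function.update_of_ne hva]
  have e5 : deg (touchGraph G f) S b ≤ (insert a (nbr (touchGraph G f) T b)).card := by
    refine deg_le (fun u hu h => ?_)
    by_cases hua : u = a
    · rw [hua]; exact mem_insert_self _ _
    · exact mem_insert_of_mem (mem_nbr.2 ⟨mem_erase.2 ⟨hua, mem_erase.2 ⟨h.ne.symm, hu⟩⟩, h⟩)
  have e6 := card_insert_le a (nbr (touchGraph G f) T b)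
  have e7 : deg (touchGraph G f) (S.erase b) a ≤ (nbr (touchGraph G f) T a).card :=
    deg_le (fun u hu h => mem_nbr.2 ⟨mem_erase.2 ⟨h.ne.symm, hu⟩, h⟩)
  have e8 : (nbr (touchGraph G f) T a ∪ nbr (touchGraph G f) T b).card ≤
      deg (touchGraph G (Function.update f a (f a ∪ f b))) (S.erase b) a := by
    refine le_deg (fun u hu => ?_)
    have huT : u ∈ T := by
      rcases mem_union.1 hu with h | h
      · exact (mem_nbr.1 h).1
      · exact (mem_nbr.1 h).1
    have hua : u ≠ a := fun h => haT (h ▸ huT)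
    refine ⟨erase_subset _ _ huT, hua.symm, ?_⟩
    simp only [Function.update_self, Function.update_of_ne hua]
    rcases mem_union.1 hu with h | h
    · exact (mem_nbr.1 h).2.2.mono subset_union_left subset_rfl
    · exact (mem_nbr.1 h).2.2.mono subset_union_right subset_rfl
  have e9 := card_union_add_card_inter (nbr (touchGraph G f) T a) (nbr (touchGraph G f) T b)
  have e10 : (nbr (touchGraph G f) T a ∩ nbr (touchGraph G f) T b).card ≤
      (nbr (touchGraph G f) S a ∩ nbr (touchGraph G f) S b).card := by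
    refine card_le_card (fun u hu => ?_)
    rw [mem_inter, mem_nbr, mem_nbr] at hu ⊢
    exact ⟨⟨hTS hu.1.1, hu.1.2⟩, ⟨hTS hu.2.1, hu.2.2⟩⟩
  omega

theorem euler_eg (hG : MinorFree G) {ι : Type} [DecidableEq ι] (n : ℕ) :
    ∀ (S : Finset ι) (f : ι → Finset V), S.card = n → (∀ i ∈ S, Conn G (f i)) →
      (∀ i ∈ S, ∀ j ∈ S, i ≠ j → Disjoint (f i) (f j)) → 3 ≤ S.card →
      eg (touchGraph G f) S + 6 ≤ 3 * S.card := by
  induction n with
  | zero => intro S f h _ _ h3; omega
  | succ n ih =>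
  intro S f hn hc hd h3
  by_contra hlt
  have hq := two_eg_le (touchGraph G f) S
  have h5 : 5 ≤ S.card := by
    by_contra h5
    have : S.card = 3 ∨ S.card = 4 := by omega
    rcases this with h | h <;> rw [h] at hq hlt <;> omega
  -- every touching pair has three common neighbours
  have hcommon : ∀ a ∈ S, ∀ b ∈ S, (touchGraph G f).Adj a b →
      3 ≤ (nbr (touchGraph G f) S a ∩ nbr (touchGraph G f) S b).card := by
    intro a ha b hb hab
    have h1 := merge_count (G := G) f ha hb hab.1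
    have hcard := card_erase_add_one hb
    have h2 := ih (S.erase b) (Function.update f a (f a ∪ f b)) (by omega) ?_ ?_ (by omega)
    · omega
    · intro i hi
      by_cases hia : i = a
      · rw [hia, Function.update_self]; exact (hc a ha).union (hc b hb) hab.2
      · rw [Function.update_of_ne hia]; exact hc i (erase_subset _ _ hi)
    · have key : ∀ j ∈ S.erase b, j ≠ a → Disjoint (f a ∪ f b) (f j) := by
        intro j hj hja
        rw [disjoint_union_left]
        exact ⟨hd a ha j (erase_subset _ _ hj) hja.symm,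
          hd b hb j (erase_subset _ _ hj) (mem_erase.1 hj).1.symm⟩
      intro i hi j hj hij
      by_cases hia : i = a
      · have hja : j ≠ a := fun h => hij (hia.trans h.symm)
        rw [hia, Function.update_self, Function.update_of_ne hja]
        exact key j hj hja
      · by_cases hja : j = a
        · rw [hja, Function.update_self, Function.update_of_ne hia]
          exact (key i hi hia).symm
        · rw [Function.update_of_ne hia, Function.update_of_ne hja]
          exact hd i (erase_subset _ _ hi) j (erase_subset _ _ hj) hij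
  obtain ⟨v, hv, hmin⟩ := exists_min_image S (deg (touchGraph G f) S) (card_pos.1 (by omega))
  have hdel := eg_erase (touchGraph G f) hv
  have hcard := card_erase_add_one hv
  have hih := ih (S.erase v) f (by omega) (fun i hi => hc i (erase_subset _ _ hi))
    (fun i hi j hj => hd i (erase_subset _ _ hi) j (erase_subset _ _ hj)) (by omega)
  have hsum : S.card * deg (touchGraph G f) S v ≤ 2 * eg (touchGraph G f) S := by
    rw [two_eg]
    have := card_nsmul_le_sum S (deg (touchGraph G f) S) _ hmin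
    simpa using this
  have hδ : deg (touchGraph G f) S v ≤ 5 := by
    by_contra h6
    obtain ⟨k, hk⟩ : ∃ k, S.card = k + 2 := ⟨S.card - 2, by omega⟩
    obtain ⟨d, hd'⟩ : ∃ d, deg (touchGraph G f) S v = d + 6 := ⟨deg (touchGraph G f) S v - 6, by omega⟩
    rw [hk, hd'] at hsum
    have : (k + 2) * (d + 6) = k * d + 6 * k + 2 * d + 12 := by ring
    omega
  set N := nbr (touchGraph G f) S v with hN
  have hNS : N ⊆ S := nbr_subset _ _
  have hNv : ∀ u ∈ N, (touchGraph G f).Adj v u := fun u hu => (mem_nbr.1 hu).2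
  have hNc : N.card = deg (touchGraph G f) S v := rfl
  have hsub : ∀ u ∈ N, ∀ X : Finset ι,
      (∀ x ∈ N, (touchGraph G f).Adj u x → x ∈ X) → 3 ≤ X.card := by
    intro u hu X hX
    refine (hcommon u (hNS hu) v hv (hNv u hu).symm).trans (card_le_card (fun x hx => ?_))
    rw [mem_inter] at hx
    exact hX x hx.2 (mem_nbr.1 hx.1).2
  by_cases hall : ∀ a ∈ N, ∀ c ∈ N, a ≠ c → (touchGraph G f).Adj a c
  · have hvN : v ∉ N := fun h => (hNv v h).1 rfl
    have := clique_le_aux hG (insert v N) f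
      (fun i hi => hc i (insert_subset hv hNS hi))
      (fun i hi j hj => hd i (insert_subset hv hNS hi) j (insert_subset hv hNS hj)) ?_
    · rw [card_insert_of_notMem hvN] at this; omega
    · intro i hi j hj hij
      rcases mem_insert.1 hi with hi | hi <;> rcases mem_insert.1 hj with hj | hj
      · exact absurd (hi.trans hj.symm) hij
      · rw [hi]; exact (hNv j hj).2
      · rw [hj]; exact (hNv i hi).2.symm
      · exact (hall i hi j hj hij).2
  · push Not at hall
    obtain ⟨a, ha, c, hc', hac, hnac⟩ := hall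
    have hcard2 : ((N.erase a).erase c).card + 2 = N.card := by
      have h1 := card_erase_add_one ha
      have h2 := card_erase_add_one (mem_erase.2 ⟨hac.symm, hc'⟩)
      omega
    have hge := hsub a ha ((N.erase a).erase c) (fun x hx h =>
      mem_erase.2 ⟨fun e => hnac (e ▸ h), mem_erase.2 ⟨h.ne.symm, hx⟩⟩)
    have h3' : ((N.erase a).erase c).card = 3 := by omega
    have hadj : ∀ x ∈ (N.erase a).erase c,
        (touchGraph G f).Adj a x ∧ (touchGraph G f).Adj c x := by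
      intro x hx
      have hx1 := card_erase_add_one hx
      constructor
      · by_contra hn'
        have := hsub a ha (((N.erase a).erase c).erase x) (fun y hy h =>
          mem_erase.2 ⟨fun e => hn' (e ▸ h),
            mem_erase.2 ⟨fun e => hnac (e ▸ h), mem_erase.2 ⟨h.ne.symm, hy⟩⟩⟩)
        omega
      · by_contra hn'
        have := hsub c hc' (((N.erase a).erase c).erase x) (fun y hy h =>
          mem_erase.2 ⟨fun e => hn' (e ▸ h),
            mem_erase.2 ⟨h.ne.symm, mem_erase.2 ⟨fun e => hnac (e ▸ h).symm, hy⟩⟩⟩)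
        omega
    obtain ⟨x, y, z, hxy, hxz, hyz, hE⟩ := card_eq_three.1 h3'
    have hx : x ∈ (N.erase a).erase c := by rw [hE]; simp
    have hy : y ∈ (N.erase a).erase c := by rw [hE]; simp
    have hz : z ∈ (N.erase a).erase c := by rw [hE]; simp
    have hin : ∀ w ∈ (N.erase a).erase c, w ∈ N := fun w hw =>
      erase_subset _ _ (erase_subset _ _ hw)
    have xN := hin x hx
    have yN := hin y hy
    have zN := hin z hz
    have aS := hNS ha
    have cS := hNS hc'
    have xS := hNS xN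
    have yS := hNS yN
    have zS := hNS zN
    exact hG.no_k33 (hc a aS) (hc c cS) (hc v hv) (hc x xS) (hc y yS) (hc z zS)
      (hd a aS c cS hac) (hd a aS v hv (hNv a ha).1.symm) (hd a aS x xS (hadj x hx).1.1)
      (hd a aS y yS (hadj y hy).1.1) (hd a aS z zS (hadj z hz).1.1)
      (hd c cS v hv (hNv c hc').1.symm) (hd c cS x xS (hadj x hx).2.1)
      (hd c cS y yS (hadj y hy).2.1) (hd c cS z zS (hadj z hz).2.1)
      (hd v hv x xS (hNv x xN).1) (hd v hv y yS (hNv y yN).1) (hd v hv z zS (hNv z zN).1)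
      (hd x xS y yS hxy) (hd x xS z zS hxz) (hd y yS z zS hyz)
      (hadj x hx).1.2 (hadj y hy).1.2 (hadj z hz).1.2
      (hadj x hx).2.2 (hadj y hy).2.2 (hadj z hz).2.2
      (hNv x xN).2 (hNv y yN).2 (hNv z zN).2

theorem euler_model (hG : MinorFree G) {ι : Type} [DecidableEq ι] (S : Finset ι)
    (f : ι → Finset V) (hc : ∀ i ∈ S, Conn G (f i))
    (hd : ∀ i ∈ S, ∀ j ∈ S, i ≠ j → Disjoint (f i) (f j)) (h3 : 3 ≤ S.card) :
    ∑ i ∈ S, tdeg G S f i + 12 ≤ 6 * S.card := by
  have h := euler_eg hG S.card S f rfl hc hd h3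
  have h2 := two_eg (G := touchGraph G f) S
  simp only [tdeg_eq]
  omega

/-- ordered touching pairs -/
theorem pair_count (hG : MinorFree G) {ι : Type} [DecidableEq ι] (S : Finset ι)
    (f : ι → Finset V) (hc : ∀ i ∈ S, Conn G (f i))
    (hd : ∀ i ∈ S, ∀ j ∈ S, i ≠ j → Disjoint (f i) (f j)) (I : Finset (ι × ι))
    (hI : ∀ p ∈ I, p.1 ∈ S ∧ p.2 ∈ S ∧ p.1 ≠ p.2 ∧ Touch G (f p.1) (f p.2)) :
    I.card ≤ 6 * S.card := by
  have h1 : I.card ≤ ∑ i ∈ S, tdeg G S f i := by
    classical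
    have hsub : I ⊆ S.biUnion (fun i => (nbr (touchGraph G f) S i).image (fun j => (i, j))) := by
      intro p hp
      obtain ⟨h1, h2, h3, h4⟩ := hI p hp
      exact mem_biUnion.2 ⟨p.1, h1, mem_image.2 ⟨p.2, mem_nbr.2 ⟨h2, h3, h4⟩, rfl⟩⟩
    refine (card_le_card hsub).trans (card_biUnion_le.trans (sum_le_sum (fun i _ => ?_)))
    rw [tdeg_eq]
    exact card_image_le
  by_cases h3 : 3 ≤ S.card
  · have := euler_model hG S f hc hd h3
    omega
  · have hq := two_eg_le (touchGraph G f) S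
    have h2 := two_eg (G := touchGraph G f) S
    simp only [tdeg_eq] at h1
    have : S.card * S.card ≤ 2 * S.card := Nat.mul_le_mul_right _ (by omega)
    omega

/-- a clique model has at most four branch sets -/
theorem clique_le (hG : MinorFree G) {ι : Type} [DecidableEq ι] (S : Finset ι)
    (f : ι → Finset V) (hc : ∀ i ∈ S, Conn G (f i))
    (hd : ∀ i ∈ S, ∀ j ∈ S, i ≠ j → Disjoint (f i) (f j))
    (ht : ∀ i ∈ S, ∀ j ∈ S, i ≠ j → Touch G (f i) (f j)) : S.card ≤ 4 := by
  exact clique_le_aux hG S f hc hd ht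

theorem eg_le3 (hG : MinorFree G) {T : Finset V} (h : 3 ≤ T.card) :
    eg G T + 6 ≤ 3 * T.card := by
  have h1 := euler_eg hG T.card T (fun v => ({v} : Finset V)) rfl (fun i _ => conn_singleton i)
    (fun i _ j _ hij => disjoint_singleton.2 hij) h
  have h2 : eg (touchGraph G (fun v => ({v} : Finset V))) T = eg G T :=
    eg_congr_graph _ _ (fun u _ v _ => by
      rw [touchGraph_adj, touch_singleton]
      exact ⟨fun hh => hh.2, fun hh => ⟨hh.ne, hh⟩⟩)
  omega

theorem eg_le2 (hG : MinorFree G) {T : Finset V} (h : 2 ≤ T.card) :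
    eg G T + 5 ≤ 3 * T.card := by
  by_cases h3 : 3 ≤ T.card
  · have := eg_le3 hG h3
    omega
  · have hq := two_eg_le G T
    have : T.card = 2 := by omega
    rw [this] at hq ⊢
    omega

theorem eg_le1 (hG : MinorFree G) {T : Finset V} (h : T.Nonempty) :
    eg G T + 3 ≤ 3 * T.card := by
  by_cases h2 : 2 ≤ T.card
  · have := eg_le2 hG h2
    omega
  · have hq := two_eg_le G T
    have h1 := card_pos.2 h
    have : T.card = 1 := by omega
    rw [this] at hq ⊢
    omega

theorem apex_euler (hG : MinorFree G) {H O : Finset V} {r : V → ℕ} (hA : Apex G H r O)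
    (h2 : 2 ≤ H.card) :
    eg G H + (H.filter (fun v => 0 < r v)).card + 3 ≤ 3 * H.card := by
  let f : Option V → Finset V := fun o => o.elim O (fun v => {v})
  have hnone : (none : Option V) ∉ H.map Function.Embedding.some := by simp
  have hcard : (insert none (H.map Function.Embedding.some)).card = H.card + 1 := by
    rw [card_insert_of_notMem hnone, card_map]
  have hmem : ∀ o ∈ insert none (H.map (Function.Embedding.some (α := V))),
      o = none ∨ ∃ v ∈ H, o = some v := by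
    intro o ho
    rcases mem_insert.1 ho with h | h
    · exact Or.inl h
    · obtain ⟨v, hv, e⟩ := mem_map.1 h
      exact Or.inr ⟨v, hv, e.symm⟩
  have h1 := euler_eg hG _ (insert none (H.map Function.Embedding.some)) f rfl ?_ ?_ (by omega)
  · rw [eg_insert hnone, hcard] at h1
    have h3 : eg G H ≤ eg (touchGraph G f) (H.map Function.Embedding.some) := by
      unfold eg
      refine Nat.div_le_div_right ?_
      rw [sum_map]
      refine sum_le_sum (fun v hv => ?_)
      have : ((nbr G H v).map Function.Embedding.some).card ≤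
          deg (touchGraph G f) (H.map Function.Embedding.some) (some v) := by
        refine le_deg (fun u hu => ?_)
        obtain ⟨w, hw, rfl⟩ := mem_map.1 hu
        refine ⟨mem_map_of_mem _ (mem_nbr.1 hw).1, ?_, ?_⟩
        · simpa using (mem_nbr.1 hw).2.ne
        · exact touch_singleton.2 (mem_nbr.1 hw).2
      rw [card_map] at this
      exact this
    have h4 : ((H.filter (fun v => 0 < r v)).map Function.Embedding.some).card ≤
        deg (touchGraph G f) (H.map Function.Embedding.some) none := by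
      refine le_deg (fun u hu => ?_)
      obtain ⟨w, hw, rfl⟩ := mem_map.1 hu
      rw [mem_filter] at hw
      refine ⟨mem_map_of_mem _ hw.1, by simp, ?_⟩
      exact (touch_left.2 (hA.2.2 w hw.1 hw.2)).symm
    rw [card_map] at h4
    omega
  · intro o ho
    rcases hmem o ho with rfl | ⟨v, _, rfl⟩
    · exact hA.1
    · exact conn_singleton v
  · intro o ho p hp hop
    rcases hmem o ho with rfl | ⟨v, hv, rfl⟩ <;> rcases hmem p hp with rfl | ⟨w, hw, rfl⟩
    · exact absurd rfl hop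
    · exact hA.2.1.mono_right (singleton_subset_iff.2 hw)
    · exact (hA.2.1.mono_right (singleton_subset_iff.2 hv)).symm
    · exact disjoint_singleton.2 (fun e => hop (by rw [e]))

theorem dfc_att (hG : MinorFree G) (r : V → ℕ) {S : Finset V} (h : att G r S ≠ S) :
    dfc G r S + 3 ≤ dfc G r (att G r S) := by
  have hsub := att_subset (G := G) r S
  have hne : (S \ att G r S).Nonempty := by
    rw [sdiff_nonempty]
    exact fun hh => h (Subset.antisymm hsub hh)
  have h1 := dfc_union_nonadj (G := G) r (disjoint_sdiff : Disjoint (att G r S) (S \ att G r S))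
    (fun u hu w hw huw => (mem_sdiff.1 hu).2 (att_closed (mem_sdiff.1 hu).1 hw huw))
  rw [union_sdiff_of_subset hsub] at h1
  have h2 := eg_le1 hG hne
  have h3 : ∑ v ∈ S \ att G r S, (r v : ℤ) = 0 := by
    refine sum_eq_zero (fun v hv => ?_)
    have : ¬ 0 < r v := fun hh => (mem_sdiff.1 hv).2 (mem_att_of_pos (mem_sdiff.1 hv).1 hh)
    have : r v = 0 := by omega
    simp [this]
  have h4 : dfc G r (S \ att G r S) ≤ -3 := by
    unfold dfc
    rw [h3]
    omega
  omega

end Pool.Agent.PL5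
end

-- merged part: Pool.Agent.Work.MP_db4788_co.QCount
section
/-
Section 5 of the write-up: QCOUNT.
-/

set_option autoImplicit false
set_option linter.unusedSectionVars false
open Finset

namespace Pool.Agent.PL5

variable {V : Type} [DecidableEq V] {G : SimpleGraph V} [DecidableRel G.Adj]

theorem qcount_pairs (hG : MinorFree G) (P : Finset (Finset V)) (R : Finset V)
    (hc : ∀ A ∈ P, Conn G A) (hd : ∀ A ∈ P, ∀ B ∈ P, A ≠ B → Disjoint A B)
    (hR : ∀ A ∈ P, Disjoint A R) (g g' : Finset V → V)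
    (h : ∀ A ∈ P, g A ∈ R ∧ g' A ∈ R ∧ g A ≠ g' A ∧ Touch G {g A} A ∧ Touch G {g' A} A) :
    (P.image fun A => (g A, g' A)).card ≤ 6 * R.card := by
  have hm : ∀ x y, y ∈ ({x} ∪ (P.filter fun A => g A = x).biUnion id : Finset V) ↔
      y = x ∨ ∃ A ∈ P, g A = x ∧ y ∈ A := fun x y => by
    simp only [mem_union, mem_singleton, mem_biUnion, mem_filter, id, and_assoc]
  refine pair_count hG R (fun x => {x} ∪ (P.filter fun A => g A = x).biUnion id)
    (fun x _ => ?_) (fun x hx y hy hxy => ?_) _ (fun p hp => ?_)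
  · refine conn_attach (conn_singleton x) fun v hv => ?_
    obtain ⟨A, hA, hvA⟩ := mem_biUnion.1 hv
    obtain ⟨hAP, e⟩ := mem_filter.1 hA
    obtain ⟨a, ha, hadj⟩ := touch_left.1 (h A hAP).2.2.2.1
    have hs : A ⊆ (P.filter fun A => g A = x).biUnion id := subset_biUnion_of_mem id hA
    exact ⟨a, hs ha, ((hc A hAP).2 v hvA a ha).mono hs, x, mem_singleton_self _, e ▸ hadj.symm⟩
  · refine disjoint_left.2 fun z h1 h2 => ?_
    rw [hm] at h1 h2
    rcases h1 with h1 | ⟨A, hA, e, h1⟩ <;> rcases h2 with h2 | ⟨B, hB, e', h2⟩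
    · exact hxy (h1.symm.trans h2)
    · exact disjoint_left.1 (hR B hB) h2 (h1 ▸ hx)
    · exact disjoint_left.1 (hR A hA) h1 (h2 ▸ hy)
    · exact disjoint_left.1 (hd A hA B hB fun e2 => hxy (by rw [← e, ← e', e2])) h1 h2
  · obtain ⟨A, hA, rfl⟩ := mem_image.1 hp
    obtain ⟨h1, h2, h3, -, h5⟩ := h A hA
    obtain ⟨a, ha, hadj⟩ := touch_left.1 h5
    exact ⟨h1, h2, h3, a, (hm _ _).2 (Or.inr ⟨A, hA, rfl, ha⟩), g' A, (hm _ _).2 (Or.inl rfl),
      hadj.symm⟩

theorem qcount_low {R : Finset V} (hR : R.Nonempty) (E : Finset (V × V))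
    (hE : ∀ p ∈ E, p.1 ∈ R ∧ p.2 ∈ R) (hc : E.card ≤ 18 * R.card) :
    ∃ x ∈ R, ∃ N : Finset V, N.card ≤ 37 ∧ x ∈ N ∧ ∀ p ∈ E, (p.1 = x → p.2 ∈ N) ∧
      (p.2 = x → p.1 ∈ N) := by
  have h1 := card_eq_sum_card_fiberwise (f := Prod.fst) (s := E) (t := R) fun p hp => (hE p hp).1
  have h2 := card_eq_sum_card_fiberwise (f := Prod.snd) (s := E) (t := R) fun p hp => (hE p hp).2
  have h3 : ∑ x ∈ R, ((E.filter fun p => p.1 = x).card + (E.filter fun p => p.2 = x).card) ≤
      ∑ _x ∈ R, 36 := by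
    rw [sum_add_distrib, ← h1, ← h2, sum_const, smul_eq_mul]
    omega
  obtain ⟨x, hx, h4⟩ := exists_le_of_sum_le hR h3
  refine ⟨x, hx, insert x ((E.filter fun p => p.1 = x).image Prod.snd ∪
    (E.filter fun p => p.2 = x).image Prod.fst), ?_, mem_insert_self _ _, fun p hp =>
    ⟨fun e => mem_insert_of_mem (mem_union_left _ (mem_image_of_mem _ (mem_filter.2 ⟨hp, e⟩))),
     fun e => mem_insert_of_mem (mem_union_right _ (mem_image_of_mem _ (mem_filter.2 ⟨hp, e⟩)))⟩⟩
  have a1 := card_image_le (s := E.filter fun p => p.1 = x) (f := Prod.snd)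
  have a2 := card_image_le (s := E.filter fun p => p.2 = x) (f := Prod.fst)
  have a3 := card_union_le ((E.filter fun p => p.1 = x).image Prod.snd)
    ((E.filter fun p => p.2 = x).image Prod.fst)
  exact (card_insert_le _ _).trans (by omega)

theorem qcount_aux (hG : MinorFree G) (g1 g2 g3 : Finset V → V) (n : ℕ) :
    ∀ (P : Finset (Finset V)) (R : Finset V), R.card = n → (∀ A ∈ P, Conn G A) →
    (∀ A ∈ P, ∀ B ∈ P, A ≠ B → Disjoint A B) → (∀ A ∈ P, Disjoint A R) →
    (∀ A ∈ P, g1 A ∈ R ∧ g2 A ∈ R ∧ g3 A ∈ R ∧ g1 A ≠ g2 A ∧ g1 A ≠ g3 A ∧ g2 A ≠ g3 A ∧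
      Touch G {g1 A} A ∧ Touch G {g2 A} A ∧ Touch G {g3 A} A) → P.card ≤ 101306 * n := by
  induction n with
  | zero =>
    intro P R hn _ _ _ h
    rw [card_eq_zero] at hn
    subst hn
    simp only [mul_zero, Nat.le_zero, card_eq_zero]
    exact eq_empty_of_forall_notMem fun A hA => notMem_empty _ (h A hA).1
  | succ n ih =>
    intro P R hn hc hd hR h
    have e12 := qcount_pairs hG P R hc hd hR g1 g2 fun A hA => by
      obtain ⟨a, b, c, d, e, f, g, h, i⟩ := h A hA
      exact ⟨a, b, d, g, h⟩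
    have e13 := qcount_pairs hG P R hc hd hR g1 g3 fun A hA => by
      obtain ⟨a, b, c, d, e, f, g, h, i⟩ := h A hA
      exact ⟨a, c, e, g, i⟩
    have e23 := qcount_pairs hG P R hc hd hR g2 g3 fun A hA => by
      obtain ⟨a, b, c, d, e, f, g, h, i⟩ := h A hA
      exact ⟨b, c, f, h, i⟩
    obtain ⟨x, hx, N, hN, hxN, hE⟩ := qcount_low (R := R) (card_pos.1 (by omega))
      ((P.image fun A => (g1 A, g2 A)) ∪ (P.image fun A => (g1 A, g3 A)) ∪
        (P.image fun A => (g2 A, g3 A))) (fun p hp => by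
        simp only [mem_union, mem_image] at hp
        rcases hp with (⟨A, hA, rfl⟩ | ⟨A, hA, rfl⟩) | ⟨A, hA, rfl⟩
        · exact ⟨(h A hA).1, (h A hA).2.1⟩
        · exact ⟨(h A hA).1, (h A hA).2.2.1⟩
        · exact ⟨(h A hA).2.1, (h A hA).2.2.1⟩)
      ((card_union_le _ _).trans (by
        have := card_union_le (P.image fun A => (g1 A, g2 A)) (P.image fun A => (g1 A, g3 A))
        omega))
    have hsplit := card_filter_add_card_filter_not (s := P)
      (fun A => g1 A = x ∨ g2 A = x ∨ g3 A = x)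
    have b1 : (P.filter fun A => ¬ (g1 A = x ∨ g2 A = x ∨ g3 A = x)).card ≤ 101306 * n := by
      refine ih _ (R.erase x) (by rw [card_erase_of_mem hx]; omega)
        (fun A hA => hc A (mem_filter.1 hA).1)
        (fun A hA B hB => hd A (mem_filter.1 hA).1 B (mem_filter.1 hB).1)
        (fun A hA => (hR A (mem_filter.1 hA).1).mono_right (erase_subset _ _)) fun A hA => ?_
      obtain ⟨hA, hn⟩ := mem_filter.1 hA
      push Not at hn
      obtain ⟨a, b, c, d⟩ := h A hA
      exact ⟨mem_erase.2 ⟨hn.1, a⟩, mem_erase.2 ⟨hn.2.1, b⟩, mem_erase.2 ⟨hn.2.2, c⟩, d⟩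
    have b2 : (P.filter fun A => g1 A = x ∨ g2 A = x ∨ g3 A = x).card ≤
        2 * (N ×ˢ N ×ˢ N).card := by
      refine card_le_mul_card_image_of_maps_to (f := fun A => (g1 A, g2 A, g3 A))
        (fun A hA => ?_) 2 fun t _ => ?_
      · obtain ⟨hA, hor⟩ := mem_filter.1 hA
        have k12 := hE (g1 A, g2 A) (mem_union_left _ (mem_union_left _ (mem_image_of_mem _ hA)))
        have k13 := hE (g1 A, g3 A) (mem_union_left _ (mem_union_right _ (mem_image_of_mem _ hA)))
        have k23 := hE (g2 A, g3 A) (mem_union_right _ (mem_image_of_mem _ hA))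
        simp only [mem_product]
        rcases hor with e | e | e
        · exact ⟨e ▸ hxN, k12.1 e, k13.1 e⟩
        · exact ⟨k12.2 e, e ▸ hxN, k23.1 e⟩
        · exact ⟨k13.2 e, k23.2 e, e ▸ hxN⟩
      · by_contra hlt
        obtain ⟨A, hA, B, hB, C, hC, nAB, nAC, nBC⟩ := two_lt_card.1 (not_le.1 hlt)
        have eA := (mem_filter.1 hA).2
        have eB := (mem_filter.1 hB).2
        have eC := (mem_filter.1 hC).2
        replace hA := (mem_filter.1 (mem_filter.1 hA).1).1
        replace hB := (mem_filter.1 (mem_filter.1 hB).1).1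
        replace hC := (mem_filter.1 (mem_filter.1 hC).1).1
        obtain ⟨t1, t2, t3⟩ := t
        simp only [Prod.mk.injEq] at eA eB eC
        have kA := h A hA
        have kB := h B hB
        have kC := h C hC
        rw [eA.1, eA.2.1, eA.2.2] at kA
        rw [eB.1, eB.2.1, eB.2.2] at kB
        rw [eC.1, eC.2.1, eC.2.2] at kC
        obtain ⟨m1, m2, m3, n12, n13, n23, a1, a2, a3⟩ := kA
        obtain ⟨-, -, -, -, -, -, b1, b2, b3⟩ := kB
        obtain ⟨-, -, -, -, -, -, c1, c2, c3⟩ := kC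
        have ds : ∀ D ∈ P, ∀ t ∈ R, Disjoint {t} D := fun D hD t ht =>
          ((hR D hD).mono_right (singleton_subset_iff.2 ht)).symm
        exact hG.no_k33 (conn_singleton t1) (conn_singleton t2) (conn_singleton t3)
          (hc A hA) (hc B hB) (hc C hC)
          (disjoint_singleton.2 n12) (disjoint_singleton.2 n13) (ds A hA _ m1) (ds B hB _ m1)
          (ds C hC _ m1) (disjoint_singleton.2 n23) (ds A hA _ m2) (ds B hB _ m2) (ds C hC _ m2)
          (ds A hA _ m3) (ds B hB _ m3) (ds C hC _ m3)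
          (hd A hA B hB nAB) (hd A hA C hC nAC) (hd B hB C hC nBC)
          a1 b1 c1 a2 b2 c2 a3 b3 c3
    rw [card_product, card_product] at b2
    have b3 : N.card * (N.card * N.card) ≤ 37 * (37 * 37) := by gcongr
    omega

theorem qcount (hG : MinorFree G) (P : Finset (Finset V)) (R : Finset V)
    (hc : ∀ A ∈ P, Conn G A) (hd : ∀ A ∈ P, ∀ B ∈ P, A ≠ B → Disjoint A B)
    (hR : ∀ A ∈ P, Disjoint A R)
    (h3 : ∀ A ∈ P, ∃ x ∈ R, ∃ y ∈ R, ∃ z ∈ R, x ≠ y ∧ x ≠ z ∧ y ≠ z ∧
      Touch G {x} A ∧ Touch G {y} A ∧ Touch G {z} A) : P.card ≤ 101306 * R.card := by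
  rcases P.eq_empty_or_nonempty with rfl | ⟨A0, h0⟩
  · simp
  obtain ⟨x0, -⟩ := h3 A0 h0
  have : Nonempty V := ⟨x0⟩
  choose! g1 m1 g2 m2 g3 m3 hh using h3
  exact qcount_aux hG g1 g2 g3 _ P R rfl hc hd hR fun A hA =>
    ⟨m1 A hA, m2 A hA, m3 A hA, hh A hA⟩

end Pool.Agent.PL5
end

-- merged part: Pool.Agent.Work.MP_db4788_co.QTri
section
/-
Section 6 of the write-up: Q-triangles.
-/

set_option autoImplicit false
set_option linter.unusedSectionVars false
open Finset

namespace Pool.Agent.PL5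

variable {V : Type} [DecidableEq V] {G : SimpleGraph V} [DecidableRel G.Adj]

structure MinCex (G : SimpleGraph V) [DecidableRel G.Adj] (V0 : Finset V) (L : V → Finset ℕ)
    (m : ℕ) : Prop where
  mf : MinorFree G
  size : ∀ v ∈ V0, (L v).card + 1 = 5 * m
  two : 2 ≤ m
  ncol : ¬ Col G V0 L m
  min : ∀ S ⊆ V0, S ≠ V0 → Col G S L m

def QT (G : SimpleGraph V) [DecidableRel G.Adj] (V0 τ : Finset V) : Prop :=
  τ ⊆ V0 ∧ τ.card = 3 ∧ (∀ a ∈ τ, ∀ b ∈ τ, a ≠ b → G.Adj a b) ∧ (∀ a ∈ τ, deg G V0 a = 4) ∧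
    (∀ u ∈ V0 \ τ, Touch G {u} τ → deg G V0 u ≠ 4) ∧
    ∃ x ∈ V0 \ τ, ∃ y ∈ V0 \ τ, ∃ z ∈ V0 \ τ, x ≠ y ∧ x ≠ z ∧ y ≠ z ∧
      Touch G {x} τ ∧ Touch G {y} τ ∧ Touch G {z} τ

open Classical in
noncomputable def Qset (G : SimpleGraph V) [DecidableRel G.Adj] (V0 : Finset V) : Finset V :=
  V0.filter (fun v => ∃ τ, QT G V0 τ ∧ v ∈ τ)

theorem mem_Qset {V0 : Finset V} {v : V} :
    v ∈ Qset G V0 ↔ v ∈ V0 ∧ ∃ τ, QT G V0 τ ∧ v ∈ τ := by
  unfold Qset; simp

/-- the neighbours of a triangle vertex outside the triangle lie in `O` -/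
theorem qt_nb {V0 O : Finset V} (hO : O ⊆ V0) {a b c : V} (hb : b ∈ V0 \ O)
    (hcc : c ∈ V0 \ O) (hab : G.Adj a b) (hac : G.Adj a c) (hbc : b ≠ c)
    (oa : deg G O a = 2) (da : deg G V0 a = 4) :
    ∀ u ∈ V0, G.Adj a u → u = b ∨ u = c ∨ u ∈ O := by
  intro u hu hau
  by_contra hne
  push Not at hne
  obtain ⟨h1, h2, h3⟩ := hne
  have hbO := (mem_sdiff.1 hb).2
  have hcO := (mem_sdiff.1 hcc).2
  have hsub : insert u (insert b (insert c O)) ⊆ V0 := by
    intro x hx
    simp only [mem_insert] at hx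
    rcases hx with rfl | rfl | rfl | hx
    · exact hu
    · exact (mem_sdiff.1 hb).1
    · exact (mem_sdiff.1 hcc).1
    · exact hO hx
  have := deg_mono (G := G) hsub a
  rw [deg_insert (by simp [h1, h2, h3]), deg_insert (by simp [hbc, hbO]), deg_insert hcO,
    if_pos hau, if_pos hab, if_pos hac] at this
  omega

theorem two_nbrs {O : Finset V} {a : V} (oa : deg G O a = 2) :
    ∃ x ∈ O, ∃ y ∈ O, x ≠ y ∧ G.Adj a x ∧ G.Adj a y ∧
      ∀ u ∈ O, G.Adj a u → u = x ∨ u = y := by
  obtain ⟨x, y, hxy, h⟩ := card_eq_two.1 oa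
  have hx : x ∈ nbr G O a := by rw [h]; simp
  have hy : y ∈ nbr G O a := by rw [h]; simp
  refine ⟨x, (mem_nbr.1 hx).1, y, (mem_nbr.1 hy).1, hxy, (mem_nbr.1 hx).2, (mem_nbr.1 hy).2,
    fun u hu hau => ?_⟩
  have : u ∈ nbr G O a := mem_nbr.2 ⟨hu, hau⟩
  rw [h] at this
  simpa using this

theorem other_nbr {O : Finset V} {a s : V} (oa : deg G O a = 2) :
    ∃ x ∈ O, x ≠ s ∧ G.Adj a x := by
  obtain ⟨x, hx, y, hy, hxy, h1, h2, _⟩ := two_nbrs oa
  by_cases h : x = s
  · exact ⟨y, hy, fun h' => hxy (h.trans h'.symm), h2⟩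
  · exact ⟨x, hx, h, h1⟩

/-- a triangle, a common neighbour `s` and a connected set touching all four give a `K5` -/
theorem k5_tri (hG : MinorFree G) {O K : Finset V} {a b c s : V} (ha : a ∉ O) (hb : b ∉ O)
    (hc : c ∉ O) (hs : s ∈ O) (hK : K ⊆ O.erase s) (cK : Conn G K)
    (hab : G.Adj a b) (hac : G.Adj a c) (hbc : G.Adj b c)
    (has : G.Adj a s) (hbs : G.Adj b s) (hcs : G.Adj c s)
    (ta : ∃ x ∈ K, G.Adj a x) (tb : ∃ x ∈ K, G.Adj b x) (tc : ∃ x ∈ K, G.Adj c x)
    (ts : ∃ x ∈ K, G.Adj s x) : False := by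
  have hKO : K ⊆ O := hK.trans (erase_subset _ _)
  have d1 : ∀ {x y : V}, G.Adj x y → Disjoint ({x} : Finset V) {y} := fun h =>
    disjoint_singleton.2 h.ne
  have d2 : ∀ {x : V}, x ∉ O → Disjoint ({x} : Finset V) K := fun h =>
    disjoint_singleton_left.2 (fun h' => h (hKO h'))
  have d3 : Disjoint ({s} : Finset V) K :=
    disjoint_singleton_left.2 (fun h' => (mem_erase.1 (hK h')).1 rfl)
  exact hG.no_k5 (conn_singleton a) (conn_singleton b) (conn_singleton c) (conn_singleton s) cK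
    (d1 hab) (d1 hac) (d1 has) (d2 ha) (d1 hbc) (d1 hbs) (d2 hb) (d1 hcs) (d2 hc) d3
    (touch_singleton.2 hab) (touch_singleton.2 hac) (touch_singleton.2 has) (touch_left.2 ta)
    (touch_singleton.2 hbc) (touch_singleton.2 hbs) (touch_left.2 tb)
    (touch_singleton.2 hcs) (touch_left.2 tc) (touch_left.2 ts)

/-- the reducible configuration -/
theorem qt_red {V0 : Finset V} {L : V → Finset ℕ} {m : ℕ} (h : MinCex G V0 L m)
    {a b c s : V} (ha : a ∈ V0) (hb : b ∈ V0) (hc : c ∈ V0) (hs : s ∈ V0)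
    (hab : G.Adj a b) (hac : G.Adj a c) (hbc : G.Adj b c) (has : G.Adj a s)
    (hbs : ¬ G.Adj b s) (hsb : s ≠ b) (hsc : s ≠ c)
    (da : deg G V0 a = 4) (db : deg G V0 b = 4) (dc : deg G V0 c = 4) (ds : deg G V0 s = 4) :
    False := by
  have hm := h.two
  set S : Finset V := insert b (insert c (insert a {s})) with hS
  have hSV : S ⊆ V0 := by
    intro x hx
    simp only [hS, mem_insert, mem_singleton] at hx
    rcases hx with rfl | rfl | rfl | rfl <;> assumption
  have n1 : a ∉ ({s} : Finset V) := by simpa using has.ne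
  have n2 : c ∉ (insert a {s} : Finset V) := by simp [hac.ne', hsc.symm]
  have n3 : b ∉ (insert c (insert a {s}) : Finset V) := by simp [hbc.ne, hab.ne', hsb.symm]
  have dS : ∀ v, deg G S v = (((if G.Adj v s then 1 else 0) + if G.Adj v a then 1 else 0) +
      if G.Adj v c then 1 else 0) + if G.Adj v b then 1 else 0 := fun v => by
    rw [hS, deg_insert n3, deg_insert n2, deg_insert n1, deg_singleton]
  obtain ⟨φ, hφ, hφm⟩ := (h.min (V0 \ S) sdiff_subset (fun e => by
    have : a ∈ V0 \ S := by rw [e]; exact ha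
    exact (mem_sdiff.1 this).2 (by simp [hS]))).exact
  set L' := rem G (V0 \ S) L φ with hL'
  have key : ∀ v ∈ V0, deg G V0 v = 4 → m + deg G S v * m ≤ (L' v).card + 1 := fun v hv dv => by
    have h1 := rem_card (G := G) L (fun w hw => (hφm w hw).le) v
    have h2 := h.size v hv
    have h3 := deg_sdiff_add (G := G) hSV v
    have h4 : (deg G (V0 \ S) v + deg G S v) * m = 4 * m := by rw [h3, dv]
    rw [add_mul] at h4
    rw [← hL'] at h1
    omega
  have ka := key a ha da
  have kb := key b hb db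
  have kc := key c hc dc
  have ks := key s hs ds
  rw [dS, if_pos has, if_neg (G.loopless.irrefl a), if_pos hac, if_pos hab] at ka
  rw [dS, if_neg hbs, if_pos hab.symm, if_pos hbc, if_neg (G.loopless.irrefl b)] at kb
  rw [dS, if_pos hac.symm, if_neg (G.loopless.irrefl c), if_pos hbc.symm] at kc
  rw [dS, if_neg (G.loopless.irrefl s), if_pos has.symm] at ks
  obtain ⟨Lb, hLb, cLb⟩ := exists_subset_card_eq (s := L' b) (n := 3 * m - 1) (by omega)
  obtain ⟨f, hfa, hfb⟩ : ∃ f ∈ L' a, f ∉ Lb := by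
    by_contra hne
    push Not at hne
    have := card_le_card (show L' a ⊆ Lb from hne)
    omega
  obtain ⟨αs, s1, s2, s3⟩ := avoid (L' s) {f} m (by
    rw [card_singleton]
    have : 1 * m ≤ (0 + 1 + (if G.Adj s c then 1 else 0) + if G.Adj s b then 1 else 0) * m :=
      Nat.mul_le_mul_right m (by omega)
    omega)
  have hfs : f ∉ αs := fun hh => disjoint_left.1 s3 hh (mem_singleton_self f)
  obtain ⟨αa, a1, a2, a3⟩ := exists_subsuperset_card_eq
    (show ({f} : Finset ℕ) ⊆ L' a \ αs from singleton_subset_iff.2 (mem_sdiff.2 ⟨hfa, hfs⟩))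
    (show ({f} : Finset ℕ).card ≤ m by rw [card_singleton]; omega)
    (show m ≤ (L' a \ αs).card by have := le_card_sdiff αs (L' a); omega)
  obtain ⟨αc, c1, c2, c3, c4⟩ : ∃ αc ⊆ L' c, αc.card = m ∧ Disjoint αc αa ∧
      (G.Adj c s → Disjoint αc αs) := by
    by_cases hcs : G.Adj c s
    · rw [if_pos hcs] at kc
      obtain ⟨α, h1, h2, h3⟩ := avoid (L' c) (αa ∪ αs) m (by
        have := card_union_le αa αs
        omega)
      exact ⟨α, h1, h2, h3.mono_right subset_union_left,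
        fun _ => h3.mono_right subset_union_right⟩
    · rw [if_neg hcs] at kc
      obtain ⟨α, h1, h2, h3⟩ := avoid (L' c) αa m (by omega)
      exact ⟨α, h1, h2, h3, fun hh => absurd hh hcs⟩
  obtain ⟨αb, b1, b2, b3⟩ := avoid Lb (αa.erase f ∪ αc) m (by
    have h1 := card_union_le (αa.erase f) αc
    have h2 := card_erase_of_mem (a1 (mem_singleton_self f))
    omega)
  have b4 : Disjoint αb αa := by
    rw [disjoint_left]
    intro x hx hxa
    by_cases hxf : x = f
    · exact hfb (hxf ▸ b1 hx)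
    · exact disjoint_left.1 b3 hx (mem_union_left _ (mem_erase.2 ⟨hxf, hxa⟩))
  have v0 : Valid G {s} L' (fun _ => αs) := valid_singleton s1
  obtain ⟨χ1, v1, e1, f1⟩ := valid_insert n1 v0 (a2.trans sdiff_subset) (fun w _ _ =>
    disjoint_of_subset_left a2 sdiff_disjoint)
  have e1s : χ1 s = αs := e1 s (mem_singleton_self s)
  obtain ⟨χ2, v2, e2, f2⟩ := valid_insert n2 v1 c1 (fun w hw hcw => by
    simp only [mem_insert, mem_singleton] at hw
    rcases hw with rfl | rfl
    · rw [f1]; exact c3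
    · rw [e1s]; exact c4 hcw)
  have e2a : χ2 a = αa := by rw [e2 a (by simp), f1]
  have e2s : χ2 s = αs := by rw [e2 s (by simp), e1s]
  obtain ⟨χ3, v3, e3, f3⟩ := valid_insert n3 v2 (b1.trans hLb) (fun w hw hbw => by
    simp only [mem_insert, mem_singleton] at hw
    rcases hw with rfl | rfl | rfl
    · rw [f2]; exact b3.mono_right subset_union_right
    · rw [e2a]; exact b4
    · exact absurd hbw hbs)
  obtain ⟨χ, w1, w2, w3⟩ := glue_rem sdiff_disjoint hφ v3
  rw [sdiff_union_of_subset hSV] at w1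
  refine h.ncol ⟨χ, w1, fun v hv => ?_⟩
  by_cases hvS : v ∈ S
  · rw [w3 v hvS]
    simp only [hS, mem_insert, mem_singleton] at hvS
    rcases hvS with rfl | rfl | rfl | rfl
    · rw [f3, b2]
    · rw [e3 _ (by simp), f2, c2]
    · rw [e3 _ (by simp), e2a, a3]
    · rw [e3 _ (by simp), e2s, s2]
  · rw [w2 v (mem_sdiff.2 ⟨hv, hvS⟩), hφm v (mem_sdiff.2 ⟨hv, hvS⟩)]

theorem qt_of_tri {V0 O : Finset V} {L : V → Finset ℕ} {m : ℕ} (h : MinCex G V0 L m)
    (hO : O ⊆ V0) (hc : Conn G O) {a b c : V} (ha : a ∈ V0 \ O) (hb : b ∈ V0 \ O)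
    (hcc : c ∈ V0 \ O) (hab : G.Adj a b) (hac : G.Adj a c) (hbc : G.Adj b c)
    (oa : deg G O a = 2) (ob : deg G O b = 2) (oc : deg G O c = 2)
    (da : deg G V0 a = 4) (db : deg G V0 b = 4) (dc : deg G V0 c = 4) :
    QT G V0 {a, b, c} := by
  have ha0 := (mem_sdiff.1 ha).1
  have hb0 := (mem_sdiff.1 hb).1
  have hc0 := (mem_sdiff.1 hcc).1
  have haO := (mem_sdiff.1 ha).2
  have hbO := (mem_sdiff.1 hb).2
  have hcO := (mem_sdiff.1 hcc).2
  have hout : ∀ x ∈ O, x ∈ V0 \ ({a, b, c} : Finset V) := fun x hx =>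
    mem_sdiff.2 ⟨hO hx, by
      simp only [mem_insert, mem_singleton]
      rintro (rfl | rfl | rfl) <;> contradiction⟩
  refine ⟨?_, ?_, ?_, ?_, ?_, ?_⟩
  · intro x hx
    simp only [mem_insert, mem_singleton] at hx
    rcases hx with rfl | rfl | rfl <;> assumption
  · exact card_eq_three.2 ⟨a, b, c, hab.ne, hac.ne, hbc.ne, rfl⟩
  · intro x hx y hy hxy
    simp only [mem_insert, mem_singleton] at hx hy
    rcases hx with rfl | rfl | rfl <;> rcases hy with rfl | rfl | rfl <;>
      first | exact absurd rfl hxy | assumption | (apply SimpleGraph.Adj.symm; assumption)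
  · intro x hx
    simp only [mem_insert, mem_singleton] at hx
    rcases hx with rfl | rfl | rfl <;> assumption
  · intro s hs ht ds
    have hs0 := (mem_sdiff.1 hs).1
    have hsn := (mem_sdiff.1 hs).2
    simp only [mem_insert, mem_singleton, not_or] at hsn
    obtain ⟨hsa, hsb, hsc⟩ := hsn
    by_cases has : G.Adj a s <;> by_cases hbs : G.Adj b s <;> by_cases hcs : G.Adj c s
    · have hsO : s ∈ O := by
        rcases qt_nb hO hb hcc hab hac hbc.ne oa da s hs0 has with h1 | h1 | h1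
        · exact absurd h1 hsb
        · exact absurd h1 hsc
        · exact h1
      obtain ⟨xa, xa1, xa2, xa3⟩ := other_nbr (s := s) oa
      obtain ⟨xb, xb1, xb2, xb3⟩ := other_nbr (s := s) ob
      obtain ⟨xc, xc1, xc2, xc3⟩ := other_nbr (s := s) oc
      have huniq : ∀ t ∈ O, ∀ t' ∈ O, G.Adj s t → G.Adj s t' → t = t' := by
        intro t ht t' ht' h1 h2
        by_contra hne
        have n1 := (mem_sdiff.1 (hout t ht)).2
        have n2 := (mem_sdiff.1 (hout t' ht')).2
        have hcard : (insert t (insert t' ({a, b, c} : Finset V))).card = 5 := by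
          rw [card_insert_of_notMem (by
            rw [mem_insert, not_or]; exact ⟨hne, n1⟩), card_insert_of_notMem n2,
            card_eq_three.2 ⟨a, b, c, hab.ne, hac.ne, hbc.ne, rfl⟩]
        have := le_deg (G := G) (S := V0) (N := insert t (insert t' ({a, b, c} : Finset V)))
          (v := s) (fun u hu => by
            simp only [mem_insert, mem_singleton] at hu
            rcases hu with rfl | rfl | rfl | rfl | rfl
            · exact ⟨hO ht, h1⟩
            · exact ⟨hO ht', h2⟩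
            · exact ⟨ha0, has.symm⟩
            · exact ⟨hb0, hbs.symm⟩
            · exact ⟨hc0, hcs.symm⟩)
        omega
      obtain ⟨t, ht, hst⟩ := twopart hc hsO xa1 xa2
      have htE := comp_subset _ _ ht
      have inK : ∀ x ∈ O, x ≠ s → x ∈ comp G (O.erase s) t := fun x hx hxs => by
        obtain ⟨t', ht', hst'⟩ := twopart hc hsO hx hxs
        have e : t' = t := huniq t' (mem_of_mem_erase (comp_subset _ _ ht')) t
          (mem_of_mem_erase htE) hst' hst
        rw [e] at ht'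
        exact mem_comp.2 ⟨mem_erase.2 ⟨hxs, hx⟩, (mem_comp.1 ht').2.symm⟩
      exact k5_tri h.mf haO hbO hcO hsO (comp_subset _ _) (conn_comp htE) hab hac hbc has hbs hcs
        ⟨xa, inK xa xa1 xa2, xa3⟩ ⟨xb, inK xb xb1 xb2, xb3⟩ ⟨xc, inK xc xc1 xc2, xc3⟩
        ⟨t, self_mem_comp htE, hst⟩
    · exact qt_red h ha0 hc0 hb0 hs0 hac hab hbc.symm has hcs hsc hsb da dc db ds
    · exact qt_red h ha0 hb0 hc0 hs0 hab hac hbc has hbs hsb hsc da db dc ds
    · exact qt_red h ha0 hb0 hc0 hs0 hab hac hbc has hbs hsb hsc da db dc ds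
    · exact qt_red h hb0 ha0 hc0 hs0 hab.symm hbc hac hbs has hsa hsc db da dc ds
    · exact qt_red h hb0 ha0 hc0 hs0 hab.symm hbc hac hbs has hsa hsc db da dc ds
    · exact qt_red h hc0 ha0 hb0 hs0 hac.symm hbc.symm hab hcs has hsa hsb dc da db ds
    · obtain ⟨w, hw, hsw⟩ := touch_left.1 ht
      simp only [mem_insert, mem_singleton] at hw
      rcases hw with rfl | rfl | rfl
      · exact has hsw.symm
      · exact hbs hsw.symm
      · exact hcs hsw.symm
  · obtain ⟨x, hx, y, hy, hxy, hax, hay, _⟩ := two_nbrs oa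
    by_contra hne
    have hthird : ∀ v ∈ ({a, b, c} : Finset V), ∀ z ∈ O, G.Adj v z → z = x ∨ z = y := by
      intro v hv z hz hvz
      by_contra hz'
      push Not at hz'
      exact hne ⟨x, hout x hx, y, hout y hy, z, hout z hz, hxy, hz'.1.symm, hz'.2.symm,
        touch_left.2 ⟨a, by simp, hax.symm⟩, touch_left.2 ⟨a, by simp, hay.symm⟩,
        touch_left.2 ⟨v, hv, hvz.symm⟩⟩
    have both : ∀ v ∈ ({a, b, c} : Finset V), deg G O v = 2 → G.Adj v x ∧ G.Adj v y := by
      intro v hv dv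
      obtain ⟨p, hp, q, hq, hpq, h1, h2, _⟩ := two_nbrs dv
      rcases hthird v hv p hp h1 with rfl | rfl <;> rcases hthird v hv q hq h2 with rfl | rfl
      · exact absurd rfl hpq
      · exact ⟨h1, h2⟩
      · exact ⟨h2, h1⟩
      · exact absurd rfl hpq
    obtain ⟨bx, by'⟩ := both b (by simp) ob
    obtain ⟨cx, cy⟩ := both c (by simp) oc
    obtain ⟨w, hw, hxw⟩ := twopart hc hx hy hxy.symm
    have hyE : y ∈ O.erase x := mem_erase.2 ⟨hxy.symm, hy⟩
    exact k5_tri h.mf haO hbO hcO hx (comp_subset _ _) (conn_comp hyE) hab hac hbc hax bx cx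
      ⟨y, self_mem_comp hyE, hay⟩ ⟨y, self_mem_comp hyE, by'⟩ ⟨y, self_mem_comp hyE, cy⟩
      ⟨w, hw, hxw⟩

theorem QT.eq_of_mem {V0 τ τ' : Finset V} (h : QT G V0 τ) (h' : QT G V0 τ') {v : V}
    (hv : v ∈ τ) (hv' : v ∈ τ') : τ' = τ := by
  refine eq_of_subset_of_card_le (fun w hw => ?_) (by rw [h.2.1, h'.2.1])
  by_contra hwτ
  have hne : w ≠ v := fun e => hwτ (e ▸ hv)
  exact h.2.2.2.2.1 w (mem_sdiff.2 ⟨h'.1 hw, hwτ⟩)
    (touch_left.2 ⟨v, hv, h'.2.2.1 w hw v hv' hne⟩) (h'.2.2.2.1 w hw)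

theorem QT.conn {V0 τ : Finset V} (h : QT G V0 τ) : Conn G τ := by
  refine ⟨card_pos.1 (by rw [h.2.1]; norm_num), fun a ha b hb => ?_⟩
  by_cases e : a = b
  · rw [e]; exact Reach.refl _ _
  · exact Reach.single ha hb (h.2.2.1 a ha b hb e)

theorem qbound (hG : MinorFree G) {V0 T Y : Finset V} (hT : T ⊆ V0) (hY : Y ⊆ V0)
    (hd : Disjoint T Y) (hn : ∀ u ∈ T, ∀ w ∈ V0, G.Adj u w → w ∈ T ∨ w ∈ Y) :
    (T ∩ Qset G V0).card ≤ 303921 * ((T \ Qset G V0).card + Y.card) := by
  classical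
  set P : Finset (Finset V) := T.powerset.filter (fun τ => QT G V0 τ) with hP
  set R : Finset V := (T \ Qset G V0) ∪ Y with hR
  have mP : ∀ τ ∈ P, τ ⊆ T ∧ QT G V0 τ := fun τ hτ => by
    rw [hP, mem_filter, mem_powerset] at hτ; exact hτ
  have hout : ∀ τ ∈ P, ∀ x ∈ V0 \ τ, Touch G {x} τ → x ∈ R := fun τ hτ x hx ht => by
    obtain ⟨h1, h2⟩ := mP τ hτ
    obtain ⟨w, hw, hxw⟩ := touch_left.1 ht
    rcases hn w (h1 hw) x (mem_sdiff.1 hx).1 hxw.symm with h3 | h3
    · refine mem_union_left _ (mem_sdiff.2 ⟨h3, fun hq => ?_⟩)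
      obtain ⟨_, τ', hτ', hxτ'⟩ := mem_Qset.1 hq
      exact h2.2.2.2.2.1 x hx ht (hτ'.2.2.2.1 x hxτ')
    · exact mem_union_right _ h3
  have hq := qcount hG P R (fun τ hτ => (mP τ hτ).2.conn)
    (fun A hA B hB hAB => disjoint_left.2 (fun v h1 h2 =>
      hAB ((mP B hB).2.eq_of_mem (mP A hA).2 h2 h1)))
    (fun τ hτ => disjoint_left.2 (fun v h1 h2 => by
      rcases mem_union.1 h2 with h3 | h3
      · exact (mem_sdiff.1 h3).2 (mem_Qset.2 ⟨hT (mem_sdiff.1 h3).1, τ, (mP τ hτ).2, h1⟩)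
      · exact disjoint_left.1 hd ((mP τ hτ).1 h1) h3))
    (fun τ hτ => by
      obtain ⟨x, hx, y, hy, z, hz, h1, h2, h3, t1, t2, t3⟩ := (mP τ hτ).2.2.2.2.2.2
      exact ⟨x, hout τ hτ x hx t1, y, hout τ hτ y hy t2, z, hout τ hτ z hz t3, h1, h2, h3,
        t1, t2, t3⟩)
  set F : V → Finset V := fun y => V0.filter (fun v => ∃ τ, QT G V0 τ ∧ v ∈ τ ∧ y ∈ τ) with hF
  have cF : ∀ y ∈ Y, (F y).card ≤ 3 := fun y _ => by
    by_cases he : ∃ τ, QT G V0 τ ∧ y ∈ τ
    · obtain ⟨τ, h1, h2⟩ := he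
      rw [← h1.2.1]
      refine card_le_card (fun v hv => ?_)
      rw [hF, mem_filter] at hv
      obtain ⟨_, τ', h3, h4, h5⟩ := hv
      rw [← h1.eq_of_mem h3 h2 h5]; exact h4
    · have : F y = ∅ := by
        rw [hF]
        refine filter_eq_empty_iff.2 (fun v _ hh => ?_)
        obtain ⟨τ, h3, _, h5⟩ := hh
        exact he ⟨τ, h3, h5⟩
      rw [this]; simp
  have hsub : T ∩ Qset G V0 ⊆ P.biUnion id ∪ Y.biUnion F := fun v hv => by
    obtain ⟨hvT, hvQ⟩ := mem_inter.1 hv
    obtain ⟨hv0, τ, hτ, hvτ⟩ := mem_Qset.1 hvQ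
    by_cases hs : τ ⊆ T
    · exact mem_union_left _ (mem_biUnion.2 ⟨τ, by
        rw [hP, mem_filter, mem_powerset]; exact ⟨hs, hτ⟩, hvτ⟩)
    · obtain ⟨y, hy, hyT⟩ := not_subset.1 hs
      have hne : v ≠ y := fun e => hyT (e ▸ hvT)
      have hyY : y ∈ Y := (hn v hvT y (hτ.1 hy) (hτ.2.2.1 v hvτ y hy hne)).resolve_left hyT
      exact mem_union_right _ (mem_biUnion.2 ⟨y, hyY, by
        rw [hF, mem_filter]; exact ⟨hv0, τ, hτ, hvτ, hy⟩⟩)
  have c1 : (P.biUnion id).card ≤ P.card * 3 :=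
    card_biUnion_le.trans (by
      simpa using sum_le_card_nsmul P (fun τ => τ.card) 3 (fun τ hτ => (mP τ hτ).2.2.1.le))
  have c2 : (Y.biUnion F).card ≤ Y.card * 3 :=
    card_biUnion_le.trans (by simpa using sum_le_card_nsmul Y (fun y => (F y).card) 3 cF)
  have c3 := card_le_card hsub
  have c4 := card_union_le (P.biUnion id) (Y.biUnion F)
  have c5 : R.card ≤ (T \ Qset G V0).card + Y.card := card_union_le _ _
  omega

end Pool.Agent.PL5
end

-- merged part: Pool.Agent.Work.MP_db4788_co.Tri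
section
/-
Section 4 of the write-up: TT, FIX, SPLIT.
-/

set_option autoImplicit false
set_option linter.unusedSectionVars false
open Finset

namespace Pool.Agent.PL5

variable {V : Type} [DecidableEq V] {G : SimpleGraph V} [DecidableRel G.Adj]

theorem two_le_deg {T : Finset V} {x p q : V} (hp : p ∈ T) (hq : q ∈ T) (hpq : p ≠ q)
    (h1 : G.Adj x p) (h2 : G.Adj x q) : 2 ≤ deg G T x := by
  have h : ({p, q} : Finset V).card ≤ deg G T x := by
    refine le_deg (fun y hy => ?_)
    simp only [mem_insert, mem_singleton] at hy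
    rcases hy with h | h <;> rw [h]
    · exact ⟨hp, h1⟩
    · exact ⟨hq, h2⟩
  rwa [card_pair hpq] at h

/-- TT -/
theorem tt {H : Finset V} {r : V → ℕ} (hC : InClass G H r) {v a b u : V} (hv : v ∈ H)
    (ha : a ∈ H) (hb : b ∈ H) (hva : G.Adj v a) (hvb : G.Adj v b) (hab : G.Adj a b)
    (rv : r v = 2) (ra : r a = 2) (rb : r b = 2) (hu : InTV G H r u) (huv : G.Adj u v) :
    u = a ∨ u = b := by
  by_contra hne
  push Not at hne
  obtain ⟨huH, c, hc, d, hd, huc, hud, hcd, ru, rc, rd⟩ := hu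
  have hsub : ({v, a, b} ∪ {u, c, d} : Finset V) ⊆ H := by
    intro x hx
    simp only [mem_union, mem_insert, mem_singleton] at hx
    rcases hx with (h | h | h) | (h | h | h) <;> rw [h] <;> assumption
  have hcard : ({v, a, b} ∪ {u, c, d} : Finset V).card < 100000000 := by
    have h1 := card_union_le ({v, a, b} : Finset V) {u, c, d}
    have h2 : ({v, a, b} : Finset V).card ≤ 3 := card_le_three
    have h3 : ({u, c, d} : Finset V).card ≤ 3 := card_le_three
    omega
  have h0 := hC.small hsub hcard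
  have h2 := two_dfc (G := G) r ({v, a, b} ∪ {u, c, d})
  have hpos : 0 < ∑ x ∈ ({v, a, b} ∪ {u, c, d} : Finset V),
      ((deg G ({v, a, b} ∪ {u, c, d}) x : ℤ) + 2 * r x - 6) := by
    refine sum_pos' (fun x hx => ?_) ⟨v, by simp, ?_⟩
    · have : r x = 2 ∧ 2 ≤ deg G ({v, a, b} ∪ {u, c, d}) x := by
        simp only [mem_union, mem_insert, mem_singleton] at hx
        rcases hx with (h | h | h) | (h | h | h) <;> rw [h]
        · exact ⟨rv, two_le_deg (by simp) (by simp) hab.ne hva hvb⟩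
        · exact ⟨ra, two_le_deg (by simp) (by simp) hvb.ne hva.symm hab⟩
        · exact ⟨rb, two_le_deg (by simp) (by simp) hva.ne hvb.symm hab.symm⟩
        · exact ⟨ru, two_le_deg (by simp) (by simp) hcd.ne huc hud⟩
        · exact ⟨rc, two_le_deg (by simp) (by simp) hud.ne huc.symm hcd⟩
        · exact ⟨rd, two_le_deg (by simp) (by simp) huc.ne hud.symm hcd.symm⟩
      omega
    · have h3 : ({u, a, b} : Finset V).card = 3 := by
        rw [card_insert_of_notMem (by simp [hne.1, hne.2]), card_pair hab.ne]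
      have h4 : ({u, a, b} : Finset V).card ≤ deg G ({v, a, b} ∪ {u, c, d}) v := by
        refine le_deg (fun x hx => ?_)
        simp only [mem_insert, mem_singleton] at hx
        rcases hx with h | h | h <;> rw [h]
        · exact ⟨by simp, huv.symm⟩
        · exact ⟨by simp, hva⟩
        · exact ⟨by simp, hvb⟩
      omega
  omega

theorem tv_nbr_le {H N : Finset V} {r : V → ℕ} (hC : InClass G H r) {y : V} (hy : y ∈ H)
    (hn : ¬ InTV G H r y) (hN : ∀ u ∈ N, InTV G H r u ∧ G.Adj y u) : N.card ≤ 3 := by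
  by_contra hlt
  obtain ⟨N', hN', hc4⟩ := exists_subset_card_eq (s := N) (n := 4) (by omega)
  have hex : ∀ u, ∃ T : Finset V, u ∈ N' → u ∈ T ∧ T.card ≤ 3 ∧
      ∀ x ∈ T, InTV G H r x ∧ r x = 2 ∧ 2 ≤ deg G T x := fun u => by
    by_cases hu : u ∈ N'
    · obtain ⟨huH, c, hc, d, hd, huc, hud, hcd, ru, rc, rd⟩ := (hN u (hN' hu)).1
      refine ⟨{u, c, d}, fun _ => ⟨by simp, card_le_three, fun x hx => ?_⟩⟩
      simp only [mem_insert, mem_singleton] at hx
      rcases hx with h | h | h <;> rw [h]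
      · exact ⟨⟨huH, c, hc, d, hd, huc, hud, hcd, ru, rc, rd⟩, ru,
          two_le_deg (by simp) (by simp) hcd.ne huc hud⟩
      · exact ⟨⟨hc, u, huH, d, hd, huc.symm, hcd, hud, rc, ru, rd⟩, rc,
          two_le_deg (by simp) (by simp) hud.ne huc.symm hcd⟩
      · exact ⟨⟨hd, u, huH, c, hc, hud.symm, hcd.symm, huc, rd, ru, rc⟩, rd,
          two_le_deg (by simp) (by simp) huc.ne hud.symm hcd.symm⟩
    · exact ⟨∅, fun h => absurd h hu⟩
  choose T hT using hex
  have hmem : ∀ x ∈ N'.biUnion T, InTV G H r x ∧ r x = 2 ∧ 2 ≤ deg G (N'.biUnion T) x := by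
    intro x hx
    obtain ⟨u, hu, hxu⟩ := mem_biUnion.1 hx
    obtain ⟨h1, h2, h3⟩ := (hT u hu).2.2 x hxu
    exact ⟨h1, h2, h3.trans (deg_mono (subset_biUnion_of_mem T hu) x)⟩
  have hyT : y ∉ N'.biUnion T := fun h => hn (hmem y h).1
  have hcard : (N'.biUnion T).card ≤ 12 := by
    have h1 : (N'.biUnion T).card ≤ ∑ u ∈ N', (T u).card := card_biUnion_le
    have h2 : ∑ u ∈ N', (T u).card ≤ N'.card • 3 :=
      sum_le_card_nsmul _ _ _ (fun u hu => (hT u hu).2.1)
    rw [hc4] at h2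
    simp only [smul_eq_mul] at h2
    omega
  have hsub : insert y (N'.biUnion T) ⊆ H :=
    insert_subset hy (fun x hx => (hmem x hx).1.1)
  have h0 := hC.small hsub (by rw [card_insert_of_notMem hyT]; omega)
  rw [dfc_insert r hyT] at h0
  have h2 := two_dfc (G := G) r (N'.biUnion T)
  have h3 : 0 ≤ ∑ x ∈ N'.biUnion T, ((deg G (N'.biUnion T) x : ℤ) + 2 * r x - 6) :=
    sum_nonneg (fun x hx => by
      obtain ⟨_, h1, h2⟩ := hmem x hx
      omega)
  have h4 : N'.card ≤ deg G (N'.biUnion T) y :=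
    le_deg (fun u hu => ⟨mem_biUnion.2 ⟨u, hu, (hT u hu).1⟩, (hN u (hN' hu)).2⟩)
  omega

/-- `Q` is a union of disjoint pairwise non-adjacent triangles with large lists -/
def TriSys (G : SimpleGraph V) (Q : Finset V) (L : V → Finset ℕ) (s t : ℕ) : Prop :=
  ∀ v ∈ Q, ∃ a ∈ Q, ∃ b ∈ Q, G.Adj v a ∧ G.Adj v b ∧ G.Adj a b ∧
    (∀ u ∈ Q, G.Adj u v → u = a ∨ u = b) ∧ s ≤ (L v).card ∧ t ≤ (L v ∪ L a ∪ L b).card

/-- in a triangle system the triangle of `v` is closed under adjacency -/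
theorem TriSys.other {Q : Finset V} {L : V → Finset ℕ} {s t : ℕ} (h : TriSys G Q L s t)
    {x p q : V} (hx : x ∈ Q) (hp : p ∈ Q) (hq : q ∈ Q) (hpq : p ≠ q) (h1 : G.Adj x p)
    (h2 : G.Adj x q) {u : V} (hu : u ∈ Q) (hux : G.Adj u x) : u = p ∨ u = q := by
  obtain ⟨a, _, b, _, _, _, _, hn, _⟩ := h x hx
  have e1 := hn p hp h1.symm
  have e2 := hn q hq h2.symm
  have e3 := hn u hu hux
  rcases e1 with e1 | e1 <;> rcases e2 with e2 | e2 <;> rcases e3 with e3 | e3 <;>
    first
      | exact absurd (e1.trans e2.symm) hpq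
      | exact Or.inl (e3.trans e1.symm)
      | exact Or.inr (e3.trans e2.symm)

theorem TriSys.closed {Q : Finset V} {L : V → Finset ℕ} {s t : ℕ} (h : TriSys G Q L s t)
    {v a b : V} (hv : v ∈ Q) (ha : a ∈ Q) (hb : b ∈ Q) (hva : G.Adj v a) (hvb : G.Adj v b)
    (hab : G.Adj a b) {x u : V} (hx : x ∈ ({v, a, b} : Finset V)) (hu : u ∈ Q)
    (hux : G.Adj u x) : u ∈ ({v, a, b} : Finset V) := by
  simp only [mem_insert, mem_singleton] at hx ⊢
  rcases hx with e | e | e <;> rw [e] at hux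
  · have := h.other hv ha hb hab.ne hva hvb hu hux
    tauto
  · have := h.other ha hv hb hvb.ne hva.symm hab hu hux
    tauto
  · have := h.other hb hv ha hva.ne hvb.symm hab.symm hu hux
    tauto

theorem col_triangle {L : V → Finset ℕ} {E : ℕ} {v a b : V} (hva : v ≠ a) (hvb : v ≠ b)
    (hab : a ≠ b) (h1 : 2 * E ≤ (L v).card) (h2 : 2 * E ≤ (L a).card)
    (h3 : 2 * E ≤ (L b).card) (h4 : 3 * E ≤ (L v ∪ L a ∪ L b).card) :
    Col G {v, a, b} L E := by
  obtain ⟨α, hα, β, hβ, γ, hγ, c1, c2, c3, d1, d2, d3⟩ := tri_hall _ _ _ E h1 h2 h3 h4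
  have v1 : Valid G {b} L (fun _ => γ) := valid_singleton hγ
  obtain ⟨χ, v2, e2, f2⟩ := valid_insert (x := a) (α := β) (by simpa using hab) v1 hβ
    (fun w _ _ => d3)
  have g2 : χ b = γ := e2 b (mem_singleton_self b)
  obtain ⟨χ', v3, e3, f3⟩ := valid_insert (x := v) (α := α) (by simp [hva, hvb]) v2 hα
    (fun w hw _ => by
      simp only [mem_insert, mem_singleton] at hw
      rcases hw with e | e <;> rw [e]
      · rw [f2]; exact d1
      · rw [g2]; exact d2)
  refine ⟨χ', v3, fun x hx => ?_⟩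
  simp only [mem_insert, mem_singleton] at hx
  rcases hx with e | e | e <;> rw [e]
  · rw [f3, c1]
  · rw [e3 a (by simp), f2, c2]
  · rw [e3 b (by simp), g2, c3]

theorem tris {Q : Finset V} {L : V → Finset ℕ} {E : ℕ} (h : TriSys G Q L (2 * E) (3 * E)) :
    Col G Q L E := by
  induction Q using Finset.strongInduction with
  | H Q ih =>
    rcases Q.eq_empty_or_nonempty with e | ⟨v, hv⟩
    · rw [e]; exact col_empty L E
    obtain ⟨a, ha, b, hb, hva, hvb, hab, _, l1, l4⟩ := h v hv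
    obtain ⟨_, _, _, _, _, _, _, _, l2, _⟩ := h a ha
    obtain ⟨_, _, _, _, _, _, _, _, l3, _⟩ := h b hb
    have hsub : ({v, a, b} : Finset V) ⊆ Q := by
      intro x hx
      simp only [mem_insert, mem_singleton] at hx
      rcases hx with e | e | e <;> rw [e] <;> assumption
    have hna : ∀ u ∈ Q \ {v, a, b}, ∀ w ∈ ({v, a, b} : Finset V), ¬ G.Adj u w :=
      fun u hu w hw huw =>
        (mem_sdiff.1 hu).2 (h.closed hv ha hb hva hvb hab hw (mem_sdiff.1 hu).1 huw)
    have hrest : TriSys G (Q \ {v, a, b}) L (2 * E) (3 * E) := by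
      intro w hw
      obtain ⟨p, hp, q, hq, hwp, hwq, hpq, hn, m1, m2⟩ := h w (mem_sdiff.1 hw).1
      exact ⟨p, mem_sdiff.2 ⟨hp, fun hh => hna w hw p hh hwp⟩, q,
        mem_sdiff.2 ⟨hq, fun hh => hna w hw q hh hwq⟩, hwp, hwq, hpq,
        fun u hu => hn u (mem_sdiff.1 hu).1, m1, m2⟩
    have c1 := ih (Q \ {v, a, b}) (sdiff_ssubset hsub ⟨v, by simp⟩) hrest
    have c2 : Col G {v, a, b} L E := col_triangle hva.ne hvb.ne hab.ne l1 l2 l3 l4
    have c3 := col_union_nonadj disjoint_sdiff hna c2 c1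
    rwa [union_sdiff_of_subset hsub] at c3

/-- FIX -/
theorem fix_tri {H Q : Finset V} {L φ : V → Finset ℕ} {m E : ℕ} (t : V → ℕ) (hQ : Q ⊆ H)
    (hE : E ≤ m) (hT : TriSys G Q L (3 * m - E) (3 * m)) (hφ : Valid G H L φ)
    (h1 : ∀ v ∈ Q, m - E ≤ (φ v).card) (h2 : ∀ v ∈ H \ Q, t v + Q.card * E ≤ (φ v).card) :
    ∃ φ', Valid G H L φ' ∧ (∀ v ∈ Q, m ≤ (φ' v).card) ∧ ∀ v ∈ H \ Q, t v ≤ (φ' v).card := by
  obtain ⟨φ0, h0⟩ := exists_trim Q φ (fun _ => m - E) h1
  have hZ : ∀ v ∈ Q, ∀ a ∈ Q, ∀ b ∈ Q, G.Adj v a → G.Adj v b → G.Adj a b →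
      ∀ x ∈ ({v, a, b} : Finset V), insert x (nbr G Q x) ⊆ {v, a, b} := by
    intro v hv a ha b hb hva hvb hab x hx
    exact insert_subset hx (fun u hu =>
      hT.closed hv ha hb hva hvb hab hx (mem_nbr.1 hu).1 (mem_nbr.1 hu).2.symm)
  have hT1 : TriSys G Q (fun x => L x \ (insert x (nbr G Q x)).biUnion φ0) (2 * E) (3 * E) := by
    intro v hv
    obtain ⟨a, ha, b, hb, hva, hvb, hab, hn, l1, l2⟩ := hT v hv
    refine ⟨a, ha, b, hb, hva, hvb, hab, hn, ?_⟩
    have hB : (({v, a, b} : Finset V).biUnion φ0).card ≤ 3 * (m - E) := by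
      have k1 := card_biUnion_le_mul ({v, a, b} : Finset V) φ0 (m - E) (fun u hu => by
        simp only [mem_insert, mem_singleton] at hu
        rcases hu with e | e | e <;> rw [e]
        · exact (h0 v hv).2.le
        · exact (h0 a ha).2.le
        · exact (h0 b hb).2.le)
      exact k1.trans (Nat.mul_le_mul_right _ card_le_three)
    have hS : ∀ x ∈ ({v, a, b} : Finset V), L x \ ({v, a, b} : Finset V).biUnion φ0 ⊆
        L x \ (insert x (nbr G Q x)).biUnion φ0 := fun x hx =>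
      sdiff_subset_sdiff subset_rfl
        (biUnion_subset_biUnion_of_subset_left φ0 (hZ v hv a ha b hb hva hvb hab x hx))
    constructor
    · have k1 := card_le_card (hS v (by simp))
      have k2 := le_card_sdiff (({v, a, b} : Finset V).biUnion φ0) (L v)
      show 2 * E ≤ (L v \ (insert v (nbr G Q v)).biUnion φ0).card
      omega
    · have k1 : (L v ∪ L a ∪ L b) \ ({v, a, b} : Finset V).biUnion φ0 ⊆
          L v \ (insert v (nbr G Q v)).biUnion φ0 ∪ L a \ (insert a (nbr G Q a)).biUnion φ0 ∪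
            L b \ (insert b (nbr G Q b)).biUnion φ0 := by
        rw [union_sdiff_distrib, union_sdiff_distrib]
        exact union_subset_union (union_subset_union (hS v (by simp)) (hS a (by simp)))
          (hS b (by simp))
      have k2 := card_le_card k1
      have k3 := le_card_sdiff (({v, a, b} : Finset V).biUnion φ0) (L v ∪ L a ∪ L b)
      show 3 * E ≤ (L v \ (insert v (nbr G Q v)).biUnion φ0 ∪
        L a \ (insert a (nbr G Q a)).biUnion φ0 ∪ L b \ (insert b (nbr G Q b)).biUnion φ0).card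
      omega
  obtain ⟨ψ, hψ, cψ⟩ := (tris hT1).exact
  have d0 : ∀ v ∈ Q, ∀ u ∈ insert v (nbr G Q v), Disjoint (ψ v) (φ0 u) := fun v hv u hu =>
    (sdiff_disjoint.mono_right (subset_biUnion_of_mem φ0 hu)).mono_left (hψ.1 v hv)
  have vQ : Valid G Q L (fun v => φ0 v ∪ ψ v) := by
    refine ⟨fun v hv => union_subset ((h0 v hv).1.trans (hφ.1 v (hQ hv)))
      ((hψ.1 v hv).trans sdiff_subset), fun u hu v hv huv => ?_⟩
    rw [disjoint_union_left, disjoint_union_right, disjoint_union_right]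
    exact ⟨⟨(hφ.2 u (hQ hu) v (hQ hv) huv).mono (h0 u hu).1 (h0 v hv).1,
      (d0 v hv u (mem_insert_of_mem (mem_nbr.2 ⟨hu, huv.symm⟩))).symm⟩,
      d0 u hu v (mem_insert_of_mem (mem_nbr.2 ⟨hv, huv⟩)), hψ.2 u hu v hv huv⟩
  have vR : Valid G (H \ Q) L (fun v => φ v \ Q.biUnion ψ) :=
    (hφ.mono_set sdiff_subset).shrink (fun v _ => sdiff_subset)
  obtain ⟨χ, c1, c2, c3⟩ := glue disjoint_sdiff vQ vR (fun u hu w hw huw => by
    rw [disjoint_union_right]
    exact ⟨(hφ.2 u (mem_sdiff.1 hu).1 w (hQ hw) huw).mono sdiff_subset (h0 w hw).1,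
      sdiff_disjoint.mono_right (subset_biUnion_of_mem ψ hw)⟩)
  rw [union_sdiff_of_subset hQ] at c1
  refine ⟨χ, c1, fun v hv => ?_, fun v hv => ?_⟩
  · rw [c2 v hv, card_union_of_disjoint (d0 v hv v (mem_insert_self _ _)).symm, (h0 v hv).2,
      cψ v hv]
    omega
  · rw [c3 v hv]
    have k1 := card_biUnion_le_mul Q ψ E (fun u hu => (cψ u hu).le)
    have k2 := le_card_sdiff (Q.biUnion ψ) (φ v)
    have k3 := h2 v hv
    omega

/-- SPLIT -/
theorem split_lists (H : Finset V) (L : V → Finset ℕ) (a : V → ℕ) (m m2 : ℕ) (hm : m2 ≤ m)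
    (hL : ∀ v ∈ H, (L v).card = a v * m) :
    ∃ P : Finset ℕ, ∀ v ∈ H, a v * m2 ≤ (L v ∩ P).card ∧
      (L v ∩ P).card ≤ a v * m2 + 2 ^ H.card := by
  rcases Nat.eq_zero_or_pos m with e | hpos
  · have e2 : m2 = 0 := by omega
    exact ⟨∅, fun v _ => by simp [e2]⟩
  have hex : ∀ F : Finset ℕ, ∃ R ⊆ F, F.card * m2 ≤ R.card * m ∧
      R.card * m ≤ F.card * m2 + m := by
    intro F
    have k1 : F.card * m2 ≤ F.card * m := Nat.mul_le_mul_left _ hm
    have k2 := Nat.div_add_mod (F.card * m2 + (m - 1)) m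
    have k3 := Nat.mod_lt (F.card * m2 + (m - 1)) hpos
    have k4 : (F.card * m2 + (m - 1)) / m ≤ F.card := by
      apply Nat.le_of_lt_succ
      rw [Nat.div_lt_iff_lt_mul hpos, Nat.succ_mul]
      omega
    obtain ⟨R, hR, hc⟩ := exists_subset_card_eq k4
    refine ⟨R, hR, ?_, ?_⟩ <;> rw [hc, mul_comm _ m] <;> omega
  choose R hR using hex
  let σ : ℕ → Finset V := fun c => H.filter (fun v => c ∈ L v)
  let F : Finset V → Finset ℕ := fun S => (H.biUnion L).filter (fun c => σ c = S)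
  refine ⟨(H.biUnion L).filter (fun c => c ∈ R (F (σ c))), fun v hv => ?_⟩
  have hmap : ∀ A : Finset ℕ, A.card = ∑ S ∈ H.powerset, (A.filter (fun c => σ c = S)).card :=
    fun A => card_eq_sum_card_fiberwise (fun c _ => mem_coe.2 (mem_powerset.2 (filter_subset _ _)))
  have hterm : ∀ S ∈ H.powerset,
      ((L v).filter (fun c => σ c = S)).card * m2 ≤
        ((L v ∩ (H.biUnion L).filter (fun c => c ∈ R (F (σ c)))).filter
          (fun c => σ c = S)).card * m ∧
      ((L v ∩ (H.biUnion L).filter (fun c => c ∈ R (F (σ c)))).filter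
          (fun c => σ c = S)).card * m ≤ ((L v).filter (fun c => σ c = S)).card * m2 + m := by
    intro S _
    by_cases hvS : v ∈ S
    · have hin : ∀ c, σ c = S → c ∈ L v := fun c hc => by
        rw [← hc] at hvS
        exact (mem_filter.1 hvS).2
      have e1 : (L v).filter (fun c => σ c = S) = F S := by
        ext c
        simp only [F, mem_filter]
        exact ⟨fun h => ⟨mem_biUnion.2 ⟨v, hv, h.1⟩, h.2⟩, fun h => ⟨hin c h.2, h.2⟩⟩
      have e2 : (L v ∩ (H.biUnion L).filter (fun c => c ∈ R (F (σ c)))).filter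
          (fun c => σ c = S) = R (F S) := by
        ext c
        simp only [mem_filter, mem_inter]
        constructor
        · rintro ⟨⟨_, _, k⟩, hc⟩
          rwa [hc] at k
        · intro k
          have k2 := mem_filter.1 ((hR (F S)).1 k)
          exact ⟨⟨hin c k2.2, k2.1, by rw [k2.2]; exact k⟩, k2.2⟩
      rw [e1, e2]
      exact (hR (F S)).2
    · have hout : ∀ c ∈ L v, σ c ≠ S := fun c hc h => hvS (h ▸ mem_filter.2 ⟨hv, hc⟩)
      have e1 : (L v).filter (fun c => σ c = S) = ∅ := filter_eq_empty_iff.2 hout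
      have e2 : (L v ∩ (H.biUnion L).filter (fun c => c ∈ R (F (σ c)))).filter
          (fun c => σ c = S) = ∅ :=
        filter_eq_empty_iff.2 (fun c hc => hout c (mem_inter.1 hc).1)
      rw [e1, e2]
      simp
  have s1 := sum_le_sum (fun S hS => (hterm S hS).1)
  have s2 := sum_le_sum (fun S hS => (hterm S hS).2)
  rw [sum_add_distrib, sum_const, card_powerset, smul_eq_mul] at s2
  rw [← sum_mul, ← sum_mul, ← hmap, ← hmap, hL v hv] at s1 s2
  constructor
  · refine Nat.le_of_mul_le_mul_right ?_ hpos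
    calc a v * m2 * m = a v * m * m2 := by ring
      _ ≤ _ := s1
  · refine Nat.le_of_mul_le_mul_right ?_ hpos
    calc _ ≤ a v * m * m2 + 2 ^ H.card * m := s2
      _ = _ := by ring

end Pool.Agent.PL5
end

-- merged part: Pool.Agent.Work.MP_db4788_co.Sep
section
/-
Section 5 of the write-up: separators.
-/

set_option autoImplicit false
set_option linter.unusedSectionVars false
open Finset

namespace Pool.Agent.PL5

variable {V : Type} [DecidableEq V] {G : SimpleGraph V} [DecidableRel G.Adj]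

namespace SepAux

variable (G) in
open Classical in
/-- vertices of `S` reachable from `A` inside `S` -/
noncomputable def reach (S A : Finset V) : Finset V := S.filter fun b => ∃ a ∈ A, Reach G S a b

lemma conn_closed {S : Finset V} (h : Conn G S) (P : V → Prop) {a : V} (haS : a ∈ S) (ha : P a)
    (hP : ∀ x ∈ S, ∀ y ∈ S, P x → G.Adj x y → P y) : ∀ b ∈ S, P b :=
  fun b hb => (h.2 a haS b hb).closed P (fun x y hx hy hxy h => hP x hx y hy h hxy) ha

lemma mem_reach {S A : Finset V} {b : V} :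
    b ∈ reach G S A ↔ b ∈ S ∧ ∃ a ∈ A, Reach G S a b := by
  simp [reach]

lemma reach_subset (S A : Finset V) : reach G S A ⊆ S := fun _ h => (mem_reach.1 h).1

lemma subset_reach {S A : Finset V} (h : A ⊆ S) : A ⊆ reach G S A :=
  fun a ha => mem_reach.2 ⟨h ha, a, ha, Reach.refl _ _⟩

lemma reach_closed {S A : Finset V} {x y : V} (hx : x ∈ reach G S A) (hy : y ∈ S)
    (h : G.Adj x y) : y ∈ reach G S A := by
  obtain ⟨h1, a, ha, h2⟩ := mem_reach.1 hx
  exact mem_reach.2 ⟨hy, a, ha, h2.tail h1 hy h⟩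

lemma conn_reach {S A : Finset V} (h : A ⊆ S) (hA : Conn G A) : Conn G (reach G S A) := by
  obtain ⟨a₀, h₀⟩ := hA.1
  refine conn_of_root (subset_reach h h₀) fun b hb => ?_
  obtain ⟨-, a, ha, h2⟩ := mem_reach.1 hb
  have := h2.closed (fun x => x ∈ reach G S A ∧ Reach G (reach G S A) a₀ x)
    (fun x y _ hy hxy hx => ⟨reach_closed hx.1 hy hxy,
      hx.2.tail hx.1 (reach_closed hx.1 hy hxy) hxy⟩)
    ⟨subset_reach h ha, (hA.2 a₀ h₀ a ha).mono (subset_reach h)⟩
  exact this.2

variable (G) in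
open Classical in
/-- balls inside `F` -/
noncomputable def ball (F A : Finset V) : ℕ → Finset V
  | 0 => A
  | j + 1 => ball F A j ∪ F.filter fun y => ∃ x ∈ ball F A j, G.Adj x y

lemma ball_sub {F A : Finset V} (h : A ⊆ F) : ∀ j, ball G F A j ⊆ F
  | 0 => h
  | j + 1 => by
    classical
    intro x hx
    simp only [ball, mem_union, mem_filter] at hx
    exact hx.elim (fun hx => ball_sub h j hx) fun hx => hx.1

lemma ball_mono (F A : Finset V) : Monotone (ball G F A) :=
  monotone_nat_of_le_succ fun _ => subset_union_left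

lemma ball_step {F A : Finset V} {j : ℕ} {x y : V} (hx : x ∈ ball G F A j) (hy : y ∈ F)
    (h : G.Adj x y) : y ∈ ball G F A (j + 1) := by
  simp only [ball, mem_union, mem_filter]
  exact Or.inr ⟨hy, x, hx, h⟩

lemma ball_path {F A : Finset V} (h : A ⊆ F) : ∀ j, ∀ v ∈ ball G F A j,
    ∃ T ⊆ F, Conn G T ∧ v ∈ T ∧ (∃ a ∈ A, a ∈ T) ∧ T.card ≤ j + 1
  | 0, v, hv => ⟨{v}, by simpa using h hv, conn_singleton v, by simp, ⟨v, hv, by simp⟩, by simp⟩
  | j + 1, v, hv => by
    simp only [ball, mem_union, mem_filter] at hv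
    rcases hv with hv | ⟨hF, x, hx, hxv⟩
    · obtain ⟨T, h1, h2, h3, h4, h5⟩ := ball_path h j v hv
      exact ⟨T, h1, h2, h3, h4, by omega⟩
    · obtain ⟨T, h1, h2, h3, ⟨a, ha, h4⟩, h5⟩ := ball_path h j x hx
      refine ⟨T ∪ {v}, union_subset h1 (by simpa using hF),
        h2.union (conn_singleton v) ⟨x, h3, v, by simp, hxv⟩, by simp, ⟨a, ha, by simp [h4]⟩, ?_⟩
      have := card_union_le T {v}
      rw [card_singleton] at this
      omega

lemma ball_layer {F A : Finset V} (h : A ⊆ F) {t : ℕ} (ht : 1 ≤ t) (hF : F.card ≤ t ^ 2) :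
    ∃ j < t, (ball G F A (j + 1) \ ball G F A j).card ≤ t := by
  by_contra hc
  push Not at hc
  have key : ∀ j ≤ t, j * (t + 1) ≤ (ball G F A j).card := by
    intro j
    induction j with
    | zero => simp
    | succ j ih =>
      intro hj
      have h1 := ih (by omega)
      have h2 := hc j (by omega)
      have h3 := card_sdiff_add_card_eq_card (ball_mono (G := G) F A (Nat.le_succ j))
      have h4 : (j + 1) * (t + 1) = j * (t + 1) + (t + 1) := by ring
      simp only [Nat.succ_eq_add_one] at h3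
      omega
  have h1 := (key t le_rfl).trans ((card_le_card (ball_sub h t)).trans hF)
  nlinarith

variable (G) in
/-- the state of the separator algorithm -/
structure St (U : Finset V) (t : ℕ) (F : Finset V) (I : Finset (Fin 5))
    (C Y : Fin 5 → Finset V) : Prop where
  sub : F ⊆ U
  big : 2 * U.card < 3 * F.card
  conn : ∀ i ∈ I, Conn G (C i)
  disj : ∀ i ∈ I, ∀ j ∈ I, i ≠ j → Disjoint (C i) (C j)
  touch : ∀ i ∈ I, ∀ j ∈ I, i ≠ j → Touch G (C i) (C j)
  dF : ∀ i ∈ I, Disjoint (C i) F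
  YC : ∀ i ∈ I, Y i ⊆ C i
  Ycard : ∀ i ∈ I, (Y i).card ≤ 8 * t
  nb : ∀ u ∈ F, ∀ w ∈ U, G.Adj u w → w ∈ F ∨ ∃ i ∈ I, w ∈ Y i

variable (G) in
/-- the conclusion -/
def Goal (U : Finset V) (t : ℕ) : Prop :=
  ∃ X : Finset V, X.card ≤ 40 * t ∧ ∀ S ⊆ U \ X, Conn G S → 3 * S.card ≤ 2 * U.card

lemma card_biUnion_le' {I : Finset (Fin 5)} (hI : I.card ≤ 4) (Y : Fin 5 → Finset V) {s : ℕ}
    (h : ∀ i ∈ I, (Y i).card ≤ s) : (I.biUnion Y).card ≤ 4 * s :=
  (card_biUnion_le_card_mul I Y s h).trans (Nat.mul_le_mul_right s hI)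

lemma St.finish {U : Finset V} {t : ℕ} {F : Finset V} {I : Finset (Fin 5)}
    {C Y : Fin 5 → Finset V} (h : St G U t F I C Y) (hI : I.card ≤ 4) (Z : Finset V)
    (hZ : Z.card ≤ 8 * t) (hs : ∀ S ⊆ F \ Z, Conn G S → 3 * S.card ≤ 2 * U.card) :
    Goal G U t := by
  refine ⟨Z ∪ I.biUnion Y, ?_, fun S hS hc => ?_⟩
  · have h1 := card_union_le Z (I.biUnion Y)
    have h2 := card_biUnion_le' hI Y h.Ycard
    omega
  · by_cases hm : ∃ a ∈ S, a ∈ F
    · obtain ⟨a, ha, haF⟩ := hm
      have := conn_closed hc (· ∈ F) ha haF fun x _ y hy hx hxy => by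
        have hy' := mem_sdiff.1 (hS hy)
        rcases h.nb x hx y hy'.1 hxy with h1 | ⟨i, hi, h1⟩
        · exact h1
        · exact absurd (mem_union_right _ (mem_biUnion.2 ⟨i, hi, h1⟩)) hy'.2
      refine hs S (fun b hb => mem_sdiff.2 ⟨this b hb, fun hZ => ?_⟩) hc
      exact (mem_sdiff.1 (hS hb)).2 (mem_union_left _ hZ)
    · push Not at hm
      have h1 : S ⊆ U \ F := fun b hb => mem_sdiff.2 ⟨(mem_sdiff.1 (hS hb)).1, hm b hb⟩
      have h2 := card_le_card h1
      have h3 := card_sdiff_add_card_eq_card h.sub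
      have h4 := h.big
      omega

lemma St.goal (hK : MinorFree G) {U : Finset V} {t : ℕ} (ht : 2 ≤ t) (hU : U.card ≤ t ^ 2) :
    ∀ (n : ℕ) (F : Finset V) (I : Finset (Fin 5)) (C Y : Fin 5 → Finset V),
      2 * F.card + I.card = n → St G U t F I C Y → Goal G U t := by
  classical
  intro n
  induction n using Nat.strong_induction_on with
  | _ n ih =>
  intro F I C Y hn h
  by_cases hI5 : I = univ
  · subst hI5
    exact (hK.k5 C (fun i j => h.disj i (mem_univ _) j (mem_univ _)) (fun i => h.conn i (mem_univ _))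
      fun i j => h.touch i (mem_univ _) j (mem_univ _)).elim
  have hI : I.card ≤ 4 := by
    have := card_lt_card (ssubset_univ_iff.2 hI5)
    simp only [card_univ, Fintype.card_fin] at this
    omega
  set A : Fin 5 → Finset V := fun i => F.filter fun u => ∃ w ∈ C i, G.Adj u w with hA
  have hAF : ∀ i, A i ⊆ F := fun i => filter_subset _ _
  by_cases h0 : ∃ i ∈ I, A i = ∅
  · obtain ⟨i, hi, h0⟩ := h0
    have hc := card_erase_of_mem hi
    have hp := card_pos.2 ⟨i, hi⟩
    refine ih _ (by omega) F (I.erase i) C Y rfl ⟨h.sub, h.big,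
      fun j hj => h.conn j (mem_of_mem_erase hj),
      fun j hj k hk => h.disj j (mem_of_mem_erase hj) k (mem_of_mem_erase hk),
      fun j hj k hk => h.touch j (mem_of_mem_erase hj) k (mem_of_mem_erase hk),
      fun j hj => h.dF j (mem_of_mem_erase hj), fun j hj => h.YC j (mem_of_mem_erase hj),
      fun j hj => h.Ycard j (mem_of_mem_erase hj), fun u hu w hw huw => ?_⟩
    rcases h.nb u hu w hw huw with h1 | ⟨j, hj, h1⟩
    · exact Or.inl h1
    · refine Or.inr ⟨j, mem_erase.2 ⟨fun e => ?_, hj⟩, h1⟩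
      subst e
      have : u ∈ A j := mem_filter.2 ⟨hu, w, h.YC j hj h1, huw⟩
      rw [h0] at this
      exact notMem_empty _ this
  push Not at h0
  by_cases h1 : ∃ v ∈ F, ∀ i ∈ I, v ∈ ball G F (A i) t
  · obtain ⟨v, hv, h1⟩ := h1
    have h2 : ∀ i, ∃ T : Finset V, i ∈ I → (T ⊆ F ∧ Conn G T ∧ v ∈ T ∧ (∃ a ∈ A i, a ∈ T) ∧
        T.card ≤ t + 1) := by
      intro i
      by_cases hi : i ∈ I
      · obtain ⟨T, h3⟩ := ball_path (hAF i) t v (h1 i hi)
        exact ⟨T, fun _ => h3⟩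
      · exact ⟨∅, fun h => absurd h hi⟩
    choose P hP using h2
    set T : Finset V := insert v (I.biUnion P) with hT
    have hTF : T ⊆ F := insert_subset hv (biUnion_subset.2 fun i hi => (hP i hi).1)
    have hvT : v ∈ T := mem_insert_self _ _
    have hPT : ∀ i ∈ I, P i ⊆ T := fun i hi =>
      (subset_biUnion_of_mem P hi).trans (subset_insert _ _)
    have hTc : Conn G T := by
      refine conn_of_root hvT fun b hb => ?_
      rcases mem_insert.1 hb with rfl | hb
      · exact Reach.refl _ _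
      · obtain ⟨i, hi, hb⟩ := mem_biUnion.1 hb
        exact ((hP i hi).2.1.2 v (hP i hi).2.2.1 b hb).mono (hPT i hi)
    have hTcard : T.card ≤ 8 * t := by
      have a := card_insert_le v (I.biUnion P)
      have b := card_biUnion_le' hI P fun i hi => (hP i hi).2.2.2.2
      rw [← hT] at a
      omega
    by_cases hb : 2 * U.card < 3 * (F \ T).card
    swap
    · exact h.finish hI T hTcard fun S hS _ => by
        have := card_le_card hS
        omega
    obtain ⟨i₀, hi₀⟩ : ∃ i₀, i₀ ∉ I := by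
      by_contra hc
      push Not at hc
      exact hI5 (eq_univ_of_forall hc)
    have hne : ∀ j ∈ I, j ≠ i₀ := fun j hj e => hi₀ (e ▸ hj)
    have hCj : ∀ j ∈ I, Function.update C i₀ T j = C j := fun j hj =>
      Function.update_of_ne (hne j hj) _ _
    have hYj : ∀ j ∈ I, Function.update Y i₀ T j = Y j := fun j hj =>
      Function.update_of_ne (hne j hj) _ _
    have hdT : ∀ j ∈ I, Disjoint (C j) T := fun j hj => (h.dF j hj).mono_right hTF
    have htT : ∀ j ∈ I, Touch G T (C j) := fun j hj => by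
      obtain ⟨a, ha, haP⟩ := (hP j hj).2.2.2.1
      obtain ⟨-, w, hw, haw⟩ := mem_filter.1 ha
      exact ⟨a, hPT j hj haP, w, hw, haw⟩
    have hlt : 2 * (F \ T).card + (insert i₀ I).card < n := by
      have a := card_sdiff_add_card_eq_card hTF
      have b := card_pos.2 ⟨v, hvT⟩
      have c := card_insert_le i₀ I
      omega
    refine ih _ hlt (F \ T) (insert i₀ I) (Function.update C i₀ T) (Function.update Y i₀ T) rfl
      ⟨sdiff_subset.trans h.sub, hb, ?_, ?_, ?_, ?_, ?_, ?_, ?_⟩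
    · intro j hj
      rcases mem_insert.1 hj with rfl | hj
      · rwa [Function.update_self]
      · rw [hCj j hj]; exact h.conn j hj
    · intro j hj k hk hjk
      rcases mem_insert.1 hj with e | hj <;> rcases mem_insert.1 hk with e' | hk
      · exact absurd (e.trans e'.symm) hjk
      · rw [e, Function.update_self, hCj k hk]; exact (hdT k hk).symm
      · rw [e', Function.update_self, hCj j hj]; exact hdT j hj
      · rw [hCj j hj, hCj k hk]; exact h.disj j hj k hk hjk
    · intro j hj k hk hjk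
      rcases mem_insert.1 hj with e | hj <;> rcases mem_insert.1 hk with e' | hk
      · exact absurd (e.trans e'.symm) hjk
      · rw [e, Function.update_self, hCj k hk]; exact htT k hk
      · rw [e', Function.update_self, hCj j hj]; exact (htT j hj).symm
      · rw [hCj j hj, hCj k hk]; exact h.touch j hj k hk hjk
    · intro j hj
      rcases mem_insert.1 hj with rfl | hj
      · rw [Function.update_self]; exact disjoint_sdiff
      · rw [hCj j hj]; exact (h.dF j hj).mono_right sdiff_subset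
    · intro j hj
      rcases mem_insert.1 hj with rfl | hj
      · rw [Function.update_self, Function.update_self]
      · rw [hCj j hj, hYj j hj]; exact h.YC j hj
    · intro j hj
      rcases mem_insert.1 hj with rfl | hj
      · rwa [Function.update_self]
      · rw [hYj j hj]; exact h.Ycard j hj
    · intro u hu w hw huw
      rcases h.nb u (mem_sdiff.1 hu).1 w hw huw with h3 | ⟨j, hj, h3⟩
      · by_cases hwT : w ∈ T
        · exact Or.inr ⟨i₀, mem_insert_self _ _, by rwa [Function.update_self]⟩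
        · exact Or.inl (mem_sdiff.2 ⟨h3, hwT⟩)
      · exact Or.inr ⟨j, mem_insert_of_mem hj, by rwa [hYj j hj]⟩
  push Not at h1
  have hFt : F.card ≤ t ^ 2 := (card_le_card h.sub).trans hU
  choose l hl using fun i => ball_layer (G := G) (hAF i) (by omega : 1 ≤ t) hFt
  set Z : Finset V := I.biUnion fun i => ball G F (A i) (l i + 1) \ ball G F (A i) (l i) with hZ
  have hZc : Z.card ≤ 4 * t := card_biUnion_le' hI _ fun i _ => (hl i).2
  by_cases hs : ∀ S ⊆ F \ Z, Conn G S → 3 * S.card ≤ 2 * U.card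
  · exact h.finish hI Z (by omega) hs
  push Not at hs
  obtain ⟨S₀, hS₀, hS₀c, hS₀b⟩ := hs
  set F' := reach G (F \ Z) S₀ with hF'
  have hF'c : Conn G F' := conn_reach hS₀ hS₀c
  have hF's : F' ⊆ F \ Z := reach_subset _ _
  obtain ⟨v, hv⟩ := hF'c.1
  obtain ⟨i, hi, hvi⟩ := h1 v (mem_sdiff.1 (hF's hv)).1
  have hmiss : ∀ a ∈ A i, a ∉ F' := by
    intro a ha haF
    refine hvi (ball_mono F (A i) (hl i).1.le ?_)
    refine conn_closed hF'c (· ∈ ball G F (A i) (l i)) haF (ball_mono F (A i) (Nat.zero_le _) ha)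
      (fun x _ y hy hx hxy => ?_) v hv
    have hy' := mem_sdiff.1 (hF's hy)
    by_contra hc
    exact hy'.2 (mem_biUnion.2 ⟨i, hi, mem_sdiff.2 ⟨ball_step hx hy'.1 hxy, hc⟩⟩)
  set C' := reach G (C i ∪ F \ F') (C i) with hC'
  have hCC' : C i ⊆ C' := subset_reach subset_union_left
  have hC's : C' ⊆ C i ∪ F \ F' := reach_subset _ _
  have hAC' : ∀ u ∈ F, u ∉ F' → ∀ w ∈ C', G.Adj u w → u ∈ C' := fun u hu hu' w hw huw =>
    reach_closed hw (mem_union_right _ (mem_sdiff.2 ⟨hu, hu'⟩)) huw.symm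
  have hF'C' : F' ⊆ F \ C' := fun u hu => by
    have huF := (mem_sdiff.1 (hF's hu)).1
    refine mem_sdiff.2 ⟨huF, fun hc => ?_⟩
    rcases mem_union.1 (hC's hc) with h3 | h3
    · exact disjoint_left.1 (h.dF i hi) h3 huF
    · exact (mem_sdiff.1 h3).2 hu
  have hlt : 2 * (F \ C').card + I.card < n := by
    obtain ⟨a, ha⟩ := h0 i hi
    obtain ⟨haF, w, hw, haw⟩ := mem_filter.1 ha
    have : (F \ C').card < F.card := card_lt_card ⟨sdiff_subset, fun hc =>
      (mem_sdiff.1 (hc haF)).2 (hAC' a haF (hmiss a ha) w (hCC' hw) haw)⟩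
    omega
  have hdC' : ∀ j ∈ I, j ≠ i → Disjoint C' (C j) := fun j hj hji =>
    Disjoint.mono_left hC's (disjoint_union_left.2 ⟨h.disj i hi j hj hji.symm,
      ((h.dF j hj).mono_right sdiff_subset).symm⟩)
  have hle : ∀ j, C j ⊆ Function.update C i C' j := fun j => by
    by_cases e : j = i
    · subst e; rwa [Function.update_self]
    · rw [Function.update_of_ne e]
  refine ih _ hlt (F \ C') I (Function.update C i C') (Function.update Y i (Z ∩ C')) rfl
    ⟨sdiff_subset.trans h.sub, ?_, ?_, ?_, ?_, ?_, ?_, ?_, ?_⟩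
  · have a := card_le_card ((subset_reach hS₀).trans hF'C')
    omega
  · intro j hj
    by_cases e : j = i
    · subst e; rw [Function.update_self]; exact conn_reach subset_union_left (h.conn j hj)
    · rw [Function.update_of_ne e]; exact h.conn j hj
  · intro j hj k hk hjk
    by_cases e : j = i
    · subst e
      rw [Function.update_self, Function.update_of_ne hjk.symm]
      exact hdC' k hk hjk.symm
    · by_cases e' : k = i
      · subst e'
        rw [Function.update_self, Function.update_of_ne e]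
        exact (hdC' j hj e).symm
      · rw [Function.update_of_ne e, Function.update_of_ne e']
        exact h.disj j hj k hk hjk
  · exact fun j hj k hk hjk => (h.touch j hj k hk hjk).mono (hle j) (hle k)
  · intro j hj
    by_cases e : j = i
    · subst e; rw [Function.update_self]; exact disjoint_sdiff
    · rw [Function.update_of_ne e]; exact (h.dF j hj).mono_right sdiff_subset
  · intro j hj
    by_cases e : j = i
    · subst e; rw [Function.update_self, Function.update_self]; exact inter_subset_right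
    · rw [Function.update_of_ne e, Function.update_of_ne e]; exact h.YC j hj
  · intro j hj
    by_cases e : j = i
    · subst e
      rw [Function.update_self]
      have := card_le_card (inter_subset_left (s₁ := Z) (s₂ := C'))
      omega
    · rw [Function.update_of_ne e]; exact h.Ycard j hj
  · intro u hu w hw huw
    obtain ⟨huF, huC⟩ := mem_sdiff.1 hu
    rcases h.nb u huF w hw huw with h3 | ⟨j, hj, h3⟩
    · by_cases hwC : w ∈ C'
      · refine Or.inr ⟨i, hi, ?_⟩
        rw [Function.update_self]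
        refine mem_inter.2 ⟨?_, hwC⟩
        have huF' : u ∈ F' := by
          by_contra hc
          exact huC (hAC' u huF hc w hwC huw)
        by_contra hc
        exact (mem_sdiff.1 (hF'C' (reach_closed huF' (mem_sdiff.2 ⟨h3, hc⟩) huw))).2 hwC
      · exact Or.inl (mem_sdiff.2 ⟨h3, hwC⟩)
    · by_cases e : j = i
      · subst e
        have ha : u ∈ A j := mem_filter.2 ⟨huF, w, h.YC j hj h3, huw⟩
        exact absurd (hAC' u huF (hmiss u ha) w (hCC' (h.YC j hj h3)) huw) huC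
      · exact Or.inr ⟨j, hj, by rwa [Function.update_of_ne e]⟩

end SepAux

open SepAux in
theorem sep (hG : MinorFree G) (U : Finset V) (t : ℕ) (ht : 1 ≤ t) (hU : U.card ≤ t ^ 2) :
    ∃ X ⊆ U, X.card ≤ 40 * t ∧ ∀ K ⊆ U \ X, Conn G K → 3 * K.card ≤ 2 * U.card := by
  by_cases h1 : t = 1 ∨ U = ∅
  · refine ⟨U, subset_rfl, ?_, fun K hK _ => ?_⟩
    · rcases h1 with rfl | rfl
      · omega
      · simp
    · have := card_le_card hK
      rw [sdiff_self] at this
      simp only [bot_eq_empty, card_empty] at this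
      omega
  · push Not at h1
    have := card_pos.2 h1.2
    obtain ⟨X, h2, h3⟩ := St.goal hG (by omega) hU _ U ∅ (fun _ => ∅) (fun _ => ∅) rfl
      ⟨subset_rfl, by omega, by simp, by simp, by simp, by simp, by simp, by simp,
        fun u _ w hw _ => Or.inl hw⟩
    refine ⟨U ∩ X, inter_subset_left, (card_le_card inter_subset_right).trans h2,
      fun K hK hc => h3 K ?_ hc⟩
    rwa [sdiff_inter_self_left] at hK

end Pool.Agent.PL5
end

-- merged part: Pool.Agent.Work.MP_db4788_co.M1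
section
/-
Section 2 of the write-up: lemma M1.
-/

set_option autoImplicit false
set_option linter.unusedSectionVars false
open Finset

namespace Pool.Agent.PL5

variable {V : Type} [DecidableEq V] {G : SimpleGraph V} [DecidableRel G.Adj]

open Classical in
/-- vertices of `R` that reach a neighbour of `W` inside `R` -/
noncomputable def m1c (G : SimpleGraph V) (R W : Finset V) : Finset V :=
  R.filter (fun x => ∃ w ∈ R, Reach G R x w ∧ ∃ u ∈ W, G.Adj w u)

theorem mem_m1c {R W : Finset V} {x : V} :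
    x ∈ m1c G R W ↔ x ∈ R ∧ ∃ w ∈ R, Reach G R x w ∧ ∃ u ∈ W, G.Adj w u := by
  unfold m1c; simp only [mem_filter]

theorem m1c_subset (R W : Finset V) : m1c G R W ⊆ R := fun _ h => (mem_m1c.1 h).1

theorem m1c_reach {R W : Finset V} {x y : V} (hx : x ∈ m1c G R W) (h : Reach G R x y) :
    y ∈ m1c G R W := by
  obtain ⟨hxR, w, hw, hr, hu⟩ := mem_m1c.1 hx
  exact mem_m1c.2 ⟨h.mem hxR, w, hw, h.symm.trans hr, hu⟩

theorem m1c_conn {R W W' : Finset V} (hW : Conn G W) :
    Conn G (W ∪ (m1c G R W ∩ m1c G R W')) := by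
  refine conn_attach hW (fun x hx => ?_)
  obtain ⟨h1, h2⟩ := mem_inter.1 hx
  obtain ⟨hxR, w, _, hr, hu⟩ := mem_m1c.1 h1
  refine ⟨w, mem_inter.2 ⟨m1c_reach h1 hr, m1c_reach h2 hr⟩, (reach_comp hxR hr).mono ?_, hu⟩
  intro y hy
  exact mem_inter.2 ⟨m1c_reach h1 (mem_comp.1 hy).2, m1c_reach h2 (mem_comp.1 hy).2⟩

theorem m1c_touch {R W W' : Finset V} {x : V} (h1 : x ∈ m1c G R W) (h2 : x ∈ m1c G R W') :
    Touch G (W ∪ (m1c G R W ∩ m1c G R W')) W' := by
  obtain ⟨_, w, _, hr, u, hu, ha⟩ := mem_m1c.1 h2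
  exact ⟨w, mem_union_right _ (mem_inter.2 ⟨m1c_reach h1 hr, m1c_reach h2 hr⟩), u, hu, ha⟩

theorem m1c_comp_touch {R W : Finset V} {x : V} (h : x ∈ m1c G R W) :
    Touch G (comp G R x) W := by
  obtain ⟨_, w, hw, hr, u, hu, ha⟩ := mem_m1c.1 h
  exact ⟨w, mem_comp.2 ⟨hw, hr⟩, u, hu, ha⟩

theorem m1c_join {S R W W' : Finset V} {a b : V} (hS : ∀ y ∈ S, y ∈ W ∨ y ∈ W' ∨ y ∈ R)
    (d : Disjoint W W') (dR : Disjoint R W') (ha : a ∈ W) (hb : b ∈ W') (h : Reach G S a b) :
    Touch G (W ∪ (m1c G R W ∩ m1c G R W')) W' := by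
  by_contra hn
  have := Reach.closed (fun y => y ∈ W ∨ y ∈ m1c G R W) (fun x y _ hy hxy hx => by
    rcases hS y hy with hy | hy | hy
    · exact Or.inl hy
    · exfalso
      rcases hx with hx | hx
      · exact hn ⟨x, mem_union_left _ hx, y, hy, hxy⟩
      · exact hn (m1c_touch hx (mem_m1c.2 ⟨m1c_subset _ _ hx, x, m1c_subset _ _ hx,
          Reach.refl _ _, y, hy, hxy⟩))
    · right
      rcases hx with hx | hx
      · exact mem_m1c.2 ⟨hy, y, hy, Reach.refl _ _, x, hx, hxy.symm⟩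
      · exact m1c_reach hx (Reach.single (m1c_subset _ _ hx) hy hxy)) h (Or.inl ha)
  rcases this with h | h
  · exact disjoint_left.1 d h hb
  · exact disjoint_left.1 dR (m1c_subset _ _ h) hb

theorem m1 (hG : MinorFree G) {H O W1 W2 W3 : Finset V} {v a1 a2 a3 : V} (hO : Conn G O)
    (hOH : Disjoint O H) (hv : v ∈ H) (hvO : ∃ o ∈ O, G.Adj v o)
    (s1 : W1 ⊆ H.erase v) (s2 : W2 ⊆ H.erase v) (s3 : W3 ⊆ H.erase v)
    (c1 : Conn G W1) (c2 : Conn G W2) (c3 : Conn G W3)
    (d12 : Disjoint W1 W2) (d13 : Disjoint W1 W3) (d23 : Disjoint W2 W3)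
    (t1 : ∃ w ∈ W1, G.Adj v w) (t2 : ∃ w ∈ W2, G.Adj v w) (t3 : ∃ w ∈ W3, G.Adj v w)
    (o1 : Touch G W1 O) (o2 : Touch G W2 O) (o3 : Touch G W3 O)
    (h1 : a1 ∈ W1) (h2 : a2 ∈ W2) (h3 : a3 ∈ W3) :
    ¬ Reach G (H \ insert v W1) a2 a3 ∨ ¬ Reach G (H \ insert v W2) a1 a3 ∨
      ¬ Reach G (H \ insert v W3) a1 a2 := by
  by_contra hn
  push Not at hn
  obtain ⟨r1, r2, r3⟩ := hn
  set R := H.erase v \ (W1 ∪ W2 ∪ W3) with hR
  have mR : ∀ y, y ∈ R ↔ (y ≠ v ∧ y ∈ H) ∧ y ∉ W1 ∧ y ∉ W2 ∧ y ∉ W3 := fun y => by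
    simp only [hR, mem_sdiff, mem_erase, mem_union, not_or, and_assoc]
  have sR : R ⊆ H.erase v := sdiff_subset
  have dR1 : Disjoint R W1 := disjoint_left.2 fun y hy => ((mR y).1 hy).2.1
  have dR2 : Disjoint R W2 := disjoint_left.2 fun y hy => ((mR y).1 hy).2.2.1
  have dR3 : Disjoint R W3 := disjoint_left.2 fun y hy => ((mR y).1 hy).2.2.2
  have dO : ∀ A, A ⊆ H.erase v → Disjoint O A := fun A hA =>
    hOH.mono_right (hA.trans (erase_subset _ _))
  have dv : ∀ A, A ⊆ H.erase v → Disjoint {v} A := fun A hA =>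
    disjoint_singleton_left.2 fun h => (mem_erase.1 (hA h)).1 rfl
  have dOv : Disjoint O {v} := hOH.mono_right (singleton_subset_iff.2 hv)
  by_cases hx : ∃ x, x ∈ m1c G R W1 ∧ x ∈ m1c G R W2 ∧ x ∈ m1c G R W3
  · obtain ⟨x, x1, x2, x3⟩ := hx
    have sc := comp_subset (G := G) R x
    exact hG.no_k33 hO (conn_singleton v) (conn_comp (m1c_subset _ _ x1)) c1 c2 c3
      dOv (dO _ (sc.trans sR)) (dO _ s1) (dO _ s2) (dO _ s3)
      (dv _ (sc.trans sR)) (dv _ s1) (dv _ s2) (dv _ s3)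
      (dR1.mono_left sc) (dR2.mono_left sc) (dR3.mono_left sc) d12 d13 d23
      o1.symm o2.symm o3.symm (touch_left.2 t1) (touch_left.2 t2) (touch_left.2 t3)
      (m1c_comp_touch x1) (m1c_comp_touch x2) (m1c_comp_touch x3)
  · push Not at hx
    have sub : ∀ W W' : Finset V, W ⊆ H.erase v →
        W ∪ (m1c G R W ∩ m1c G R W') ⊆ H.erase v := fun W W' hW =>
      union_subset hW ((inter_subset_left.trans (m1c_subset _ _)).trans sR)
    have dd : ∀ W W' A B : Finset V, Disjoint W W' → Disjoint R W → Disjoint R W' → A ⊆ R →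
        B ⊆ R → Disjoint A B → Disjoint (W ∪ A) (W' ∪ B) := fun W W' A B e1 e2 e3 e4 e5 e6 =>
      disjoint_union_left.2 ⟨disjoint_union_right.2 ⟨e1, (e2.mono_left e5).symm⟩,
        disjoint_union_right.2 ⟨e3.mono_left e4, e6⟩⟩
    have si : ∀ W W' : Finset V, m1c G R W ∩ m1c G R W' ⊆ R := fun W W' =>
      inter_subset_left.trans (m1c_subset _ _)
    have j12 := m1c_join (R := R) (fun y hy => by
      simp only [mem_sdiff, mem_insert, not_or] at hy
      rw [mR]; tauto) d12 dR2 h1 h2 r3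
    have j23 := m1c_join (R := R) (fun y hy => by
      simp only [mem_sdiff, mem_insert, not_or] at hy
      rw [mR]; tauto) d23 dR3 h2 h3 r1
    have j31 := m1c_join (R := R) (fun y hy => by
      simp only [mem_sdiff, mem_insert, not_or] at hy
      rw [mR]; tauto) d13.symm dR1 h3 h1 r2.symm
    refine hG.no_k5 hO (conn_singleton v) (m1c_conn (R := R) (W' := W2) c1)
      (m1c_conn (R := R) (W' := W3) c2) (m1c_conn (R := R) (W' := W1) c3)
      dOv (dO _ (sub _ _ s1)) (dO _ (sub _ _ s2)) (dO _ (sub _ _ s3))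
      (dv _ (sub _ _ s1)) (dv _ (sub _ _ s2)) (dv _ (sub _ _ s3))
      (dd _ _ _ _ d12 dR1 dR2 (si _ _) (si _ _) ?_) (dd _ _ _ _ d13 dR1 dR3 (si _ _) (si _ _) ?_)
      (dd _ _ _ _ d23 dR2 dR3 (si _ _) (si _ _) ?_)
      (touch_left.2 hvO).symm (o1.symm.mono Subset.rfl subset_union_left)
      (o2.symm.mono Subset.rfl subset_union_left) (o3.symm.mono Subset.rfl subset_union_left)
      ((touch_left.2 t1).mono Subset.rfl subset_union_left)
      ((touch_left.2 t2).mono Subset.rfl subset_union_left)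
      ((touch_left.2 t3).mono Subset.rfl subset_union_left)
      (j12.mono Subset.rfl subset_union_left) (j31.mono Subset.rfl subset_union_left).symm
      (j23.mono Subset.rfl subset_union_left)
    · exact disjoint_left.2 fun y a b =>
        hx y (mem_inter.1 a).1 (mem_inter.1 a).2 (mem_inter.1 b).2
    · exact disjoint_left.2 fun y a b =>
        hx y (mem_inter.1 a).1 (mem_inter.1 a).2 (mem_inter.1 b).1
    · exact disjoint_left.2 fun y a b =>
        hx y (mem_inter.1 b).2 (mem_inter.1 a).1 (mem_inter.1 a).2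

theorem m1_single (hG : MinorFree G) {H O : Finset V} {r : V → ℕ} (hA : Apex G H r O)
    {v b1 b2 b3 : V} (hv : v ∈ H) (h1 : b1 ∈ H) (h2 : b2 ∈ H) (h3 : b3 ∈ H)
    (rv : 0 < r v) (r1 : 0 < r b1) (r2 : 0 < r b2) (r3 : 0 < r b3)
    (a1 : G.Adj v b1) (a2 : G.Adj v b2) (a3 : G.Adj v b3)
    (n12 : b1 ≠ b2) (n13 : b1 ≠ b3) (n23 : b2 ≠ b3) :
    ¬ Reach G (H \ {v, b1}) b2 b3 ∨ ¬ Reach G (H \ {v, b2}) b1 b3 ∨
      ¬ Reach G (H \ {v, b3}) b1 b2 :=
  m1 hG hA.1 hA.2.1 hv (hA.2.2 v hv rv)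
    (singleton_subset_iff.2 (mem_erase.2 ⟨a1.ne', h1⟩))
    (singleton_subset_iff.2 (mem_erase.2 ⟨a2.ne', h2⟩))
    (singleton_subset_iff.2 (mem_erase.2 ⟨a3.ne', h3⟩))
    (conn_singleton _) (conn_singleton _) (conn_singleton _)
    (disjoint_singleton.2 n12) (disjoint_singleton.2 n13) (disjoint_singleton.2 n23)
    ⟨b1, mem_singleton_self _, a1⟩ ⟨b2, mem_singleton_self _, a2⟩ ⟨b3, mem_singleton_self _, a3⟩
    (touch_left.2 (hA.2.2 b1 h1 r1)) (touch_left.2 (hA.2.2 b2 h2 r2))
    (touch_left.2 (hA.2.2 b3 h3 r3))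
    (mem_singleton_self _) (mem_singleton_self _) (mem_singleton_self _)

end Pool.Agent.PL5
end

-- merged part: Pool.Agent.Work.MP_db4788_co.Thom
section
/-
Section 2 of the write-up: TH, TH1, CHORD, E0, IN.
-/

set_option autoImplicit false
set_option linter.unusedSectionVars false
open Finset

namespace Pool.Agent.PL5

variable {V : Type} [DecidableEq V] {G : SimpleGraph V} [DecidableRel G.Adj]

/-- the statement of `th` for one vertex set -/
def Thom.TH (G : SimpleGraph V) (m : ℕ) (H : Finset V) : Prop :=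
  ∀ (B A O : Finset V) (L : V → Finset ℕ), Conn G O → Disjoint O H → B ⊆ H →
    (∀ b ∈ B, ∃ o ∈ O, G.Adj b o) → A ⊆ B → A.card ≤ 2 →
    (∀ a ∈ A, ∀ a' ∈ A, a ≠ a' → G.Adj a a' ∧ Disjoint (L a) (L a')) →
    (∀ v ∈ A, m ≤ (L v).card) → (∀ v ∈ B \ A, 3 * m ≤ (L v).card) →
    (∀ v ∈ H \ B, 5 * m ≤ (L v).card) → Col G H L m

/-- colour one vertex first and move it into the apex -/
theorem Thom.del {m : ℕ} {H B A O : Finset V} {L : V → Finset ℕ} {x : V}
    (ih : Thom.TH G m (H.erase x)) (hx : x ∈ H) (hO : Conn G O) (hxO : x ∈ O)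
    (hOH : Disjoint O (H.erase x)) (hB : B ⊆ H.erase x) (hBO : ∀ b ∈ B, ∃ o ∈ O, G.Adj b o)
    (hA : A ⊆ B) (hA2 : A.card ≤ 2)
    (hAc : ∀ a ∈ A, ∀ a' ∈ A, a ≠ a' → G.Adj a a' ∧ Disjoint (L a) (L a'))
    (hxA : ∀ a ∈ A, Disjoint (L x) (L a)) (hxB : ∀ u ∈ B, G.Adj x u → u ∈ A)
    (lx : m ≤ (L x).card)
    (l1 : ∀ v ∈ A, m ≤ (L v).card) (l3 : ∀ v ∈ B \ A, 3 * m ≤ (L v).card)
    (l5 : ∀ v ∈ H.erase x \ B, 5 * m ≤ (L v).card) : Col G H L m := by
  obtain ⟨α, hα, hc⟩ := exists_subset_card_eq lx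
  have hcard : ∀ u, (L u).card ≤ (rem G {x} L (fun _ => α) u).card + deg G {x} u * m :=
    rem_card L (fun _ _ => hc.le)
  obtain ⟨ψ, h1, h2⟩ := ih (B ∪ nbr G (H.erase x) x) A O (rem G {x} L (fun _ => α)) hO hOH
    (union_subset hB (nbr_subset _ _))
    (fun b hb => by
      rcases mem_union.1 hb with hb | hb
      · exact hBO b hb
      · exact ⟨x, hxO, (mem_nbr.1 hb).2.symm⟩)
    (hA.trans subset_union_left) hA2
    (fun a ha a' ha' hne => ⟨(hAc a ha a' ha' hne).1,
      (hAc a ha a' ha' hne).2.mono (rem_subset _ _ _ _) (rem_subset _ _ _ _)⟩)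
    (fun v hv => (l1 v hv).trans (card_le_card fun c hcv => mem_rem.2 ⟨hcv, fun _ _ _ hcα =>
      disjoint_left.1 (hxA v hv) (hα hcα) hcv⟩))
    (fun v hv => by
      obtain ⟨hv1, hv2⟩ := mem_sdiff.1 hv
      have h3 := hcard v
      rw [deg_singleton] at h3
      by_cases hvB : v ∈ B
      · have := l3 v (mem_sdiff.2 ⟨hvB, hv2⟩)
        rw [if_neg (fun h => hv2 (hxB v hvB h.symm))] at h3
        omega
      · have hv3 := (mem_union.1 hv1).resolve_left hvB
        have := l5 v (mem_sdiff.2 ⟨(mem_nbr.1 hv3).1, hvB⟩)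
        split_ifs at h3 <;> omega)
    (fun v hv => by
      obtain ⟨hv1, hv2⟩ := mem_sdiff.1 hv
      have h3 := hcard v
      have := l5 v (mem_sdiff.2 ⟨hv1, fun h => hv2 (mem_union_left _ h)⟩)
      rw [deg_singleton,
        if_neg (fun h => hv2 (mem_union_right _ (mem_nbr.2 ⟨hv1, h.symm⟩)))] at h3
      omega)
  obtain ⟨χ, c1, c2, c3⟩ := glue_rem (disjoint_singleton_left.2 (notMem_erase x H))
    (valid_singleton (φ := fun _ => α) hα) h1
  rw [← insert_eq, insert_erase hx] at c1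
  refine ⟨χ, c1, fun v hv => ?_⟩
  by_cases e : v = x
  · rw [c2 v (mem_singleton.2 e)]
    exact hc.ge
  · rw [c3 v (mem_erase.2 ⟨e, hv⟩)]
    exact h2 v (mem_erase.2 ⟨e, hv⟩)

/-- extension across a chord -/
theorem Thom.ext {m : ℕ} {H B O U : Finset V} {L : V → Finset ℕ} {a b : V}
    (hT : Thom.TH G m (U ∪ {a, b})) (hO : Conn G O) (hOH : Disjoint O H) (hB : B ⊆ H)
    (hBO : ∀ b ∈ B, ∃ o ∈ O, G.Adj b o) (ha : a ∈ B) (hb : b ∈ B) (hab : G.Adj a b)
    (hU : U ⊆ H \ {a, b}) (hn : ∀ u ∈ U, ∀ w ∈ H, G.Adj u w → w ∈ U ∨ w = a ∨ w = b)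
    (l3 : ∀ v ∈ U, v ∈ B → 3 * m ≤ (L v).card) (l5 : ∀ v ∈ U, v ∉ B → 5 * m ≤ (L v).card) :
    Extends G H U L m := by
  intro φ hφ hc
  have hUab : ∀ u ∈ U, u ∉ ({a, b} : Finset V) := fun u hu => (mem_sdiff.1 (hU hu)).2
  have habH : ∀ w ∈ ({a, b} : Finset V), w ∈ B := fun w hw => by
    rcases mem_insert.1 hw with h | h
    · exact h ▸ ha
    · exact mem_singleton.1 h ▸ hb
  have habU : ∀ w ∈ ({a, b} : Finset V), w ∈ H \ U := fun w hw =>
    mem_sdiff.2 ⟨hB (habH w hw), fun h => hUab w h hw⟩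
  have hsub : U ∪ {a, b} ⊆ H :=
    union_subset (hU.trans sdiff_subset) fun w hw => hB (habH w hw)
  obtain ⟨ψ, h1, h2⟩ := hT (B ∩ U ∪ {a, b}) {a, b} O
    (fun v => if v ∈ ({a, b} : Finset V) then φ v else L v) hO (hOH.mono_right hsub)
    (union_subset_union inter_subset_right subset_rfl)
    (fun w hw => by
      rcases mem_union.1 hw with h | h
      · exact hBO w (mem_inter.1 h).1
      · exact hBO w (habH w h))
    subset_union_right card_le_two
    (fun w hw w' hw' hne => by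
      have hadj : G.Adj w w' := by
        simp only [mem_insert, mem_singleton] at hw hw'
        rcases hw with rfl | rfl <;> rcases hw' with rfl | rfl
        · exact absurd rfl hne
        · exact hab
        · exact hab.symm
        · exact absurd rfl hne
      refine ⟨hadj, ?_⟩
      rw [if_pos hw, if_pos hw']
      exact hφ.2 w (habU w hw) w' (habU w' hw') hadj)
    (fun w hw => by
      rw [if_pos hw]
      exact (hc w (habU w hw)).ge)
    (fun w hw => by
      obtain ⟨h3, h4⟩ := mem_sdiff.1 hw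
      have h5 := mem_inter.1 ((mem_union.1 h3).resolve_right h4)
      rw [if_neg h4]
      exact l3 w h5.2 h5.1)
    (fun w hw => by
      obtain ⟨h3, h4⟩ := mem_sdiff.1 hw
      have h5 : w ∉ ({a, b} : Finset V) := fun h => h4 (mem_union_right _ h)
      have h6 := (mem_union.1 h3).resolve_right h5
      rw [if_neg h5]
      exact l5 w h6 fun h => h4 (mem_union_left _ (mem_inter.2 ⟨h, h6⟩)))
  refine ⟨ψ, (h1.mono_set subset_union_left).mono_list fun v hv => ?_,
    fun v hv => h2 v (mem_union_left _ hv), fun u hu w hw huw => ?_⟩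
  · rw [if_neg (hUab v hv)]
  · have hw' : w ∈ ({a, b} : Finset V) := by
      rcases hn u hu w (mem_sdiff.1 hw).1 huw with h | h | h
      · exact absurd h (mem_sdiff.1 hw).2
      · simp [h]
      · simp [h]
    have h3 := h1.1 w (mem_union_right _ hw')
    simp only [if_pos hw'] at h3
    have h4 : ψ w = φ w := eq_of_subset_of_card_le h3
      ((hc w hw).le.trans (h2 w (mem_union_right _ hw')))
    rw [← h4]
    exact h1.2 u (mem_union_left _ hu) w (mem_union_right _ hw') huw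

/-- a chord that separates -/
theorem Thom.side {m : ℕ} {H B A O U : Finset V} {L : V → Finset ℕ} {a b x y : V}
    (ih : ∀ H' : Finset V, H'.card < H.card → Thom.TH G m H')
    (hO : Conn G O) (hOH : Disjoint O H) (hB : B ⊆ H) (hBO : ∀ b ∈ B, ∃ o ∈ O, G.Adj b o)
    (hA : A ⊆ B) (hA2 : A.card ≤ 2)
    (hAc : ∀ a ∈ A, ∀ a' ∈ A, a ≠ a' → G.Adj a a' ∧ Disjoint (L a) (L a'))
    (l1 : ∀ v ∈ A, m ≤ (L v).card) (l3 : ∀ v ∈ B \ A, 3 * m ≤ (L v).card)
    (l5 : ∀ v ∈ H \ B, 5 * m ≤ (L v).card) (ha : a ∈ B) (hb : b ∈ B) (hab : G.Adj a b)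
    (hU : U ⊆ H \ {a, b}) (hn : ∀ u ∈ U, ∀ w ∈ H, G.Adj u w → w ∈ U ∨ w = a ∨ w = b)
    (hx : x ∈ U) (hy : y ∈ H \ {a, b}) (hyU : y ∉ U) (hAU : ∀ v ∈ A, v ∉ U) :
    Col G H L m := by
  have hUH : U ⊆ H := hU.trans sdiff_subset
  refine col_of_extends hUH ?_ (Thom.ext (ih _ ?_) hO hOH hB hBO ha hb hab hU hn
    (fun v hv hvB => l3 v (mem_sdiff.2 ⟨hvB, fun h => hAU v h hv⟩))
    (fun v hv hvB => l5 v (mem_sdiff.2 ⟨hUH hv, hvB⟩)))
  · refine ih (H \ U) (card_lt_card (ssubset_iff_of_subset sdiff_subset |>.2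
      ⟨x, hUH hx, fun h => (mem_sdiff.1 h).2 hx⟩)) (B \ U) A O L hO
      (hOH.mono_right sdiff_subset) (sdiff_subset_sdiff hB subset_rfl)
      (fun w hw => hBO w (mem_sdiff.1 hw).1) (fun v hv => mem_sdiff.2 ⟨hA hv, hAU v hv⟩) hA2 hAc
      l1 (fun v hv => l3 v ?_) (fun v hv => l5 v ?_)
    · simp only [mem_sdiff] at hv ⊢
      tauto
    · simp only [mem_sdiff] at hv ⊢
      tauto
  · refine card_lt_card ((ssubset_iff_of_subset (union_subset hUH ?_)).2
      ⟨y, (mem_sdiff.1 hy).1, fun h => ?_⟩)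
    · exact insert_subset (hB ha) (singleton_subset_iff.2 (hB hb))
    · rcases mem_union.1 h with h | h
      · exact hyU h
      · exact (mem_sdiff.1 hy).2 h

theorem Thom.sep {m : ℕ} {H B A O : Finset V} {L : V → Finset ℕ} {a b x y : V}
    (ih : ∀ H' : Finset V, H'.card < H.card → Thom.TH G m H')
    (hO : Conn G O) (hOH : Disjoint O H) (hB : B ⊆ H) (hBO : ∀ b ∈ B, ∃ o ∈ O, G.Adj b o)
    (hA : A ⊆ B) (hA2 : A.card ≤ 2)
    (hAc : ∀ a ∈ A, ∀ a' ∈ A, a ≠ a' → G.Adj a a' ∧ Disjoint (L a) (L a'))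
    (l1 : ∀ v ∈ A, m ≤ (L v).card) (l3 : ∀ v ∈ B \ A, 3 * m ≤ (L v).card)
    (l5 : ∀ v ∈ H \ B, 5 * m ≤ (L v).card) (ha : a ∈ B) (hb : b ∈ B) (hab : G.Adj a b)
    (hx : x ∈ H \ {a, b}) (hy : y ∈ H \ {a, b}) (hxy : ¬ Reach G (H \ {a, b}) x y) :
    Col G H L m := by
  have hyc : y ∉ comp G (H \ {a, b}) x := fun h => hxy (mem_comp.1 h).2
  have hout : ∀ w ∈ H, w ∈ H \ {a, b} ∨ w = a ∨ w = b := fun w hw => by
    simp only [mem_sdiff, mem_insert, mem_singleton]
    tauto
  by_cases hz : ∃ z ∈ A, z ∈ comp G (H \ {a, b}) x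
  · obtain ⟨z, hzA, hz⟩ := hz
    refine Thom.side (U := (H \ {a, b}) \ comp G (H \ {a, b}) x) ih hO hOH hB hBO hA hA2 hAc
      l1 l3 l5 ha hb hab sdiff_subset (fun u hu w hw huw => ?_) (mem_sdiff.2 ⟨hy, hyc⟩) hx
      (fun h => (mem_sdiff.1 h).2 (self_mem_comp hx)) (fun v hv h => ?_)
    · refine (hout w hw).imp_left fun h => mem_sdiff.2 ⟨h, fun h' => ?_⟩
      exact (mem_sdiff.1 hu).2 (comp_closed h' (mem_sdiff.1 hu).1 huw.symm)
    · by_cases e : z = v
      · exact (mem_sdiff.1 h).2 (e ▸ hz)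
      · exact (mem_sdiff.1 h).2 (comp_closed hz (mem_sdiff.1 h).1 (hAc z hzA v hv e).1)
  · refine Thom.side (U := comp G (H \ {a, b}) x) ih hO hOH hB hBO hA hA2 hAc
      l1 l3 l5 ha hb hab (comp_subset _ _) (fun u hu w hw huw => ?_) (self_mem_comp hx) hy hyc
      (fun v hv h => hz ⟨v, hv, h⟩)
    exact (hout w hw).imp_left fun h => comp_closed hu h huw

/-- delete a root all of whose boundary neighbours are roots -/
theorem Thom.root {m : ℕ} {H B A O : Finset V} {L : V → Finset ℕ} {x : V}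
    (ih : ∀ H' : Finset V, H'.card < H.card → Thom.TH G m H')
    (hO : Conn G O) (hOH : Disjoint O H) (hB : B ⊆ H) (hBO : ∀ b ∈ B, ∃ o ∈ O, G.Adj b o)
    (hA : A ⊆ B) (hA2 : A.card ≤ 2)
    (hAc : ∀ a ∈ A, ∀ a' ∈ A, a ≠ a' → G.Adj a a' ∧ Disjoint (L a) (L a'))
    (l1 : ∀ v ∈ A, m ≤ (L v).card) (l3 : ∀ v ∈ B \ A, 3 * m ≤ (L v).card)
    (l5 : ∀ v ∈ H \ B, 5 * m ≤ (L v).card) (hx : x ∈ A)
    (hxB : ∀ u ∈ B, G.Adj x u → u ∈ A) : Col G H L m := by
  have hxH := hB (hA hx)
  obtain ⟨o, ho, hxo⟩ := hBO x (hA hx)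
  refine Thom.del (B := B.erase x) (A := A.erase x) (O := insert x O)
    (ih _ (card_erase_lt_of_mem hxH)) hxH (hO.insert ho hxo) (mem_insert_self _ _) ?_
    (erase_subset_erase _ hB) (fun b hb => ?_) (erase_subset_erase _ hA)
    (card_erase_le.trans hA2)
    (fun a ha a' ha' => hAc a (mem_of_mem_erase ha) a' (mem_of_mem_erase ha'))
    (fun a ha => (hAc x hx a (mem_of_mem_erase ha) (ne_of_mem_erase ha).symm).2)
    (fun u hu h => mem_erase.2 ⟨ne_of_mem_erase hu, hxB u (mem_of_mem_erase hu) h⟩)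
    (l1 x hx) (fun v hv => l1 v (mem_of_mem_erase hv)) (fun v hv => l3 v ?_)
    (fun v hv => l5 v ?_)
  · rw [disjoint_insert_left]
    exact ⟨notMem_erase _ _, hOH.mono_right (erase_subset _ _)⟩
  · obtain ⟨o', ho', h⟩ := hBO b (mem_of_mem_erase hb)
    exact ⟨o', mem_insert_of_mem ho', h⟩
  · simp only [mem_sdiff, mem_erase] at hv ⊢
    tauto
  · simp only [mem_sdiff, mem_erase] at hv ⊢
    tauto

/-- the case of two roots -/
theorem Thom.two (hG : MinorFree G) {m : ℕ} {H B O : Finset V} {L : V → Finset ℕ} {v1 v2 : V}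
    (ih : ∀ H' : Finset V, H'.card < H.card → Thom.TH G m H')
    (hO : Conn G O) (hOH : Disjoint O H) (hB : B ⊆ H) (hBO : ∀ b ∈ B, ∃ o ∈ O, G.Adj b o)
    (h1 : v1 ∈ B) (h2 : v2 ∈ B) (h12 : G.Adj v1 v2) (hd : Disjoint (L v1) (L v2))
    (l11 : m ≤ (L v1).card) (l12 : m ≤ (L v2).card)
    (l3 : ∀ v ∈ B, v ≠ v1 → v ≠ v2 → 3 * m ≤ (L v).card)
    (l5 : ∀ v ∈ H \ B, 5 * m ≤ (L v).card) : Col G H L m := by
  have hA : ({v1, v2} : Finset V) ⊆ B := insert_subset h1 (singleton_subset_iff.2 h2)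
  have hAc : ∀ L' : V → Finset ℕ, Disjoint (L' v1) (L' v2) → ∀ a ∈ ({v1, v2} : Finset V),
      ∀ a' ∈ ({v1, v2} : Finset V), a ≠ a' → G.Adj a a' ∧ Disjoint (L' a) (L' a') := by
    intro L' hd' a ha a' ha' hne
    simp only [mem_insert, mem_singleton] at ha ha'
    rcases ha with rfl | rfl <;> rcases ha' with rfl | rfl
    · exact absurd rfl hne
    · exact ⟨h12, hd'⟩
    · exact ⟨h12.symm, hd'.symm⟩
    · exact absurd rfl hne
  have l1 : ∀ v ∈ ({v1, v2} : Finset V), m ≤ (L v).card := by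
    intro v hv
    simp only [mem_insert, mem_singleton] at hv
    rcases hv with rfl | rfl <;> assumption
  have l3' : ∀ v ∈ B \ ({v1, v2} : Finset V), 3 * m ≤ (L v).card := by
    intro v hv
    simp only [mem_sdiff, mem_insert, mem_singleton, not_or] at hv
    exact l3 v hv.1 hv.2.1 hv.2.2
  by_cases hs : ∃ a ∈ B, ∃ b ∈ B, G.Adj a b ∧ ∃ x ∈ H \ {a, b}, ∃ y ∈ H \ {a, b},
      ¬ Reach G (H \ {a, b}) x y
  · obtain ⟨a, ha, b, hb, hab, x, hx, y, hy, hxy⟩ := hs
    exact Thom.sep ih hO hOH hB hBO hA card_le_two (hAc L hd) l1 l3' l5 ha hb hab hx hy hxy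
  push Not at hs
  by_cases hr : ∀ u ∈ B, G.Adj v1 u → u ∈ ({v1, v2} : Finset V)
  · exact Thom.root ih hO hOH hB hBO hA card_le_two (hAc L hd) l1 l3' l5
      (mem_insert_self _ _) hr
  push Not at hr
  obtain ⟨v3, h3, h13, h3A⟩ := hr
  simp only [mem_insert, mem_singleton, not_or] at h3A
  have hN : ((nbr G B v3).erase v1).card ≤ 1 := by
    rw [card_le_one]
    intro w hw w' hw'
    by_contra hne
    obtain ⟨n1, hw⟩ := mem_erase.1 hw
    obtain ⟨n2, hw'⟩ := mem_erase.1 hw'
    obtain ⟨b1, a1⟩ := mem_nbr.1 hw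
    obtain ⟨b2, a2⟩ := mem_nbr.1 hw'
    have hAp : Apex G H (fun v => if v ∈ B then 1 else 0) O :=
      ⟨hO, hOH, fun v _ hv => hBO v (by
        by_contra h
        simp [h] at hv)⟩
    have e1 := a1.ne
    have e2 := a2.ne
    have e3 := h13.ne
    rcases m1_single hG hAp (hB h3) (hB h1) (hB b1) (hB b2) (by simp [h3]) (by simp [h1])
      (by simp [b1]) (by simp [b2]) h13.symm a1 a2 n1.symm n2.symm hne with h | h | h
    · exact h (hs v3 h3 v1 h1 h13.symm w (by simp [hB b1, e1.symm, n1]) w'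
        (by simp [hB b2, e2.symm, n2]))
    · exact h (hs v3 h3 w b1 a1 v1 (by simp [hB h1, e3, n1.symm]) w'
        (by simp [hB b2, e2.symm, Ne.symm hne]))
    · exact h (hs v3 h3 w' b2 a2 v1 (by simp [hB h1, e3, n2.symm]) w
        (by simp [hB b1, e1.symm, hne]))
  obtain ⟨α, hα, hαc⟩ := exists_subset_card_eq l11
  obtain ⟨R, hR, hRc, hRα⟩ := avoid (L v3) α (2 * m)
    (by have := l3 v3 h3 h3A.1 h3A.2; omega)
  obtain ⟨L', hL'⟩ : ∃ L' : V → Finset ℕ, L' = fun u => if u = v3 then R else if u = v1 then α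
      else if u ∉ B ∧ G.Adj v3 u then L u \ R else L u := ⟨_, rfl⟩
  have e3 : L' v3 = R := by simp [hL']
  have e1 : L' v1 = α := by simp [hL', h13.ne]
  have eB : ∀ u ∈ B, u ≠ v1 → u ≠ v3 → L' u = L u := fun u hu n1 n3 => by simp [hL', hu, n1, n3]
  have eN : ∀ u, u ∉ B → G.Adj v3 u → L' u = L u \ R := fun u hu a => by
    have n1 : u ≠ v1 := fun e => hu (e ▸ h1)
    have n3 : u ≠ v3 := fun e => hu (e ▸ h3)
    simp [hL', hu, n1, n3, a]
  have eF : ∀ u, u ∉ B → ¬ G.Adj v3 u → L' u = L u := fun u hu a => by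
    have n1 : u ≠ v1 := fun e => hu (e ▸ h1)
    have n3 : u ≠ v3 := fun e => hu (e ▸ h3)
    simp [hL', n1, n3, a]
  have hsub : ∀ u, L' u ⊆ L u := fun u => by
    simp only [hL']
    split_ifs with c1 c2 c3
    · exact c1 ▸ hR
    · exact c2 ▸ hα
    · exact sdiff_subset
    · exact subset_rfl
  have e2 : L' v2 = L v2 := eB v2 h2 h12.ne.symm (Ne.symm h3A.2)
  obtain ⟨o, ho, h3o⟩ := hBO v3 h3
  have hcol := ih (H.erase v3) (card_erase_lt_of_mem (hB h3))
    (B.erase v3 ∪ nbr G (H.erase v3) v3) {v1, v2} (insert v3 O) L' (hO.insert ho h3o)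
    (by
      rw [disjoint_insert_left]
      exact ⟨notMem_erase _ _, hOH.mono_right (erase_subset _ _)⟩)
    (union_subset (erase_subset_erase _ hB) (nbr_subset _ _))
    (fun b hb => by
      rcases mem_union.1 hb with hb | hb
      · obtain ⟨o', ho', h⟩ := hBO b (mem_of_mem_erase hb)
        exact ⟨o', mem_insert_of_mem ho', h⟩
      · exact ⟨v3, mem_insert_self _ _, (mem_nbr.1 hb).2.symm⟩)
    (insert_subset (mem_union_left _ (mem_erase.2 ⟨Ne.symm h3A.1, h1⟩))
      (singleton_subset_iff.2 (mem_union_left _ (mem_erase.2 ⟨Ne.symm h3A.2, h2⟩))))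
    card_le_two (hAc L' (hd.mono (hsub _) (hsub _)))
    (fun v hv => by
      simp only [mem_insert, mem_singleton] at hv
      rcases hv with rfl | rfl
      · rw [e1, hαc]
      · rw [e2]
        exact l12)
    (fun v hv => by
      simp only [mem_sdiff, mem_union, mem_erase, mem_nbr, mem_insert, mem_singleton,
        not_or] at hv
      by_cases hvB : v ∈ B
      · rw [eB v hvB hv.2.1 (by tauto)]
        exact l3 v hvB hv.2.1 hv.2.2
      · have h5 := l5 v (mem_sdiff.2 ⟨by tauto, hvB⟩)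
        rw [eN v hvB (by tauto)]
        have := le_card_sdiff R (L v)
        omega)
    (fun v hv => by
      simp only [mem_sdiff, mem_union, mem_erase, mem_nbr, not_or] at hv
      have hvB : v ∉ B := by tauto
      rw [eF v hvB (by tauto)]
      exact l5 v (mem_sdiff.2 ⟨hv.1.2, hvB⟩))
  obtain ⟨φ, p1, p2⟩ := hcol.exact
  obtain ⟨χ, c1, c2, c3⟩ := greedy (N := (nbr G B v3).erase v1) (m := m) (t := m)
    (notMem_erase v3 H) p1
    (fun u hu => by
      obtain ⟨b1, a1⟩ := mem_nbr.1 (mem_of_mem_erase hu)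
      exact (p2 u (mem_erase.2 ⟨a1.ne.symm, hB b1⟩)).le)
    (fun w hw a hwN => by
      rw [e3]
      have hw' := p1.1 w hw
      by_cases c : w = v1
      · rw [c, e1] at hw'
        rw [c]
        exact hRα.mono_right hw'
      · have hwB : w ∉ B := fun h => hwN (mem_erase.2 ⟨c, mem_nbr.2 ⟨h, a⟩⟩)
        rw [eN w hwB a] at hw'
        exact disjoint_sdiff.mono_right hw')
    (by
      rw [e3, hRc]
      have := Nat.mul_le_mul_right m hN
      omega)
  rw [insert_erase (hB h3)] at c1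
  refine ⟨χ, c1.mono_list fun v _ => hsub v, fun v hv => ?_⟩
  by_cases e : v = v3
  · rw [e, c3]
  · rw [c2 v (mem_erase.2 ⟨e, hv⟩), p2 v (mem_erase.2 ⟨e, hv⟩)]

/-- the case of one root -/
theorem Thom.one (hG : MinorFree G) {m : ℕ} {H B O : Finset V} {L : V → Finset ℕ} {v1 : V}
    (ih : ∀ H' : Finset V, H'.card < H.card → Thom.TH G m H')
    (hO : Conn G O) (hOH : Disjoint O H) (hB : B ⊆ H) (hBO : ∀ b ∈ B, ∃ o ∈ O, G.Adj b o)
    (h1 : v1 ∈ B) (l11 : m ≤ (L v1).card) (l3 : ∀ v ∈ B, v ≠ v1 → 3 * m ≤ (L v).card)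
    (l5 : ∀ v ∈ H \ B, 5 * m ≤ (L v).card) : Col G H L m := by
  by_cases hr : ∀ u ∈ B, G.Adj v1 u → u ∈ ({v1} : Finset V)
  · exact Thom.root ih hO hOH hB hBO (singleton_subset_iff.2 h1) (by simp) (by simp)
      (by simpa using l11) (by simpa using l3) l5 (mem_singleton_self _) hr
  push Not at hr
  obtain ⟨v2, h2, h12, -⟩ := hr
  obtain ⟨α, hα, hαc⟩ := exists_subset_card_eq l11
  obtain ⟨L', hL'⟩ : ∃ L' : V → Finset ℕ, L' = fun u => if u = v1 then α
      else if u = v2 then L v2 \ α else L u := ⟨_, rfl⟩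
  have e1 : L' v1 = α := by simp [hL']
  have e2 : L' v2 = L v2 \ α := by simp [hL', h12.ne.symm]
  have e3 : ∀ u, u ≠ v1 → u ≠ v2 → L' u = L u := fun u n1 n2 => by simp [hL', n1, n2]
  refine (Thom.two hG (L := L') ih hO hOH hB hBO h1 h2 h12 ?_ ?_ ?_ (fun v hv n1 n2 => ?_)
    (fun v hv => ?_)).mono_list fun u _ => ?_
  · rw [e1, e2]
    exact disjoint_sdiff
  · rw [e1, hαc]
  · have := l3 v2 h2 h12.ne.symm
    have := le_card_sdiff α (L v2)
    rw [e2]
    omega
  · rw [e3 v n1 n2]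
    exact l3 v hv n1
  · rw [e3 v (fun e => (mem_sdiff.1 hv).2 (e ▸ h1)) (fun e => (mem_sdiff.1 hv).2 (e ▸ h2))]
    exact l5 v hv
  · simp only [hL']
    split_ifs with c1 c2
    · exact c1 ▸ hα
    · exact c2 ▸ sdiff_subset
    · exact subset_rfl

theorem Thom.all (hG : MinorFree G) (m : ℕ) (H : Finset V) : Thom.TH G m H := by
  induction hn : H.card using Nat.strong_induction_on generalizing H with
  | _ n ihn =>
  have ih : ∀ H' : Finset V, H'.card < H.card → Thom.TH G m H' :=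
    fun H' h => ihn _ (hn ▸ h) H' rfl
  intro B A O L hO hOH hB hBO hA hA2 hAc l1 l3 l5
  have hc : A.card = 0 ∨ A.card = 1 ∨ A.card = 2 := by omega
  rcases hc with hc | hc | hc
  · rw [card_eq_zero] at hc
    subst hc
    rcases B.eq_empty_or_nonempty with rfl | ⟨v, hv⟩
    · rcases H.eq_empty_or_nonempty with rfl | ⟨x, hx⟩
      · exact col_empty L m
      · have := l5 x (by simpa using hx)
        exact Thom.del (B := ∅) (A := ∅) (O := {x}) (ih _ (card_erase_lt_of_mem hx)) hx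
          (conn_singleton x) (mem_singleton_self x) (by simp) (by simp) (by simp) (by simp)
          (by simp) (by simp) (by simp) (by simp) (by omega) (by simp) (by simp)
          (fun v hv => l5 v (by simpa using (mem_erase.1 (mem_sdiff.1 hv).1).2))
    · have := l3 v (by simpa using hv)
      exact Thom.one hG ih hO hOH hB hBO hv (by omega)
        (fun u hu _ => l3 u (by simpa using hu)) l5
  · obtain ⟨v, rfl⟩ := card_eq_one.1 hc
    exact Thom.one hG ih hO hOH hB hBO (hA (mem_singleton_self v)) (l1 v (mem_singleton_self v))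
      (fun u hu n => l3 u (by simp [hu, n])) l5
  · obtain ⟨v1, v2, hne, rfl⟩ := card_eq_two.1 hc
    have h := hAc v1 (by simp) v2 (by simp) hne
    exact Thom.two hG ih hO hOH hB hBO (hA (by simp)) (hA (by simp)) h.1 h.2 (l1 v1 (by simp))
      (l1 v2 (by simp)) (fun u hu n1 n2 => l3 u (by simp [hu, n1, n2])) l5

theorem th (hG : MinorFree G) (m : ℕ) (H B A O : Finset V) (L : V → Finset ℕ)
    (hO : Conn G O) (hOH : Disjoint O H) (hB : B ⊆ H) (hBO : ∀ b ∈ B, ∃ o ∈ O, G.Adj b o)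
    (hA : A ⊆ B) (hA2 : A.card ≤ 2)
    (hAc : ∀ a ∈ A, ∀ a' ∈ A, a ≠ a' → G.Adj a a' ∧ Disjoint (L a) (L a'))
    (l1 : ∀ v ∈ A, m ≤ (L v).card) (l3 : ∀ v ∈ B \ A, 3 * m ≤ (L v).card)
    (l5 : ∀ v ∈ H \ B, 5 * m ≤ (L v).card) : Col G H L m := by
  exact Thom.all hG m H B A O L hO hOH hB hBO hA hA2 hAc l1 l3 l5

theorem th1 (hG : MinorFree G) {H O : Finset V} {r : V → ℕ} (hA : Apex G H r O) (u0 : V)
    (hr : ∀ u ∈ H, r u ≤ 2 ∨ (u = u0 ∧ r u ≤ 4)) (m : ℕ) : Choosable G H r m := by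
  intro L hL
  refine th hG m H (H.filter fun v => 0 < r v) ((H.filter fun v => 0 < r v).filter (· = u0)) O L
    hA.1 hA.2.1 (filter_subset _ _)
    (fun b hb => hA.2.2 b (mem_filter.1 hb).1 (mem_filter.1 hb).2) (filter_subset _ _)
    ((card_le_one.2 fun a ha b hb => (mem_filter.1 ha).2.trans (mem_filter.1 hb).2.symm).trans
      (by omega))
    (fun a ha b hb hne => absurd ((mem_filter.1 ha).2.trans (mem_filter.1 hb).2.symm) hne)
    (fun v hv => ?_) (fun v hv => ?_) (fun v hv => ?_)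
  · have hvH := (mem_filter.1 (mem_filter.1 hv).1).1
    have h1 := hL v hvH
    have h2 : r v * m ≤ 4 * m := Nat.mul_le_mul_right m (by have := hr v hvH; omega)
    omega
  · simp only [mem_sdiff, mem_filter] at hv
    have h1 := hL v hv.1.1
    have h2 : r v * m ≤ 2 * m := Nat.mul_le_mul_right m (by have := hr v hv.1.1; tauto)
    omega
  · simp only [mem_sdiff, mem_filter] at hv
    have h1 := hL v hv.1
    have h2 : r v = 0 := by
      by_contra h
      exact hv.2 ⟨hv.1, by omega⟩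
    rw [h2] at h1
    omega

theorem chord_extends (hG : MinorFree G) {H O U : Finset V} {r : V → ℕ} {m : ℕ}
    {L : V → Finset ℕ} {a b : V} (hA : Apex G H r O) (hr : ∀ u ∈ H, r u ≤ 2)
    (ha : a ∈ H) (hb : b ∈ H) (hab : G.Adj a b) (ra : 0 < r a) (rb : 0 < r b)
    (hU : U ⊆ H \ {a, b}) (hn : ∀ u ∈ U, ∀ w ∈ H, G.Adj u w → w ∈ U ∨ w = a ∨ w = b)
    (hL : Lists H r m L) : Extends G H U L m := by
  have hUH : U ⊆ H := hU.trans sdiff_subset
  refine Thom.ext (B := H.filter fun v => 0 < r v) (Thom.all hG m _) hA.1 hA.2.1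
    (filter_subset _ _) (fun b hb => hA.2.2 b (mem_filter.1 hb).1 (mem_filter.1 hb).2)
    (mem_filter.2 ⟨ha, ra⟩) (mem_filter.2 ⟨hb, rb⟩) hab hU hn (fun v hv _ => ?_)
    (fun v hv hvB => ?_)
  · have h1 := hL v (hUH hv)
    have h2 : r v * m ≤ 2 * m := Nat.mul_le_mul_right m (hr v (hUH hv))
    omega
  · have h1 := hL v (hUH hv)
    have h2 : r v = 0 := by
      by_contra h
      exact hvB (mem_filter.2 ⟨hUH hv, by omega⟩)
    rw [h2] at h1
    omega

theorem e0 (hG : MinorFree G) {H O : Finset V} {r : V → ℕ} (hA : Apex G H r O)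
    (hr : ∀ v ∈ H, r v ≤ 4) (hd : ∀ T ⊆ H, dfc G r T ≤ 2) (m : ℕ) : Choosable G H r m := by
  induction hn : H.card using Nat.strong_induction_on generalizing H O r with
  | _ n ih =>
  rcases H.eq_empty_or_nonempty with rfl | hne
  · exact fun L _ => col_empty L m
  obtain ⟨v, hv, hmax⟩ := exists_max_image H r hne
  by_cases h2 : r v ≤ 2
  · exact th1 hG hA v (fun u hu => Or.inl ((hmax u hu).trans h2)) m
  intro L hL
  have hS : ({v} : Finset V) ⊆ H := singleton_subset_iff.2 hv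
  refine col_extend (r' := addDeg G r {v}) hS hL ⟨L, valid_singleton subset_rfl, ?_⟩
    (ih _ ?_ (hA.absorb_addDeg hS (attached_of_pos ?_)) (fun u hu => ?_) (fun T hT => ?_) rfl)
    (fun u _ => le_rfl)
  · intro u hu
    rw [mem_singleton.1 hu]
    have h1 := hL v hv
    have h3 : r v * m ≤ 4 * m := Nat.mul_le_mul_right m (hr v hv)
    omega
  · rw [← hn, sdiff_singleton_eq_erase]
    exact card_erase_lt_of_mem hv
  · intro u hu
    rw [mem_singleton.1 hu]
    omega
  · have huH := (mem_sdiff.1 hu).1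
    have h1 := hr u huH
    have h3 := hmax u huH
    have h4 := hr v hv
    unfold addDeg
    rw [deg_singleton]
    split_ifs with c
    · have h5 := hd {u, v} (insert_subset huH hS)
      rw [dfc_pair r c] at h5
      omega
    · omega
  · have h1 := dfc_union (G := G) r (S := {v}) (T := T) (disjoint_sdiff.mono_right hT)
    have h3 := hd ({v} ∪ T) (union_subset hS (hT.trans sdiff_subset))
    rw [dfc_singleton] at h1
    omega

theorem in_choosable (hG : MinorFree G) {C K : Finset V} (hC : Conn G C) (h2 : 2 ≤ C.card)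
    (h4 : C.card ≤ 4) (he : 3 * C.card ≤ eg G C + 8) (hd : Disjoint C K) (m : ℕ) :
    Choosable G K (fun v => deg G C v) m := by
  refine e0 hG (O := C) ⟨hC, hd, fun v _ hv => deg_pos.1 hv⟩
    (fun v _ => (deg_le_card C v).trans h4) (fun T hT => ?_) m
  rcases T.eq_empty_or_nonempty with rfl | hne
  · rw [dfc_empty]
    omega
  have hCT : Disjoint C T := hd.mono_right hT
  have h1 := dfc_union (G := G) (fun _ => 0) hCT
  have h3 : dfc G (addDeg G (fun _ => 0) C) T = dfc G (fun v => deg G C v) T :=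
    dfc_congr fun v _ => by simp [addDeg]
  have h5 := card_union_of_disjoint hCT
  have h6 := hne.card_pos
  have h7 := eg_le3 hG (T := C ∪ T) (by omega)
  rw [h3] at h1
  simp only [dfc, Nat.cast_zero, sum_const_zero, add_zero] at h1 ⊢
  omega

end Pool.Agent.PL5
end

-- merged part: Pool.Agent.Work.MP_db4788_co.E1
section
/-
Section 3 of the write-up: minimal counterexamples to theorem E, general tools.
-/

set_option autoImplicit false
set_option linter.unusedSectionVars false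
open Finset

namespace Pool.Agent.PL5

variable {V : Type} [DecidableEq V] {G : SimpleGraph V} [DecidableRel G.Adj]

theorem pot_empty (r : V → ℕ) : pot G r ∅ = 0 := by simp [pot, dfc_empty]

theorem pot_insert (r : V → ℕ) {S : Finset V} {a : V} (ha : a ∉ S) :
    pot G r (insert a S) = pot G r S + 1 + phi (r a) - 100 * ((r a : ℤ) + deg G S a - 3) := by
  unfold pot
  rw [sum_insert ha, dfc_insert r ha]; ring

theorem pot_singleton (r : V → ℕ) (a : V) :
    pot G r {a} = 1 + phi (r a) - 100 * ((r a : ℤ) - 3) := by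
  unfold pot
  rw [sum_singleton, dfc_singleton]

theorem pot_le (r : V → ℕ) (T : Finset V) : pot G r T ≤ 10 * T.card - 100 * dfc G r T := by
  unfold pot
  have : ∑ v ∈ T, (1 + phi (r v)) ≤ ∑ _v ∈ T, (10 : ℤ) :=
    sum_le_sum (fun v _ => by have := phi_le (r v); omega)
  simp only [sum_const, nsmul_eq_mul] at this
  omega

theorem le_pot (r : V → ℕ) (T : Finset V) : T.card - 100 * dfc G r T ≤ pot G r T := by
  unfold pot
  have : ∑ _v ∈ T, (1 : ℤ) ≤ ∑ v ∈ T, (1 + phi (r v)) :=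
    sum_le_sum (fun v _ => by have := phi_nonneg (r v); omega)
  simp only [sum_const, nsmul_eq_mul] at this
  omega

theorem pot_shift (r l : V → ℕ) {A T : Finset V} (h : Disjoint A T) :
    pot G (fun u => r u + l u) T = pot G r (A ∪ T) - pot G r A +
      100 * ∑ u ∈ T, ((deg G A u : ℤ) - l u) + ∑ u ∈ T, (phi (r u + l u) - phi (r u)) := by
  unfold pot
  rw [dfc_union r h, sum_union h]
  unfold dfc addDeg
  simp only [sum_sub_distrib, sum_add_distrib, Nat.cast_add]
  ring

theorem pot_union_le (r : V → ℕ) {A T : Finset V} (h : Disjoint A T) :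
    pot G r (A ∪ T) ≤ pot G r A + pot G (addDeg G r A) T := by
  have h1 := pot_shift (G := G) r (fun u => deg G A u) h
  have h2 : (0 : ℤ) ≤ ∑ u ∈ T, (phi (r u + deg G A u) - phi (r u)) :=
    sum_nonneg (fun u _ => by have := phi_mono (Nat.le_add_right (r u) (deg G A u)); omega)
  simp only [sub_self, sum_const_zero, mul_zero, add_zero] at h1
  have e : pot G (addDeg G r A) T = pot G (fun u => r u + deg G A u) T := rfl
  omega

theorem pot_congr {r r' : V → ℕ} {T : Finset V} (h : ∀ v ∈ T, r v = r' v) :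
    pot G r T = pot G r' T := by
  unfold pot
  rw [dfc_congr h, sum_congr rfl (fun v hv => by rw [h v hv])]

theorem pot_att (hG : MinorFree G) (r : V → ℕ) {S : Finset V} (h : att G r S ≠ S) :
    pot G r (att G r S) < pot G r S := by
  have h1 := dfc_att hG r h
  have h2 : ∑ v ∈ att G r S, (1 + phi (r v)) ≤ ∑ v ∈ S, (1 + phi (r v)) :=
    sum_le_sum_of_subset_of_nonneg (att_subset r S)
      (fun v _ _ => by have := phi_nonneg (r v); omega)
  unfold pot; omega

structure Crit (G : SimpleGraph V) [DecidableRel G.Adj] (H : Finset V) (r : V → ℕ)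
    (O : Finset V) (m : ℕ) (L : V → Finset ℕ) : Prop where
  mf : MinorFree G
  apex : Apex G H r O
  r4 : ∀ v ∈ H, r v ≤ 4
  pos : ∀ T ⊆ H, -250 < pot G r T
  size : ∀ v ∈ H, (L v).card + r v * m = 5 * m
  ncol : ¬ Col G H L m
  ih : ∀ (H' : Finset V) (r' : V → ℕ) (O' : Finset V), H'.card < H.card → Apex G H' r' O' →
    (∀ v ∈ H', r' v ≤ 4) → (∀ T ⊆ H', -250 < pot G r' T) → Choosable G H' r' m

namespace Crit

variable {H O : Finset V} {r : V → ℕ} {m : ℕ} {L : V → Finset ℕ}

theorem lists (h : Crit G H r O m L) : Lists H r m L := fun v hv => (h.size v hv).ge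

theorem sub_col (h : Crit G H r O m L) {S : Finset V} (hS : S ⊆ H) (hne : S ≠ H) :
    Col G S L m :=
  h.ih S r O (card_lt_card (Finset.ssubset_iff_subset_ne.2 ⟨hS, hne⟩)) (h.apex.mono hS)
    (fun v hv => h.r4 v (hS hv)) (fun T hT => h.pos T (hT.trans hS)) L (h.lists.mono hS)

theorem d5 (h : Crit G H r O m L) {v : V} (hv : v ∈ H) : 5 ≤ r v + deg G H v := by
  by_contra hlt
  obtain ⟨φ, h1, h2⟩ := (h.sub_col (erase_subset v H)
    (fun e => notMem_erase v H (by rw [e]; exact hv))).exact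
  have hs := h.size v hv
  have hd : (nbr G (H.erase v) v).card = deg G H v := deg_erase_self H v
  obtain ⟨χ, c1, c2, c3⟩ := greedy (N := nbr G (H.erase v) v) (m := m) (t := m)
    (notMem_erase v H) h1 (fun u hu => (h2 u (nbr_subset _ _ hu)).le)
    (fun w hw hvw hn => absurd (mem_nbr.2 ⟨hw, hvw⟩) hn) (by
      rw [hd]
      have : (r v + deg G H v + 1) * m ≤ 5 * m := Nat.mul_le_mul_right m (by omega)
      rw [add_mul, add_mul] at this; omega)
  rw [insert_erase hv] at c1
  refine h.ncol ⟨χ, c1, fun u hu => ?_⟩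
  by_cases e : u = v
  · rw [e, c3]
  · rw [c2 u (mem_erase.2 ⟨e, hu⟩), h2 u (mem_erase.2 ⟨e, hu⟩)]

theorem card5 (h : Crit G H r O m L) : 5 ≤ H.card := by
  by_contra hlt
  refine h.ncol (e0 h.mf h.apex h.r4 (fun T hT => ?_) m L h.lists)
  have h1 := h.pos T hT
  have h2 := pot_le (G := G) r T
  have h3 := card_le_card hT
  omega

theorem g0' (h : Crit G H r O m L) {v : V} (hv : v ∈ H) :
    pot G r H + 190 ≤ pot G r (H.erase v) := by
  have h1 := pot_insert (G := G) r (notMem_erase v H)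
  rw [insert_erase hv, deg_erase_self] at h1
  have h2 := h.d5 hv
  have h3 := phi_le (r v)
  omega

theorem g1 (h : Crit G H r O m L) {S0 : Finset V} (hS0 : S0 ⊆ H) (hne0 : S0.Nonempty)
    (h20 : 2 ≤ (H \ S0).card) : 0 < pot G r S0 := by
  by_contra hle
  obtain ⟨S, hS, hmin⟩ := exists_min_image
    (H.powerset.filter (fun S => S.Nonempty ∧ 2 ≤ (H \ S).card)) (pot G r)
    ⟨S0, by simp [hS0, hne0, h20]⟩
  simp only [mem_filter, mem_powerset] at hS hmin
  obtain ⟨hSH, hne, h2⟩ := hS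
  have hS0' := hmin S0 ⟨hS0, hne0, h20⟩
  have hat : att G r S = S := by
    by_contra hc
    have h1 := pot_att h.mf r hc
    rcases (att G r S).eq_empty_or_nonempty with e | e
    · rw [e, pot_empty] at h1; omega
    · have := hmin _ ⟨(att_subset r S).trans hSH, e, h2.trans (card_le_card
        (sdiff_subset_sdiff subset_rfl (att_subset r S)))⟩
      omega
  have hA : Attached G r S := hat ▸ attached_att r S
  have hSne : S ≠ H := by
    intro e; rw [e, sdiff_self] at h2; simp at h2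
  by_cases h4 : ∀ u ∈ H \ S, addDeg G r S u ≤ 4
  · refine h.ncol (col_extend hSH h.lists (h.sub_col hSH hSne) (r' := addDeg G r S)
      (h.ih _ _ (O ∪ S) ?_ (h.apex.absorb_addDeg hSH hA) h4 (fun T hT => ?_))
      (fun u _ => le_rfl))
    · have := card_sdiff_add_card_eq_card hSH
      have := hne.card_pos
      omega
    · have hd : Disjoint S T := disjoint_sdiff.mono_right hT
      have h1 := pot_union_le (G := G) r hd
      have h3 := h.pos (S ∪ T) (union_subset hSH (hT.trans sdiff_subset))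
      omega
  · push Not at h4
    obtain ⟨v, hv, h5⟩ := h4
    obtain ⟨hvH, hvS⟩ := mem_sdiff.1 hv
    have h1 := pot_insert (G := G) r hvS
    have h3 := phi_le (r v)
    unfold addDeg at h5
    have hsub : insert v S ⊆ H := insert_subset hvH hSH
    have hc : (H \ insert v S).card + 1 = (H \ S).card := by
      rw [sdiff_insert, card_erase_add_one hv]
    by_cases h22 : 2 ≤ (H \ insert v S).card
    · have := hmin _ ⟨hsub, insert_nonempty v S, h22⟩
      omega
    · obtain ⟨w, hw⟩ := card_eq_one.1 (by omega : (H \ insert v S).card = 1)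
      have hwH : w ∈ H \ insert v S := by rw [hw]; exact mem_singleton_self w
      have e : insert v S = H.erase w := by
        ext x; constructor
        · intro hx
          refine mem_erase.2 ⟨fun e => (mem_sdiff.1 hwH).2 (e ▸ hx), hsub hx⟩
        · intro hx
          by_contra hn
          have : x ∈ H \ insert v S := mem_sdiff.2 ⟨(mem_erase.1 hx).2, hn⟩
          rw [hw, mem_singleton] at this
          exact (mem_erase.1 hx).1 this
      have h6 := h.g0' (mem_sdiff.1 hwH).1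
      have h7 := h.pos H subset_rfl
      rw [← e] at h6
      omega

/-- every proper subset has potential more than `-60` -/
theorem g0 (h : Crit G H r O m L) {S : Finset V} (hS : S ⊆ H) (hne : S ≠ H) :
    -60 < pot G r S := by
  rcases S.eq_empty_or_nonempty with e | e
  · rw [e, pot_empty]; omega
  by_cases h2 : 2 ≤ (H \ S).card
  · have := h.g1 hS e h2; omega
  have h1 : (H \ S).Nonempty := sdiff_nonempty.2 (fun hh => hne (Subset.antisymm hS hh))
  obtain ⟨w, hw⟩ := card_eq_one.1 (by have := h1.card_pos; omega : (H \ S).card = 1)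
  have hwH : w ∈ H \ S := by rw [hw]; exact mem_singleton_self w
  have e : S = H.erase w := by
    ext x; constructor
    · intro hx
      exact mem_erase.2 ⟨fun e => (mem_sdiff.1 hwH).2 (e ▸ hx), hS hx⟩
    · intro hx
      by_contra hn
      have : x ∈ H \ S := mem_sdiff.2 ⟨(mem_erase.1 hx).2, hn⟩
      rw [hw, mem_singleton] at this
      exact (mem_erase.1 hx).1 this
  have h6 := h.g0' (mem_sdiff.1 hwH).1
  have h7 := h.pos H subset_rfl
  rw [← e] at h6
  omega

theorem small (h : Crit G H r O m L) {T : Finset V} (hT : T ⊆ H) (hne : T.Nonempty)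
    (h3 : T.card ≤ 3) : dfc G r T ≤ 0 := by
  have h1 := card_sdiff_add_card_eq_card hT
  have h2 := h.card5
  have h4 := h.g1 hT hne (by omega)
  have h5 := pot_le (G := G) r T
  omega

theorem r3 (h : Crit G H r O m L) {v : V} (hv : v ∈ H) : r v ≤ 3 := by
  have := h.small (singleton_subset_iff.2 hv) (singleton_nonempty v) (by simp)
  rw [dfc_singleton] at this; omega

theorem no33 (h : Crit G H r O m L) {u v : V} (hu : u ∈ H) (hv : v ∈ H) (huv : G.Adj u v)
    (ru : r u = 3) : r v ≤ 2 := by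
  have := h.small (T := {u, v}) (by simp [insert_subset_iff, hu, hv]) (insert_nonempty _ _)
    (card_le_two.trans (by omega))
  rw [dfc_pair r huv] at this; omega

/-- RED -/
theorem red (h : Crit G H r O m L) {A : Finset V} (hA : A ⊆ H) (hne : A.Nonempty)
    (hat : Attached G r A) (l : V → ℕ) (L' : V → Finset ℕ)
    (hL' : ∀ u ∈ H \ A, 5 * m ≤ (L' u).card + (r u + l u) * m)
    (hfin : Col G (H \ A) L' m → Col G H L m)
    (hl : ∀ u ∈ H \ A, 0 < l u → ∃ a ∈ A, G.Adj u a) (h4 : ∀ u ∈ H \ A, r u + l u ≤ 4)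
    (F : Finset V) (hF : F ⊆ H \ A) (y : V) (ex : ℕ)
    (hD : ∀ u ∈ H \ A, l u + (if u ∈ F then 1 else 0) ≤ deg G A u + (if u = y then ex else 0))
    (Z Y : Finset V) (hZ : ∀ u ∈ Z, u ∈ H \ A ∧ r u = 0 ∧ 0 < l u)
    (hY : ∀ u ∈ Y, u ∈ H \ A ∧ r u = 1 ∧ 0 < l u)
    (g : ℤ) (hg : g ≤ 7 * Z.card + 2 * Y.card) (hg' : g ≤ 90)
    (hI : pot G r A + 100 * ex ≤ 250) (hIII : pot G r A + 100 * ex ≤ 100 * F.card + g) :
    False := by
  refine h.ncol (hfin (h.ih (H \ A) (fun u => r u + l u) (O ∪ A) ?_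
    (h.apex.absorb hA hat subset_rfl (fun u hu hp => ?_)) h4 (fun T hT => ?_) L' hL'))
  · have := card_sdiff_add_card_eq_card hA
    have := hne.card_pos
    omega
  · by_cases h0 : 0 < r u
    · exact Or.inl h0
    · exact Or.inr (hl u hu (by omega))
  · have hd : Disjoint A T := disjoint_sdiff.mono_right hT
    rw [pot_shift r l hd]
    have hAT : A ∪ T ⊆ H := union_subset hA (hT.trans sdiff_subset)
    have hD1 : ((F ∩ T).card : ℤ) - ex ≤ ∑ u ∈ T, ((deg G A u : ℤ) - l u) := by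
      have a1 : ∑ u ∈ T, ((if u ∈ F then (1 : ℤ) else 0) - (if u = y then (ex : ℤ) else 0)) ≤
          ∑ u ∈ T, ((deg G A u : ℤ) - l u) := sum_le_sum (fun u hu => by
        have := hD u (hT hu)
        split_ifs at this ⊢ <;> omega)
      rw [sum_sub_distrib, sum_ite_mem, sum_ite_eq', inter_comm] at a1
      simp only [sum_const, nsmul_eq_mul, mul_one] at a1
      split_ifs at a1 <;> omega
    have hP0 : (0 : ℤ) ≤ ∑ u ∈ T, (phi (r u + l u) - phi (r u)) :=
      sum_nonneg (fun u _ => by have := phi_mono (Nat.le_add_right (r u) (l u)); omega)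
    have hsd : H \ (A ∪ T) = (H \ A) \ T := by rw [sdiff_sdiff_left]; rfl
    have hFT : F.card ≤ (F ∩ T).card + ((H \ A) \ T).card := by
      have a1 := card_sdiff_add_card_inter F T
      have a2 : (F \ T).card ≤ ((H \ A) \ T).card := card_le_card (sdiff_subset_sdiff hF subset_rfl)
      omega
    by_cases h2 : 2 ≤ ((H \ A) \ T).card
    · have := h.g1 hAT (hne.mono subset_union_left) (by rwa [hsd])
      omega
    by_cases h1 : A ∪ T = H
    · have hT' : T = H \ A := by
        refine Subset.antisymm hT (fun u hu => ?_)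
        have : u ∈ A ∪ T := by rw [h1]; exact (mem_sdiff.1 hu).1
        exact (mem_union.1 this).resolve_left (mem_sdiff.1 hu).2
      have hP : 7 * (Z.card : ℤ) + 2 * Y.card ≤ ∑ u ∈ T, (phi (r u + l u) - phi (r u)) := by
        have a1 : ∑ u ∈ T, ((if u ∈ Z then (7 : ℤ) else 0) + (if u ∈ Y then (2 : ℤ) else 0)) ≤
            ∑ u ∈ T, (phi (r u + l u) - phi (r u)) := sum_le_sum (fun u _ => by
          have b0 := phi_mono (Nat.le_add_right (r u) (l u))
          by_cases hz : u ∈ Z <;> by_cases hy : u ∈ Y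
          · have := (hZ u hz).2.1; have := (hY u hy).2.1; omega
          · have b1 := (hZ u hz).2
            simp only [hz, hy, if_true, if_false]
            unfold phi; split_ifs <;> omega
          · have b1 := (hY u hy).2
            simp only [hz, hy, if_true, if_false]
            unfold phi; split_ifs <;> omega
          · simp only [hz, hy, if_false]; omega)
        rw [sum_add_distrib, sum_ite_mem, sum_ite_mem,
          inter_eq_right.2 (fun u hu => hT' ▸ (hZ u hu).1),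
          inter_eq_right.2 (fun u hu => hT' ▸ (hY u hu).1)] at a1
        simp only [sum_const, nsmul_eq_mul] at a1
        omega
      have h0 : ((H \ A) \ T).card = 0 := by rw [hT', sdiff_self]; rfl
      have := h.pos _ hAT
      omega
    · have := h.g0 hAT h1
      omega

/-- a side of a separation is bad -/
theorem bad_side (h : Crit G H r O m L) {A U : Finset V} (hA : A ⊆ H) (hat : Attached G r A)
    (hU : U ⊆ H \ A) (hne : U.Nonempty) (hlt : U.card < H.card)
    (hn : ∀ u ∈ U, ∀ w ∈ H, G.Adj u w → w ∈ U ∨ w ∈ A) :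
    ∃ T ⊆ U, pot G (addDeg G r A) T ≤ -250 ∨
      ∃ z, T = {z} ∧ 5 ≤ r z + deg G A z := by
  by_contra hc
  push Not at hc
  have hUH : U ⊆ H := hU.trans sdiff_subset
  have h4 : ∀ z ∈ U, addDeg G r A z ≤ 4 := fun z hz => by
    have := (hc {z} (singleton_subset_iff.2 hz)).2 z rfl
    unfold addDeg; omega
  have hch := h.ih U (addDeg G r A) (O ∪ A) hlt
    ((h.apex.absorb_addDeg hA hat).mono hU) h4 (fun T hT => (hc T hT).1)
  refine h.ncol (col_of_extends hUH (h.sub_col sdiff_subset (fun e => ?_))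
    (extends_of_choosable (h.lists.mono hUH) hch (fun u hu => ?_)))
  · obtain ⟨u, hu⟩ := hne
    have : u ∈ H \ U := by rw [e]; exact hUH hu
    exact (mem_sdiff.1 this).2 hu
  · unfold addDeg
    have : deg G (H \ U) u ≤ deg G A u := deg_le (N := nbr G A u) (fun w hw huw =>
      mem_nbr.2 ⟨(hn u hu w (mem_sdiff.1 hw).1 huw).resolve_left (mem_sdiff.1 hw).2, huw⟩)
    omega

theorem sl_core (h : Crit G H r O m L) {A : Finset V} {a b : V} (hA : A ⊆ H)
    (hat : Attached G r A) (ha : a ∈ H \ A) (hb : b ∈ H \ A) (hab : ¬ Reach G (H \ A) a b) :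
    ∃ T1 ⊆ comp G (H \ A) a, ∃ T2 ⊆ (H \ A) \ comp G (H \ A) a,
      (pot G (addDeg G r A) T1 ≤ -250 ∨ ∃ z, T1 = {z} ∧ 5 ≤ r z + deg G A z) ∧
      (pot G (addDeg G r A) T2 ≤ -250 ∨ ∃ z, T2 = {z} ∧ 5 ≤ r z + deg G A z) ∧
      pot G r (A ∪ T1 ∪ T2) ≤
        pot G r A + pot G (addDeg G r A) T1 + pot G (addDeg G r A) T2 := by
  have hb2 : b ∈ (H \ A) \ comp G (H \ A) a := mem_sdiff.2 ⟨hb, fun hh => hab (mem_comp.1 hh).2⟩
  have ha1 := self_mem_comp (G := G) ha
  obtain ⟨T1, hT1, b1⟩ := h.bad_side hA hat (comp_subset (H \ A) a) ⟨a, ha1⟩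
    (card_lt_card (Finset.ssubset_iff_subset_ne.2 ⟨(comp_subset _ _).trans sdiff_subset,
      fun e => (mem_sdiff.1 hb2).2 (by rw [e]; exact (mem_sdiff.1 hb).1)⟩))
    (fun u hu w hw huw => by
      by_cases hwA : w ∈ A
      · exact Or.inr hwA
      · exact Or.inl (comp_closed hu (mem_sdiff.2 ⟨hw, hwA⟩) huw))
  obtain ⟨T2, hT2, b2⟩ := h.bad_side hA hat (U := (H \ A) \ comp G (H \ A) a) sdiff_subset
    ⟨b, hb2⟩
    (card_lt_card (Finset.ssubset_iff_subset_ne.2 ⟨sdiff_subset.trans sdiff_subset,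
      fun e => by
        have : a ∈ (H \ A) \ comp G (H \ A) a := by rw [e]; exact (mem_sdiff.1 ha).1
        exact (mem_sdiff.1 this).2 ha1⟩))
    (fun u hu w hw huw => by
      by_cases hwA : w ∈ A
      · exact Or.inr hwA
      · exact Or.inl (mem_sdiff.2 ⟨mem_sdiff.2 ⟨hw, hwA⟩, fun hh =>
          (mem_sdiff.1 hu).2 (comp_closed hh (mem_sdiff.1 hu).1 huw.symm)⟩))
  refine ⟨T1, hT1, T2, hT2, b1, b2, ?_⟩
  have d1 : Disjoint A T1 := disjoint_sdiff.mono_right (hT1.trans (comp_subset _ _))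
  have d2 : Disjoint A T2 := disjoint_sdiff.mono_right (hT2.trans sdiff_subset)
  have d3 : Disjoint T1 T2 := disjoint_sdiff.mono hT1 hT2
  have e1 := pot_union_le (G := G) r d1
  have e2 := pot_union_le (G := G) r (disjoint_union_left.2 ⟨d2, d3⟩)
  have e3 : pot G (addDeg G r (A ∪ T1)) T2 = pot G (addDeg G r A) T2 := pot_congr (fun v hv => by
    unfold addDeg
    rw [deg_union d1, (deg_eq_zero (S := T1)).2 (fun u hu hvu => (mem_sdiff.1 (hT2 hv)).2
      (comp_closed (hT1 hu) (mem_sdiff.1 (hT2 hv)).1 hvu.symm))]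
    rfl)
  omega

theorem pot_single_bad {A : Finset V} {z : V} (h5 : 5 ≤ r z + deg G A z) :
    pot G (addDeg G r A) {z} ≤ -190 := by
  rw [pot_singleton]
  have := phi_le (addDeg G r A z)
  unfold addDeg at *
  push_cast; omega

/-- SL1 -/
theorem sl1 (h : Crit G H r O m L) {A : Finset V} {a b : V} (hA : A ⊆ H)
    (hat : Attached G r A) (h3 : A.card ≤ 3) (hd : -1 ≤ dfc G r A) (ha : a ∈ H \ A)
    (hb : b ∈ H \ A) (hab : ¬ Reach G (H \ A) a b) : False := by
  obtain ⟨T1, hT1, T2, hT2, b1, b2, b3⟩ := h.sl_core hA hat ha hb hab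
  have c1 : pot G (addDeg G r A) T1 ≤ -190 := by
    rcases b1 with b1 | ⟨z, rfl, b1⟩
    · omega
    · exact pot_single_bad b1
  have c2 : pot G (addDeg G r A) T2 ≤ -190 := by
    rcases b2 with b2 | ⟨z, rfl, b2⟩
    · omega
    · exact pot_single_bad b2
  have c3 := pot_le (G := G) r A
  have c4 := h.pos (A ∪ T1 ∪ T2) (union_subset (union_subset hA
    (hT1.trans ((comp_subset _ _).trans sdiff_subset))) (hT2.trans (sdiff_subset.trans sdiff_subset)))
  omega

/-- SL2 -/
theorem sl2 (h : Crit G H r O m L) {A : Finset V} {a b : V} (hA : A ⊆ H)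
    (hat : Attached G r A) (h3 : A.card ≤ 3) (hd : -2 ≤ dfc G r A) (ha : a ∈ H \ A)
    (hb : b ∈ H \ A) (hab : ¬ Reach G (H \ A) a b) :
    ((∀ w ∈ H, G.Adj a w → w ∈ A) ∧ 5 ≤ r a + deg G A a) ∨
    ((∀ w ∈ H \ A, ¬ Reach G (H \ A) a w → w = b) ∧ (∀ w ∈ H, G.Adj b w → w ∈ A) ∧
      5 ≤ r b + deg G A b) := by
  obtain ⟨T1, hT1, T2, hT2, b1, b2, b3⟩ := h.sl_core hA hat ha hb hab
  have hsub : A ∪ T1 ∪ T2 ⊆ H := union_subset (union_subset hA
    (hT1.trans ((comp_subset _ _).trans sdiff_subset))) (hT2.trans (sdiff_subset.trans sdiff_subset))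
  have c1 : pot G (addDeg G r A) T1 ≤ -190 := by
    rcases b1 with b1 | ⟨z, rfl, b1⟩
    · omega
    · exact pot_single_bad b1
  have c2 : pot G (addDeg G r A) T2 ≤ -190 := by
    rcases b2 with b2 | ⟨z, rfl, b2⟩
    · omega
    · exact pot_single_bad b2
  have c3 := pot_le (G := G) r A
  have c4 := h.pos _ hsub
  have hall : A ∪ T1 ∪ T2 = H := by
    by_contra hne
    have := h.g0 hsub hne
    omega
  have hmem : ∀ w ∈ H \ A, w ∈ T1 ∨ w ∈ T2 := fun w hw => by
    have : w ∈ A ∪ T1 ∪ T2 := by rw [hall]; exact (mem_sdiff.1 hw).1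
    simp only [mem_union] at this
    rcases this with (h1 | h1) | h1
    · exact absurd h1 (mem_sdiff.1 hw).2
    · exact Or.inl h1
    · exact Or.inr h1
  have hc1 : ∀ w ∈ comp G (H \ A) a, w ∈ T1 := fun w hw =>
    (hmem w (comp_subset _ _ hw)).resolve_right (fun hh => (mem_sdiff.1 (hT2 hh)).2 hw)
  have hc2 : ∀ w ∈ H \ A, ¬ Reach G (H \ A) a w → w ∈ T2 := fun w hw hn =>
    (hmem w hw).resolve_left (fun hh => hn (mem_comp.1 (hT1 hh)).2)
  rcases b1 with b1 | ⟨z, rfl, b1⟩
  · rcases b2 with b2 | ⟨z, rfl, b2⟩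
    · omega
    · right
      have e : b = z := mem_singleton.1 (hc2 b hb hab)
      subst e
      refine ⟨fun w hw hn => mem_singleton.1 (hc2 w hw hn), fun w hw hbw => ?_, b2⟩
      by_contra hwA
      have hw' : w ∈ H \ A := mem_sdiff.2 ⟨hw, hwA⟩
      have := mem_singleton.1 (hc2 w hw' (fun hh => hab (hh.tail hw' hb hbw.symm)))
      exact hbw.ne this.symm
  · left
    have e : a = z := mem_singleton.1 (hc1 a (self_mem_comp ha))
    subst e
    refine ⟨fun w hw haw => ?_, b1⟩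
    by_contra hwA
    have := mem_singleton.1 (hc1 w (comp_closed (self_mem_comp ha) (mem_sdiff.2 ⟨hw, hwA⟩) haw))
    exact haw.ne this.symm

theorem lk0 (h : Crit G H r O m L) {C : Finset V} {v a b z : V} (hC : C ⊆ H) (cC : Conn G C)
    (h4 : C.card ≤ 4) (he : 3 * C.card ≤ eg G C + 8) (hv : v ∈ C) (ha : a ∈ C) (hb : b ∈ C)
    (hz : z ∈ H \ C) (rv : 0 < r v) (ra : 0 < r a) (rb : 0 < r b) (hva : G.Adj v a)
    (hvb : G.Adj v b) (hvz : G.Adj v z) (hab : a ≠ b) (hl : Reach G (C.erase v) a b) :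
    ¬ Reach G (H \ {v, a}) b z ∨ ¬ Reach G (H \ {v, b}) a z := by
  have hKs : comp G (H \ C) z ⊆ H \ C := comp_subset _ _
  have hzK := self_mem_comp (G := G) hz
  by_cases hB : ∃ w ∈ comp G (H \ C) z, 0 < r w
  · obtain ⟨w, hw, rw0⟩ := hB
    have hm := m1 h.mf (W1 := {a}) (W2 := {b}) (W3 := comp G (H \ C) z) (a1 := a) (a2 := b)
      (a3 := z) h.apex.1 h.apex.2.1 (hC hv) (h.apex.2.2 v (hC hv) rv)
      (singleton_subset_iff.2 (mem_erase.2 ⟨hva.ne.symm, hC ha⟩))
      (singleton_subset_iff.2 (mem_erase.2 ⟨hvb.ne.symm, hC hb⟩))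
      (fun x hx => mem_erase.2 ⟨fun e => (mem_sdiff.1 (hKs hx)).2 (e ▸ hv), (mem_sdiff.1 (hKs hx)).1⟩)
      (conn_singleton a) (conn_singleton b) (conn_comp hz)
      (disjoint_singleton.2 hab)
      (disjoint_singleton_left.2 (fun hh => (mem_sdiff.1 (hKs hh)).2 ha))
      (disjoint_singleton_left.2 (fun hh => (mem_sdiff.1 (hKs hh)).2 hb))
      ⟨a, mem_singleton_self a, hva⟩ ⟨b, mem_singleton_self b, hvb⟩ ⟨z, hzK, hvz⟩
      (touch_left.2 (h.apex.2.2 a (hC ha) ra)) (touch_left.2 (h.apex.2.2 b (hC hb) rb))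
      (by
        obtain ⟨o, ho, hwo⟩ := h.apex.2.2 w (mem_sdiff.1 (hKs hw)).1 rw0
        exact ⟨w, hw, o, ho, hwo⟩)
      (mem_singleton_self a) (mem_singleton_self b) hzK
    rcases hm with h1 | h1 | h1
    · exact Or.inl h1
    · exact Or.inr h1
    · refine absurd (hl.mono (fun x hx => mem_sdiff.2 ⟨hC (mem_erase.1 hx).2, fun hh => ?_⟩)) h1
      rcases mem_insert.1 hh with e | e
      · exact (mem_erase.1 hx).1 e
      · exact (mem_sdiff.1 (hKs e)).2 (mem_erase.1 hx).2
  · exfalso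
    push Not at hB
    have hKH : comp G (H \ C) z ⊆ H := hKs.trans sdiff_subset
    have h2 : 2 ≤ C.card := by
      have : ({a, b} : Finset V) ⊆ C := by simp [insert_subset_iff, ha, hb]
      have := card_le_card this
      rwa [card_pair hab] at this
    have hch := in_choosable h.mf cC h2 h4 he (disjoint_sdiff.mono_right hKs) m
    refine h.ncol (col_of_extends hKH (h.sub_col sdiff_subset (fun e => ?_))
      (extends_of_choosable (h.lists.mono hKH) hch (fun u hu => ?_)))
    · have : z ∈ H \ comp G (H \ C) z := by rw [e]; exact hKH hzK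
      exact (mem_sdiff.1 this).2 hzK
    · have h0 := hB u hu
      have : deg G (H \ comp G (H \ C) z) u ≤ deg G C u := deg_le (N := nbr G C u)
        (fun w hw huw => mem_nbr.2 ⟨by
          by_contra hn
          exact (mem_sdiff.1 hw).2 (comp_closed hu (mem_sdiff.2 ⟨(mem_sdiff.1 hw).1, hn⟩) huw),
          huw⟩)
      omega

/-- LK, adjacent version -/
theorem lk_adj (h : Crit G H r O m L) {v a b z : V} (hv : v ∈ H) (ha : a ∈ H) (hb : b ∈ H)
    (hz : z ∈ H) (rv : 0 < r v) (ra : 0 < r a) (rb : 0 < r b) (hva : G.Adj v a)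
    (hvb : G.Adj v b) (hvz : G.Adj v z) (hab : G.Adj a b) (hza : z ≠ a) (hzb : z ≠ b) :
    ¬ Reach G (H \ {v, a}) b z ∨ ¬ Reach G (H \ {v, b}) a z := by
  have hc : ({v, a, b} : Finset V).card ≤ 3 := card_le_three
  have he : 1 ≤ eg G {v, a, b} := by
    rw [eg_insert (by simp [hva.ne, hvb.ne])]
    have : 0 < deg G {a, b} v := deg_pos.2 ⟨a, by simp, hva⟩
    omega
  refine h.lk0 (C := {v, a, b}) (by simp [insert_subset_iff, hv, ha, hb])
    ((conn_pair hab).insert (by simp) hva) (by omega) (by omega) (by simp) (by simp) (by simp)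
    (by simp [hz, hza, hzb, hvz.ne.symm]) rv ra rb hva hvb hvz hab.ne
    (Reach.single (by simp [hva.ne.symm]) (by simp [hvb.ne.symm]) hab)

/-- LK, common neighbour version -/
theorem lk_common (h : Crit G H r O m L) {v a b y z : V} (hv : v ∈ H) (ha : a ∈ H) (hb : b ∈ H)
    (hy : y ∈ H) (hz : z ∈ H) (rv : 0 < r v) (ra : 0 < r a) (rb : 0 < r b) (hva : G.Adj v a)
    (hvb : G.Adj v b) (hvz : G.Adj v z) (hab : a ≠ b) (hay : G.Adj a y) (hby : G.Adj b y)
    (hyv : y ≠ v) (hza : z ≠ a) (hzb : z ≠ b) (hzy : z ≠ y) :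
    ¬ Reach G (H \ {v, a}) b z ∨ ¬ Reach G (H \ {v, b}) a z := by
  have hc : ({v, a, b, y} : Finset V).card ≤ 4 := card_le_four
  have he : 4 ≤ eg G {v, a, b, y} := by
    rw [eg_insert (by simp [hva.ne, hvb.ne, hyv.symm]), eg_insert (by simp [hab, hay.ne]),
      eg_insert (by simp [hby.ne])]
    have h1 : ({a, b} : Finset V).card ≤ deg G {a, b, y} v := le_deg (fun u hu => by
      simp only [mem_insert, mem_singleton] at hu
      rcases hu with rfl | rfl <;> simp [hva, hvb])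
    rw [card_pair hab] at h1
    have h2 : 0 < deg G {b, y} a := deg_pos.2 ⟨y, by simp, hay⟩
    have h3 : 0 < deg G {y} b := deg_pos.2 ⟨y, by simp, hby⟩
    omega
  refine h.lk0 (C := {v, a, b, y}) (by simp [insert_subset_iff, hv, ha, hb, hy])
    (((conn_pair hby).insert (by simp) hay).insert (by simp) hva) hc (by omega) (by simp)
    (by simp) (by simp) (by simp [hz, hza, hzb, hzy, hvz.ne.symm]) rv ra rb hva hvb hvz hab
    (Reach.head (by simp [hva.ne.symm]) (by simp [hyv]) hay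
      (Reach.single (by simp [hyv]) (by simp [hvb.ne.symm]) hby.symm))

end Crit

end Pool.Agent.PL5
end

-- merged part: Pool.Agent.Work.MP_db4788_co.E2
section
/-
Section 3 of the write-up: convenient forms of RED and the rules Ra, N2, S1, R6, S3, Rb, Re.
-/

set_option autoImplicit false
set_option linter.unusedSectionVars false
open Finset

namespace Pool.Agent.PL5

variable {V : Type} [DecidableEq V] {G : SimpleGraph V} [DecidableRel G.Adj]

theorem fin1 {H N : Finset V} {L χ : V → Finset ℕ} {m : ℕ} {x : V} (hx : x ∈ H)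
    (h1 : Valid G (H \ {x}) L χ) (h2 : ∀ v ∈ H \ {x}, (χ v).card = m) (hN : N ⊆ H \ {x})
    (hsafe : ∀ w ∈ H, G.Adj x w → w ∉ N → Disjoint (L x) (χ w))
    (hL : m + N.card * m ≤ (L x).card) : Col G H L m := by
  obtain ⟨χ', c1, c2, c3⟩ := greedy (N := N) (m := m) (t := m) (x := x) (by simp) h1
    (fun u hu => (h2 u (hN hu)).le) (fun w hw => hsafe w (mem_sdiff.1 hw).1) hL
  rw [sdiff_singleton_eq_erase, insert_erase hx] at c1
  refine ⟨χ', c1, fun u hu => ?_⟩
  by_cases e : u = x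
  · rw [e, c3]
  · rw [c2 u (by simp [hu, e]), h2 u (by simp [hu, e])]

theorem fin2 {H N : Finset V} {L χ : V → Finset ℕ} {m : ℕ} {x q : V} (hx : x ∈ H) (hq : q ∈ H)
    (hxq : x ≠ q) (h1 : Valid G (H \ {x, q}) L χ) (h2 : ∀ v ∈ H \ {x, q}, (χ v).card = m)
    (hN : N ⊆ H \ {x, q}) (hNq : ∀ w ∈ H, G.Adj q w → w ≠ x → w ∈ N)
    (hL : m + N.card * m ≤ (L q).card)
    (hsafe : ∀ w ∈ H, G.Adj x w → w ≠ q → Disjoint (L x) (χ w))
    (hLx : 2 * m ≤ (L x).card) : Col G H L m := by
  obtain ⟨χ', c1, c2, c3⟩ := greedy (N := N) (m := m) (t := m) (x := q) (by simp) h1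
    (fun u hu => (h2 u (hN hu)).le) (fun w hw hqw hn => by
      simp only [mem_sdiff, mem_insert, mem_singleton, not_or] at hw
      exact absurd (hNq w hw.1 hqw hw.2.1) hn) hL
  have e : insert q (H \ {x, q}) = H \ {x} := by
    ext u; simp only [mem_insert, mem_sdiff, mem_singleton, not_or]
    constructor
    · rintro (rfl | hh)
      · exact ⟨hq, hxq.symm⟩
      · exact ⟨hh.1, hh.2.1⟩
    · intro hh
      by_cases e : u = q
      · exact Or.inl e
      · exact Or.inr ⟨hh.1, hh.2, e⟩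
  rw [e] at c1
  refine fin1 (N := {q}) hx c1 (fun v hv => ?_) (by simp [hq, hxq.symm]) (fun w hw hxw hn => ?_)
    (by simp; omega)
  · by_cases e : v = q
    · rw [e, c3]
    · have : v ∈ H \ {x, q} := by simp at hv; simp [hv, e]
      rw [c2 v this, h2 v this]
  · have e : w ≠ q := by simpa using hn
    rw [c2 w (by simp [hw, e, hxw.ne.symm])]
    exact hsafe w hw hxw e

theorem pot_pair (r : V → ℕ) {a b : V} (h : a ≠ b) :
    pot G r {a, b} = 2 + phi (r a) + phi (r b) - 100 * dfc G r {a, b} := by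
  unfold pot; rw [sum_pair h]; ring

theorem pot_triple (r : V → ℕ) {a b c : V} (hab : a ≠ b) (hac : a ≠ c) (hbc : b ≠ c) :
    pot G r {a, b, c} = 3 + phi (r a) + phi (r b) + phi (r c) - 100 * dfc G r {a, b, c} := by
  unfold pot; rw [sum_insert (by simp [hab, hac]), sum_pair hbc]; ring

theorem phi0 : phi 0 = 0 := rfl
theorem phi1 : phi 1 = 7 := rfl
theorem phi2 : phi 2 = 9 := rfl
theorem phi3 : phi 3 = 9 := rfl

namespace Crit

variable {H O : Finset V} {r : V → ℕ} {m : ℕ} {L : V → Finset ℕ}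

theorem red2 (h : Crit G H r O m L) {A A1 A2 : Finset V} (hAe : A = A1 ∪ A2)
    (hd : Disjoint A1 A2) (hA : A ⊆ H) (hne : A.Nonempty) (hat : Attached G r A)
    (ψ : V → Finset ℕ) (hψ : Valid G A1 L ψ) (hψc : ∀ a ∈ A1, (ψ a).card = m)
    (l : V → ℕ) (L' : V → Finset ℕ) (hsub : ∀ u ∈ H \ A, L' u ⊆ rem G A1 L ψ u)
    (hL' : ∀ u ∈ H \ A, 5 * m ≤ (L' u).card + (r u + l u) * m)
    (hfin : ∀ χ, Valid G (H \ A2) L χ → (∀ a ∈ A1, χ a = ψ a) → (∀ u ∈ H \ A, χ u ⊆ L' u) →
      (∀ v ∈ H \ A2, (χ v).card = m) → Col G H L m)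
    (hl : ∀ u ∈ H \ A, 0 < l u → ∃ a ∈ A, G.Adj u a) (h4 : ∀ u ∈ H \ A, r u + l u ≤ 4)
    (F : Finset V) (hF : F ⊆ H \ A) (y : V) (ex : ℕ)
    (hD : ∀ u ∈ H \ A, l u + (if u ∈ F then 1 else 0) ≤ deg G A u + (if u = y then ex else 0))
    (Z Y : Finset V) (hZ : ∀ u ∈ Z, u ∈ H \ A ∧ r u = 0 ∧ 0 < l u)
    (hY : ∀ u ∈ Y, u ∈ H \ A ∧ r u = 1 ∧ 0 < l u)
    (g : ℤ) (hg : g ≤ 7 * Z.card + 2 * Y.card) (hg' : g ≤ 90)
    (hI : pot G r A + 100 * ex ≤ 250) (hIII : pot G r A + 100 * ex ≤ 100 * F.card + g) :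
    False := by
  refine h.red hA hne hat l L' hL' (fun hc => ?_) hl h4 F hF y ex hD Z Y hZ hY g hg hg' hI hIII
  obtain ⟨φ, a1, a2⟩ := hc.exact
  have d1 : Disjoint A1 (H \ A) := disjoint_sdiff.mono_left (hAe ▸ subset_union_left)
  obtain ⟨χ, c1, c2, c3⟩ := glue_rem d1 hψ (a1.mono_list hsub)
  have e : A1 ∪ H \ A = H \ A2 := by
    ext u; simp only [hAe, mem_union, mem_sdiff, not_or]
    constructor
    · rintro (hh | hh)
      · exact ⟨hA (hAe ▸ mem_union_left _ hh), fun h2 => disjoint_left.1 hd hh h2⟩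
      · exact ⟨hh.1, hh.2.2⟩
    · intro hh
      by_cases h1 : u ∈ A1
      · exact Or.inl h1
      · exact Or.inr ⟨hh.1, h1, hh.2⟩
  refine hfin χ (e ▸ c1) c2 (fun u hu => by rw [c3 u hu]; exact a1.1 u hu) (fun v hv => ?_)
  rw [← e] at hv
  rcases mem_union.1 hv with hh | hh
  · rw [c2 v hh, hψc v hh]
  · rw [c3 v hh, a2 v hh]

/-- RED with no special vertex -/
theorem redN (h : Crit G H r O m L) {A A1 A2 : Finset V} (hAe : A = A1 ∪ A2)
    (hd : Disjoint A1 A2) (hA : A ⊆ H) (hne : A.Nonempty) (hat : Attached G r A)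
    (ψ : V → Finset ℕ) (hψ : Valid G A1 L ψ) (hψc : ∀ a ∈ A1, (ψ a).card = m)
    (hfin : ∀ χ, Valid G (H \ A2) L χ → (∀ a ∈ A1, χ a = ψ a) →
      (∀ v ∈ H \ A2, (χ v).card = m) → Col G H L m)
    (h4 : ∀ u ∈ H \ A, r u + deg G A1 u ≤ 4)
    (F : Finset V) (hF : ∀ u ∈ F, u ∈ H \ A ∧ ∃ a ∈ A2, G.Adj u a)
    (Z Y : Finset V) (hZ : ∀ u ∈ Z, u ∈ H \ A ∧ r u = 0 ∧ ∃ a ∈ A1, G.Adj u a)
    (hY : ∀ u ∈ Y, u ∈ H \ A ∧ r u = 1 ∧ ∃ a ∈ A1, G.Adj u a)
    (g : ℤ) (hg : g ≤ 7 * Z.card + 2 * Y.card) (hg' : g ≤ 90)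
    (hI : pot G r A ≤ 250) (hIII : pot G r A ≤ 100 * F.card + g) : False := by
  obtain ⟨y, _⟩ := hne
  refine h.red2 hAe hd hA ⟨y, ‹_›⟩ hat ψ hψ hψc (fun u => deg G A1 u) (rem G A1 L ψ)
    (fun u _ => subset_rfl) (fun u hu => ?_) (fun χ c1 c2 _ c4 => hfin χ c1 c2 c4)
    (fun u _ hp => ?_) h4 F (fun u hu => (hF u hu).1) y 0 (fun u _ => ?_) Z Y
    (fun u hu => ⟨(hZ u hu).1, (hZ u hu).2.1, deg_pos.2 (hZ u hu).2.2⟩)
    (fun u hu => ⟨(hY u hu).1, (hY u hu).2.1, deg_pos.2 (hY u hu).2.2⟩) g hg hg'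
    (by simpa using hI) (by simpa using hIII)
  · have h1 := rem_card (G := G) L (fun w hw => (hψc w hw).le) u
    have h2 := h.size u (mem_sdiff.1 hu).1
    rw [add_mul]; omega
  · obtain ⟨a, ha, hua⟩ := deg_pos.1 hp
    exact ⟨a, hAe ▸ mem_union_left _ ha, hua⟩
  · rw [hAe, deg_union hd]
    by_cases hu : u ∈ F
    · have := deg_pos.2 (hF u hu).2
      simp only [hu, if_true]; omega
    · simp only [hu, if_false]; omega

/-- RED where the vertices of `Sv` lose one colour set less -/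
theorem redS (h : Crit G H r O m L) {A : Finset V} (hA : A ⊆ H) (hne : A.Nonempty)
    (hat : Attached G r A) (ψ : V → Finset ℕ) (hψ : Valid G A L ψ)
    (hψc : ∀ a ∈ A, (ψ a).card = m) (Sv : Finset V)
    (hS : ∀ u ∈ Sv, u ∈ H \ A ∧ 0 < deg G A u ∧ r u + deg G A u ≤ 5 ∧
      6 * m ≤ (rem G A L ψ u).card + (r u + deg G A u) * m)
    (h4 : ∀ u ∈ H \ A, u ∉ Sv → r u + deg G A u ≤ 4)
    (Z : Finset V) (hZ : ∀ u ∈ Z, u ∈ H \ A ∧ u ∉ Sv ∧ r u = 0 ∧ ∃ a ∈ A, G.Adj u a)
    (g : ℤ) (hg : g ≤ 7 * Z.card) (hg' : g ≤ 90)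
    (hI : pot G r A ≤ 250) (hIII : pot G r A ≤ 100 * Sv.card + g) : False := by
  obtain ⟨y, _⟩ := hne
  refine h.red2 (A1 := A) (A2 := ∅) (by simp) (by simp) hA ⟨y, ‹_›⟩ hat ψ hψ hψc
    (fun u => if u ∈ Sv then deg G A u - 1 else deg G A u) (rem G A L ψ)
    (fun u _ => subset_rfl) (fun u hu => ?_) (fun χ c1 _ _ c4 => ?_)
    (fun u _ hp => ?_) (fun u hu => ?_) Sv (fun u hu => (hS u hu).1) y 0 (fun u _ => ?_) Z ∅
    (fun u hu => ⟨(hZ u hu).1, (hZ u hu).2.2.1, ?_⟩) (by simp) g (by simpa using hg) hg'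
    (by simpa using hI) (by simpa using hIII)
  · by_cases hu' : u ∈ Sv
    · obtain ⟨_, b1, _, b2⟩ := hS u hu'
      simp only [hu', if_true]
      obtain ⟨k, hk⟩ : ∃ k, deg G A u = k + 1 := ⟨deg G A u - 1, by omega⟩
      rw [hk] at b2 ⊢
      simp only [add_tsub_cancel_right, add_mul] at b2 ⊢
      omega
    · have h1 := rem_card (G := G) L (fun w hw => (hψc w hw).le) u
      have h2 := h.size u (mem_sdiff.1 hu).1
      simp only [hu', if_false]
      rw [add_mul]; omega
  · rw [sdiff_empty] at c1 c4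
    exact ⟨χ, c1, fun v hv => (c4 v hv).ge⟩
  · exact deg_pos.1 (by split_ifs at hp <;> omega)
  · by_cases hu' : u ∈ Sv
    · have := (hS u hu').2.2.1
      have := (hS u hu').2.1
      simp only [hu', if_true]; omega
    · have := h4 u hu hu'
      simp only [hu', if_false]; omega
  · by_cases hu' : u ∈ Sv
    · have := (hS u hu').2.1
      simp only [hu', if_true]; omega
    · simp only [hu', if_false]; omega
  · simp only [(hZ u hu).2.1, if_false]
    exact deg_pos.2 (hZ u hu).2.2.2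

/-- RED where `y` avoids the list of `x`, and `q`, `x` are coloured last -/
theorem redX (h : Crit G H r O m L) {A A1 : Finset V} {x q y : V} (hAe : A = A1 ∪ {x, q})
    (hd : Disjoint A1 {x, q}) (hA : A ⊆ H) (hat : Attached G r A) (hxq : x ≠ q)
    (rx : r x = 3) (hy : y ∈ H \ A) (hxy : G.Adj x y)
    (ψ : V → Finset ℕ) (hψ : Valid G A1 L ψ) (hψc : ∀ a ∈ A1, (ψ a).card = m)
    (hψx : ∀ a ∈ A1, Disjoint (L x) (ψ a))
    (hNx : ∀ w ∈ H, G.Adj x w → w ∈ A ∨ w = y) (hNq : ∀ a ∈ A1, ¬ G.Adj q a)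
    (hq5 : r q + deg G (H \ A) q ≤ 4)
    (h4 : ∀ u ∈ H \ A, r u + deg G A1 u ≤ 4) (h4y : r y + deg G A1 y ≤ 2 ∨ r y = 0 ∧ A1.card ≤ 1)
    (hI : pot G r A ≤ 150) (hIII : pot G r A + 100 ≤ 100 * deg G (H \ A) q) : False := by
  have hxA : x ∈ A := by rw [hAe]; simp
  have hqA : q ∈ A := by rw [hAe]; simp
  have hLx : (L x).card = 2 * m := by have := h.size x (hA hxA); rw [rx] at this; omega
  refine h.red2 hAe hd hA ⟨x, hxA⟩ hat ψ hψ hψc
    (fun u => if u = y then deg G A1 u + 2 else deg G A1 u)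
    (fun u => if u = y then rem G A1 L ψ u \ L x else rem G A1 L ψ u)
    (fun u _ => by split_ifs <;> simp) (fun u hu => ?_) (fun χ c1 c2 c3 c4 => ?_)
    (fun u _ hp => ?_) (fun u hu => ?_) (nbr G (H \ A) q) (nbr_subset _ _) y 1 (fun u _ => ?_)
    ∅ ∅ (by simp) (by simp) 0 (by simp) (by simp) (by push_cast; omega)
    (by unfold deg at hIII; push_cast; omega)
  · have h1 := rem_card (G := G) L (fun w hw => (hψc w hw).le) u
    have h2 := h.size u (mem_sdiff.1 hu).1
    have h3 := le_card_sdiff (L x) (rem G A1 L ψ u)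
    split_ifs <;> simp only [add_mul] <;> omega
  · have hs := h.size q (hA hqA)
    refine fin2 (N := nbr G (H \ A) q) (hA hxA) (hA hqA) hxq c1 c4 (fun w hw => ?_)
      (fun w hw hqw hwx => ?_) ?_ (fun w hw hxw hwq => ?_) hLx.ge
    · exact sdiff_subset_sdiff subset_rfl (hAe ▸ subset_union_right) (nbr_subset _ _ hw)
    · refine mem_nbr.2 ⟨mem_sdiff.2 ⟨hw, fun hh => ?_⟩, hqw⟩
      rw [hAe] at hh
      simp only [mem_union, mem_insert, mem_singleton] at hh
      rcases hh with hh | hh | hh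
      · exact hNq w hh hqw
      · exact hwx hh
      · exact hqw.ne hh.symm
    · have : (r q + deg G (H \ A) q + 1) * m ≤ 5 * m := Nat.mul_le_mul_right m (by omega)
      unfold deg at this
      simp only [add_mul] at this; omega
    · rcases hNx w hw hxw with hh | hh
      · rw [hAe] at hh
        simp only [mem_union, mem_insert, mem_singleton] at hh
        rcases hh with hh | hh | hh
        · rw [c2 w hh]; exact hψx w hh
        · exact absurd hh hxw.ne.symm
        · exact absurd hh hwq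
      · have := c3 y hy
        simp only [if_true] at this
        rw [hh]
        exact (disjoint_of_subset_left this sdiff_disjoint).symm
  · by_cases e : u = y
    · exact ⟨x, hxA, e ▸ hxy.symm⟩
    · simp only [e, if_false] at hp
      obtain ⟨a, ha, hua⟩ := deg_pos.1 hp
      exact ⟨a, hAe ▸ mem_union_left _ ha, hua⟩
  · have := h4 u hu
    have h5 := deg_le_card (G := G) A1 y
    by_cases e : u = y
    · subst e; simp only [if_true]; omega
    · simp only [e, if_false]; omega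
  · rw [hAe, deg_union hd, deg_insert (by simpa using hxq), deg_singleton, ← hAe]
    have e1 : u ∈ nbr G (H \ A) q → G.Adj u q := fun hh => (mem_nbr.1 hh).2.symm
    by_cases e : u = y
    · subst e
      simp only [if_true, hxy.symm]
      split_ifs <;> first | omega | exact absurd (e1 ‹_›) ‹_›
    · simp only [e, if_false]
      split_ifs <;> first | omega | exact absurd (e1 ‹_›) ‹_›

/-- a colour set for `u` avoiding the list of `w` -/
theorem avoids (h : Crit G H r O m L) {u w : V} (hu : u ∈ H) (hw : w ∈ H) (hr : r u < r w) :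
    ∃ α ⊆ L u, α.card = m ∧ Disjoint α (L w) := by
  have h1 := h.size u hu
  have h2 := h.size w hw
  have h3 : (r u + 1) * m ≤ r w * m := Nat.mul_le_mul_right m hr
  rw [add_mul] at h3
  exact avoid _ _ _ (by omega)

theorem ra (h : Crit G H r O m L) {x p y : V} (hx : x ∈ H) (hp : p ∈ H) (hy : y ∈ H)
    (rx : r x = 3) (rp : r p = 2) (hxp : G.Adj x p) (hxy : G.Adj x y) (hpy : p ≠ y)
    (hN : ∀ w ∈ H, G.Adj x w → w = p ∨ w = y) : False := by
  obtain ⟨α, a1, a2, a3⟩ := h.avoids hp hx (by omega)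
  have hLx : (L x).card = 2 * m := by have := h.size x hx; rw [rx] at this; omega
  have hyA : y ∈ H \ {p, x} := by simp [hy, hpy.symm, hxy.ne.symm]
  have hpot : pot G r {p, x} = 20 := by
    rw [pot_pair r hxp.ne.symm, dfc_pair r hxp.symm, rx, rp, phi2, phi3]; rfl
  refine h.redN (A := {p, x}) (A1 := {p}) (A2 := {x}) rfl (by simpa using hxp.ne.symm)
    (by simp [insert_subset_iff, hp, hx]) (insert_nonempty _ _)
    (attached_of_pos (by simp [rx, rp])) (fun _ => α) (valid_singleton a1) (by simp [a2])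
    (fun χ c1 c2 c3 => ?_) (fun u hu => ?_) {y} (by simpa [hxy.symm] using hyA) ∅ ∅ (by simp)
    (by simp) 0 (by simp) (by simp) (by omega) (by simp; omega)
  · refine fin1 (N := {y}) hx c1 c3 (by simp [hy, hxy.ne.symm]) (fun w hw hxw hn => ?_)
      (by simp; omega)
    rcases hN w hw hxw with e | e
    · rw [e, c2 p (by simp)]; exact a3.symm
    · exact absurd (by simp [e]) hn
  · have := h.r3 (mem_sdiff.1 hu).1
    have := deg_le_card (G := G) {p} u
    simp only [card_singleton] at this; omega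

theorem n2 (h : Crit G H r O m L) {u w a b : V} (hu : u ∈ H) (hw : w ∈ H) (huw : G.Adj u w)
    (ru : 2 ≤ r u) (rw0 : 0 < r w) (ha : a ∈ H \ {u, w}) (hb : b ∈ H \ {u, w})
    (hab : ¬ Reach G (H \ {u, w}) a b) : False := by
  have hA : ({u, w} : Finset V) ⊆ H := by simp [insert_subset_iff, hu, hw]
  have hat : Attached G r {u, w} := attached_of_pos (by simp; omega)
  have hc : ({u, w} : Finset V).card ≤ 3 := card_le_two.trans (by omega)
  have hd := dfc_pair (G := G) r huw
  by_cases h4 : 4 ≤ r u + r w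
  · exact h.sl1 hA hat hc (by omega) ha hb hab
  have key : ∀ z ∈ H \ {u, w}, (∀ t ∈ H, G.Adj z t → t ∈ ({u, w} : Finset V)) →
      5 ≤ r z + deg G {u, w} z → False := by
    intro z hz h1 h5
    have hzH := (mem_sdiff.1 hz).1
    have h3 := h.r3 hzH
    rw [deg_insert (by simpa using huw.ne), deg_singleton] at h5
    have hzu : G.Adj z u := by
      by_contra hn; simp only [hn, if_false] at h5; split_ifs at h5 <;> omega
    have hzw : G.Adj z w := by
      by_contra hn; simp only [hn, hzu, if_false, if_true] at h5; omega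
    simp only [hzu, hzw, if_true] at h5
    exact h.ra hzH hu hw (by omega) (by omega) hzu hzw huw.ne (fun t ht hzt => by
      simpa using h1 t ht hzt)
  rcases h.sl2 hA hat hc (by omega) ha hb hab with h1 | h1
  · exact key a ha h1.1 h1.2
  · exact key b hb h1.2.1 h1.2.2

theorem s1 (h : Crit G H r O m L) {u b1 b2 b3 : V} (hu : u ∈ H) (h1 : b1 ∈ H) (h2 : b2 ∈ H)
    (h3 : b3 ∈ H) (ru : 2 ≤ r u) (r1 : 0 < r b1) (r2 : 0 < r b2) (r3 : 0 < r b3)
    (a1 : G.Adj u b1) (a2 : G.Adj u b2) (a3 : G.Adj u b3)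
    (n12 : b1 ≠ b2) (n13 : b1 ≠ b3) (n23 : b2 ≠ b3) : False := by
  rcases m1_single h.mf h.apex hu h1 h2 h3 (by omega) r1 r2 r3 a1 a2 a3 n12 n13 n23 with
    hh | hh | hh
  · exact h.n2 hu h1 a1 ru r1 (by simp [h2, a2.ne.symm, n12.symm])
      (by simp [h3, a3.ne.symm, n13.symm]) hh
  · exact h.n2 hu h2 a2 ru r2 (by simp [h1, a1.ne.symm, n12])
      (by simp [h3, a3.ne.symm, n23.symm]) hh
  · exact h.n2 hu h3 a3 ru r3 (by simp [h1, a1.ne.symm, n13])
      (by simp [h2, a2.ne.symm, n23]) hh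

/-- neighbours of `v` with positive `r` -/
def bnb (G : SimpleGraph V) [DecidableRel G.Adj] (H : Finset V) (r : V → ℕ) (v : V) : Finset V :=
  (nbr G H v).filter (fun w => 0 < r w)

/-- neighbours of `v` with `r = 0` -/
def znb (G : SimpleGraph V) [DecidableRel G.Adj] (H : Finset V) (r : V → ℕ) (v : V) : Finset V :=
  (nbr G H v).filter (fun w => r w = 0)

theorem mem_bnb {v w : V} : w ∈ bnb G H r v ↔ w ∈ H ∧ G.Adj v w ∧ 0 < r w := by
  unfold bnb; rw [mem_filter, mem_nbr, and_assoc]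

theorem mem_znb {v w : V} : w ∈ znb G H r v ↔ w ∈ H ∧ G.Adj v w ∧ r w = 0 := by
  unfold znb; rw [mem_filter, mem_nbr, and_assoc]

theorem bnb_add_znb (v : V) : (bnb G H r v).card + (znb G H r v).card = deg G H v := by
  unfold bnb znb deg
  rw [← card_filter_add_card_filter_not (s := nbr G H v) (fun w => 0 < r w)]
  congr 2
  exact filter_congr (fun w _ => by omega)

theorem bnb_le (h : Crit G H r O m L) {u : V} (hu : u ∈ H) (ru : 2 ≤ r u) :
    (bnb G H r u).card ≤ 2 := by
  by_contra hc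
  obtain ⟨b1, h1, b2, h2, b3, h3, n12, n13, n23⟩ := two_lt_card.1 (not_le.1 hc)
  rw [mem_bnb] at h1 h2 h3
  exact h.s1 hu h1.1 h2.1 h3.1 ru h1.2.2 h2.2.2 h3.2.2 h1.2.1 h2.2.1 h3.2.1 n12 n13 n23

theorem r6 (h : Crit G H r O m L) {q x1 x2 y : V} (hq : q ∈ H) (h1 : x1 ∈ H) (h2 : x2 ∈ H)
    (hy : y ∈ H) (rq : r q = 1) (r1 : r x1 = 3) (r2 : r x2 = 3) (n12 : x1 ≠ x2)
    (a1 : G.Adj q x1) (a2 : G.Adj x2 q) (a3 : G.Adj x2 y) (hqy : q ≠ y)
    (hN : ∀ w ∈ H, G.Adj x2 w → w = q ∨ w = y) : False := by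
  obtain ⟨α, b1, b2, b3⟩ := h.avoids hq h2 (by omega)
  have hL1 : (L x1).card = 2 * m := by have := h.size x1 h1; rw [r1] at this; omega
  have hL2 : (L x2).card = 2 * m := by have := h.size x2 h2; rw [r2] at this; omega
  obtain ⟨β, c1, c2, c3⟩ := avoid (L x1) α m (by omega)
  have hy1 : y ≠ x1 := fun e => by have := h.no33 h2 hy a3 r2; rw [e] at this; omega
  obtain ⟨ψ, d1, d2, d3⟩ := valid_insert (G := G) (S := {q}) (φ := fun _ => α) (x := x1)
    (by simpa using a1.ne.symm) (valid_singleton b1) c1 (fun _ _ _ => c3)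
  have dq : ψ q = α := d2 q (by simp)
  have hyA : y ∈ H \ {x1, q, x2} := by simp [hy, hy1, hqy.symm, a3.ne.symm]
  have hpot : pot G r {x1, q, x2} ≤ 28 := by
    have := dfc_path (G := G) r a1.symm a2.symm n12
    rw [pot_triple r a1.ne.symm n12 a2.ne.symm, r1, r2, rq, phi1, phi3]
    rw [r1, r2, rq] at this; omega
  refine h.redN (A := {x1, q, x2}) (A1 := {x1, q}) (A2 := {x2}) (by ext; simp)
    (by simp [n12.symm, a2.ne]) (by simp [insert_subset_iff, hq, h1, h2]) (insert_nonempty _ _)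
    (attached_of_pos (by simp [r1, r2, rq])) ψ d1 (by simp [d3, dq, b2, c2])
    (fun χ e1 e2 e3 => ?_) (fun u hu => ?_) {y} (by simpa [a3.symm] using hyA) ∅ ∅ (by simp)
    (by simp) 0 (by simp) (by simp) (by omega) (by simp; omega)
  · refine fin1 (N := {y}) h2 e1 e3 (by simp [hy, a3.ne.symm]) (fun w hw hxw hn => ?_)
      (by simp; omega)
    rcases hN w hw hxw with e | e
    · rw [e, e2 q (by simp), dq]; exact b3.symm
    · exact absurd (by simp [e]) hn
  · have hu' := (mem_sdiff.1 hu).1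
    have := h.r3 hu'
    rw [deg_insert (by simpa using a1.ne.symm), deg_singleton]
    by_cases hh : G.Adj u x1
    · have := h.no33 h1 hu' hh.symm r1
      split_ifs <;> omega
    · simp only [hh, if_false]; split_ifs <;> omega

theorem exists_other (h : Crit G H r O m L) {x : V} (hx : x ∈ H) (rx : r x = 3) (q : V) :
    ∃ y ∈ H, G.Adj x y ∧ y ≠ q := by
  have := h.d5 hx
  obtain ⟨y, hy, hne⟩ := exists_mem_ne (s := nbr G H x) (by unfold deg at this; omega) q
  exact ⟨y, (mem_nbr.1 hy).1, (mem_nbr.1 hy).2, hne⟩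

theorem s3_aux (h : Crit G H r O m L) {x q w1 w2 : V} (hx : x ∈ H) (hq : q ∈ H) (h1 : w1 ∈ H)
    (h2 : w2 ∈ H) (rx : r x = 3) (rq : r q = 1) (hxq : G.Adj x q) (r1 : 0 < r w1)
    (a1 : G.Adj q w1) (a2 : G.Adj q w2) (n1 : w1 ≠ x) (n2 : w2 ≠ x) (n12 : w1 ≠ w2)
    (na1 : ¬ G.Adj x w1) (na2 : ¬ G.Adj x w2) (hs : ¬ Reach G (H \ {q, w1}) x w2) : False := by
  have hx' : x ∈ H \ {q, w1} := by simp [hx, hxq.ne, n1.symm]
  by_cases hr : 2 ≤ r w1
  · rw [pair_comm] at hs hx'
    exact h.n2 h1 hq a1.symm hr (by omega) hx' (by simp [h2, n12.symm, a2.ne.symm]) hs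
  have hsub : H \ {x, q, w1} ⊆ H \ {q, w1} := sdiff_subset_sdiff subset_rfl (subset_insert _ _)
  have hun : ∀ y ∈ H, G.Adj x y → y ≠ q → y ∈ H \ {x, q, w1} ∧
      ¬ Reach G (H \ {x, q, w1}) w2 y := fun y hy hxy hyq => by
    have hy1 : y ≠ w1 := fun e => na1 (e ▸ hxy)
    have hy' : y ∈ H \ {x, q, w1} := by simp [hy, hxy.ne.symm, hyq, hy1]
    exact ⟨hy', fun hh => hs (Reach.head hx' (hsub hy') hxy (hh.mono hsub).symm)⟩
  obtain ⟨y, hy, hxy, hyq⟩ := h.exists_other hx rx q
  have hd := dfc_path (G := G) r hxq a1 n1.symm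
  have hc : ({x, q, w1} : Finset V).card ≤ 3 := card_le_three
  rcases h.sl2 (A := {x, q, w1}) (by simp [insert_subset_iff, hx, hq, h1])
    (attached_of_pos (by simp [rx, rq, r1])) hc (by omega)
    (a := w2) (by simp [h2, n2, a2.ne.symm, n12.symm]) (hun y hy hxy hyq).1
    (hun y hy hxy hyq).2 with hh | hh
  · obtain ⟨b1, b2⟩ := hh
    have h3 := h.r3 h2
    rw [deg_insert (by simp [hxq.ne, n1.symm]), deg_insert (by simpa using a1.ne),
      deg_singleton, if_neg (show ¬ G.Adj w2 x from fun hh => na2 hh.symm),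
      if_pos a2.symm] at b2
    have a21 : G.Adj w2 w1 := by by_contra hn; simp only [hn, if_false] at b2; omega
    simp only [a21, if_true] at b2
    refine h.r6 hq hx h2 h1 rq rx (by omega) n2.symm hxq.symm a2.symm a21 a1.ne
      (fun w hw hww => ?_)
    have := b1 w hw hww
    simp only [mem_insert, mem_singleton] at this
    rcases this with e | e | e
    · exact absurd (e ▸ hww.symm) na2
    · exact Or.inl e
    · exact Or.inr e
  · obtain ⟨b1, _, b3⟩ := hh
    have := deg_le_card (G := G) {x, q, w1} y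
    have h3 := h.no33 hx hy hxy rx
    refine h.ra hx hy hq rx (by omega) hxy hxq hyq (fun w hw hxw => ?_)
    by_cases e : w = q
    · exact Or.inr e
    · exact Or.inl (b1 w (hun w hw hxw e).1 (hun w hw hxw e).2)

theorem s3 (h : Crit G H r O m L) {x q w1 w2 : V} (hx : x ∈ H) (hq : q ∈ H) (h1 : w1 ∈ H)
    (h2 : w2 ∈ H) (rx : r x = 3) (rq : r q = 1) (hxq : G.Adj x q) (r1 : 0 < r w1)
    (r2 : 0 < r w2) (a1 : G.Adj q w1) (a2 : G.Adj q w2) (n1 : w1 ≠ x) (n2 : w2 ≠ x)
    (na1 : ¬ G.Adj x w1) (na2 : ¬ G.Adj x w2) : w1 = w2 := by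
  by_contra n12
  rcases m1_single h.mf h.apex hq hx h1 h2 (by omega) (by omega) r1 r2 hxq.symm a1 a2 n1.symm
    n2.symm n12 with hh | hh | hh
  · rw [pair_comm] at hh
    exact h.n2 hx hq hxq (by omega) (by omega) (by simp [h1, n1, a1.ne.symm])
      (by simp [h2, n2, a2.ne.symm]) hh
  · exact h.s3_aux hx hq h1 h2 rx rq hxq r1 a1 a2 n1 n2 n12 na1 na2 hh
  · exact h.s3_aux hx hq h2 h1 rx rq hxq r2 a2 a1 n2 n1 (Ne.symm n12) na2 na1 hh

theorem rb (h : Crit G H r O m L) {x : V} (hx : x ∈ H) (rx : r x = 3) (Z Y : Finset V)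
    (hZ : ∀ u ∈ Z, u ∈ H ∧ G.Adj x u ∧ r u = 0) (hY : ∀ u ∈ Y, u ∈ H ∧ G.Adj x u ∧ r u = 1)
    (hg : 10 ≤ 7 * Z.card + 2 * Y.card) : False := by
  have hLx : (L x).card = 2 * m := by have := h.size x hx; rw [rx] at this; omega
  obtain ⟨α, a1, a2⟩ := exists_subset_card_eq (by omega : m ≤ (L x).card)
  have hpot : pot G r {x} = 10 := by rw [pot_singleton, rx, phi3]; rfl
  refine h.redN (A := {x}) (A1 := {x}) (A2 := ∅) (by simp) (by simp)
    (by simpa using hx) (singleton_nonempty _)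
    (attached_of_pos (by simp [rx])) (fun _ => α) (valid_singleton a1) (by simp [a2])
    (fun χ c1 _ c3 => ?_) (fun u hu => ?_) ∅ (by simp) Z Y
    (fun u hu => ⟨by simp [(hZ u hu).1, (hZ u hu).2.1.ne.symm], (hZ u hu).2.2,
      x, by simp, (hZ u hu).2.1.symm⟩)
    (fun u hu => ⟨by simp [(hY u hu).1, (hY u hu).2.1.ne.symm], (hY u hu).2.2,
      x, by simp, (hY u hu).2.1.symm⟩) 10 (by exact_mod_cast hg) (by omega) (by omega)
    (by simp; omega)
  · rw [sdiff_empty] at c1 c3
    exact ⟨χ, c1, fun v hv => (c3 v hv).ge⟩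
  · have := h.r3 (mem_sdiff.1 hu).1
    have := deg_le_card (G := G) {x} u
    simp only [card_singleton] at this; omega

theorem re (h : Crit G H r O m L) {x p : V} (hx : x ∈ H) (hp : p ∈ H) (rx : r x = 3)
    (rp : r p = 2) (hxp : G.Adj x p) : (znb G H r p).card ≤ 1 := by
  by_contra hc
  obtain ⟨α, a1, a2, a3⟩ := h.avoids hp hx (by omega)
  have hLx : (L x).card = 2 * m := by have := h.size x hx; rw [rx] at this; omega
  have hpot : pot G r {p} = 110 := by rw [pot_singleton, rp, phi2]; rfl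
  have hdeg : deg G {p} x = 1 := by rw [deg_singleton, if_pos hxp]
  refine h.redS (A := {p}) (by simpa using hp) (singleton_nonempty _)
    (attached_of_pos (by simp [rp])) (fun _ => α) (valid_singleton a1) (by simp [a2]) {x}
    (fun u hu => ?_) (fun u hu _ => ?_) (znb G H r p) (fun u hu => ?_) 14 (by omega) (by omega)
    (by omega) (by simp; omega)
  · rw [mem_singleton.1 hu]
    refine ⟨by simp [hx, hxp.ne], by omega, by omega, ?_⟩
    have : (L x).card ≤ (rem G {p} L (fun _ => α) x).card := card_le_card (fun c hc =>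
      mem_rem.2 ⟨hc, fun _ _ _ hh => disjoint_left.1 a3 hh hc⟩)
    rw [rx, hdeg]; omega
  · have := h.r3 (mem_sdiff.1 hu).1
    have := deg_le_card (G := G) {p} u
    simp only [card_singleton] at this; omega
  · rw [mem_znb] at hu
    refine ⟨by simp [hu.1, hu.2.1.ne.symm], fun e => ?_, hu.2.2, p, by simp, hu.2.1.symm⟩
    rw [mem_singleton.1 e] at hu; omega

end Crit

end Pool.Agent.PL5
end

-- merged part: Pool.Agent.Work.MP_db4788_co.E3
section
/-
Section 3 of the write-up: a vertex with `r = 3` and degree two.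
-/

set_option autoImplicit false
set_option linter.unusedSectionVars false
open Finset

namespace Pool.Agent.PL5

variable {V : Type} [DecidableEq V] {G : SimpleGraph V} [DecidableRel G.Adj]

namespace Crit

variable {H O : Finset V} {r : V → ℕ} {m : ℕ} {L : V → Finset ℕ}

theorem r5 (h : Crit G H r O m L) {x q y : V} (hx : x ∈ H) (hq : q ∈ H) (hy : y ∈ H)
    (rx : r x = 3) (rq : r q = 1) (ry : r y ≤ 1) (hxq : G.Adj x q) (hxy : G.Adj x y)
    (hqy : q ≠ y) (hN : ∀ w ∈ H, G.Adj x w → w = q ∨ w = y) : 5 ≤ deg G H q := by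
  by_contra hc
  have h5 := h.d5 hq
  have hA : ({x, q} : Finset V) ⊆ H := by simp [insert_subset_iff, hx, hq]
  have h1 := deg_sdiff_add (G := G) hA q
  rw [deg_insert (by simpa using hxq.ne), deg_singleton, if_neg (G.loopless.irrefl q),
    if_pos hxq.symm] at h1
  have hpot : pot G r {x, q} = 118 := by
    rw [pot_pair r hxq.ne, dfc_pair r hxq, rx, rq, phi1, phi3]; rfl
  exact h.redX (A := {x, q}) (A1 := ∅) (y := y) (by simp) (by simp) hA
    (attached_of_pos (by simp [rx, rq])) hxq.ne rx (by simp [hy, hxy.ne.symm, hqy.symm]) hxy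
    (fun _ => ∅) (valid_empty _ _) (by simp) (by simp)
    (fun w hw hxw => (hN w hw hxw).imp (fun e => by simp [e]) id) (by simp) (by omega)
    (fun u hu => by have := h.r3 (mem_sdiff.1 hu).1; rw [deg_empty]; omega)
    (Or.inl (by rw [deg_empty]; omega)) (by omega) (by omega)

theorem rc (h : Crit G H r O m L) {x q y : V} (hx : x ∈ H) (hq : q ∈ H) (hy : y ∈ H)
    (rx : r x = 3) (rq : r q = 1) (hxq : G.Adj x q) (hxy : G.Adj x y)
    (hqy : q ≠ y) (hN : ∀ w ∈ H, G.Adj x w → w = q ∨ w = y) (Z Y : Finset V)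
    (hZ : ∀ u ∈ Z, u ∈ H ∧ G.Adj q u ∧ r u = 0) (hY : ∀ u ∈ Y, u ∈ H ∧ G.Adj q u ∧ r u = 1)
    (hg : 18 ≤ 7 * Z.card + 2 * Y.card) : False := by
  obtain ⟨α, a1, a2, a3⟩ := h.avoids hq hx (by omega)
  have hLx : (L x).card = 2 * m := by have := h.size x hx; rw [rx] at this; omega
  have hyA : y ∈ H \ {q, x} := by simp [hy, hqy.symm, hxy.ne.symm]
  have hpot : pot G r {q, x} = 118 := by
    rw [pot_pair r hxq.ne.symm, dfc_pair r hxq.symm, rx, rq, phi1, phi3]; rfl
  have hm : ∀ u ∈ H, G.Adj q u → r u ≤ 1 → u ∈ H \ {q, x} := fun u hu hqu ru => by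
    have : u ≠ x := fun e => by rw [e] at ru; omega
    simp [hu, hqu.ne.symm, this]
  refine h.redN (A := {q, x}) (A1 := {q}) (A2 := {x}) rfl (by simpa using hxq.ne.symm)
    (by simp [insert_subset_iff, hq, hx]) (insert_nonempty _ _)
    (attached_of_pos (by simp [rx, rq])) (fun _ => α) (valid_singleton a1) (by simp [a2])
    (fun χ c1 c2 c3 => ?_) (fun u hu => ?_) {y} (by simpa [hxy.symm] using hyA) Z Y
    (fun u hu => ⟨hm u (hZ u hu).1 (hZ u hu).2.1 (by have := (hZ u hu).2.2; omega),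
      (hZ u hu).2.2, q, by simp, (hZ u hu).2.1.symm⟩)
    (fun u hu => ⟨hm u (hY u hu).1 (hY u hu).2.1 (by have := (hY u hu).2.2; omega),
      (hY u hu).2.2, q, by simp, (hY u hu).2.1.symm⟩) 18 (by exact_mod_cast hg) (by omega)
    (by omega) (by simp; omega)
  · refine fin1 (N := {y}) hx c1 c3 (by simp [hy, hxy.ne.symm]) (fun w hw hxw hn => ?_)
      (by simp; omega)
    rcases hN w hw hxw with e | e
    · rw [e, c2 q (by simp)]; exact a3.symm
    · exact absurd (by simp [e]) hn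
  · have := h.r3 (mem_sdiff.1 hu).1
    have := deg_le_card (G := G) {q} u
    simp only [card_singleton] at this; omega

theorem k2a (h : Crit G H r O m L) {x q y : V} (hx : x ∈ H) (hq : q ∈ H) (hy : y ∈ H)
    (rx : r x = 3) (rq : r q = 1) (ry : r y ≤ 1) (hxq : G.Adj x q) (hxy : G.Adj x y)
    (hqy : q ≠ y) (hN : ∀ w ∈ H, G.Adj x w → w = q ∨ w = y) :
    r y = 1 ∧ G.Adj q y ∧ 2 ≤ (znb G H r q).card ∧
      ∃ q' ∈ H, r q' = 2 ∧ G.Adj q q' ∧ ¬ G.Adj x q' ∧
        ∀ w ∈ H, G.Adj q w → 0 < r w → w = x ∨ w = y ∨ w = q' := by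
  have h5 := h.r5 hx hq hy rx rq ry hxq hxy hqy hN
  have hz : (znb G H r q).card ≤ 2 := by
    by_contra hc
    exact h.rc hx hq hy rx rq hxq hxy hqy hN (znb G H r q) ∅ (fun u hu => mem_znb.1 hu)
      (by simp) (by omega)
  have hsum := bnb_add_znb (G := G) (H := H) (r := r) q
  have hout : ∀ w ∈ bnb G H r q, w ≠ x → w ≠ y → ¬ G.Adj x w := fun w hw _ h2 hxw => by
    rw [mem_bnb] at hw
    rcases hN w hw.1 hxw with e | e
    · exact hw.2.1.ne e.symm
    · exact h2 e
  obtain ⟨q', hq', hq'n⟩ : ∃ q' ∈ bnb G H r q, q' ∉ ({x, y} : Finset V) := by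
    by_contra hc
    push Not at hc
    have := card_le_card (show bnb G H r q ⊆ {x, y} from hc)
    have : ({x, y} : Finset V).card ≤ 2 := card_le_two
    omega
  simp only [mem_insert, mem_singleton, not_or] at hq'n
  have hall : ∀ w ∈ bnb G H r q, w = x ∨ w = y ∨ w = q' := fun w hw => by
    by_cases e1 : w = x
    · exact Or.inl e1
    by_cases e2 : w = y
    · exact Or.inr (Or.inl e2)
    have b1 := mem_bnb.1 hw
    have b2 := mem_bnb.1 hq'
    exact Or.inr (Or.inr (h.s3 hx hq b1.1 b2.1 rx rq hxq b1.2.2 b2.2.2 b1.2.1 b2.2.1 e1 hq'n.1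
      (hout w hw e1 e2) (hout q' hq' hq'n.1 hq'n.2)))
  have hyb : y ∈ bnb G H r q := by
    by_contra hc
    have : bnb G H r q ⊆ {x, q'} := fun w hw => by
      rcases hall w hw with e | e | e
      · simp [e]
      · exact absurd (e ▸ hw) hc
      · simp [e]
    have := card_le_card this
    have : ({x, q'} : Finset V).card ≤ 2 := card_le_two
    omega
  have h3 : (bnb G H r q).card ≤ 3 := by
    have : bnb G H r q ⊆ {x, y, q'} := fun w hw => by simpa using hall w hw
    exact (card_le_card this).trans card_le_three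
  have b1 := mem_bnb.1 hyb
  have b2 := mem_bnb.1 hq'
  refine ⟨by omega, b1.2.1, by omega, q', b2.1, ?_, b2.2.1, hout q' hq' hq'n.1 hq'n.2,
    fun w hw hqw rw0 => hall w (mem_bnb.2 ⟨hw, hqw, rw0⟩)⟩
  have c1 : r q' ≠ 1 := fun e => h.rc hx hq hy rx rq hxq hxy hqy hN (znb G H r q) {y, q'}
    (fun u hu => mem_znb.1 hu) (fun u hu => by
      simp only [mem_insert, mem_singleton] at hu
      rcases hu with rfl | rfl
      · exact ⟨hy, b1.2.1, by omega⟩
      · exact ⟨b2.1, b2.2.1, e⟩) (by rw [card_pair (Ne.symm hq'n.2)]; omega)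
  have c3 : r q' ≠ 3 := fun e =>
    h.r6 hq b2.1 hx hy rq e rx hq'n.1 b2.2.1 hxq hxy hqy hN
  have := h.r3 b2.1
  omega

theorem r8 (h : Crit G H r O m L) {x q q' : V} (hx : x ∈ H) (hq : q ∈ H) (hq' : q' ∈ H)
    (rx : r x = 3) (rq : r q = 1) (rq' : r q' = 2) (hxq : G.Adj x q)
    (hqq : G.Adj q q') (hn : ¬ G.Adj x q') :
    4 ≤ deg G H q' := by
  by_contra hc
  have h5 := h.d5 hq'
  have hxq' : x ≠ q' := fun e => by rw [e] at rx; omega
  have hA : ({x, q, q'} : Finset V) ⊆ H := by simp [insert_subset_iff, hx, hq, hq']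
  have h1 := deg_sdiff_add (G := G) hA q'
  rw [deg_insert (by simp [hxq.ne, hxq']), deg_insert (by simpa using hqq.ne), deg_singleton,
    if_neg (G.loopless.irrefl q'), if_pos hqq.symm,
    if_neg (show ¬ G.Adj q' x from fun hh => hn hh.symm)] at h1
  obtain ⟨α, b1, b2, b3⟩ := h.avoids hq hq' (by omega)
  have hL1 : (L x).card = 2 * m := by have := h.size x hx; rw [rx] at this; omega
  have hL2 : (L q').card = 3 * m := by have := h.size q' hq'; rw [rq'] at this; omega
  obtain ⟨β, c1, c2, c3⟩ := avoid (L x) α m (by omega)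
  obtain ⟨ψ, d1, d2, d3⟩ := valid_insert (G := G) (S := {q}) (φ := fun _ => α) (x := x)
    (by simpa using hxq.ne) (valid_singleton b1) c1 (fun _ _ _ => c3)
  have dq : ψ q = α := d2 q (by simp)
  have hpot : pot G r {x, q, q'} ≤ 128 := by
    have := dfc_path (G := G) r hxq hqq hxq'
    rw [pot_triple r hxq.ne hxq' hqq.ne, rx, rq, rq', phi1, phi2, phi3]
    rw [rx, rq, rq'] at this; omega
  have hF : (nbr G (H \ {x, q, q'}) q').card = 2 := by unfold deg at h1 h5 hc; omega
  refine h.redN (A := {x, q, q'}) (A1 := {x, q}) (A2 := {q'}) (by ext; simp)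
    (by simp [hxq'.symm, hqq.ne.symm]) hA (insert_nonempty _ _)
    (attached_of_pos (by simp [rx, rq, rq'])) ψ d1 (by simp [d3, dq, b2, c2])
    (fun χ e1 e2 e3 => ?_) (fun u hu => ?_) (nbr G (H \ {x, q, q'}) q')
    (fun u hu => ⟨(mem_nbr.1 hu).1, q', by simp, (mem_nbr.1 hu).2.symm⟩) ∅ ∅ (by simp)
    (by simp) 0 (by simp) (by simp) (by omega) (by rw [hF]; omega)
  · refine fin1 (N := nbr G (H \ {x, q, q'}) q') hq' e1 e3
      ((nbr_subset _ _).trans (sdiff_subset_sdiff subset_rfl (by simp)))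
      (fun w hw hxw hnn => ?_) (by rw [hF]; omega)
    have : w ∈ ({x, q, q'} : Finset V) := by
      by_contra hc2
      exact hnn (mem_nbr.2 ⟨mem_sdiff.2 ⟨hw, hc2⟩, hxw⟩)
    simp only [mem_insert, mem_singleton] at this
    rcases this with e | e | e
    · exact absurd (e ▸ hxw.symm) hn
    · rw [e, e2 q (by simp), dq]; exact b3.symm
    · exact absurd e hxw.ne.symm
  · have hu' := (mem_sdiff.1 hu).1
    have := h.r3 hu'
    rw [deg_insert (by simpa using hxq.ne), deg_singleton]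
    by_cases hh : G.Adj u x
    · have := h.no33 hx hu' hh.symm rx
      split_ifs <;> omega
    · simp only [hh, if_false]; split_ifs <;> omega

theorem case2 (h : Crit G H r O m L) {x q p : V} (hx : x ∈ H) (hq : q ∈ H) (hp : p ∈ H)
    (rx : r x = 3) (rq : r q = 1) (rp' : r p ≤ 1) (hxq : G.Adj x q) (hxp : G.Adj x p)
    (hqp : q ≠ p) (hN : ∀ w ∈ H, G.Adj x w → w = q ∨ w = p) : False := by
  obtain ⟨rp, aqp, zq, q', hq', rq', aqq, nxq, _⟩ := h.k2a hx hq hp rx rq rp' hxq hxp hqp hN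
  obtain ⟨_, _, zp, p', hp', rp2, app, nxp, allp⟩ := h.k2a hx hp hq rx rp (by omega) hxp hxq
    hqp.symm (fun w hw hxw => (hN w hw hxw).symm)
  have d4 := h.r8 hx hq hq' rx rq rq' hxq aqq nxq
  have zq' : 2 ≤ (znb G H r q').card := by
    have := h.bnb_le hq' (by omega)
    have := bnb_add_znb (G := G) (H := H) (r := r) q'
    omega
  have npq' : p ≠ q' := fun e => by rw [e] at rp; omega
  have nxq' : x ≠ q' := fun e => by rw [e] at rx; omega
  have lk : ∀ z ∈ znb G H r q,
      (¬ Reach G (H \ {q, p}) q' z ∨ ¬ Reach G (H \ {q, q'}) p z) → False := by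
    intro z hz hh
    obtain ⟨hzH, aqz, rz⟩ := mem_znb.1 hz
    have n1 : z ≠ x := fun e => by rw [e] at rz; omega
    have n2 : z ≠ p := fun e => by rw [e] at rz; omega
    have n3 : z ≠ q' := fun e => by rw [e] at rz; omega
    rcases hh with hh | hh
    · have hd := dfc_tri (G := G) r hxq aqp hxp
      exact h.sl1 (A := {x, q, p}) (by simp [insert_subset_iff, hx, hq, hp])
        (attached_of_pos (by simp [rx, rq, rp])) card_le_three (by omega)
        (a := q') (b := z) (by simp [hq', nxq'.symm, aqq.ne.symm, npq'.symm])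
        (by simp [hzH, n1, n2, aqz.ne.symm])
        (fun h2 => hh (h2.mono (sdiff_subset_sdiff subset_rfl (subset_insert _ _))))
    · rw [pair_comm] at hh
      exact h.n2 hq' hq aqq.symm (by omega) (by omega) (by simp [hp, npq', hqp.symm])
        (by simp [hzH, n3, aqz.ne.symm]) hh
  have napq : ¬ G.Adj p q' := fun hh => by
    obtain ⟨z, hz⟩ := card_pos.1 (by omega : 0 < (znb G H r q).card)
    obtain ⟨hzH, aqz, rz⟩ := mem_znb.1 hz
    exact lk z hz (h.lk_adj hq hp hq' hzH (by omega) (by omega) (by omega) aqp aqq aqz hh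
      (fun e => by rw [e] at rz; omega) (fun e => by rw [e] at rz; omega))
  have hdis : Disjoint (znb G H r p) (znb G H r q') := by
    rw [disjoint_left]
    intro y h1 h2
    obtain ⟨hyH, apy, ry⟩ := mem_znb.1 h1
    obtain ⟨_, aqy, _⟩ := mem_znb.1 h2
    obtain ⟨z, hz, hzy⟩ := exists_mem_ne (s := znb G H r q) (by omega) y
    obtain ⟨hzH, aqz, rz⟩ := mem_znb.1 hz
    exact lk z hz (h.lk_common hq hp hq' hyH hzH (by omega) (by omega) (by omega) aqp aqq aqz
      npq' apy aqy (fun e => by rw [e] at ry; omega) (fun e => by rw [e] at rz; omega)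
      (fun e => by rw [e] at rz; omega) hzy)
  have np'q' : p' ≠ q' := fun e => napq (e ▸ app)
  have nqp' : q ≠ p' := fun e => by rw [e] at rq; omega
  have nxp' : x ≠ p' := fun e => by rw [e] at rx; omega
  have hLx : (L x).card = 2 * m := by have := h.size x hx; rw [rx] at this; omega
  have hLq : (L q).card = 4 * m := by have := h.size q hq; rw [rq] at this; omega
  have hLq' : (L q').card = 3 * m := by have := h.size q' hq'; rw [rq'] at this; omega
  have hLp' : (L p').card = 3 * m := by have := h.size p' hp'; rw [rp2] at this; omega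
  obtain ⟨α, a1, a2, a3⟩ := h.avoids hp hp' (by omega)
  obtain ⟨β, b1, b2, b3⟩ := avoid (L x) α m (by omega)
  obtain ⟨Γ, g1, g2, g3⟩ := avoid (L q) (α ∪ β) (2 * m)
    (by have := card_union_le α β; omega)
  obtain ⟨γ, c1, c2, c3⟩ := avoid (L q') Γ m (by omega)
  obtain ⟨ψ1, d1, d2, d3⟩ := valid_insert (G := G) (S := {p}) (φ := fun _ => α) (x := x)
    (by simpa using hxp.ne) (valid_singleton a1) b1 (fun _ _ _ => b3)
  obtain ⟨ψ, e1, e2, e3⟩ := valid_insert (G := G) (x := q') (α := γ)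
    (by simp [nxq'.symm, npq'.symm]) d1 c1 (fun w hw hh => by
      simp only [mem_insert, mem_singleton] at hw
      rcases hw with rfl | rfl
      · exact absurd hh.symm nxq
      · exact absurd hh.symm napq)
  have ex : ψ x = β := by rw [e2 x (by simp), d3]
  have ep : ψ p = α := by rw [e2 p (by simp), d2 p (by simp)]
  have hdeg : ∀ u, deg G {q', x, p} u = (if G.Adj u p then 1 else 0) +
      (if G.Adj u x then 1 else 0) + (if G.Adj u q' then 1 else 0) := fun u => by
    rw [deg_insert (by simp [nxq'.symm, npq'.symm]), deg_insert (by simpa using hxp.ne),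
      deg_singleton]
  have hpot : pot G r {q', x, p} ≤ 228 := by
    have h1 := dfc_insert (G := G) r (S := {x, p}) (a := q') (by simp [nxq'.symm, npq'.symm])
    rw [dfc_pair r hxp, rx, rp, rq'] at h1
    rw [pot_triple r nxq'.symm npq'.symm hxp.ne, rx, rp, rq', phi1, phi2, phi3]
    omega
  refine h.redS (A := {q', x, p}) (by simp [insert_subset_iff, hq', hx, hp])
    (insert_nonempty _ _) (attached_of_pos (by simp [rx, rp, rq'])) ψ e1
    (by simp [e3, ex, ep, a2, b2, c2]) {q, p'} (fun u hu => ?_) (fun u hu hu' => ?_)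
    (znb G H r p ∪ znb G H r q') (fun u hu => ?_) 28
    (by rw [card_union_of_disjoint hdis]; push_cast; omega) (by omega) (by omega)
    (by rw [card_pair nqp']; omega)
  · simp only [mem_insert, mem_singleton] at hu
    rcases hu with e | e
    · rw [e, hdeg, if_pos aqp, if_pos hxq.symm, if_pos aqq, rq]
      refine ⟨by simp [hq, aqq.ne, hxq.ne.symm, hqp], by omega, by omega, ?_⟩
      have : Γ.card ≤ (rem G {q', x, p} L ψ q).card := card_le_card (fun c hc =>
        mem_rem.2 ⟨g1 hc, fun w hw _ hh => by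
          simp only [mem_insert, mem_singleton] at hw
          rcases hw with rfl | rfl | rfl
          · exact disjoint_left.1 c3 (e3 ▸ hh) hc
          · exact disjoint_left.1 g3 hc (mem_union_right _ (ex ▸ hh))
          · exact disjoint_left.1 g3 hc (mem_union_left _ (ep ▸ hh))⟩)
      omega
    · rw [e, hdeg, if_pos app.symm, if_neg (show ¬ G.Adj p' x from fun hh => nxp hh.symm), rp2]
      have hs : ∀ S : Finset ℕ, (G.Adj p' q' → γ ⊆ S) →
          (L p' \ S).card ≤ (rem G {q', x, p} L ψ p').card := fun S hS => card_le_card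
        (fun c hc => mem_rem.2 ⟨(mem_sdiff.1 hc).1, fun w hw haw hh => by
          simp only [mem_insert, mem_singleton] at hw
          rcases hw with rfl | rfl | rfl
          · exact (mem_sdiff.1 hc).2 (hS haw (e3 ▸ hh))
          · exact nxp haw.symm
          · exact disjoint_left.1 a3 (ep ▸ hh) (mem_sdiff.1 hc).1⟩)
      refine ⟨by simp [hp', np'q', nxp'.symm, app.ne.symm], by omega, by split_ifs <;> omega, ?_⟩
      by_cases hh : G.Adj p' q'
      · have h1 := hs γ (fun _ => subset_rfl)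
        have h2 := le_card_sdiff γ (L p')
        rw [if_pos hh]; omega
      · have h1 := hs ∅ (fun h2 => absurd h2 hh)
        rw [sdiff_empty] at h1
        rw [if_neg hh]; omega
  · simp only [mem_sdiff, mem_insert, mem_singleton, not_or] at hu hu'
    have h3 := h.r3 hu.1
    have nux : ¬ G.Adj u x := fun hh => by
      rcases hN u hu.1 hh.symm with e | e
      · exact hu'.1 e
      · exact hu.2.2.2 e
    rw [hdeg, if_neg nux]
    by_cases hh : G.Adj u p
    · have : r u = 0 := by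
        by_contra h0
        rcases allp u hu.1 hh.symm (by omega) with e | e | e
        · exact hu.2.2.1 e
        · exact hu'.1 e
        · exact hu'.2 e
      split_ifs <;> omega
    · rw [if_neg hh]; split_ifs <;> omega
  · have h0 : u ∈ H ∧ r u = 0 ∧ ∃ a ∈ ({q', x, p} : Finset V), G.Adj u a := by
      rcases mem_union.1 hu with h1 | h1 <;> rw [mem_znb] at h1
      · exact ⟨h1.1, h1.2.2, p, by simp, h1.2.1.symm⟩
      · exact ⟨h1.1, h1.2.2, q', by simp, h1.2.1.symm⟩
    obtain ⟨h1, h2, h3⟩ := h0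
    have nn : ∀ w, 0 < r w → u ≠ w := fun w hw e => by rw [e] at h2; omega
    refine ⟨?_, ?_, h2, h3⟩
    · simp [h1, nn q' (by omega), nn x (by omega), nn p (by omega)]
    · simp [nn q (by omega), nn p' (by omega)]

end Crit

end Pool.Agent.PL5
end

-- merged part: Pool.Agent.Work.MP_db4788_co.E4
section
/-
Section 3 of the write-up: a vertex with `r = 3` and degree three.
-/

set_option autoImplicit false
set_option linter.unusedSectionVars false
open Finset

namespace Pool.Agent.PL5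

variable {V : Type} [DecidableEq V] {G : SimpleGraph V} [DecidableRel G.Adj]

namespace Crit

variable {H O : Finset V} {r : V → ℕ} {m : ℕ} {L : V → Finset ℕ}

theorem lk2_adj (h : Crit G H r O m L) {v a b z : V} (hv : v ∈ H) (ha : a ∈ H) (hb : b ∈ H)
    (hz : z ∈ H) (rv : 2 ≤ r v) (ra : 0 < r a) (rb : 0 < r b) (hva : G.Adj v a)
    (hvb : G.Adj v b) (hvz : G.Adj v z) (hab : G.Adj a b) (hza : z ≠ a) (hzb : z ≠ b) :
    False := by
  rcases h.lk_adj hv ha hb hz (by omega) ra rb hva hvb hvz hab hza hzb with hh | hh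
  · exact h.n2 hv ha hva rv ra (by simp [hb, hvb.ne.symm, hab.ne.symm])
      (by simp [hz, hvz.ne.symm, hza]) hh
  · exact h.n2 hv hb hvb rv rb (by simp [ha, hva.ne.symm, hab.ne])
      (by simp [hz, hvz.ne.symm, hzb]) hh

theorem lk2_common (h : Crit G H r O m L) {v a b y z : V} (hv : v ∈ H) (ha : a ∈ H)
    (hb : b ∈ H) (hy : y ∈ H) (hz : z ∈ H) (rv : 2 ≤ r v) (ra : 0 < r a) (rb : 0 < r b)
    (hva : G.Adj v a) (hvb : G.Adj v b) (hvz : G.Adj v z) (hab : a ≠ b) (hay : G.Adj a y)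
    (hby : G.Adj b y) (hyv : y ≠ v) (hza : z ≠ a) (hzb : z ≠ b) (hzy : z ≠ y) : False := by
  rcases h.lk_common hv ha hb hy hz (by omega) ra rb hva hvb hvz hab hay hby hyv hza hzb hzy
    with hh | hh
  · exact h.n2 hv ha hva rv ra (by simp [hb, hvb.ne.symm, hab.symm])
      (by simp [hz, hvz.ne.symm, hza]) hh
  · exact h.n2 hv hb hvb rv rb (by simp [ha, hva.ne.symm, hab])
      (by simp [hz, hvz.ne.symm, hzb]) hh

theorem re2 (h : Crit G H r O m L) {x p : V} (hx : x ∈ H) (hp : p ∈ H) (rx : r x = 3)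
    (rp : r p = 2) (hxp : G.Adj x p) :
    deg G H p = 3 ∧ ∃ w ∈ H, ∃ z ∈ H, G.Adj p w ∧ G.Adj p z ∧ 0 < r w ∧ r z = 0 ∧ w ≠ x ∧
      ∀ u ∈ H, G.Adj p u → u = x ∨ u = w ∨ u = z := by
  have h1 := h.re hx hp rx rp hxp
  have h2 := h.bnb_le hp (by omega)
  have h3 := bnb_add_znb (G := G) (H := H) (r := r) p
  have h5 := h.d5 hp
  obtain ⟨z, hz⟩ := card_eq_one.1 (by omega : (znb G H r p).card = 1)
  obtain ⟨w, hw, hwx⟩ := exists_mem_ne (s := bnb G H r p) (by omega) x
  have hxb : x ∈ bnb G H r p := mem_bnb.2 ⟨hx, hxp.symm, by omega⟩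
  have hb : ({x, w} : Finset V) = bnb G H r p :=
    eq_of_subset_of_card_le (by simp [insert_subset_iff, hxb, hw])
      (by rw [card_pair hwx.symm]; omega)
  have hz' : z ∈ znb G H r p := by rw [hz]; exact mem_singleton_self z
  rw [mem_bnb] at hw
  rw [mem_znb] at hz'
  refine ⟨by omega, w, hw.1, z, hz'.1, hw.2.1, hz'.2.1, hw.2.2, hz'.2.2, hwx,
    fun u hu hpu => ?_⟩
  by_cases h0 : r u = 0
  · have : u ∈ znb G H r p := mem_znb.2 ⟨hu, hpu, h0⟩
    rw [hz, mem_singleton] at this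
    exact Or.inr (Or.inr this)
  · have : u ∈ bnb G H r p := mem_bnb.2 ⟨hu, hpu, by omega⟩
    rw [← hb, mem_insert, mem_singleton] at this
    exact this.imp id Or.inl

theorem r7 (h : Crit G H r O m L) {x p q c : V} (hx : x ∈ H) (hp : p ∈ H) (hq : q ∈ H)
    (hc : c ∈ H) (rx : r x = 3) (rp : r p = 2) (rq : 0 < r q) (rc : r c = 0)
    (hxp : G.Adj x p) (hxq : G.Adj x q) (hxc : G.Adj x c) (hpq : p ≠ q) (npq : ¬ G.Adj p q)
    (hN : ∀ w ∈ H, G.Adj x w → w = p ∨ w = q ∨ w = c) : 6 ≤ r q + deg G H q := by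
  by_contra hlt
  have h5 := h.d5 hq
  have hA : ({p, x, q} : Finset V) ⊆ H := by simp [insert_subset_iff, hx, hq, hp]
  have h1 := deg_sdiff_add (G := G) hA q
  rw [deg_insert (by simp [hxp.ne.symm, hpq]), deg_insert (by simpa using hxq.ne),
    deg_singleton, if_neg (G.loopless.irrefl q), if_pos hxq.symm,
    if_neg (show ¬ G.Adj q p from fun hh => npq hh.symm)] at h1
  have r2 := h.no33 hx hq hxq rx
  have hpot : pot G r {p, x, q} ≤ 230 - 100 * r q := by
    have h2 := dfc_path (G := G) r hxp.symm hxq hpq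
    have h3 := phi_le (r q)
    rw [pot_triple r hxp.ne.symm hpq hxq.ne, rx, rp, phi2, phi3]
    rw [rx, rp] at h2; omega
  obtain ⟨α, a1, a2, a3⟩ := h.avoids hp hx (by omega)
  have n1 : c ≠ p := fun e => by rw [e] at rc; omega
  have n2 : c ≠ q := fun e => by rw [e] at rc; omega
  exact h.redX (A := {p, x, q}) (A1 := {p}) (y := c) rfl (by simp [hxp.ne.symm, hpq]) hA
    (attached_of_pos (by simp [rx, rq, rp])) hxq.ne rx (by simp [hc, hxc.ne.symm, n1, n2]) hxc
    (fun _ => α) (valid_singleton a1) (by simp [a2]) (fun _ _ => a3.symm)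
    (fun w hw hxw => by
      rcases hN w hw hxw with e | e | e
      · exact Or.inl (by simp [e])
      · exact Or.inl (by simp [e])
      · exact Or.inr e)
    (fun a ha hh => npq (mem_singleton.1 ha ▸ hh.symm)) (by omega)
    (fun u hu => by
      have := h.r3 (mem_sdiff.1 hu).1
      have := deg_le_card (G := G) {p} u
      simp only [card_singleton] at this; omega)
    (Or.inr ⟨rc, by simp⟩) (by omega) (by omega)

theorem rf (h : Crit G H r O m L) {x p q c z : V} (hx : x ∈ H) (hp : p ∈ H) (hq : q ∈ H)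
    (hc : c ∈ H) (hz : z ∈ H) (rx : r x = 3) (rp : r p = 2) (rq : r q = 1) (rc : r c = 0)
    (rz : r z = 0) (hxp : G.Adj x p) (hxq : G.Adj x q) (hxc : G.Adj x c) (hpz : G.Adj p z)
    (npq : ¬ G.Adj p q) (hzc : z ≠ c)
    (hN : ∀ w ∈ H, G.Adj x w → w = p ∨ w = q ∨ w = c)
    (hcom : ∀ y ∈ H, G.Adj p y → G.Adj q y → y ≠ x → y = c)
    (h3 : 3 ≤ (znb G H r q).card) : False := by
  have hpq : p ≠ q := fun e => by rw [e] at rp; omega
  obtain ⟨α, a1, a2, a3⟩ := h.avoids hp hx (by omega)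
  obtain ⟨β, b1, b2, b3⟩ := h.avoids hq hx (by omega)
  have hLx : (L x).card = 2 * m := by have := h.size x hx; rw [rx] at this; omega
  obtain ⟨ψ, d1, d2, d3⟩ := valid_insert (G := G) (S := {q}) (φ := fun _ => β) (x := p)
    (by simpa using hpq) (valid_singleton b1) a1
    (fun w hw hh => absurd (mem_singleton.1 hw ▸ hh) npq)
  have dq : ψ q = β := d2 q (by simp)
  have nn : ∀ u, r u = 0 → u ∈ H → u ∈ H \ {p, q, x} := fun u h0 hu => by
    have n1 : ∀ w, 0 < r w → u ≠ w := fun w hw e => by rw [e] at h0; omega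
    simp [hu, n1 p (by omega), n1 q (by omega), n1 x (by omega)]
  have hpot : pot G r {p, q, x} ≤ 128 := by
    have h2 := dfc_path (G := G) r hxp.symm hxq hpq
    rw [pair_comm x q] at h2
    rw [pot_triple r hpq hxp.ne.symm hxq.ne.symm, rx, rp, rq, phi1, phi2, phi3]
    rw [rx, rp, rq] at h2; omega
  have hzq : z ∉ znb G H r q := fun hh =>
    hzc (hcom z hz hpz (mem_znb.1 hh).2.1 (fun e => by rw [e] at rz; omega))
  refine h.redN (A := {p, q, x}) (A1 := {p, q}) (A2 := {x}) (by ext; simp)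
    (by simp [hxp.ne, hxq.ne]) (by simp [insert_subset_iff, hq, hp, hx]) (insert_nonempty _ _)
    (attached_of_pos (by simp [rx, rp, rq])) ψ d1 (by simp [d3, dq, a2, b2])
    (fun χ e1 e2 e3 => ?_) (fun u hu => ?_) {c} (by simpa [hxc.symm] using nn c rc hc)
    (insert z (znb G H r q)) ∅ (fun u hu => ?_) (by simp) 28
    (by rw [card_insert_of_notMem hzq]; simp; omega) (by omega) (by omega) (by simp; omega)
  · refine fin1 (N := {c}) hx e1 e3 (by simp [hc, hxc.ne.symm]) (fun w hw hxw hn => ?_)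
      (by simp; omega)
    rcases hN w hw hxw with e | e | e
    · rw [e, e2 p (by simp), d3]; exact a3.symm
    · rw [e, e2 q (by simp), dq]; exact b3.symm
    · exact absurd (by simp [e]) hn
  · simp only [mem_sdiff, mem_insert, mem_singleton, not_or] at hu
    have := h.r3 hu.1
    rw [deg_insert (by simpa using hpq), deg_singleton]
    by_cases h1 : G.Adj u p <;> by_cases h2 : G.Adj u q
    · have := hcom u hu.1 h1.symm h2.symm hu.2.2.2
      rw [this, rc]; split_ifs <;> omega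
    · rw [if_pos h1, if_neg h2]; omega
    · rw [if_neg h1, if_pos h2]; omega
    · rw [if_neg h1, if_neg h2]; omega
  · rcases mem_insert.1 hu with e | e
    · rw [e]; exact ⟨nn z rz hz, rz, p, by simp, hpz.symm⟩
    · rw [mem_znb] at e
      exact ⟨nn u e.2.2 e.1, e.2.2, q, by simp, e.2.1.symm⟩

theorem rtri (h : Crit G H r O m L) {x p q c w : V} (hx : x ∈ H) (hp : p ∈ H) (hq : q ∈ H)
    (hc : c ∈ H) (hw : w ∈ H) (rx : r x = 3) (rp : r p = 2) (rq : r q = 1) (rc : r c = 0)
    (rw0 : 0 < r w) (hxp : G.Adj x p) (hxq : G.Adj x q) (hxc : G.Adj x c) (hpc : G.Adj p c)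
    (hpw : G.Adj p w) (hwx : w ≠ x) (npq : ¬ G.Adj p q)
    (hN : ∀ u ∈ H, G.Adj x u → u = p ∨ u = q ∨ u = c)
    (hNp : ∀ u ∈ H, G.Adj p u → u = x ∨ u = w ∨ u = c) : False := by
  have hpq : p ≠ q := fun e => by rw [e] at rp; omega
  have hwq : w ≠ q := fun e => npq (e ▸ hpw)
  have hwc : w ≠ c := fun e => by rw [e] at rw0; omega
  have hqc : q ≠ c := fun e => by rw [e] at rq; omega
  have hLx : (L x).card = 2 * m := by have := h.size x hx; rw [rx] at this; omega
  have hLp : (L p).card = 3 * m := by have := h.size p hp; rw [rp] at this; omega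
  have hLc : (L c).card = 5 * m := by have := h.size c hc; rw [rc] at this; omega
  have k1 := le_card_sdiff (L x) (L c)
  obtain ⟨α, a1, a2, a3⟩ := pref (L c \ L x) (L p) m (by omega)
  have k2 : (L p ∩ L x).card ≤ ((L c \ L x) \ L p).card := by
    have e : (L c \ L x) \ L p = L c \ (L p ∪ L x) := by
      ext; simp only [mem_sdiff, mem_union]; tauto
    have := le_card_sdiff (L p ∪ L x) (L c)
    have := card_union_add_card_inter (L p) (L x)
    rw [e]; omega
  have ax : Disjoint α (L x) := disjoint_of_subset_left a1 sdiff_disjoint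
  have hpot : pot G r {c, p, x} = 121 := by
    rw [pot_triple r hpc.ne.symm hxc.ne.symm hxp.ne.symm, dfc_tri r hpc.symm hxp.symm hxc.symm,
      rx, rp, rc, phi0, phi2, phi3]; rfl
  have hwA : w ∈ H \ {p, x} := by simp [hw, hpw.ne.symm, hwx]
  have hqA : q ∈ H \ {p, x} := by simp [hq, hpq.symm, hxq.ne.symm]
  refine h.redN (A := {c, p, x}) (A1 := {c}) (A2 := {p, x}) rfl
    (by simp [hpc.ne.symm, hxc.ne.symm]) (by simp [insert_subset_iff, hc, hp, hx])
    (insert_nonempty _ _) (attached_of_adj (fun v hv => ?_)) (fun _ => α)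
    (valid_singleton (a1.trans sdiff_subset)) (by simp [a2])
    (fun χ e1 e2 e3 => ?_) (fun u hu => ?_) {w, q} (fun u hu => ?_) ∅ ∅ (by simp) (by simp) 0
    (by simp) (by omega) (by omega) (by rw [card_pair hwq]; omega)
  · simp only [mem_insert, mem_singleton] at hv
    rcases hv with e | e | e
    · exact Or.inr ⟨x, by simp, by omega, e ▸ hxc.symm⟩
    · exact Or.inl (by rw [e]; omega)
    · exact Or.inl (by rw [e]; omega)
  · have ec : χ c = α := e2 c (by simp)
    have cw := e3 w hwA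
    have cq := e3 q hqA
    have m1 := le_card_sdiff (χ w) (L p \ α)
    have m2 := card_sdiff_add_card_inter (L p) α
    have m3 := le_card_sdiff (χ q) (L x)
    rw [inter_comm] at m2
    have m4 : 2 * m ≤ ((L p \ α) \ χ w ∪ L x \ χ q).card := by
      by_cases ht : m ≤ (L p ∩ L x).card
      · have := card_le_card (subset_union_left (s₁ := (L p \ α) \ χ w) (s₂ := L x \ χ q))
        omega
      · have s1 : (L p ∪ L x) \ (α ∩ L p ∪ χ w ∪ χ q) ⊆ (L p \ α) \ χ w ∪ L x \ χ q := by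
          intro t ht
          simp only [mem_sdiff, mem_union, mem_inter, not_or, not_and] at ht ⊢
          rcases ht.1 with h1 | h1
          · exact Or.inl ⟨⟨h1, fun h2 => ht.2.1.1 h2 h1⟩, ht.2.1.2⟩
          · exact Or.inr ⟨h1, ht.2.2⟩
        have s2 := card_le_card s1
        have s3 := le_card_sdiff (α ∩ L p ∪ χ w ∪ χ q) (L p ∪ L x)
        have s4 := card_union_le (α ∩ L p ∪ χ w) (χ q)
        have s5 := card_union_le (α ∩ L p) (χ w)
        have s6 := card_union_add_card_inter (L p) (L x)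
        omega
    obtain ⟨αp, f1, αx, f2, f3, f4, f5⟩ := pair_hall ((L p \ α) \ χ w) (L x \ χ q) m (by omega)
      (by omega) m4
    obtain ⟨χ1, g1, g2, g3⟩ := valid_insert (x := p) (α := αp) (by simp) e1
      (f1.trans (sdiff_subset.trans sdiff_subset)) (fun u hu hpu => by
        simp only [mem_sdiff, mem_insert, mem_singleton, not_or] at hu
        rcases hNp u hu.1 hpu with e | e | e
        · exact absurd e hu.2.2
        · rw [e]; exact disjoint_of_subset_left f1 sdiff_disjoint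
        · rw [e, ec]; exact disjoint_of_subset_left (f1.trans sdiff_subset) sdiff_disjoint)
    have hcA : c ∈ H \ {p, x} := by simp [hc, hpc.ne.symm, hxc.ne.symm]
    obtain ⟨χ2, j1, j2, j3⟩ := valid_insert (x := x) (α := αx) (by simp [hxp.ne]) g1
      (f2.trans sdiff_subset) (fun u hu hxu => by
        have huH : u ∈ H := by
          rcases mem_insert.1 hu with e | e
          · exact e ▸ hp
          · exact (mem_sdiff.1 e).1
        rcases hN u huH hxu with e | e | e
        · rw [e, g3]; exact f5.symm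
        · rw [e, g2 q hqA]; exact disjoint_of_subset_left f2 sdiff_disjoint
        · rw [e, g2 c hcA, ec]; exact (ax.mono_right (f2.trans sdiff_subset)).symm)
    refine ⟨χ2, j1.mono_set (fun u hu => ?_), fun u hu => ?_⟩
    · by_cases e1 : u = x
      · simp [e1]
      by_cases e2 : u = p
      · simp [e2]
      simp [hu, e1, e2]
    · by_cases e1 : u = x
      · rw [e1, j3, f4]
      by_cases e2 : u = p
      · rw [e2, j2 p (by simp), g3, f3]
      have : u ∈ H \ {p, x} := by simp [hu, e1, e2]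
      rw [j2 u (mem_insert_of_mem this), g2 u this, e3 u this]
  · have := h.r3 (mem_sdiff.1 hu).1
    have := deg_le_card (G := G) {c} u
    simp only [card_singleton] at this; omega
  · simp only [mem_insert, mem_singleton] at hu
    rcases hu with e | e
    · rw [e]; exact ⟨by simp [hw, hwc, hpw.ne.symm, hwx], p, by simp, hpw.symm⟩
    · rw [e]; exact ⟨by simp [hq, hqc, hpq.symm, hxq.ne.symm], x, by simp, hxq.symm⟩

theorem case3 (h : Crit G H r O m L) {x p q c : V} (hx : x ∈ H) (hp : p ∈ H) (hq : q ∈ H)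
    (hc : c ∈ H) (rx : r x = 3) (rp : r p = 2) (rq : 0 < r q) (rc : r c = 0)
    (hxp : G.Adj x p) (hxq : G.Adj x q) (hxc : G.Adj x c) (hpq : p ≠ q)
    (hN : ∀ w ∈ H, G.Adj x w → w = p ∨ w = q ∨ w = c) : False := by
  have n1 : c ≠ p := fun e => by rw [e] at rc; omega
  have n2 : c ≠ q := fun e => by rw [e] at rc; omega
  have npq : ¬ G.Adj p q := fun hh =>
    h.lk2_adj hx hp hq hc (by omega) (by omega) rq hxp hxq hxc hh n1 n2
  have hcom : ∀ y ∈ H, G.Adj p y → G.Adj q y → y ≠ x → y = c := fun y hy h1 h2 h3 => by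
    by_contra hne
    exact h.lk2_common hx hp hq hy hc (by omega) (by omega) rq hxp hxq hxc hpq h1 h2 h3 n1 n2
      (Ne.symm hne)
  have h6 := h.r7 hx hp hq hc rx rp rq rc hxp hxq hxc hpq npq hN
  have r2 := h.no33 hx hq hxq rx
  have rq1 : r q = 1 := by
    by_contra hne
    have := (h.re2 hx hq rx (by omega) hxq).1
    omega
  have hout : ∀ w ∈ bnb G H r q, w ≠ x → ¬ G.Adj x w := fun w hw _ hxw => by
    rw [mem_bnb] at hw
    rcases hN w hw.1 hxw with e | e | e
    · exact npq (e ▸ hw.2.1.symm)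
    · exact hw.2.1.ne e.symm
    · rw [e] at hw; omega
  have hb : ((bnb G H r q).erase x).card ≤ 1 := card_le_one.2 (fun a ha b hb => by
    obtain ⟨a1, a2⟩ := mem_erase.1 ha
    obtain ⟨b1, b2⟩ := mem_erase.1 hb
    have a3 := mem_bnb.1 a2
    have b3 := mem_bnb.1 b2
    exact h.s3 hx hq a3.1 b3.1 rx rq1 hxq a3.2.2 b3.2.2 a3.2.1 b3.2.1 a1 b1 (hout a a2 a1)
      (hout b b2 b1))
  have hb2 := pred_card_le_card_erase (s := bnb G H r q) (a := x)
  have hs := bnb_add_znb (G := G) (H := H) (r := r) q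
  obtain ⟨_, w, hw, z, hz, apw, apz, rw0, rz, hwx, hNp⟩ := h.re2 hx hp rx rp hxp
  by_cases e : z = c
  · subst e
    exact h.rtri hx hp hq hc hw rx rp rq1 rc rw0 hxp hxq hxc apz apw hwx npq hN hNp
  · exact h.rf hx hp hq hc hz rx rp rq1 rc rz hxp hxq hxc apz npq e hN hcom (by omega)

theorem no3 (h : Crit G H r O m L) {x : V} (hx : x ∈ H) : r x ≤ 2 := by
  by_contra hne
  have rx : r x = 3 := by have := h.r3 hx; omega
  have hb := h.bnb_le hx (by omega)
  have hs := bnb_add_znb (G := G) (H := H) (r := r) x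
  have h5 := h.d5 hx
  have hz : (znb G H r x).card ≤ 1 := by
    by_contra hc
    exact h.rb hx rx (znb G H r x) ∅ (fun u hu => mem_znb.1 hu) (by simp) (by omega)
  by_cases h2 : deg G H x = 2
  · obtain ⟨a, b, hab, e⟩ := card_eq_two.1 (show (nbr G H x).card = 2 from h2)
    have ha : a ∈ nbr G H x := by rw [e]; simp
    have hb : b ∈ nbr G H x := by rw [e]; simp
    rw [mem_nbr] at ha hb
    have hN : ∀ w ∈ H, G.Adj x w → w = a ∨ w = b := fun w hw hxw => by
      have : w ∈ nbr G H x := mem_nbr.2 ⟨hw, hxw⟩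
      simpa [e] using this
    have hN' : ∀ w ∈ H, G.Adj x w → w = b ∨ w = a := fun w hw hxw => (hN w hw hxw).symm
    have ra2 := h.no33 hx ha.1 ha.2 rx
    have rb2 := h.no33 hx hb.1 hb.2 rx
    have ra1 : r a ≠ 2 := fun e => h.ra hx ha.1 hb.1 rx e ha.2 hb.2 hab hN
    have rb1 : r b ≠ 2 := fun e => h.ra hx hb.1 ha.1 rx e hb.2 ha.2 hab.symm hN'
    by_cases e1 : r a = 1
    · exact h.case2 hx ha.1 hb.1 rx e1 (by omega) ha.2 hb.2 hab hN
    by_cases e2 : r b = 1
    · exact h.case2 hx hb.1 ha.1 rx e2 (by omega) hb.2 ha.2 hab.symm hN'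
    have := one_lt_card.2 ⟨a, mem_znb.2 ⟨ha.1, ha.2, by omega⟩, b,
      (mem_znb (r := r)).2 ⟨hb.1, hb.2, by omega⟩, hab⟩
    omega
  · obtain ⟨a, b, hab, e⟩ := card_eq_two.1 (by omega : (bnb G H r x).card = 2)
    obtain ⟨c, e'⟩ := card_eq_one.1 (by omega : (znb G H r x).card = 1)
    have ha : a ∈ bnb G H r x := by rw [e]; simp
    have hb : b ∈ bnb G H r x := by rw [e]; simp
    have hc : c ∈ znb G H r x := by rw [e']; simp
    rw [mem_bnb] at ha hb
    rw [mem_znb] at hc
    have hN : ∀ w ∈ H, G.Adj x w → w = a ∨ w = b ∨ w = c := fun w hw hxw => by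
      by_cases h0 : r w = 0
      · have : w ∈ znb G H r x := mem_znb.2 ⟨hw, hxw, h0⟩
        rw [e', mem_singleton] at this
        exact Or.inr (Or.inr this)
      · have : w ∈ bnb G H r x := mem_bnb.2 ⟨hw, hxw, by omega⟩
        rw [e, mem_insert, mem_singleton] at this
        exact this.imp id Or.inl
    have ra2 := h.no33 hx ha.1 ha.2.1 rx
    have rb2 := h.no33 hx hb.1 hb.2.1 rx
    by_cases e1 : r a = 2
    · exact h.case3 hx ha.1 hb.1 hc.1 rx e1 hb.2.2 hc.2.2 ha.2.1 hb.2.1 hc.2.1 hab hN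
    by_cases e2 : r b = 2
    · exact h.case3 hx hb.1 ha.1 hc.1 rx e2 ha.2.2 hc.2.2 hb.2.1 ha.2.1 hc.2.1 hab.symm
        (fun w hw hxw => by have := hN w hw hxw; tauto)
    refine h.rb hx rx {c} {a, b} (fun u hu => by rw [mem_singleton.1 hu]; exact hc)
      (fun u hu => ?_) (by rw [card_pair hab]; simp)
    simp only [mem_insert, mem_singleton] at hu
    rcases hu with rfl | rfl
    · exact ⟨ha.1, ha.2.1, by omega⟩
    · exact ⟨hb.1, hb.2.1, by omega⟩

theorem false (h : Crit G H r O m L) : False := by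
  obtain ⟨u0, _⟩ := card_pos.1 (by have := h.card5; omega : 0 < H.card)
  exact h.ncol (th1 h.mf h.apex u0 (fun u hu => Or.inl (h.no3 hu)) m L h.lists)

end Crit

end Pool.Agent.PL5
end

-- merged part: Pool.Agent.Work.MP_db4788_co.T1
section
/-
Section 4 of the write-up: T1 and W2.
-/

set_option autoImplicit false
set_option linter.unusedSectionVars false
open Finset

namespace Pool.Agent.PL5

variable {V : Type} [DecidableEq V] {G : SimpleGraph V} [DecidableRel G.Adj]

theorem t1 {n K M m : ℕ} (hR : Robust G n K M) {H O U : Finset V} {r : V → ℕ}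
    {L : V → Finset ℕ} {s : V} (hA : Apex G H r O) (hC : InClass G H r) (hn : H.card ≤ n + 1)
    (hm : M ≤ m) (hL : Lists H r m L) (hU : U ⊆ H) (hne : U.Nonempty) (hs : s ∈ H \ U)
    (hsU : ∀ u ∈ U, ¬ G.Adj s u) (hsT : ¬ InTV G H r s) (hE : Extends G H U L m) :
    Win G H L m K := by
  have hcard : (H \ U).card ≤ n := by
    have h1 := card_sdiff_add_card_eq_card hU
    have h2 := hne.card_pos
    omega
  obtain ⟨φ, v1, c1, c2⟩ := hR (H \ U) r O (hA.mono sdiff_subset) (hC.mono sdiff_subset) hcard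
    m hm L (hL.mono sdiff_subset)
  obtain ⟨φ0, h0⟩ := exists_trim (H \ U) φ (fun _ => m) c1
  obtain ⟨ψ, b1, b2, b3⟩ := hE φ0 (v1.shrink (fun v hv => (h0 v hv).1)) (fun v hv => (h0 v hv).2)
  have v2 : Valid G (H \ U) L (fun v => if v = s then φ v else φ0 v) :=
    v1.shrink (fun v hv => by
      by_cases h : v = s
      · simp only [if_pos h]; exact subset_rfl
      · simp only [if_neg h]; exact (h0 v hv).1)
  obtain ⟨χ, d1, d2, d3⟩ := glue sdiff_disjoint v2 b1 (fun u hu w hw huw => by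
    have h : w ≠ s := fun h => hsU u hu (h ▸ huw.symm)
    simp only [if_neg h]
    exact b3 u hu w hw huw)
  rw [sdiff_union_of_subset hU] at d1
  refine ⟨χ, d1, fun v hv => ?_, s, (mem_sdiff.1 hs).1, ?_⟩
  · by_cases hvU : v ∈ U
    · rw [d3 v hvU]; exact b2 v hvU
    · have hv' : v ∈ H \ U := mem_sdiff.2 ⟨hv, hvU⟩
      rw [d2 v hv']
      by_cases h : v = s
      · simp only [if_pos h]; exact c1 v hv'
      · simp only [if_neg h]; exact (h0 v hv').2.ge
  · rw [d2 s hs]
    simp only [if_true]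
    exact c2 s hs (fun h => hsT (h.mono sdiff_subset))

theorem w2 (hG : MinorFree G) {K m : ℕ} {H O : Finset V} {r : V → ℕ} {L : V → Finset ℕ}
    (hA : Apex G H r O) (hr : ∀ u ∈ H, r u ≤ 2) {v : V} (hv : v ∈ H)
    (hvB : 0 < r v ∨ ∀ u ∈ H, r u = 0) (w : V) (hw : ∀ u ∈ H, G.Adj v u → 0 < r u → u = w)
    (hK : K ≤ m) (hL : Lists H r m L) : Win G H L m K := by
  have hLv : 2 * m ≤ (L v).card := by
    have h1 := hL v hv
    have h2 : r v * m ≤ 2 * m := Nat.mul_le_mul_right m (hr v hv)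
    omega
  obtain ⟨α, hα, cα⟩ := exists_subset_card_eq hLv
  have hvH : ({v} : Finset V) ⊆ H := singleton_subset_iff.2 hv
  have hpos : ∀ u, 0 < r u + 2 * deg G {v} u → 0 < r u ∨ ∃ a ∈ ({v} : Finset V), G.Adj u a :=
    fun u hu => by
      by_cases h0 : 0 < r u
      · exact Or.inl h0
      · exact Or.inr (deg_pos.1 (by omega))
  have hA' : ∃ O', Apex G (H \ {v}) (fun u => r u + 2 * deg G {v} u) O' := by
    rcases hvB with h | h
    · exact ⟨O ∪ {v}, hA.absorb hvH
        (attached_of_pos (fun u hu => by rw [mem_singleton.1 hu]; exact h)) subset_rfl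
        (fun u _ hu => hpos u hu)⟩
    · refine ⟨{v}, conn_singleton v, disjoint_sdiff, fun u hu hu' => ?_⟩
      rcases hpos u hu' with h1 | h1
      · have := h u (mem_sdiff.1 hu).1
        omega
      · exact h1
  obtain ⟨O', hA'⟩ := hA'
  have hch := th1 hG hA' w (fun u hu => by
    have huH := (mem_sdiff.1 hu).1
    have h1 := hr u huH
    rw [deg_singleton]
    by_cases hadj : G.Adj u v
    · rw [if_pos hadj]
      by_cases h0 : 0 < r u
      · exact Or.inr ⟨hw u huH hadj.symm h0, by omega⟩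
      · exact Or.inl (by omega)
    · rw [if_neg hadj]
      exact Or.inl (by omega)) m
  have hL' : Lists (H \ {v}) (fun u => r u + 2 * deg G {v} u) m
      (rem G {v} L (fun _ => α)) := fun u hu => by
    have h1 := rem_card (G := G) (S := {v}) (φ := fun _ => α) (m := 2 * m) L
      (fun _ _ => cα.le) u
    have h2 := hL u (mem_sdiff.1 hu).1
    have h3 : (r u + 2 * deg G {v} u) * m = r u * m + deg G {v} u * (2 * m) := by ring
    show 5 * m ≤ (rem G {v} L (fun _ => α) u).card + (r u + 2 * deg G {v} u) * m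
    omega
  obtain ⟨ψ, b1, b2⟩ := hch _ hL'
  have v1 : Valid G {v} L (fun _ => α) := valid_singleton hα
  obtain ⟨χ, d1, d2, d3⟩ := glue_rem disjoint_sdiff v1 b1
  rw [union_sdiff_of_subset hvH] at d1
  have e : (χ v).card = 2 * m := by rw [d2 v (mem_singleton_self v), cα]
  refine ⟨χ, d1, fun u hu => ?_, v, hv, by omega⟩
  by_cases h : u = v
  · rw [h]; omega
  · have hu' : u ∈ H \ {v} := mem_sdiff.2 ⟨hu, by simpa using h⟩
    rw [d3 u hu']; exact b2 u hu'

end Pool.Agent.PL5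
end
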